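import Pool.Agent.H793.MS.Defs

set_option autoImplicit false

open scoped ContDiff Topology ENNReal Manifold
open MeasureTheory Set Filter

namespace Pool.Agent.H793.MS

variable {n m : ℕ}

namespace Chr

set_option maxSynthPendingDepth 5

theorem g_inj (G : Metric n) (x : E n) : Function.Injective (G.g x) := by
  rw [injective_iff_map_eq_zero]
  intro v hv
  by_contra hne
  have h := G.pos x v hne
  rw [hv] at h
  simp at h

/-- the metric as an equivalence with the dual -/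
noncomputable def ge (G : Metric n) (x : E n) : E n ≃L[ℝ] (E n →L[ℝ] ℝ) :=
  (LinearEquiv.ofBijective ((G.g x : E n →L[ℝ] (E n →L[ℝ] ℝ)) : E n →ₗ[ℝ] (E n →L[ℝ] ℝ))
    (by
      have hfr : Module.finrank ℝ (E n) = Module.finrank ℝ (E n →L[ℝ] ℝ) := by
        rw [← (LinearMap.toContinuousLinearMap (𝕜 := ℝ) (E := E n) (F' := ℝ)).finrank_eq]
        exact (Subspace.dual_finrank_eq (K := ℝ) (V := E n)).symm
      refine ⟨g_inj G x, ?_⟩
      exact (LinearMap.injective_iff_surjective_of_finrank_eq_finrank hfr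
        (f := ((G.g x : E n →L[ℝ] (E n →L[ℝ] ℝ)) : E n →ₗ[ℝ] (E n →L[ℝ] ℝ)))).1
        (g_inj G x))).toContinuousLinearEquiv

theorem ge_apply (G : Metric n) (x v : E n) : ge G x v = G.g x v := rfl

theorem ge_coe (G : Metric n) (x : E n) :
    ((ge G x : E n ≃L[ℝ] (E n →L[ℝ] ℝ)) : E n →L[ℝ] (E n →L[ℝ] ℝ)) = G.g x := by
  ext v w
  rfl

/-- the trilinear Koszul map -/
noncomputable def K (G : Metric n) (x : E n) : E n →L[ℝ] E n →L[ℝ] (E n →L[ℝ] ℝ) :=
  (1 / 2 : ℝ) • (fderiv ℝ G.g x + (fderiv ℝ G.g x).flip -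
    (((ContinuousLinearMap.flipₗᵢ ℝ (E n) (E n) ℝ).toContinuousLinearEquiv :
      (E n →L[ℝ] E n →L[ℝ] ℝ) →L[ℝ] (E n →L[ℝ] E n →L[ℝ] ℝ))).comp (fderiv ℝ G.g x).flip)

theorem K_apply (G : Metric n) (x v w z : E n) : K G x v w z =
    (fderiv ℝ G.g x v w z + fderiv ℝ G.g x w v z - fderiv ℝ G.g x z v w) / 2 := by
  unfold K
  simp only [smul_apply, sub_apply,
    add_apply, ContinuousLinearMap.flip_apply, ContinuousLinearMap.comp_apply,
    smul_eq_mul]
  have h : ((((ContinuousLinearMap.flipₗᵢ ℝ (E n) (E n) ℝ).toContinuousLinearEquiv :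
      (E n →L[ℝ] E n →L[ℝ] ℝ) →L[ℝ] (E n →L[ℝ] E n →L[ℝ] ℝ)))
      ((fderiv ℝ G.g x).flip v)) w z = fderiv ℝ G.g x z v w := rfl
  rw [h]
  ring

theorem K_cont (G : Metric n) : Continuous (K G) := by
  have hD : Continuous (fderiv ℝ G.g) := G.smooth.continuous_fderiv (by simp)
  have hF : Continuous (fun x => (fderiv ℝ G.g x).flip) :=
    (ContinuousLinearMap.flipₗᵢ ℝ (E n) (E n) (E n →L[ℝ] ℝ)).continuous.comp hD
  unfold K
  exact ((hD.add hF).sub (continuous_const.clm_comp hF)).const_smul (1 / 2 : ℝ)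

theorem inv_cont (G : Metric n) : Continuous (fun x => ContinuousLinearMap.inverse (G.g x)) := by
  rw [continuous_iff_continuousAt]
  intro x
  have h1 : ContinuousAt (ContinuousLinearMap.inverse :
      (E n →L[ℝ] (E n →L[ℝ] ℝ)) → ((E n →L[ℝ] ℝ) →L[ℝ] E n)) (G.g x) := by
    rw [← ge_coe G x]
    exact (contDiffAt_map_inverse (𝕜 := ℝ) (n := 0) (ge G x)).continuousAt
  exact ContinuousAt.comp (f := G.g) h1 G.smooth.continuous.continuousAt

theorem inv_apply (G : Metric n) (x : E n) (φ : E n →L[ℝ] ℝ) :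
    G.g x (ContinuousLinearMap.inverse (G.g x) φ) = φ := by
  have h1 : ContinuousLinearMap.inverse (G.g x) = ((ge G x).symm : (E n →L[ℝ] ℝ) →L[ℝ] E n) := by
    rw [← ge_coe G x]
    exact ContinuousLinearMap.inverse_equiv _
  rw [h1]
  exact (ge G x).apply_symm_apply φ

theorem D_symm (G : Metric n) (x z v w : E n) : fderiv ℝ G.g x z v w = fderiv ℝ G.g x z w v := by
  have hd : HasFDerivAt G.g (fderiv ℝ G.g x) x :=
    (G.smooth.differentiable (by simp) x).hasFDerivAt
  have h1 : ∀ a b : E n, HasFDerivAt (fun y => G.g y a b)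
      (((ContinuousLinearMap.apply ℝ ℝ b).comp
        (ContinuousLinearMap.apply ℝ (E n →L[ℝ] ℝ) a)).comp (fderiv ℝ G.g x)) x := by
    intro a b
    exact HasFDerivAt.comp (g := ((ContinuousLinearMap.apply ℝ ℝ b).comp
        (ContinuousLinearMap.apply ℝ (E n →L[ℝ] ℝ) a))) x
      (ContinuousLinearMap.hasFDerivAt _) hd
  have h2 : (fun y => G.g y v w) = fun y => G.g y w v := by
    funext y
    exact G.symm y v w
  have h3 := h1 v w
  rw [h2] at h3
  have h4 := h3.unique (h1 w v)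
  have h5 := congrArg (fun A : E n →L[ℝ] ℝ => A z) h4
  simpa using h5

/-- the Christoffel symbols -/
noncomputable def Gam (G : Metric n) (x : E n) : E n →L[ℝ] E n →L[ℝ] E n :=
  ((ContinuousLinearMap.compL ℝ (E n) (E n →L[ℝ] ℝ) (E n))
    (ContinuousLinearMap.inverse (G.g x))).comp (K G x)

theorem Gam_apply (G : Metric n) (x v w : E n) :
    Gam G x v w = ContinuousLinearMap.inverse (G.g x) (K G x v w) := rfl

theorem Gam_kos (G : Metric n) (x v w z : E n) : G.g x (Gam G x v w) z =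
    (fderiv ℝ G.g x v w z + fderiv ℝ G.g x w v z - fderiv ℝ G.g x z v w) / 2 := by
  rw [Gam_apply, inv_apply, K_apply]

end Chr

/-- The Christoffel symbols form a continuous family of symmetric bilinear maps, and they satisfy
the Koszul formula. -/
theorem exists_christoffel (G : Metric n) :
    ∃ Γ : E n → (E n →L[ℝ] E n →L[ℝ] E n), Continuous Γ ∧
      (∀ x v w, G.christoffel x v w = Γ x v w) ∧ (∀ x v w, Γ x v w = Γ x w v) ∧
      ∀ x v w z, G.g x (Γ x v w) z =
        (fderiv ℝ G.g x v w z + fderiv ℝ G.g x w v z - fderiv ℝ G.g x z v w) / 2 := by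
  refine ⟨Chr.Gam G, ?_, ?_, ?_, Chr.Gam_kos G⟩
  · unfold Chr.Gam
    exact ((ContinuousLinearMap.compL ℝ (E n) (E n →L[ℝ] ℝ) (E n)).continuous.comp
      (Chr.inv_cont G)).clm_comp (Chr.K_cont G)
  · intro x v w
    have h1 : ∀ z, G.g x (G.christoffel x v w) z =
        (fderiv ℝ G.g x v w z + fderiv ℝ G.g x w v z - fderiv ℝ G.g x z v w) / 2 := by
      unfold Metric.christoffel
      exact Classical.epsilon_spec (p := fun u => ∀ z, G.g x u z =
        (fderiv ℝ G.g x v w z + fderiv ℝ G.g x w v z - fderiv ℝ G.g x z v w) / 2)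
        ⟨Chr.Gam G x v w, Chr.Gam_kos G x v w⟩
    apply Chr.g_inj G x
    ext z
    rw [h1, Chr.Gam_kos]
  · intro x v w
    apply Chr.g_inj G x
    ext z
    rw [Chr.Gam_kos, Chr.Gam_kos, Chr.D_symm G x z v w, add_comm (fderiv ℝ G.g x v w z)]

end Pool.Agent.H793.MS
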