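import Pool.Agent.H793.MS.Fr
import Pool.Agent.H793.MS.Chr

set_option autoImplicit false

open scoped ContDiff Topology ENNReal Manifold
open MeasureTheory Set Filter

namespace Pool.Agent.H793.MS

variable {n m : ℕ}

/-- The trace of the Hessian on the tangent space is the trace in an orthonormal family. -/
theorem trH_frame (G : Metric n) (ψ : E m → E n) (u : E m)
    (h : Function.Injective (fderiv ℝ ψ u)) :
    ∃ w : Fin m → E n, G.Ortho (ψ u) w ∧
      ∀ F : E n → ℝ, trH G ψ F u = ∑ i, G.hess F (ψ u) (w i) (w i) := by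
  obtain ⟨v, hv, hB⟩ := exists_frame G ψ u h
  obtain ⟨Γ, -, hΓ, -, -⟩ := exists_christoffel G
  refine ⟨fun i => fderiv ℝ ψ u (v i), hv, fun F => ?_⟩
  have h1 : ∀ v w : E n, G.hess F (ψ u) v w =
      fderiv ℝ (fderiv ℝ F) (ψ u) v w - fderiv ℝ F (ψ u) (Γ (ψ u) v w) := by
    intro v w
    unfold Metric.hess
    rw [hΓ]
  have h2 := hB ℝ (LinearMap.mk₂ ℝ
    (fun v w : E m => G.hess F (ψ u) (fderiv ℝ ψ u v) (fderiv ℝ ψ u w))
    (by
      intro a b c
      simp only [h1, map_add, add_apply]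
      ring)
    (by
      intro r a c
      simp only [h1, map_smul, smul_apply, smul_eq_mul]
      ring)
    (by
      intro a b c
      simp only [h1, map_add]
      ring)
    (by
      intro r a c
      simp only [h1, map_smul, smul_eq_mul]
      ring))
  simp only [LinearMap.mk₂_apply, smul_eq_mul] at h2
  unfold trH
  exact h2

namespace Fr2

/-- the bilinear form of the inverse matrix -/
noncomputable def q (P : Matrix (Fin m) (Fin m) ℝ) (x y : Fin m → ℝ) : ℝ := x ⬝ᵥ (P⁻¹.mulVec y)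

theorem q_comm {P : Matrix (Fin m) (Fin m) ℝ} (hP : P.transpose = P) (x y : Fin m → ℝ) :
    q P x y = q P y x := by
  unfold q
  have h : (P⁻¹).transpose = P⁻¹ := by rw [Matrix.transpose_nonsing_inv, hP]
  rw [Matrix.dotProduct_mulVec, ← Matrix.mulVec_transpose, h, dotProduct_comm]

theorem q_nonneg {P : Matrix (Fin m) (Fin m) ℝ} (hP : P.PosDef) (x : Fin m → ℝ) :
    0 ≤ q P x x := by
  have h := hP.posSemidef.dotProduct_mulVec_nonneg (P⁻¹.mulVec x)
  have h2 : P.mulVec (P⁻¹.mulVec x) = x := by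
    rw [Matrix.mulVec_mulVec, Matrix.mul_nonsing_inv _ ((Matrix.isUnit_iff_isUnit_det _).1 hP.isUnit),
      Matrix.one_mulVec]
  rw [h2, star_trivial, dotProduct_comm] at h
  exact h

theorem q_add (P : Matrix (Fin m) (Fin m) ℝ) (x y z : Fin m → ℝ) :
    q P x (y + z) = q P x y + q P x z := by
  unfold q
  rw [Matrix.mulVec_add, dotProduct_add]

theorem q_smul (P : Matrix (Fin m) (Fin m) ℝ) (c : ℝ) (x y : Fin m → ℝ) :
    q P x (c • y) = c * q P x y := by
  unfold q
  rw [Matrix.mulVec_smul, dotProduct_smul, smul_eq_mul]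

theorem q_expand {P : Matrix (Fin m) (Fin m) ℝ} (hP : P.transpose = P) (x y : Fin m → ℝ) (c : ℝ) :
    q P (x + c • y) (x + c • y) = q P x x + 2 * c * q P x y + c ^ 2 * q P y y := by
  rw [q_add, q_smul, q_comm hP (x + c • y) x, q_comm hP (x + c • y) y, q_add, q_smul, q_add,
    q_smul, q_comm hP y x]
  ring

theorem gram_symm (G : Metric n) (ψ : E m → E n) (u : E m) :
    (gram G ψ u).transpose = gram G ψ u := by
  ext i j
  simp only [Matrix.transpose_apply, gram, Matrix.of_apply]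
  exact G.symm _ _ _

end Fr2

theorem ginner_comm (G : Metric n) (ψ : E m → E n) (u : E m) (a b : E m → ℝ) :
    ginner G ψ a b u = ginner G ψ b a u :=
  Fr2.q_comm (Fr2.gram_symm G ψ u) _ _

theorem ginner_nonneg (G : Metric n) (ψ : E m → E n) (u : E m)
    (h : Function.Injective (fderiv ℝ ψ u)) (a : E m → ℝ) : 0 ≤ ginner G ψ a a u :=
  Fr2.q_nonneg (gram_posDef G ψ u h) _

/-- The pointwise inequality behind Barta's theorem. -/
theorem ginner_quot (G : Metric n) (ψ : E m → E n) (u : E m)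
    (h : Function.Injective (fderiv ℝ ψ u)) (w f : E m → ℝ) (hw : DifferentiableAt ℝ w u)
    (hf : DifferentiableAt ℝ f u) (hpos : w u ≠ 0) :
    ginner G ψ w (fun v => f v ^ 2 / w v) u ≤ ginner G ψ f f u := by
  have hsym := Fr2.gram_symm G ψ u
  have hpd : pd (fun v => f v ^ 2 / w v) u =
      (2 * (f u / w u)) • pd f u + (-(f u / w u) ^ 2) • pd w u := by
    funext i
    have h1 : HasFDerivAt (fun v => f v ^ 2 / w v)
        ((f u ^ 2) • ((-(w u ^ 2)⁻¹) • fderiv ℝ w u) +
          (w u)⁻¹ • ((2 * f u) • fderiv ℝ f u)) u := by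
      have h2 : HasFDerivAt (fun v => f v ^ 2) ((2 * f u) • fderiv ℝ f u) u := by
        have h3 := (hf.hasFDerivAt).pow 2
        simpa using h3
      have h4 : HasFDerivAt (fun v => (w v)⁻¹) ((-(w u ^ 2)⁻¹) • fderiv ℝ w u) u :=
        (hasDerivAt_inv hpos).comp_hasFDerivAt u hw.hasFDerivAt
      have h5 := h2.fun_mul h4
      simp only [div_eq_mul_inv]
      exact h5
    unfold pd
    rw [h1.fderiv]
    simp only [smul_apply, add_apply, smul_eq_mul, Pi.add_apply, Pi.smul_apply]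
    field_simp
    ring
  change Fr2.q (gram G ψ u) (pd w u) (pd (fun v => f v ^ 2 / w v) u) ≤
    Fr2.q (gram G ψ u) (pd f u) (pd f u)
  rw [hpd, Fr2.q_add, Fr2.q_smul, Fr2.q_smul]
  have h5 := Fr2.q_nonneg (gram_posDef G ψ u h) (pd f u + (-(f u / w u)) • pd w u)
  rw [Fr2.q_expand hsym] at h5
  rw [Fr2.q_comm hsym (pd w u) (pd f u)]
  nlinarith

theorem ginner_mul (G : Metric n) (ψ : E m → E n) (u : E m)
    (h : Function.Injective (fderiv ℝ ψ u)) (a f : E m → ℝ) (ha : DifferentiableAt ℝ a u)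
    (hf : DifferentiableAt ℝ f u) :
    ginner G ψ (fun v => a v * f v) (fun v => a v * f v) u ≤
      2 * a u ^ 2 * ginner G ψ f f u + 2 * f u ^ 2 * ginner G ψ a a u := by
  have hsym := Fr2.gram_symm G ψ u
  have hpd : pd (fun v => a v * f v) u = a u • pd f u + f u • pd a u := by
    funext i
    unfold pd
    rw [(ha.hasFDerivAt.fun_mul hf.hasFDerivAt).fderiv]
    simp [smul_eq_mul]
  change Fr2.q (gram G ψ u) (pd (fun v => a v * f v) u) (pd (fun v => a v * f v) u) ≤
    2 * a u ^ 2 * Fr2.q (gram G ψ u) (pd f u) (pd f u) +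
      2 * f u ^ 2 * Fr2.q (gram G ψ u) (pd a u) (pd a u)
  rw [hpd, Fr2.q_expand hsym]
  have h5 := Fr2.q_nonneg (gram_posDef G ψ u h) (a u • pd f u + (-(f u)) • pd a u)
  rw [Fr2.q_expand hsym] at h5
  have h6 : Fr2.q (gram G ψ u) (a u • pd f u) (a u • pd f u) =
      a u ^ 2 * Fr2.q (gram G ψ u) (pd f u) (pd f u) := by
    rw [Fr2.q_smul, Fr2.q_comm hsym, Fr2.q_smul]
    ring
  rw [h6] at h5 ⊢
  nlinarith

end Pool.Agent.H793.MS
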