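import Pool.Agent.H793.MS.Green2
import Pool.Agent.H793.MS.Fr2

set_option autoImplicit false

open scoped ContDiff Topology ENNReal Manifold
open MeasureTheory Set Filter

namespace Pool.Agent.H793.MS

variable {n m : ℕ}

section
variable {M : Type*} [TopologicalSpace M] [ChartedSpace (E m) M] [IsManifold (𝓡 m) ∞ M]
  [MeasurableSpace M] [BorelSpace M]

/-- Barta's inequality. -/
theorem barta [T2Space M] [SecondCountableTopology M] (G : Metric n) (φ : M → E n)
    (hφ : IsMinimalImmersion (m := m) G φ)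
    (μ : Measure M) (hμ : IsVolume (m := m) G φ μ) (W : E n → ℝ) (hW : ContDiff ℝ 2 W)
    (hpos : ∀ p, 0 < W (φ p)) (f : M → ℝ) (hf : ContMDiff (𝓡 m) 𝓘(ℝ, ℝ) ∞ f)
    (hc : HasCompactSupport f) :
    ∫ p, (-trHess (m := m) G φ W p) / W (φ p) * f p ^ 2 ∂μ ≤
      ∫ p, gradSq (m := m) G φ f p ∂μ := by
  have : IsFiniteMeasureOnCompacts μ := isFiniteMeasureOnCompacts G φ hφ μ hμ
  have h2i : (2 : WithTop ℕ∞) ≤ (∞ : WithTop ℕ∞) :=
    WithTop.coe_le_coe.2 (le_top : (2 : ℕ∞) ≤ ⊤)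
  have hWφ : ContMDiff (𝓡 m) 𝓘(ℝ, ℝ) 2 (fun p => W (φ p)) :=
    hW.contMDiff.comp (hφ.smooth.of_le h2i)
  have hf2 : ContMDiff (𝓡 m) 𝓘(ℝ, ℝ) 2 f := hf.of_le h2i
  have hf1 : ContMDiff (𝓡 m) 𝓘(ℝ, ℝ) 1 f := hf.of_le (by exact_mod_cast le_top)
  have hWφ1 : ContMDiff (𝓡 m) 𝓘(ℝ, ℝ) 1 (fun p => W (φ p)) :=
    hWφ.of_le (by norm_num)
  have hh : ContMDiff (𝓡 m) 𝓘(ℝ, ℝ) 1 (fun p => f p ^ 2 / W (φ p)) := by
    intro p
    have h1 : ContDiffAt ℝ 1 (fun x : ℝ × ℝ => x.1 ^ 2 / x.2) (f p, W (φ p)) :=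
      (contDiff_fst.pow 2).contDiffAt.div contDiff_snd.contDiffAt (hpos p).ne'
    have h2 : ContMDiffAt (𝓡 m) 𝓘(ℝ, ℝ × ℝ) 1 (fun q => (f q, W (φ q))) p :=
      (hf1 p).prodMk_space (hWφ1 p)
    exact h1.contMDiffAt.comp p h2
  have hhc : HasCompactSupport (fun p => f p ^ 2 / W (φ p)) := by
    refine hc.mono (fun p hp => ?_)
    rw [Function.mem_support] at hp ⊢
    intro h0
    apply hp
    rw [h0]
    simp
  have hg := green (m := m) G φ hφ μ hμ W hW _ hh hhc
  have e1 : ∫ p, (-trHess (m := m) G φ W p) / W (φ p) * f p ^ 2 ∂μ =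
      ∫ p, gradInner (m := m) G φ (fun p => W (φ p)) (fun p => f p ^ 2 / W (φ p)) p ∂μ := by
    rw [hg, ← integral_neg]
    congr 1
    funext p
    ring
  rw [e1]
  have hi1 : Integrable (gradInner (m := m) G φ (fun p => W (φ p))
      (fun p => f p ^ 2 / W (φ p))) μ :=
    (continuous_gradInner G φ hφ _ _ hWφ1 hh).integrable_of_hasCompactSupport
      (HasCompactSupport.intro' hhc.isCompact (isClosed_tsupport _)
        (fun p hp => gradInner_eq_zero G φ _ _ p hp))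
  have hi2 : Integrable (gradSq (m := m) G φ f) μ :=
    (continuous_gradInner G φ hφ _ _ hf1 hf1).integrable_of_hasCompactSupport
      (HasCompactSupport.intro' hc.isCompact (isClosed_tsupport _)
        (fun p hp => gradInner_eq_zero G φ _ _ p hp))
  refine integral_mono hi1 hi2 (fun p => ?_)
  have hu := mem_chart_target (E m) p
  have hnb := (isOpen_target (m := m) p).mem_nhds hu
  have hd1 : DifferentiableAt ℝ (loc (m := m) (fun p => W (φ p)) p) (chartAt (E m) p p) :=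
    ((contDiffOn_loc (m := m) 2 _ hWφ p).contDiffAt hnb).differentiableAt (by norm_num)
  have hd2 : DifferentiableAt ℝ (loc (m := m) f p) (chartAt (E m) p p) :=
    ((contDiffOn_loc (m := m) 2 _ hf2 p).contDiffAt hnb).differentiableAt (by norm_num)
  have hne : loc (m := m) (fun p => W (φ p)) p (chartAt (E m) p p) ≠ 0 := by
    rw [loc_chart]
    exact (hpos p).ne'
  exact ginner_quot G (loc (m := m) φ p) (chartAt (E m) p p) (hφ.immersion p _ hu)
    (loc (m := m) (fun p => W (φ p)) p) (loc (m := m) f p) hd1 hd2 hne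

/-- The trace of the Hessian in an orthonormal family. -/
theorem trHess_frame (G : Metric n) (φ : M → E n) (hφ : IsMinimalImmersion (m := m) G φ)
    (p : M) : ∃ w : Fin m → E n, G.Ortho (φ p) w ∧
      ∀ F : E n → ℝ, trHess (m := m) G φ F p = ∑ i, G.hess F (φ p) (w i) (w i) := by
  obtain ⟨w, hw, h⟩ := trH_frame G (loc (m := m) φ p) (chartAt (E m) p p)
    (hφ.immersion p _ (mem_chart_target (E m) p))
  rw [loc_chart] at hw
  refine ⟨w, hw, fun F => ?_⟩
  have h1 := h F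
  rw [loc_chart] at h1
  exact h1

end

end Pool.Agent.H793.MS
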