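import Pool.Agent.H793.MS.Defs

set_option autoImplicit false

open scoped ContDiff Topology ENNReal Manifold
open MeasureTheory Set Filter

namespace Pool.Agent.H793.MS

variable {n m : ℕ}

namespace InvAux

/-- The matrix of the derivative of a change of coordinates. -/
noncomputable def jacM (τ : E m → E m) (u : E m) : Matrix (Fin m) (Fin m) ℝ :=
  Matrix.of fun j i => (fderiv ℝ τ u (bas i)) j

/-- The expansion of a vector in the standard basis. -/
theorem sum_bas (x : E m) : x = ∑ j, x j • bas j := by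
  ext i
  have h1 : (∑ j, x j • bas (m := m) j) i = ∑ j, (x j • bas (m := m) j) i := by
    rw [WithLp.ofLp_sum, Finset.sum_apply]
  rw [h1, Finset.sum_eq_single i]
  · simp [bas]
  · intro j _ hj
    simp [bas, hj.symm]
  · intro h
    exact absurd (Finset.mem_univ i) h

/-- The derivative of a composition on the standard basis. -/
theorem fderiv_comp_bas {W : Type*} [NormedAddCommGroup W] [NormedSpace ℝ W] (f : E m → W)
    (τ : E m → E m) (u : E m) (hτ : DifferentiableAt ℝ τ u) (hf : DifferentiableAt ℝ f (τ u))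
    (i : Fin m) :
    fderiv ℝ (fun v => f (τ v)) u (bas i) =
      ∑ j, jacM τ u j i • fderiv ℝ f (τ u) (bas j) := by
  have h1 : fderiv ℝ (fun v => f (τ v)) u = (fderiv ℝ f (τ u)).comp (fderiv ℝ τ u) :=
    fderiv_comp u hf hτ
  rw [h1, ContinuousLinearMap.comp_apply]
  conv_lhs => rw [sum_bas (fderiv ℝ τ u (bas i)), map_sum]
  refine Finset.sum_congr rfl fun j _ => ?_
  rw [map_smul]
  rfl

/-- The matrix of a bilinear form in new coordinates. -/
theorem bil_matrix {W : Type*} [AddCommGroup W] [Module ℝ W] (B : W →ₗ[ℝ] W →ₗ[ℝ] ℝ)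
    (A : Matrix (Fin m) (Fin m) ℝ) (e e' : Fin m → W) (h : ∀ i, e' i = ∑ j, A j i • e j) :
    (Matrix.of fun i j => B (e' i) (e' j)) =
      A.transpose * (Matrix.of fun i j => B (e i) (e j)) * A := by
  ext i j
  rw [Matrix.of_apply, h i, h j, Matrix.mul_apply]
  rw [map_sum]
  refine Finset.sum_congr rfl fun l _ => ?_
  rw [map_smul, smul_eq_mul, mul_comm, Matrix.mul_apply, map_sum, LinearMap.sum_apply]
  congr 1
  refine Finset.sum_congr rfl fun k _ => ?_
  rw [map_smul, LinearMap.smul_apply, smul_eq_mul]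
  rfl

/-- The matrix of the change of coordinates is invertible. -/
theorem jacM_isUnit (τ : E m → E m) (u : E m) (hinj : Function.Injective (fderiv ℝ τ u)) :
    IsUnit (jacM τ u) := by
  rw [← Matrix.mulVec_injective_iff_isUnit]
  intro x y hxy
  have key : ∀ z : Fin m → ℝ, ∀ j, (jacM τ u).mulVec z j =
      (fderiv ℝ τ u (WithLp.toLp 2 z)) j := by
    intro z j
    have h1 : (WithLp.toLp 2 z : E m) = ∑ i : Fin m, z i • bas (m := m) i :=
      sum_bas (WithLp.toLp 2 z)
    rw [h1, map_sum, WithLp.ofLp_sum, Finset.sum_apply]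
    change ∑ i, jacM τ u j i * z i = _
    refine Finset.sum_congr rfl fun i _ => ?_
    rw [map_smul]
    change jacM τ u j i * z i = z i * (fderiv ℝ τ u (bas i)) j
    rw [mul_comm]
    rfl
  have h2 : fderiv ℝ τ u (WithLp.toLp 2 x) = fderiv ℝ τ u (WithLp.toLp 2 y) := by
    ext j
    rw [← key, ← key, hxy]
  have h3 := hinj h2
  exact congrArg (fun z : E m => (z : Fin m → ℝ)) h3

/-- The Gram matrix in new coordinates. -/
theorem gram_comp (G : Metric n) (ψ : E m → E n) (τ : E m → E m) (u : E m)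
    (hτ : DifferentiableAt ℝ τ u) (hψ : DifferentiableAt ℝ ψ (τ u)) :
    gram G (fun v => ψ (τ v)) u = (jacM τ u).transpose * gram G ψ (τ u) * jacM τ u := by
  let B : E n →ₗ[ℝ] E n →ₗ[ℝ] ℝ := LinearMap.mk₂ ℝ (fun v w => G.g (ψ (τ u)) v w)
    (by intro a b c; simp only [map_add, add_apply])
    (by intro c a b; simp only [map_smul, smul_apply])
    (by intro a b c; simp only [map_add])
    (by intro c a b; simp only [map_smul])
  exact bil_matrix B (jacM τ u) (fun i => fderiv ℝ ψ (τ u) (bas i))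
    (fun i => fderiv ℝ (fun v => ψ (τ v)) u (bas i)) (fderiv_comp_bas ψ τ u hτ hψ)

/-- The partial derivatives in new coordinates. -/
theorem pd_comp (τ : E m → E m) (u : E m) (hτ : DifferentiableAt ℝ τ u) (a : E m → ℝ)
    (ha : DifferentiableAt ℝ a (τ u)) :
    pd (fun v => a (τ v)) u = (jacM τ u).transpose.mulVec (pd a (τ u)) := by
  funext i
  change fderiv ℝ (fun v => a (τ v)) u (bas i) = _
  rw [fderiv_comp_bas a τ u hτ ha]
  rfl

/-- The inverse of the Gram matrix in new coordinates. -/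
theorem gram_inv_comp (G : Metric n) (ψ : E m → E n) (τ : E m → E m) (u : E m)
    (hτ : DifferentiableAt ℝ τ u) (hinj : Function.Injective (fderiv ℝ τ u))
    (hψ : DifferentiableAt ℝ ψ (τ u)) :
    jacM τ u * (gram G (fun v => ψ (τ v)) u)⁻¹ * (jacM τ u).transpose =
      (gram G ψ (τ u))⁻¹ := by
  have hA : IsUnit (jacM τ u).det := (Matrix.isUnit_iff_isUnit_det _).1 (jacM_isUnit τ u hinj)
  have hAt : IsUnit (jacM τ u).transpose.det := by
    rw [Matrix.det_transpose]
    exact hA
  rw [gram_comp G ψ τ u hτ hψ, Matrix.mul_inv_rev, Matrix.mul_inv_rev]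
  calc jacM τ u * ((jacM τ u)⁻¹ * ((gram G ψ (τ u))⁻¹ * (jacM τ u).transpose⁻¹)) *
        (jacM τ u).transpose
      = (jacM τ u * (jacM τ u)⁻¹) * (gram G ψ (τ u))⁻¹ *
        ((jacM τ u).transpose⁻¹ * (jacM τ u).transpose) := by
        simp only [Matrix.mul_assoc]
    _ = (gram G ψ (τ u))⁻¹ := by
        rw [Matrix.mul_nonsing_inv _ hA, Matrix.nonsing_inv_mul _ hAt, Matrix.one_mul,
          Matrix.mul_one]

end InvAux

open InvAux

/-- Change of coordinates for the inner product of gradients. -/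
theorem ginner_comp (G : Metric n) (ψ : E m → E n) (τ : E m → E m) (u : E m)
    (hτ : DifferentiableAt ℝ τ u) (hinj : Function.Injective (fderiv ℝ τ u))
    (hψ : DifferentiableAt ℝ ψ (τ u)) (a b : E m → ℝ) (ha : DifferentiableAt ℝ a (τ u))
    (hb : DifferentiableAt ℝ b (τ u)) :
    ginner G (fun v => ψ (τ v)) (fun v => a (τ v)) (fun v => b (τ v)) u =
      ginner G ψ a b (τ u) := by
  unfold ginner
  rw [pd_comp τ u hτ a ha, pd_comp τ u hτ b hb, ← gram_inv_comp G ψ τ u hτ hinj hψ,
    Matrix.mulVec_transpose, ← Matrix.dotProduct_mulVec, Matrix.mulVec_mulVec,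
    Matrix.mulVec_mulVec, Matrix.mul_assoc]

/-- Change of coordinates for the trace of the Hessian. -/
theorem trH_comp (G : Metric n) (ψ : E m → E n) (τ : E m → E m) (u : E m)
    (hτ : DifferentiableAt ℝ τ u) (hinj : Function.Injective (fderiv ℝ τ u))
    (hψ : DifferentiableAt ℝ ψ (τ u)) (F : E n → ℝ)
    (hbil : ∃ Γ : E n →L[ℝ] E n →L[ℝ] E n, ∀ v w, G.christoffel (ψ (τ u)) v w = Γ v w) :
    trH G (fun v => ψ (τ v)) F u = trH G ψ F (τ u) := by
  obtain ⟨Γ, hΓ⟩ := hbil
  let B : E n →ₗ[ℝ] E n →ₗ[ℝ] ℝ := LinearMap.mk₂ ℝ (fun v w => G.hess F (ψ (τ u)) v w)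
    (by
      intro a b c
      simp only [Metric.hess, hΓ, map_add, add_apply]
      ring)
    (by
      intro c a b
      simp only [Metric.hess, hΓ, map_smul, smul_apply, smul_eq_mul]
      ring)
    (by
      intro a b c
      simp only [Metric.hess, hΓ, map_add]
      ring)
    (by
      intro c a b
      simp only [Metric.hess, hΓ, map_smul, smul_eq_mul]
      ring)
  have hH := bil_matrix B (jacM τ u) (fun i => fderiv ℝ ψ (τ u) (bas i))
    (fun i => fderiv ℝ (fun v => ψ (τ v)) u (bas i)) (fderiv_comp_bas ψ τ u hτ hψ)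
  have htr : ∀ M N : Matrix (Fin m) (Fin m) ℝ, ∑ i, ∑ j, M i j * N i j =
      (M * N.transpose).trace := by
    intro M N
    rfl
  have h1 : trH G (fun v => ψ (τ v)) F u = ((gram G (fun v => ψ (τ v)) u)⁻¹ *
      (Matrix.of fun i j => B (fderiv ℝ (fun v => ψ (τ v)) u (bas i))
        (fderiv ℝ (fun v => ψ (τ v)) u (bas j))).transpose).trace := by
    rw [← htr]
    rfl
  have h2 : trH G ψ F (τ u) = ((gram G ψ (τ u))⁻¹ *
      (Matrix.of fun i j => B (fderiv ℝ ψ (τ u) (bas i))
        (fderiv ℝ ψ (τ u) (bas j))).transpose).trace := by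
    rw [← htr]
    rfl
  rw [h1, h2, hH, ← gram_inv_comp G ψ τ u hτ hinj hψ, Matrix.transpose_mul,
    Matrix.transpose_mul, Matrix.transpose_transpose]
  rw [← Matrix.mul_assoc, ← Matrix.mul_assoc, Matrix.trace_mul_comm, ← Matrix.mul_assoc,
    ← Matrix.mul_assoc]

end Pool.Agent.H793.MS
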