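import Pool.Agent.H793.MS.Loc
import Pool.Agent.H793.MS.Inv
import Pool.Agent.H793.MS.Chr

set_option autoImplicit false

open scoped ContDiff Topology ENNReal Manifold
open MeasureTheory Set Filter

namespace Pool.Agent.H793.MS

variable {n m : ℕ}

/-- the inner product of gradients depends only on germs -/
theorem ginner_congr (G : Metric n) {ψ ψ' : E m → E n} {a a' b b' : E m → ℝ} {u : E m}
    (hψ : ψ =ᶠ[𝓝 u] ψ') (ha : a =ᶠ[𝓝 u] a') (hb : b =ᶠ[𝓝 u] b') :
    ginner G ψ a b u = ginner G ψ' a' b' u := by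
  unfold ginner pd gram
  rw [hψ.fderiv_eq, ha.fderiv_eq, hb.fderiv_eq, hψ.eq_of_nhds]

/-- the trace of the Hessian depends only on germs -/
theorem trH_congr (G : Metric n) {ψ ψ' : E m → E n} (F : E n → ℝ) {u : E m}
    (hψ : ψ =ᶠ[𝓝 u] ψ') : trH G ψ F u = trH G ψ' F u := by
  unfold trH gram
  rw [hψ.fderiv_eq, hψ.eq_of_nhds]

section
variable {M : Type*} [TopologicalSpace M] [ChartedSpace (E m) M] [IsManifold (𝓡 m) ∞ M]

/-- the neighbourhood on which the transition is defined -/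
theorem trans_nhds (x₀ p : M) (hp : p ∈ (chartAt (E m) x₀).source) :
    (chartAt (E m) p).target ∩ (chartAt (E m) p).symm ⁻¹' (chartAt (E m) x₀).source ∈
      𝓝 (chartAt (E m) p p) := by
  refine IsOpen.mem_nhds ?_ ⟨?_, ?_⟩
  · exact (chartAt (E m) p).continuousOn_symm.isOpen_inter_preimage
      (chartAt (E m) p).open_target (chartAt (E m) x₀).open_source
  · exact (chartAt (E m) p).map_source (mem_chart_source (E m) p)
  · show (chartAt (E m) p).symm (chartAt (E m) p p) ∈ (chartAt (E m) x₀).source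
    rw [(chartAt (E m) p).left_inv (mem_chart_source (E m) p)]
    exact hp

theorem trans_pt (x₀ p : M) :
    chartAt (E m) x₀ ((chartAt (E m) p).symm (chartAt (E m) p p)) = chartAt (E m) x₀ p := by
  rw [(chartAt (E m) p).left_inv (mem_chart_source (E m) p)]

theorem loc_germ {X : Type*} (f : M → X) (x₀ p : M) (hp : p ∈ (chartAt (E m) x₀).source) :
    loc (m := m) f p =ᶠ[𝓝 (chartAt (E m) p p)]
      fun v => loc (m := m) f x₀ (chartAt (E m) x₀ ((chartAt (E m) p).symm v)) := by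
  filter_upwards [trans_nhds x₀ p hp] with u hu
  show f _ = f _
  rw [(chartAt (E m) x₀).left_inv hu.2]

theorem trans_diff (x₀ p : M) (hp : p ∈ (chartAt (E m) x₀).source) :
    DifferentiableAt ℝ (fun u => chartAt (E m) x₀ ((chartAt (E m) p).symm u))
      (chartAt (E m) p p) :=
  ((contDiffOn_transition p x₀).contDiffAt (trans_nhds x₀ p hp)).differentiableAt (by simp)

theorem trans_inj (x₀ p : M) (hp : p ∈ (chartAt (E m) x₀).source) :
    Function.Injective (fderiv ℝ (fun u => chartAt (E m) x₀ ((chartAt (E m) p).symm u))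
      (chartAt (E m) p p)) :=
  injective_transition p x₀ _ (mem_of_mem_nhds (trans_nhds x₀ p hp)).1
    (mem_of_mem_nhds (trans_nhds x₀ p hp)).2

theorem loc_diff {X : Type*} [NormedAddCommGroup X] [NormedSpace ℝ X] (k : ℕ∞) (hk : k ≠ 0)
    (f : M → X) (hf : ContMDiff (𝓡 m) 𝓘(ℝ, X) k f) (x₀ p : M)
    (hp : p ∈ (chartAt (E m) x₀).source) :
    DifferentiableAt ℝ (loc (m := m) f x₀)
      (chartAt (E m) x₀ ((chartAt (E m) p).symm (chartAt (E m) p p))) := by
  rw [trans_pt]
  refine ((contDiffOn_loc k f hf x₀).contDiffAt ?_).differentiableAt (by simpa using hk)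
  exact (chartAt (E m) x₀).open_target.mem_nhds ((chartAt (E m) x₀).map_source hp)

/-- The inner product of gradients can be computed in every chart. -/
theorem gradInner_eq (G : Metric n) (φ : M → E n) (hφ : ContMDiff (𝓡 m) 𝓘(ℝ, E n) ∞ φ)
    (f h : M → ℝ) (hf : ContMDiff (𝓡 m) 𝓘(ℝ, ℝ) 1 f) (hh : ContMDiff (𝓡 m) 𝓘(ℝ, ℝ) 1 h)
    (x₀ p : M) (hp : p ∈ (chartAt (E m) x₀).source) :
    gradInner (m := m) G φ f h p =
      ginner G (loc (m := m) φ x₀) (loc (m := m) f x₀) (loc (m := m) h x₀)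
        (chartAt (E m) x₀ p) := by
  unfold gradInner
  rw [ginner_congr G (loc_germ φ x₀ p hp) (loc_germ f x₀ p hp) (loc_germ h x₀ p hp)]
  have h1 := ginner_comp G (loc (m := m) φ x₀)
    (fun u => chartAt (E m) x₀ ((chartAt (E m) p).symm u)) (chartAt (E m) p p)
    (trans_diff x₀ p hp) (trans_inj x₀ p hp) (loc_diff ⊤ (by simp) φ hφ x₀ p hp)
    (loc (m := m) f x₀) (loc (m := m) h x₀)
    (loc_diff 1 (by simp) f (by exact_mod_cast hf) x₀ p hp)
    (loc_diff 1 (by simp) h (by exact_mod_cast hh) x₀ p hp)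
  rw [h1, trans_pt]

/-- The trace of the Hessian can be computed in every chart. -/
theorem trHess_eq (G : Metric n) (φ : M → E n) (hφ : ContMDiff (𝓡 m) 𝓘(ℝ, E n) ∞ φ)
    (F : E n → ℝ) (x₀ p : M) (hp : p ∈ (chartAt (E m) x₀).source) :
    trHess (m := m) G φ F p = trH G (loc (m := m) φ x₀) F (chartAt (E m) x₀ p) := by
  unfold trHess
  rw [trH_congr G F (loc_germ φ x₀ p hp)]
  obtain ⟨Γ, -, hΓ, -, -⟩ := exists_christoffel G
  have h1 := trH_comp G (loc (m := m) φ x₀)
    (fun u => chartAt (E m) x₀ ((chartAt (E m) p).symm u)) (chartAt (E m) p p)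
    (trans_diff x₀ p hp) (trans_inj x₀ p hp) (loc_diff ⊤ (by simp) φ hφ x₀ p hp) F
    ⟨Γ _, fun v w => hΓ _ v w⟩
  rw [h1, trans_pt]

end

end Pool.Agent.H793.MS
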