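import Pool.Agent.H793.MS.Fr

set_option autoImplicit false

open scoped ContDiff Topology ENNReal Manifold
open MeasureTheory Set Filter

namespace Pool.Agent.H793.MS

variable {n m : ℕ}

theorem contDiffOn_gram (G : Metric n) (ψ : E m → E n) (O : Set (E m)) (hO : IsOpen O)
    (hψ : ContDiffOn ℝ ∞ ψ O) (i j : Fin m) :
    ContDiffOn ℝ ∞ (fun u => gram G ψ u i j) O := by
  have h1 : ContDiffOn ℝ ∞ (fun u => G.g (ψ u)) O := G.smooth.comp_contDiffOn hψ
  have h2 : ContDiffOn ℝ ∞ (fun u => fderiv ℝ ψ u) O := hψ.fderiv_of_isOpen hO (by simp)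
  exact (h1.clm_apply (h2.clm_apply contDiffOn_const)).clm_apply (h2.clm_apply contDiffOn_const)

/-- the determinant of a smooth family of matrices -/
theorem contDiffOn_det_aux {O : Set (E m)} {k : ℕ} (A : E m → Matrix (Fin k) (Fin k) ℝ)
    (h : ∀ i j, ContDiffOn ℝ ∞ (fun u => A u i j) O) : ContDiffOn ℝ ∞ (fun u => (A u).det) O := by
  simp only [Matrix.det_apply]
  refine ContDiffOn.sum fun σ _ => ?_
  refine ContDiffOn.const_smul _ ?_
  exact contDiffOn_prod fun i _ => h (σ i) i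

/-- the adjugate of a smooth family of matrices -/
theorem contDiffOn_adjugate_aux {O : Set (E m)} {k : ℕ} (A : E m → Matrix (Fin k) (Fin k) ℝ)
    (h : ∀ i j, ContDiffOn ℝ ∞ (fun u => A u i j) O) (i j : Fin k) :
    ContDiffOn ℝ ∞ (fun u => (A u).adjugate i j) O := by
  simp only [Matrix.adjugate_apply]
  refine contDiffOn_det_aux _ fun r c => ?_
  by_cases hr : r = j
  · subst hr
    simp only [Matrix.updateRow_self]
    exact contDiffOn_const
  · simp only [Matrix.updateRow_ne hr]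
    exact h r c

theorem contDiffOn_gram_inv (G : Metric n) (ψ : E m → E n) (O : Set (E m)) (hO : IsOpen O)
    (hψ : ContDiffOn ℝ ∞ ψ O) (himm : ∀ u ∈ O, Function.Injective (fderiv ℝ ψ u))
    (i j : Fin m) : ContDiffOn ℝ ∞ (fun u => (gram G ψ u)⁻¹ i j) O := by
  have hg := contDiffOn_gram G ψ O hO hψ
  have h1 := contDiffOn_det_aux (gram G ψ) hg
  have h2 := contDiffOn_adjugate_aux (gram G ψ) hg i j
  have h3 : ∀ u ∈ O, (gram G ψ u).det ≠ 0 := fun u hu => (gram_posDef G ψ u (himm u hu)).det_pos.ne'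
  refine ((h1.inv h3).mul h2).congr fun u _ => ?_
  rw [Matrix.inv_def, Matrix.smul_apply, Ring.inverse_eq_inv', smul_eq_mul]
  rfl

theorem contDiffOn_dens (G : Metric n) (ψ : E m → E n) (O : Set (E m)) (hO : IsOpen O)
    (hψ : ContDiffOn ℝ ∞ ψ O) (himm : ∀ u ∈ O, Function.Injective (fderiv ℝ ψ u)) :
    ContDiffOn ℝ ∞ (dens G ψ) O := by
  have h1 := contDiffOn_det_aux (gram G ψ) (contDiffOn_gram G ψ O hO hψ)
  exact h1.sqrt fun u hu => (gram_posDef G ψ u (himm u hu)).det_pos.ne'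

theorem dens_pos (G : Metric n) (ψ : E m → E n) (u : E m)
    (himm : Function.Injective (fderiv ℝ ψ u)) : 0 < dens G ψ u :=
  Real.sqrt_pos.mpr (gram_posDef G ψ u himm).det_pos

end Pool.Agent.H793.MS
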