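import Pool.Agent.H793.MS.Cinv
import Pool.Agent.H793.MS.Reg
import Pool.Agent.H793.MS.Chr

set_option autoImplicit false

open scoped ContDiff Topology ENNReal Manifold
open MeasureTheory Set Filter

namespace Pool.Agent.H793.MS

variable {n m : ℕ}

section
variable {M : Type*} [TopologicalSpace M] [ChartedSpace (E m) M] [IsManifold (𝓡 m) ∞ M]

omit [IsManifold (𝓡 m) ∞ M] in
/-- A function which is continuous in all charts is continuous. -/
theorem continuous_of_charts (q : M → ℝ) (g : M → E m → ℝ)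
    (hg : ∀ x₀, ContinuousOn (g x₀) (chartAt (E m) x₀).target)
    (heq : ∀ x₀ p, p ∈ (chartAt (E m) x₀).source → q p = g x₀ (chartAt (E m) x₀ p)) :
    Continuous q := by
  rw [continuous_iff_continuousAt]
  intro p₀
  have h1 : ContinuousOn (fun p => g p₀ (chartAt (E m) p₀ p)) (chartAt (E m) p₀).source :=
    (hg p₀).comp (chartAt (E m) p₀).continuousOn (chartAt (E m) p₀).mapsTo
  have hs : (chartAt (E m) p₀).source ∈ 𝓝 p₀ :=
    (chartAt (E m) p₀).open_source.mem_nhds (mem_chart_source (E m) p₀)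
  have h2 : ContinuousAt (fun p => g p₀ (chartAt (E m) p₀ p)) p₀ := h1.continuousAt hs
  refine h2.congr ?_
  filter_upwards [hs] with p hp
  exact (heq p₀ p hp).symm

theorem continuousOn_pd (f : M → ℝ) (hf : ContMDiff (𝓡 m) 𝓘(ℝ, ℝ) 1 f) (x₀ : M) (i : Fin m) :
    ContinuousOn (fun u => pd (loc (m := m) f x₀) u i) (chartAt (E m) x₀).target := by
  have h1 : ContDiffOn ℝ ((1 : ℕ∞) : WithTop ℕ∞) (loc (m := m) f x₀) (chartAt (E m) x₀).target :=
    contDiffOn_loc (m := m) (1 : ℕ∞) f hf x₀
  have h2 : ContinuousOn (fun u => fderiv ℝ (loc (m := m) f x₀) u) (chartAt (E m) x₀).target :=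
    h1.continuousOn_fderiv_of_isOpen (isOpen_target x₀) le_rfl
  exact h2.clm_apply continuousOn_const

theorem continuous_gradInner (G : Metric n) (φ : M → E n) (hφ : IsMinimalImmersion (m := m) G φ)
    (f h : M → ℝ) (hf : ContMDiff (𝓡 m) 𝓘(ℝ, ℝ) 1 f) (hh : ContMDiff (𝓡 m) 𝓘(ℝ, ℝ) 1 h) :
    Continuous (gradInner (m := m) G φ f h) := by
  refine continuous_of_charts _
    (fun x₀ => ginner G (loc (m := m) φ x₀) (loc (m := m) f x₀) (loc (m := m) h x₀)) ?_ ?_
  · intro x₀
    have hψ : ContDiffOn ℝ ∞ (loc (m := m) φ x₀) (chartAt (E m) x₀).target :=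
      contDiffOn_loc (m := m) (⊤ : ℕ∞) φ hφ.smooth x₀
    unfold ginner
    simp only [dotProduct, Matrix.mulVec]
    refine continuousOn_finsetSum _ fun i _ => (continuousOn_pd f hf x₀ i).mul ?_
    refine continuousOn_finsetSum _ fun j _ => ContinuousOn.mul ?_ (continuousOn_pd h hh x₀ j)
    exact (contDiffOn_gram_inv G _ _ (isOpen_target x₀) hψ (hφ.immersion x₀) i j).continuousOn
  · intro x₀ p hp
    exact gradInner_eq G φ hφ.smooth f h hf hh x₀ p hp

theorem continuous_trHess (G : Metric n) (φ : M → E n) (hφ : IsMinimalImmersion (m := m) G φ)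
    (F : E n → ℝ) (hF : ContDiff ℝ 2 F) : Continuous (trHess (m := m) G φ F) := by
  obtain ⟨Γ, hΓc, hΓ, -, -⟩ := exists_christoffel G
  have hF1 : ContDiff ℝ 1 (fderiv ℝ F) := hF.fderiv_right (by norm_num)
  have hF2 : Continuous (fderiv ℝ (fderiv ℝ F)) := hF1.continuous_fderiv (by norm_num)
  have hF1' : Continuous (fderiv ℝ F) := hF1.continuous
  refine continuous_of_charts _ (fun x₀ => trH G (loc (m := m) φ x₀) F) ?_ ?_
  · intro x₀
    have hψ : ContDiffOn ℝ ∞ (loc (m := m) φ x₀) (chartAt (E m) x₀).target :=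
      contDiffOn_loc (m := m) (⊤ : ℕ∞) φ hφ.smooth x₀
    have hψc : ContinuousOn (fun u => loc (m := m) φ x₀ u) (chartAt (E m) x₀).target :=
      hψ.continuousOn
    have hD : ContinuousOn (fun u => fderiv ℝ (loc (m := m) φ x₀) u) (chartAt (E m) x₀).target :=
      hψ.continuousOn_fderiv_of_isOpen (isOpen_target x₀) (by norm_num)
    have hDi : ∀ i : Fin m, ContinuousOn (fun u => fderiv ℝ (loc (m := m) φ x₀) u (bas i))
        (chartAt (E m) x₀).target := fun i => hD.clm_apply continuousOn_const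
    unfold trH
    refine continuousOn_finsetSum _ fun i _ => continuousOn_finsetSum _ fun j _ =>
      ContinuousOn.mul ?_ ?_
    · exact (contDiffOn_gram_inv G _ _ (isOpen_target x₀) hψ (hφ.immersion x₀) i j).continuousOn
    · unfold Metric.hess
      refine ContinuousOn.sub ?_ ?_
      · exact ((hF2.comp_continuousOn hψc).clm_apply (hDi i)).clm_apply (hDi j)
      · simp only [hΓ]
        exact (hF1'.comp_continuousOn hψc).clm_apply
          (((hΓc.comp_continuousOn hψc).clm_apply (hDi i)).clm_apply (hDi j))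
  · intro x₀ p hp
    exact trHess_eq G φ hφ.smooth F x₀ p hp

/-- The inner product of gradients vanishes outside the support. -/
theorem gradInner_eq_zero (G : Metric n) (φ : M → E n) (f h : M → ℝ) (p : M)
    (hp : p ∉ tsupport h) : gradInner (m := m) G φ f h p = 0 := by
  have h0 : h =ᶠ[𝓝 p] 0 := notMem_tsupport_iff_eventuallyEq.1 hp
  have hu : chartAt (E m) p p ∈ (chartAt (E m) p).target := mem_chart_target (E m) p
  have hc : ContinuousAt (chartAt (E m) p).symm (chartAt (E m) p p) :=
    (chartAt (E m) p).continuousAt_symm hu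
  have hsp : (chartAt (E m) p).symm (chartAt (E m) p p) = p :=
    (chartAt (E m) p).left_inv (mem_chart_source (E m) p)
  have h1 : Tendsto (chartAt (E m) p).symm (𝓝 (chartAt (E m) p p)) (𝓝 p) := by
    have := hc.tendsto
    rwa [hsp] at this
  have h2 : loc (m := m) h p =ᶠ[𝓝 (chartAt (E m) p p)] fun _ => 0 := by
    filter_upwards [h1.eventually h0] with u hu
    exact hu
  have h3 : fderiv ℝ (loc (m := m) h p) (chartAt (E m) p p) = 0 := by
    rw [h2.fderiv_eq]
    simp
  have h4 : pd (loc (m := m) h p) (chartAt (E m) p p) = 0 := by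
    funext i
    simp [pd, h3]
  unfold gradInner ginner
  rw [h4, Matrix.mulVec_zero, dotProduct_zero]

end

end Pool.Agent.H793.MS
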