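import Mathlib

set_option autoImplicit false

open scoped ContDiff Topology ENNReal Manifold
open MeasureTheory Set Filter

namespace Pool.Agent.H793.MS

/-- `ℝⁿ` -/
abbrev E (n : ℕ) := EuclideanSpace ℝ (Fin n)

/-- A smooth Riemannian metric on `ℝⁿ` (in the global coordinates of `ℝⁿ`). -/
structure Metric (n : ℕ) where
  /-- the inner product at a point -/
  g : E n → (E n →L[ℝ] E n →L[ℝ] ℝ)
  smooth : ContDiff ℝ ∞ g
  symm : ∀ x v w, g x v w = g x w v
  pos : ∀ x v, v ≠ 0 → 0 < g x v v

variable {n m : ℕ}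

/-- The Christoffel symbols `Γ_x(v, w)` of the Levi-Civita connection: the vector with
`g_x(Γ_x(v, w), z) = ((∂_v g)(w, z) + (∂_w g)(v, z) - (∂_z g)(v, w)) / 2` for all `z`. -/
noncomputable def Metric.christoffel (G : Metric n) (x v w : E n) : E n :=
  Classical.epsilon fun u => ∀ z, G.g x u z =
    (fderiv ℝ G.g x v w z + fderiv ℝ G.g x w v z - fderiv ℝ G.g x z v w) / 2

/-- The (covariant) Hessian of a function on the Riemannian manifold `(ℝⁿ, g)`. -/
noncomputable def Metric.hess (G : Metric n) (F : E n → ℝ) (x v w : E n) : ℝ :=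
  fderiv ℝ (fderiv ℝ F) x v w - fderiv ℝ F x (G.christoffel x v w)

/-- `w` is an orthonormal family of `m` vectors for `g_x`. -/
def Metric.Ortho (G : Metric n) (x : E n) (w : Fin m → E n) : Prop :=
  ∀ i j, G.g x (w i) (w j) = if i = j then 1 else 0

/-- `D` is strictly `m`-convex: there is `F` of class `C²` with `F < 0` on `D`, `F = 0` on the
boundary of `D`, and the sum of the `m` smallest eigenvalues of the Hessian of `F` is positive at
every point of the closure of `D`, that is, the trace of the Hessian of `F` on every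
`m`-dimensional subspace is positive. -/
def IsConvexDomain (G : Metric n) (m : ℕ) (D : Set (E n)) : Prop :=
  ∃ F : E n → ℝ, ContDiff ℝ 2 F ∧ (∀ x ∈ D, F x < 0) ∧ (∀ x ∈ frontier D, F x = 0) ∧
    ∀ x ∈ closure D, ∀ w : Fin m → E n, G.Ortho x w → 0 < ∑ i, G.hess F x (w i) (w i)

section chartlevel

/-- the standard basis of `ℝᵐ` -/
noncomputable def bas (i : Fin m) : E m := EuclideanSpace.single i 1

/-- The Gram matrix of the metric induced by `ψ`, in the coordinates of `ℝᵐ`. -/
noncomputable def gram (G : Metric n) (ψ : E m → E n) (u : E m) : Matrix (Fin m) (Fin m) ℝ :=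
  Matrix.of fun i j => G.g (ψ u) (fderiv ℝ ψ u (bas i)) (fderiv ℝ ψ u (bas j))

/-- The density of the Riemannian volume in coordinates. -/
noncomputable def dens (G : Metric n) (ψ : E m → E n) (u : E m) : ℝ :=
  Real.sqrt (gram G ψ u).det

/-- The partial derivatives of a function on `ℝᵐ`. -/
noncomputable def pd (a : E m → ℝ) (u : E m) : Fin m → ℝ := fun i => fderiv ℝ a u (bas i)

/-- The inner product of the gradients of two functions, in coordinates. -/
noncomputable def ginner (G : Metric n) (ψ : E m → E n) (a b : E m → ℝ) (u : E m) : ℝ :=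
  pd a u ⬝ᵥ ((gram G ψ u)⁻¹.mulVec (pd b u))

/-- The trace of the Hessian of `F` on the tangent space of the immersion `ψ`. -/
noncomputable def trH (G : Metric n) (ψ : E m → E n) (F : E n → ℝ) (u : E m) : ℝ :=
  ∑ i, ∑ j, (gram G ψ u)⁻¹ i j *
    G.hess F (ψ u) (fderiv ℝ ψ u (bas i)) (fderiv ℝ ψ u (bas j))

/-- The mean curvature of the immersion `ψ` vanishes at `u`: for an orthonormal basis `v` of the
tangent space, `∑ i, (D²ψ(v_i, v_i) + Γ(Dψ v_i, Dψ v_i))` is tangential. -/
def MeanCurvZero (G : Metric n) (ψ : E m → E n) (u : E m) : Prop :=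
  ∀ v : Fin m → E m, G.Ortho (ψ u) (fun i => fderiv ℝ ψ u (v i)) →
    ∃ t : E m, ∑ i, (fderiv ℝ (fderiv ℝ ψ) u (v i) (v i) +
      G.christoffel (ψ u) (fderiv ℝ ψ u (v i)) (fderiv ℝ ψ u (v i))) = fderiv ℝ ψ u t

end chartlevel

section manifold

variable {M : Type*} [TopologicalSpace M] [ChartedSpace (E m) M]

/-- A map on `M` in the coordinates of the chart at `x₀`. -/
noncomputable def loc {X : Type*} (f : M → X) (x₀ : M) : E m → X :=
  fun u => f ((chartAt (E m) x₀).symm u)

/-- `φ : M → (ℝⁿ, g)` is a minimal immersion. -/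
structure IsMinimalImmersion (G : Metric n) (φ : M → E n) : Prop where
  smooth : ContMDiff (𝓡 m) 𝓘(ℝ, E n) ∞ φ
  immersion : ∀ x₀ : M, ∀ u ∈ (chartAt (E m) x₀).target,
    Function.Injective (fderiv ℝ (loc (m := m) φ x₀) u)
  minimal : ∀ x₀ : M, ∀ u ∈ (chartAt (E m) x₀).target, MeanCurvZero G (loc (m := m) φ x₀) u

/-- `μ` is the volume measure of the Riemannian metric induced by `φ`. -/
def IsVolume [MeasurableSpace M] (G : Metric n) (φ : M → E n) (μ : Measure M) : Prop :=
  ∀ x₀ : M, ∀ s : Set M, s ⊆ (chartAt (E m) x₀).source → MeasurableSet s →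
    μ s = ∫⁻ u in (chartAt (E m) x₀) '' s, ENNReal.ofReal (dens G (loc (m := m) φ x₀) u)

/-- The inner product of the gradients of `f` and `h` on `M`, for the metric induced by `φ`. -/
noncomputable def gradInner (G : Metric n) (φ : M → E n) (f h : M → ℝ) (p : M) : ℝ :=
  ginner G (loc (m := m) φ p) (loc (m := m) f p) (loc (m := m) h p) (chartAt (E m) p p)

/-- The squared length of the gradient. -/
noncomputable def gradSq (G : Metric n) (φ : M → E n) (f : M → ℝ) (p : M) : ℝ :=
  gradInner (m := m) G φ f f p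

/-- The trace of the Hessian of `F` on the tangent space of `M`. -/
noncomputable def trHess (G : Metric n) (φ : M → E n) (F : E n → ℝ) (p : M) : ℝ :=
  trH G (loc (m := m) φ p) F (chartAt (E m) p p)

/-- The limit set of `φ`: the limits of `φ(p_k)` for sequences `p_k` which leave every compact
subset of `M`. -/
def limSet {X : Type*} [TopologicalSpace X] (φ : M → X) : Set X :=
  {x | ∃ p : ℕ → M, Tendsto p atTop (cocompact M) ∧ Tendsto (fun k => φ (p k)) atTop (𝓝 x)}

/-- The Friedrichs extension of `-Δ` on `C_c^∞(M)` has discrete spectrum, in the form of the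
variational principle (Glazman's lemma): for every `Λ`, the dimensions of the spaces of smooth
compactly supported functions `f` with `∫ |∇f|² ≤ Λ ∫ f²` are bounded. -/
def DiscreteSpectrum [MeasurableSpace M] (G : Metric n) (φ : M → E n) (μ : Measure M) : Prop :=
  ∀ Λ : ℝ, ∃ k : ℕ, ∀ V : Submodule ℝ (M → ℝ),
    (∀ f ∈ V, ContMDiff (𝓡 m) 𝓘(ℝ, ℝ) ∞ f ∧ HasCompactSupport f) →
    (∀ f ∈ V, ∫ p, gradSq (m := m) G φ f p ∂μ ≤ Λ * ∫ p, f p ^ 2 ∂μ) →
    Module.rank ℝ V ≤ k

end manifold

end Pool.Agent.H793.MS
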