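import Pool.Agent.H793.MS.Rel2

set_option autoImplicit false

open scoped ContDiff Topology ENNReal Manifold
open MeasureTheory Set Filter

namespace Pool.Agent.H793.MS

variable {n m : ℕ}

section
variable {M : Type*} [TopologicalSpace M] [ChartedSpace (E m) M] [IsManifold (𝓡 m) ∞ M]
  [MeasurableSpace M] [BorelSpace M]

omit [IsManifold (𝓡 m) ∞ M] [MeasurableSpace M] [BorelSpace M] in
/-- The gradient of `1 - a`. -/
theorem b11_gradSq_one_sub (G : Metric n) (φ : M → E n) (a : M → ℝ) (p : M) :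
    gradSq (m := m) G φ (fun q => 1 - a q) p = gradSq (m := m) G φ a p := by
  unfold gradSq gradInner ginner
  have h1 : loc (m := m) (fun q => 1 - a q) p = fun u => 1 - loc (m := m) a p u := rfl
  have h2 : pd (loc (m := m) (fun q => 1 - a q) p) (chartAt (E m) p p) =
      -pd (loc (m := m) a p) (chartAt (E m) p p) := by
    rw [h1]
    funext i
    unfold pd
    rw [fderiv_const_sub]
    rfl
  rw [h2, Matrix.mulVec_neg, dotProduct_neg, neg_dotProduct, neg_neg]

/-- The numbers behind the decomposition principle. -/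
theorem b11_num {A B D E' C lam Lam eps : ℝ} (hlam : 1 ≤ lam) (hC : 0 ≤ C)
    (hLam : Lam = 16 * lam) (heps : eps = 1 / (4 * lam * (4 * C + 2)))
    (h1 : Lam * D ≤ 2 * B + 2 * C * E') (h2 : A ≤ 2 * D + 2 * E') (h3 : E' ≤ eps * B)
    (h4 : B ≤ lam * A) (hE : 0 ≤ E') : A ≤ 0 := by
  subst hLam
  have hl : 0 < lam := by linarith
  have hq : 0 < 4 * lam * (4 * C + 2) := by positivity
  have h5 : 4 * lam * (4 * C + 2) * E' ≤ B := by
    rw [heps, one_div, inv_mul_eq_div, le_div_iff₀ hq] at h3
    linarith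
  have h6 : C * E' ≤ lam * (C * E') := le_mul_of_one_le_left (mul_nonneg hC hE) hlam
  have h7 : 0 ≤ lam * (C * E') := by positivity
  have h8 : lam * A ≤ lam * (2 * D + 2 * E') := mul_le_mul_of_nonneg_left h2 hl.le
  have h9 : lam * A ≤ 0 := by
    have e1 : 4 * lam * (4 * C + 2) * E' = 16 * (lam * (C * E')) + 8 * (lam * E') := by ring
    have e2 : lam * (2 * D + 2 * E') = 2 * (lam * D) + 2 * (lam * E') := by ring
    have e3 : 16 * lam * D = 16 * (lam * D) := by ring
    rw [e1] at h5
    rw [e2] at h8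
    rw [e3] at h1
    linarith
  nlinarith

/-- The decomposition principle: if the Dirichlet form is large outside compact sets, the spectrum
is discrete. -/
theorem discrete_of_persson [T2Space M] [SecondCountableTopology M] (G : Metric n) (φ : M → E n)
    (hφ : IsMinimalImmersion (m := m) G φ) (μ : Measure M) (hμ : IsVolume (m := m) G φ μ)
    (h : ∀ Λ : ℝ, ∃ K : Set M, IsCompact K ∧ ∀ f : M → ℝ, ContMDiff (𝓡 m) 𝓘(ℝ, ℝ) ∞ f →
      HasCompactSupport f → (∀ p ∈ K, f p = 0) →
      Λ * ∫ p, f p ^ 2 ∂μ ≤ ∫ p, gradSq (m := m) G φ f p ∂μ) :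
    DiscreteSpectrum (m := m) G φ μ := by
  classical
  have hfm : IsFiniteMeasureOnCompacts μ := isFiniteMeasureOnCompacts G φ hφ μ hμ
  have hop : μ.IsOpenPosMeasure := isOpenPosMeasure G φ hφ μ hμ
  have hlc : LocallyCompactSpace M := ChartedSpace.locallyCompactSpace (E m) M
  have hsc : SigmaCompactSpace M := inferInstance
  intro Λ
  set lam : ℝ := max Λ 1 with hlam
  have hlam1 : 1 ≤ lam := le_max_right _ _
  obtain ⟨K, hK, hKf⟩ := h (16 * lam)
  obtain ⟨K1, hK1, hKK1⟩ := exists_compact_superset hK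
  obtain ⟨χ, hχ0, hχ1, hχI⟩ := exists_contMDiffMap_zero_one_of_isClosed (n := (⊤ : ℕ∞)) (𝓡 m)
    (s := (interior K1)ᶜ) (t := K) isOpen_interior.isClosed_compl hK.isClosed
    (disjoint_compl_left_iff_subset.2 hKK1)
  have hχs : ∀ p, p ∉ K1 → χ p = 0 := fun p hp => hχ0 (fun hp' => hp (interior_subset hp'))
  have hχcs : HasCompactSupport χ := HasCompactSupport.intro hK1 hχs
  have hχc : ContMDiff (𝓡 m) 𝓘(ℝ, ℝ) ∞ (χ : M → ℝ) := χ.contMDiff
  set T : Set M := tsupport (χ : M → ℝ) with hT
  have hTc : IsCompact T := hχcs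
  have hgc : Continuous (gradSq (m := m) G φ (χ : M → ℝ)) :=
    continuous_gradInner G φ hφ _ _ (hχc.of_le (by simp)) (hχc.of_le (by simp))
  obtain ⟨C, hC0, hC⟩ : ∃ C : ℝ, 0 ≤ C ∧ ∀ p, gradSq (m := m) G φ (χ : M → ℝ) p ≤
      T.indicator (fun _ => C) p := by
    obtain ⟨C, hC⟩ := hTc.bddAbove_image hgc.continuousOn
    refine ⟨max C 0, le_max_right _ _, fun p => ?_⟩
    by_cases hp : p ∈ T
    · rw [indicator_of_mem hp]
      exact (hC ⟨p, hp, rfl⟩).trans (le_max_left _ _)
    · rw [indicator_of_notMem hp]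
      exact (gradInner_eq_zero G φ _ _ p hp).le
  obtain ⟨N, hN⟩ := rellich G φ hφ μ hμ T hTc (1 / (4 * lam * (4 * C + 2))) (by positivity)
  refine ⟨N, fun V hV hVΛ => ?_⟩
  obtain ⟨L, hL⟩ := hN V hV
  have hinj : Function.Injective L := by
    rw [injective_iff_map_eq_zero]
    intro f hf
    have hE := hL f hf
    obtain ⟨hfc, hfcs⟩ := hV f f.2
    have hfcont : Continuous (f : M → ℝ) := hfc.continuous
    have hη : ContMDiff (𝓡 m) 𝓘(ℝ, ℝ) ∞ (fun q => 1 - χ q) := contMDiff_const.sub hχc
    have hηf : ContMDiff (𝓡 m) 𝓘(ℝ, ℝ) ∞ (fun q => (1 - χ q) * (f : M → ℝ) q) := hη.mul hfc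
    have hηfcs : HasCompactSupport (fun q => (1 - χ q) * (f : M → ℝ) q) := hfcs.mul_left
    have hD := hKf _ hηf hηfcs (fun p hp => by
      have : χ p = 1 := hχ1 hp
      simp only [this, sub_self, zero_mul])
    -- integrability
    have i1 : Integrable (fun p => (f : M → ℝ) p ^ 2) μ := by
      refine (hfcont.pow 2).integrable_of_hasCompactSupport ?_
      refine HasCompactSupport.intro hfcs fun p hp => ?_
      show (f : M → ℝ) p ^ 2 = 0
      rw [image_eq_zero_of_notMem_tsupport hp]
      norm_num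
    have i2 : Integrable (fun p => ((1 - χ p) * (f : M → ℝ) p) ^ 2) μ := by
      refine (hηf.continuous.pow 2).integrable_of_hasCompactSupport ?_
      refine HasCompactSupport.intro hηfcs fun p hp => ?_
      have h1 : (1 - χ p) * (f : M → ℝ) p = 0 :=
        image_eq_zero_of_notMem_tsupport (f := fun q => (1 - χ q) * (f : M → ℝ) q) hp
      show ((1 - χ p) * (f : M → ℝ) p) ^ 2 = 0
      rw [h1]
      norm_num
    have i3 : Integrable (fun p => gradSq (m := m) G φ f p) μ := by
      refine (continuous_gradInner G φ hφ _ _ (hfc.of_le (by simp))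
        (hfc.of_le (by simp))).integrable_of_hasCompactSupport ?_
      exact HasCompactSupport.intro hfcs fun p hp => gradInner_eq_zero G φ _ _ p hp
    have i4 : Integrable (fun p => gradSq (m := m) G φ (fun q => (1 - χ q) * (f : M → ℝ) q) p)
        μ := by
      refine (continuous_gradInner G φ hφ _ _ (hηf.of_le (by simp))
        (hηf.of_le (by simp))).integrable_of_hasCompactSupport ?_
      exact HasCompactSupport.intro hηfcs fun p hp => gradInner_eq_zero G φ _ _ p hp
    have i5 : Integrable (T.indicator fun p => (f : M → ℝ) p ^ 2) μ :=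
      i1.indicator hTc.measurableSet
    have e5 : ∫ p, T.indicator (fun p => (f : M → ℝ) p ^ 2) p ∂μ =
        ∫ p in T, (f : M → ℝ) p ^ 2 ∂μ := integral_indicator hTc.measurableSet
    -- the gradient of the product
    have h1 : ∫ p, gradSq (m := m) G φ (fun q => (1 - χ q) * (f : M → ℝ) q) p ∂μ ≤
        2 * (∫ p, gradSq (m := m) G φ f p ∂μ) + 2 * C * ∫ p in T, (f : M → ℝ) p ^ 2 ∂μ := by
      rw [← e5, ← integral_const_mul, ← integral_const_mul,
        ← integral_add (i3.const_mul 2) (i5.const_mul (2 * C))]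
      refine integral_mono i4 ((i3.const_mul 2).add (i5.const_mul (2 * C))) fun p => ?_
      have hu : chartAt (E m) p p ∈ (chartAt (E m) p).target := mem_chart_target (E m) p
      have hda : DifferentiableAt ℝ (loc (m := m) (fun q => 1 - χ q) p) (chartAt (E m) p p) :=
        ((contDiffOn_loc (⊤ : ℕ∞) _ hη p).contDiffAt
          ((isOpen_target p).mem_nhds hu)).differentiableAt (by simp)
      have hdf : DifferentiableAt ℝ (loc (m := m) (f : M → ℝ) p) (chartAt (E m) p p) :=
        ((contDiffOn_loc (⊤ : ℕ∞) _ hfc p).contDiffAt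
          ((isOpen_target p).mem_nhds hu)).differentiableAt (by simp)
      have h2 := ginner_mul G (loc (m := m) φ p) (chartAt (E m) p p) (hφ.immersion p _ hu) _ _
        hda hdf
      rw [loc_chart, loc_chart] at h2
      have h3 : gradSq (m := m) G φ (fun q => (1 - χ q) * (f : M → ℝ) q) p ≤
          2 * (1 - χ p) ^ 2 * gradSq (m := m) G φ f p +
            2 * (f : M → ℝ) p ^ 2 * gradSq (m := m) G φ (fun q => 1 - χ q) p := h2
      rw [b11_gradSq_one_sub] at h3
      refine h3.trans (add_le_add ?_ ?_)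
      · have h4 : (1 - χ p) ^ 2 ≤ 1 := by
          obtain ⟨h5, h6⟩ := hχI p
          nlinarith
        have h5 := b11_gradSq_nonneg G φ hφ (f : M → ℝ) p
        nlinarith
      · have h4 := hC p
        by_cases hp : p ∈ T
        · rw [indicator_of_mem hp] at h4
          rw [indicator_of_mem hp]
          have := sq_nonneg ((f : M → ℝ) p)
          nlinarith
        · rw [indicator_of_notMem hp] at h4
          rw [indicator_of_notMem hp]
          have := sq_nonneg ((f : M → ℝ) p)
          nlinarith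
    -- decomposition
    have h2 : ∫ p, (f : M → ℝ) p ^ 2 ∂μ ≤
        2 * (∫ p, ((1 - χ p) * (f : M → ℝ) p) ^ 2 ∂μ) + 2 * ∫ p in T, (f : M → ℝ) p ^ 2 ∂μ := by
      rw [← e5, ← integral_const_mul, ← integral_const_mul,
        ← integral_add (i2.const_mul 2) (i5.const_mul 2)]
      refine integral_mono i1 ((i2.const_mul 2).add (i5.const_mul 2)) fun p => ?_
      show (f : M → ℝ) p ^ 2 ≤ 2 * ((1 - χ p) * (f : M → ℝ) p) ^ 2 +
        2 * T.indicator (fun p => (f : M → ℝ) p ^ 2) p
      by_cases hp : p ∈ T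
      · rw [indicator_of_mem hp]
        have := sq_nonneg ((f : M → ℝ) p)
        have := sq_nonneg ((1 - χ p) * (f : M → ℝ) p)
        linarith
      · rw [indicator_of_notMem hp]
        have h3 : χ p = 0 := image_eq_zero_of_notMem_tsupport hp
        rw [h3]
        have := sq_nonneg ((f : M → ℝ) p)
        linarith
    have hnn : 0 ≤ ∫ p, (f : M → ℝ) p ^ 2 ∂μ := integral_nonneg fun p => sq_nonneg _
    have h4 : ∫ p, gradSq (m := m) G φ f p ∂μ ≤ lam * ∫ p, (f : M → ℝ) p ^ 2 ∂μ :=
      (hVΛ f f.2).trans (mul_le_mul_of_nonneg_right (le_max_left _ _) hnn)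
    have hA : ∫ p, (f : M → ℝ) p ^ 2 ∂μ ≤ 0 :=
      b11_num hlam1 hC0 rfl rfl (hD.trans h1) h2 hE h4
        (integral_nonneg fun p => sq_nonneg _)
    have hA0 : ∫ p, (f : M → ℝ) p ^ 2 ∂μ = 0 := le_antisymm hA hnn
    have hae := (integral_eq_zero_iff_of_nonneg (fun p => sq_nonneg ((f : M → ℝ) p)) i1).1 hA0
    have h5 : (fun p => (f : M → ℝ) p ^ 2) = 0 :=
      (Continuous.ae_eq_iff_eq μ (hfcont.pow 2) continuous_zero).1 hae
    apply Subtype.ext
    funext p
    have h6 := congrFun h5 p
    exact pow_eq_zero_iff two_ne_zero |>.1 h6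
  have hrank := LinearMap.lift_rank_le_of_injective L hinj
  rw [rank_fin_fun] at hrank
  simpa using hrank

end

end Pool.Agent.H793.MS
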