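import Pool.Agent.H793.MS.Star

set_option autoImplicit false

open scoped ContDiff Topology ENNReal Manifold
open MeasureTheory Set Filter

namespace Pool.Agent.H793.MS

variable {n m : ℕ}

/-- The Laplacian of `F ∘ ψ` is the trace of the Hessian of `F` on the tangent space, for a minimal
immersion `ψ`. -/
theorem div_identity (G : Metric n) (ψ : E m → E n) (O : Set (E m)) (hO : IsOpen O)
    (hψ : ContDiffOn ℝ ∞ ψ O) (himm : ∀ u ∈ O, Function.Injective (fderiv ℝ ψ u))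
    (hmin : ∀ u ∈ O, MeanCurvZero G ψ u) (F : E n → ℝ) (hF : ContDiff ℝ 2 F) (u : E m)
    (hu : u ∈ O) :
    ∑ j, fderiv ℝ (fun v => dens G ψ v *
        ((gram G ψ v)⁻¹.mulVec (pd (fun y => F (ψ y)) v)) j) u (bas j) =
      dens G ψ u * trH G ψ F u := by
  have hinf : (∞ : WithTop ℕ∞) ≠ 0 := by simp
  have hFd : Differentiable ℝ F := hF.differentiable (by norm_num)
  have hF1 : ContDiff ℝ 1 (fderiv ℝ F) := hF.fderiv_right (by norm_num)
  have hF2 : Differentiable ℝ (fderiv ℝ F) := hF1.differentiable (by norm_num)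
  have hψd : ∀ v ∈ O, DifferentiableAt ℝ ψ v := fun v hv =>
    (hψ.differentiableOn hinf).differentiableAt (hO.mem_nhds hv)
  have hψ1 : ContDiffOn ℝ ∞ (fderiv ℝ ψ) O := hψ.fderiv_of_isOpen hO (by simp)
  have hψ2 : DifferentiableAt ℝ (fderiv ℝ ψ) u :=
    (hψ1.differentiableOn hinf).differentiableAt (hO.mem_nhds hu)
  have hdens : DifferentiableAt ℝ (dens G ψ) u :=
    ((contDiffOn_dens G ψ O hO hψ himm).differentiableOn hinf).differentiableAt
      (hO.mem_nhds hu)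
  have hinv : ∀ i j, DifferentiableAt ℝ (fun v => (gram G ψ v)⁻¹ i j) u := fun i j =>
    ((contDiffOn_gram_inv G ψ O hO hψ himm i j).differentiableOn hinf).differentiableAt
      (hO.mem_nhds hu)
  have hbasd : ∀ i : Fin m, DifferentiableAt ℝ (fun v => fderiv ℝ ψ v (bas i)) u := fun i =>
    hψ2.clm_apply (differentiableAt_const _)
  have hYd : ∀ j, DifferentiableAt ℝ
      (fun v => dens G ψ v • ∑ i, (gram G ψ v)⁻¹ j i • fderiv ℝ ψ v (bas i)) u := fun j =>
    hdens.smul (DifferentiableAt.fun_sum fun i _ => (hinv j i).smul (hbasd i))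
  have hev : ∀ j : Fin m, (fun v => dens G ψ v *
        ((gram G ψ v)⁻¹.mulVec (pd (fun y => F (ψ y)) v)) j) =ᶠ[𝓝 u]
      fun v => fderiv ℝ F (ψ v)
        (dens G ψ v • ∑ i, (gram G ψ v)⁻¹ j i • fderiv ℝ ψ v (bas i)) := by
    intro j
    filter_upwards [hO.mem_nhds hu] with v hv
    have hpd : ∀ i, pd (fun y => F (ψ y)) v i = fderiv ℝ F (ψ v) (fderiv ℝ ψ v (bas i)) := by
      intro i
      unfold pd
      rw [fderiv_fun_comp v (hFd _) (hψd v hv)]
      rfl
    rw [map_smul, map_sum, smul_eq_mul, Matrix.mulVec, dotProduct]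
    simp only [hpd, map_smul, smul_eq_mul]
  have hder : ∀ j : Fin m, fderiv ℝ (fun v => dens G ψ v *
        ((gram G ψ v)⁻¹.mulVec (pd (fun y => F (ψ y)) v)) j) u (bas j) =
      fderiv ℝ F (ψ u) (fderiv ℝ (fun v => dens G ψ v • ∑ i, (gram G ψ v)⁻¹ j i •
        fderiv ℝ ψ v (bas i)) u (bas j)) +
      dens G ψ u * ∑ i, (gram G ψ u)⁻¹ j i * fderiv ℝ (fderiv ℝ F) (ψ u)
        (fderiv ℝ ψ u (bas j)) (fderiv ℝ ψ u (bas i)) := by
    intro j
    rw [(hev j).fderiv_eq]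
    have hc : DifferentiableAt ℝ (fun v => fderiv ℝ F (ψ v)) u :=
      (hF2 _).comp u (hψd u hu)
    rw [fderiv_clm_apply hc (hYd j), fderiv_fun_comp u (hF2 _) (hψd u hu)]
    change fderiv ℝ F (ψ u) (fderiv ℝ (fun v => dens G ψ v • ∑ i, (gram G ψ v)⁻¹ j i •
        fderiv ℝ ψ v (bas i)) u (bas j)) +
      fderiv ℝ (fderiv ℝ F) (ψ u) (fderiv ℝ ψ u (bas j))
        (dens G ψ u • ∑ i, (gram G ψ u)⁻¹ j i • fderiv ℝ ψ u (bas i)) = _
    rw [map_smul (fderiv ℝ (fderiv ℝ F) (ψ u) (fderiv ℝ ψ u (bas j))), map_sum]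
    simp only [map_smul, smul_eq_mul]
  rw [Finset.sum_congr rfl fun j _ => hder j, Finset.sum_add_distrib, ← map_sum,
    star G ψ O hO hψ himm hmin u hu, map_neg, map_smul, map_sum, smul_eq_mul]
  unfold trH Metric.hess
  simp only [map_sum, map_smul, smul_eq_mul, mul_sub, Finset.sum_sub_distrib, Finset.mul_sum]
  ring

end Pool.Agent.H793.MS
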