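import Mathlib

set_option autoImplicit false

open scoped ContDiff Topology ENNReal Manifold
open MeasureTheory Set Filter

namespace Pool.Agent.H793.MS

variable {n m : ℕ}

/-- the convex cone generated by a family -/
def dualCone {X : Type} [TopologicalSpace X] {T : Type} (ψ : T → C(X, ℝ)) : Set C(X, ℝ) :=
  {f | ∃ (N : ℕ) (c : Fin N → ℝ) (t : Fin N → T), (∀ i, 0 ≤ c i) ∧ f = ∑ i, c i • ψ (t i)}

lemma dualCone_convex {X : Type} [TopologicalSpace X] {T : Type} (ψ : T → C(X, ℝ)) :
    Convex ℝ (dualCone ψ) := by
  rintro f ⟨N, c, t, hc, rfl⟩ g ⟨M, c', t', hc', rfl⟩ a b ha hb _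
  refine ⟨N + M, Fin.append (fun i => a * c i) (fun i => b * c' i), Fin.append t t', ?_, ?_⟩
  · intro i
    refine Fin.addCases (fun i => ?_) (fun i => ?_) i
    · rw [Fin.append_left]; exact mul_nonneg ha (hc i)
    · rw [Fin.append_right]; exact mul_nonneg hb (hc' i)
  · rw [Fin.sum_univ_add]
    simp only [Fin.append_left, Fin.append_right, Finset.smul_sum, smul_smul]

lemma dualCone_zero {X : Type} [TopologicalSpace X] {T : Type} (ψ : T → C(X, ℝ)) :
    (0 : C(X, ℝ)) ∈ dualCone ψ :=
  ⟨0, Fin.elim0, Fin.elim0, fun i => i.elim0, by simp⟩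

lemma dualCone_mem {X : Type} [TopologicalSpace X] {T : Type} (ψ : T → C(X, ℝ)) (t : T) (r : ℝ)
    (hr : 0 ≤ r) : r • ψ t ∈ dualCone ψ :=
  ⟨1, fun _ => r, fun _ => t, fun _ => hr, by simp⟩

/-- Duality (Hahn-Banach and Riesz): either a finite positive combination of the functions `ψ_t` is
positive everywhere, or there is a nonzero measure for which all of them have integral `≤ 0`. -/
theorem dual_alternative {X : Type} [TopologicalSpace X] [CompactSpace X] [T2Space X]
    [MeasurableSpace X] [BorelSpace X] {T : Type} (ψ : T → C(X, ℝ)) :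
    (∃ (N : ℕ) (c : Fin N → ℝ) (t : Fin N → T), (∀ i, 0 ≤ c i) ∧
      ∀ y, 0 < ∑ i, c i * ψ (t i) y) ∨
    (∃ ν : Measure X, IsFiniteMeasure ν ∧ ν univ ≠ 0 ∧ ∀ t, ∫ y, ψ t y ∂ν ≤ 0) := by
  classical
  set O : Set C(X, ℝ) := {g | ∀ y, 0 < g y} with hO
  have hOo : IsOpen O := by
    have h1 : O = {g : C(X, ℝ) | MapsTo g univ (Ioi 0)} := by
      ext g
      simp [hO, MapsTo]
    rw [h1]
    exact ContinuousMap.isOpen_setOfPred_mapsTo isCompact_univ isOpen_Ioi
  have hOc : Convex ℝ O := by
    intro f hf g hg a b ha hb hab y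
    have h1 : 0 < f y := hf y
    have h2 : 0 < g y := hg y
    rw [ContinuousMap.add_apply, ContinuousMap.smul_apply, ContinuousMap.smul_apply, smul_eq_mul,
      smul_eq_mul]
    rcases ha.eq_or_lt with h | h
    · have hb1 : b = 1 := by linarith
      rw [← h, hb1]; linarith
    · have := mul_pos h h1
      have := mul_nonneg hb h2.le
      linarith
  by_cases hd : Disjoint O (dualCone ψ)
  · right
    obtain ⟨l, u, hl1, hl2⟩ := geometric_hahn_banach_open hOc hOo (dualCone_convex ψ) hd
    have hu : u ≤ 0 := by
      have := hl2 0 (dualCone_zero ψ)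
      rwa [map_zero] at this
    have hP : ∀ t, 0 ≤ l (ψ t) := by
      intro t
      by_contra hneg
      push Not at hneg
      have h1 := hl2 _ (dualCone_mem ψ t ((u - 1) / l (ψ t)) (div_nonneg_of_nonpos (by linarith) hneg.le))
      rw [map_smul, smul_eq_mul, div_mul_cancel₀ _ hneg.ne] at h1
      linarith
    have hOneg : ∀ g ∈ O, l g < 0 := fun g hg => (hl1 g hg).trans_le hu
    have h1O : (1 : C(X, ℝ)) ∈ O := fun y => one_pos
    have hl1' : l 1 < 0 := hOneg 1 h1O
    have hnn : ∀ g : C(X, ℝ), (∀ y, 0 ≤ g y) → l g ≤ 0 := by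
      intro g hg
      by_contra hpos
      push Not at hpos
      have h2 : g + (l g / (- l 1)) • (1 : C(X, ℝ)) ∈ O := by
        intro y
        rw [ContinuousMap.add_apply, ContinuousMap.smul_apply, ContinuousMap.one_apply, smul_eq_mul,
          mul_one]
        have h3 : 0 < l g / (- l 1) := div_pos hpos (by linarith)
        have := hg y
        linarith
      have h3 := hOneg _ h2
      rw [map_add, map_smul, smul_eq_mul] at h3
      have h4 : l g / (- l 1) * l 1 = - l g := by
        have : l 1 ≠ 0 := hl1'.ne
        field_simp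
      linarith
    let Λ : CompactlySupportedContinuousMap X ℝ →ₚ[ℝ] ℝ :=
      { toFun g := - l g.toContinuousMap
        map_add' g g' := by
          have : (g + g').toContinuousMap = g.toContinuousMap + g'.toContinuousMap := rfl
          rw [this, map_add]; ring
        map_smul' c g := by
          have : (c • g).toContinuousMap = c • g.toContinuousMap := rfl
          rw [this, map_smul]; simp
        monotone' g g' hgg' := by
          have h2 := hnn (g'.toContinuousMap - g.toContinuousMap) (fun y => by
            rw [ContinuousMap.sub_apply]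
            exact sub_nonneg.2 (hgg' y))
          rw [map_sub] at h2
          show - l g.toContinuousMap ≤ - l g'.toContinuousMap
          linarith }
    have hint : ∀ g : C(X, ℝ), ∫ y, g y ∂(RealRMK.rieszMeasure Λ) = - l g := by
      intro g
      have := RealRMK.integral_rieszMeasure Λ ⟨g, HasCompactSupport.of_compactSpace g⟩
      exact this
    refine ⟨RealRMK.rieszMeasure Λ, inferInstance, ?_, ?_⟩
    · intro h0
      have h2 := hint 1
      rw [Measure.measure_univ_eq_zero.1 h0] at h2
      rw [integral_zero_measure] at h2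
      linarith
    · intro t
      rw [hint]
      have := hP t
      linarith
  · left
    rw [Set.not_disjoint_iff] at hd
    obtain ⟨g, hg, N, c, t, hc, rfl⟩ := hd
    refine ⟨N, c, t, hc, fun y => ?_⟩
    have := hg y
    rw [ContinuousMap.sum_apply] at this
    exact this

end Pool.Agent.H793.MS

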