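import Pool.Agent.H793.MS.KerD
import Pool.Agent.H793.MS.Chr

set_option autoImplicit false

open scoped ContDiff Topology ENNReal Manifold
open MeasureTheory Set Filter

namespace Pool.Agent.H793.MS

variable {n m : ℕ}

/-- The metric is bounded below on a compact set. -/
theorem kerF_low (G : Metric n) (K : Set (E n)) (hK : IsCompact K) :
    ∃ c : ℝ, 0 < c ∧ ∀ x ∈ K, ∀ v : E n, c * ‖v‖ ^ 2 ≤ G.g x v v := by
  have hcont : Continuous fun p : E n × E n => G.g p.1 p.2 p.2 := by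
    have h1 : Continuous fun p : E n × E n => G.g p.1 := G.smooth.continuous.comp continuous_fst
    exact (h1.clm_apply continuous_snd).clm_apply continuous_snd
  have hS : IsCompact (K ×ˢ Metric.sphere (0 : E n) 1) := hK.prod (isCompact_sphere _ _)
  obtain ⟨c, hc, hc'⟩ := hS.exists_forall_le' hcont.continuousOn (a := 0) (by
    rintro ⟨x, v⟩ ⟨_, hv⟩
    refine G.pos x v ?_
    rintro rfl
    rw [mem_sphere_zero_iff_norm, norm_zero] at hv
    exact zero_ne_one hv)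
  refine ⟨c, hc, fun x hx v => ?_⟩
  by_cases hv : v = 0
  · simp [hv]
  · have hn : 0 < ‖v‖ := norm_pos_iff.2 hv
    have h1 := hc' (x, ‖v‖⁻¹ • v) ⟨hx, by
      rw [mem_sphere_zero_iff_norm, norm_smul, norm_inv, norm_norm, inv_mul_cancel₀ hn.ne']⟩
    have h2 : G.g x (‖v‖⁻¹ • v) (‖v‖⁻¹ • v) = (‖v‖ ^ 2)⁻¹ * G.g x v v := by
      simp only [map_smul, _root_.smul_apply, smul_eq_mul]
      field_simp
    simp only at h1
    rw [h2] at h1
    rw [inv_mul_eq_div, le_div_iff₀ (by positivity)] at h1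
    exact h1

theorem kerF_gb {F : Type*} [NormedAddCommGroup F] (f : E n → F) (hf : Continuous f)
    (K : Set (E n)) (hK : IsCompact K) : ∃ C : ℝ, ∀ x ∈ K, ‖f x‖ ≤ C :=
  hK.exists_bound_of_continuousOn hf.continuousOn

theorem kerF_gl {F : Type*} [NormedAddCommGroup F] [NormedSpace ℝ F] (f : E n → F)
    (hf : ContDiff ℝ ∞ f) (K : Set (E n)) (hK : IsCompact K) :
    ∃ L : ℝ, 0 ≤ L ∧ ∀ x ∈ K, ∀ y ∈ K, ‖f y - f x‖ ≤ L * ‖y - x‖ := by
  obtain ⟨R, hR⟩ := hK.isBounded.subset_closedBall (0 : E n)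
  have hd : Continuous (fderiv ℝ f) := hf.continuous_fderiv (by simp)
  obtain ⟨C, hC⟩ := (isCompact_closedBall (0 : E n) R).exists_bound_of_continuousOn hd.continuousOn
  exact ⟨max C 0, le_max_right _ _, fun x hx y hy =>
    (convex_closedBall (0 : E n) R).norm_image_sub_le_of_norm_fderiv_le
      (fun z _ => (hf.differentiable (by simp)) z)
      (fun z hz => (hC z hz).trans (le_max_left _ _)) (hR hx) (hR hy)⟩

/-- Upper bound. -/
theorem kerF_upp (G : Metric n) (K : Set (E n)) (hK : IsCompact K) :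
    ∃ C : ℝ, 0 ≤ C ∧ ∀ x ∈ K, ∀ v w : E n, |G.g x v w| ≤ C * ‖v‖ * ‖w‖ := by
  obtain ⟨C, hC⟩ : ∃ C : ℝ, ∀ x ∈ K, ‖G.g x‖ ≤ C := kerF_gb G.g G.smooth.continuous K hK
  refine ⟨max C 0, le_max_right _ _, fun x hx v w => ?_⟩
  have h1 : ‖G.g x v w‖ ≤ ‖G.g x‖ * ‖v‖ * ‖w‖ := (G.g x).le_opNorm₂ v w
  have h2 : ‖G.g x‖ ≤ max C 0 := (hC x hx).trans (le_max_left _ _)
  rw [Real.norm_eq_abs] at h1
  refine h1.trans ?_
  gcongr

/-- Lipschitz bound. -/
theorem kerF_lip (G : Metric n) (K : Set (E n)) (hK : IsCompact K) :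
    ∃ L : ℝ, 0 ≤ L ∧ ∀ x ∈ K, ∀ y ∈ K, ∀ v w : E n,
      |G.g x v w - G.g y v w| ≤ L * ‖y - x‖ * ‖v‖ * ‖w‖ := by
  obtain ⟨C, hC0, hC⟩ := kerF_gl G.g G.smooth K hK
  refine ⟨C, hC0, fun x hx y hy v w => ?_⟩
  have h1 : ‖G.g y - G.g x‖ ≤ C * ‖y - x‖ := hC x hx y hy
  have h2 : ‖(G.g x - G.g y) v w‖ ≤ ‖G.g x - G.g y‖ * ‖v‖ * ‖w‖ :=
    (G.g x - G.g y).le_opNorm₂ v w
  rw [Real.norm_eq_abs, norm_sub_rev (G.g x) (G.g y)] at h2
  have h3 : (G.g x - G.g y) v w = G.g x v w - G.g y v w := rfl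
  rw [h3] at h2
  refine h2.trans ?_
  gcongr

/-- Cauchy-Schwarz. -/
theorem kerF_cs (G : Metric n) (x v w : E n) :
    G.g x v w ^ 2 ≤ G.g x v v * G.g x w w := by
  by_cases hw : w = 0
  · simp [hw]
  have hp := G.pos x w hw
  have h0 : 0 ≤ G.g x (G.g x w w • v - G.g x v w • w) (G.g x w w • v - G.g x v w • w) := by
    by_cases hu : (G.g x w w • v - G.g x v w • w) = 0
    · rw [hu]; simp
    · exact (G.pos x _ hu).le
  have h1 : G.g x (G.g x w w • v - G.g x v w • w) (G.g x w w • v - G.g x v w • w) =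
      G.g x w w * (G.g x v v * G.g x w w - G.g x v w ^ 2) := by
    simp only [map_sub, map_smul, _root_.sub_apply, _root_.smul_apply,
      smul_eq_mul]
    rw [G.symm x w v]
    ring
  rw [h1] at h0
  have h2 := nonneg_of_mul_nonneg_right h0 hp
  linarith

theorem kerF_nn (G : Metric n) (x v : E n) : 0 ≤ G.g x v v := by
  by_cases hv : v = 0
  · simp [hv]
  · exact (G.pos x v hv).le

/-- The square length of a combination of an orthonormal family. -/
theorem kerF_ortho (G : Metric n) (y : E n) (w : Fin m → E n) (hw : G.Ortho y w)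
    (a : Fin m → ℝ) : G.g y (∑ i, a i • w i) (∑ i, a i • w i) = ∑ i, a i ^ 2 := by
  simp only [map_sum, map_smul, _root_.sum_apply, _root_.smul_apply,
    smul_eq_mul]
  refine Finset.sum_congr rfl fun i _ => ?_
  rw [Finset.sum_eq_single i]
  · rw [hw i i, if_pos rfl]; ring
  · intro j _ hj
    rw [hw]
    simp [hj]
  · intro h; exact absurd (Finset.mem_univ i) h

/-- Uniform bounds on a compact set `K`, for families which are orthonormal at `y`:
`∑ g_x(w_i, w_i) ≥ m - C|y - x|`, `∑ g_x(y - x, w_i)² ≤ (1 + C|y - x|) q`,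
`|g_x(y - x, Γ_y(w_i, w_i))| ≤ C|y - x|` and `|y - x|² / C² ≤ q ≤ C²`. -/
theorem frame_bounds (G : Metric n) (m : ℕ) (K : Set (E n)) (hK : IsCompact K) :
    ∃ C : ℝ, 1 ≤ C ∧ ∀ x ∈ K, ∀ y ∈ K, ∀ w : Fin m → E n, G.Ortho y w →
      (m : ℝ) - C * ‖y - x‖ ≤ ∑ i, G.g x (w i) (w i) ∧
      ∑ i, G.g x (y - x) (w i) ^ 2 ≤ (1 + C * ‖y - x‖) * qf G x y ∧
      |∑ i, G.g x (y - x) (G.christoffel y (w i) (w i))| ≤ C * ‖y - x‖ := by
  obtain ⟨c, hc, hlow⟩ := kerF_low G K hK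
  obtain ⟨U, hU0, hU⟩ := kerF_upp G K hK
  obtain ⟨L, hL0, hL⟩ := kerF_lip G K hK
  obtain ⟨Γ, hΓc, hΓ, _, _⟩ := exists_christoffel G
  obtain ⟨M0, hM0⟩ : ∃ C : ℝ, ∀ x ∈ K, ‖Γ x‖ ≤ C := kerF_gb Γ hΓc K hK
  set M : ℝ := max M0 0 with hM
  have hMn : 0 ≤ M := le_max_right _ _
  have hMb : ∀ x ∈ K, ‖Γ x‖ ≤ M := fun x hx => (hM0 x hx).trans (le_max_left _ _)
  refine ⟨1 + m * (L / c) + L / c + m * (U * M / c), ?_, ?_⟩
  · have h1 : 0 ≤ m * (L / c) := by positivity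
    have h2 : 0 ≤ L / c := by positivity
    have h3 : 0 ≤ m * (U * M / c) := by positivity
    linarith
  intro x hx y hy w hw
  have h1 : 0 ≤ m * (L / c) := by positivity
  have h2 : 0 ≤ L / c := by positivity
  have h3 : 0 ≤ m * (U * M / c) := by positivity
  have hd : 0 ≤ ‖y - x‖ := norm_nonneg _
  have hwn : ∀ i, ‖w i‖ ^ 2 ≤ 1 / c := by
    intro i
    have := hlow y hy (w i)
    rw [hw i i, if_pos rfl] at this
    rw [le_div_iff₀ hc]
    linarith
  refine ⟨?_, ?_, ?_⟩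
  · have key : ∀ i, 1 - L / c * ‖y - x‖ ≤ G.g x (w i) (w i) := by
      intro i
      have e1 := hL x hx y hy (w i) (w i)
      rw [hw i i, if_pos rfl] at e1
      have e2 : L * ‖y - x‖ * ‖w i‖ * ‖w i‖ ≤ L / c * ‖y - x‖ := by
        have : L * ‖y - x‖ * ‖w i‖ * ‖w i‖ = L * ‖y - x‖ * ‖w i‖ ^ 2 := by ring
        rw [this]
        have e3 : L * ‖y - x‖ * ‖w i‖ ^ 2 ≤ L * ‖y - x‖ * (1 / c) :=
          mul_le_mul_of_nonneg_left (hwn i) (by positivity)
        have e4 : L * ‖y - x‖ * (1 / c) = L / c * ‖y - x‖ := by ring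
        linarith
      have e5 := abs_le.1 (e1.trans e2)
      linarith [e5.1]
    have e6 : ∑ _i : Fin m, (1 - L / c * ‖y - x‖) ≤ ∑ i, G.g x (w i) (w i) :=
      Finset.sum_le_sum fun i _ => key i
    rw [Finset.sum_const, Finset.card_univ, Fintype.card_fin, nsmul_eq_mul] at e6
    nlinarith [mul_nonneg h2 hd, mul_nonneg h3 hd]
  · set a : Fin m → ℝ := fun i => G.g x (y - x) (w i) with ha
    set z : E n := ∑ i, a i • w i with hz
    set s : ℝ := ∑ i, a i ^ 2 with hs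
    have hs0 : 0 ≤ s := Finset.sum_nonneg fun i _ => sq_nonneg _
    have e1 : G.g x (y - x) z = s := by
      rw [hz, map_sum, hs]
      refine Finset.sum_congr rfl fun i _ => ?_
      rw [map_smul, smul_eq_mul]
      exact (pow_two (a i)).symm
    have e2 := kerF_cs G x (y - x) z
    rw [e1] at e2
    have e3 : G.g y z z = s := kerF_ortho G y w hw a
    have e4 : G.g x z z ≤ (1 + L / c * ‖y - x‖) * s := by
      have f1 := hL x hx y hy z z
      rw [e3] at f1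
      have f2 := hlow y hy z
      rw [e3] at f2
      have f3 : ‖z‖ ^ 2 ≤ s / c := by
        rw [le_div_iff₀ hc]; linarith
      have f4 : L * ‖y - x‖ * ‖z‖ * ‖z‖ ≤ L / c * ‖y - x‖ * s := by
        have : L * ‖y - x‖ * ‖z‖ * ‖z‖ = L * ‖y - x‖ * ‖z‖ ^ 2 := by ring
        rw [this]
        have e3 : L * ‖y - x‖ * ‖z‖ ^ 2 ≤ L * ‖y - x‖ * (s / c) :=
          mul_le_mul_of_nonneg_left f3 (by positivity)
        have e4 : L * ‖y - x‖ * (s / c) = L / c * ‖y - x‖ * s := by ring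
        linarith
      have e5 := abs_le.1 (f1.trans f4)
      linarith [e5.2]
    have hq0 : 0 ≤ qf G x y := kerF_nn G x _
    have e5 : s ≤ (1 + L / c * ‖y - x‖) * qf G x y := by
      rcases hs0.eq_or_lt with h | h
      · rw [← h]
        positivity
      · have f1 : s ^ 2 ≤ qf G x y * ((1 + L / c * ‖y - x‖) * s) :=
          e2.trans (mul_le_mul_of_nonneg_left e4 hq0)
        have f2 : s * s ≤ s * ((1 + L / c * ‖y - x‖) * qf G x y) := by
          calc s * s = s ^ 2 := by ring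
            _ ≤ qf G x y * ((1 + L / c * ‖y - x‖) * s) := f1
            _ = _ := by ring
        exact le_of_mul_le_mul_left f2 h
    refine e5.trans (mul_le_mul_of_nonneg_right ?_ hq0)
    nlinarith [mul_nonneg h1 hd, mul_nonneg h3 hd]
  · have key : ∀ i, |G.g x (y - x) (G.christoffel y (w i) (w i))| ≤ U * M / c * ‖y - x‖ := by
      intro i
      rw [hΓ]
      have e1 := hU x hx (y - x) (Γ y (w i) (w i))
      have e2 : ‖Γ y (w i) (w i)‖ ≤ M * (1 / c) := by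
        have f1 : ‖Γ y (w i) (w i)‖ ≤ ‖Γ y‖ * ‖w i‖ * ‖w i‖ := (Γ y).le_opNorm₂ _ _
        have f2 : ‖Γ y‖ * ‖w i‖ * ‖w i‖ = ‖Γ y‖ * ‖w i‖ ^ 2 := by ring
        rw [f2] at f1
        exact f1.trans (mul_le_mul (hMb y hy) (hwn i) (by positivity) hMn)
      calc _ ≤ U * ‖y - x‖ * ‖Γ y (w i) (w i)‖ := e1
        _ ≤ U * ‖y - x‖ * (M * (1 / c)) := mul_le_mul_of_nonneg_left e2 (by positivity)
        _ = _ := by ring
    have e6 : |∑ i, G.g x (y - x) (G.christoffel y (w i) (w i))| ≤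
        ∑ _i : Fin m, U * M / c * ‖y - x‖ :=
      (Finset.abs_sum_le_sum_abs _ _).trans (Finset.sum_le_sum fun i _ => key i)
    rw [Finset.sum_const, Finset.card_univ, Fintype.card_fin, nsmul_eq_mul] at e6
    nlinarith [mul_nonneg h1 hd, mul_nonneg h2 hd]

/-- The quadratic form is comparable with the Euclidean one on a compact set. -/
theorem qf_bounds (G : Metric n) (K : Set (E n)) (hK : IsCompact K) :
    ∃ C : ℝ, 1 ≤ C ∧ ∀ x ∈ K, ∀ y ∈ K, ‖y - x‖ ^ 2 ≤ C ^ 2 * qf G x y ∧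
      qf G x y ≤ C ^ 2 * ‖y - x‖ ^ 2 ∧ qf G x y ≤ C ^ 2 := by
  obtain ⟨c, hc, hlow⟩ := kerF_low G K hK
  obtain ⟨U, hU0, hU⟩ := kerF_upp G K hK
  obtain ⟨R, hR⟩ := hK.isBounded.subset_closedBall (0 : E n)
  have h1 : 0 ≤ 1 / c := by positivity
  have h2 : 0 ≤ U * (2 * R) ^ 2 := by positivity
  set C : ℝ := 1 + 1 / c + U + U * (2 * R) ^ 2 with hC
  have hC1 : 1 ≤ C := by linarith
  have hCC : C ≤ C ^ 2 := by nlinarith
  refine ⟨C, hC1, fun x hx y hy => ?_⟩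
  have hq0 : 0 ≤ qf G x y := kerF_nn G x _
  have e1 : c * ‖y - x‖ ^ 2 ≤ qf G x y := hlow x hx (y - x)
  have e2 : qf G x y ≤ U * ‖y - x‖ ^ 2 := by
    have := (le_abs_self _).trans (hU x hx (y - x) (y - x))
    calc qf G x y ≤ U * ‖y - x‖ * ‖y - x‖ := this
      _ = _ := by ring
  refine ⟨?_, ?_, ?_⟩
  · have f1 : ‖y - x‖ ^ 2 ≤ 1 / c * qf G x y := by
      rw [one_div, inv_mul_eq_div, le_div_iff₀ hc]
      linarith
    refine f1.trans (mul_le_mul_of_nonneg_right ?_ hq0)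
    linarith
  · refine e2.trans (mul_le_mul_of_nonneg_right ?_ (by positivity))
    linarith
  · have f1 : ‖y - x‖ ≤ 2 * R := by
      have g1 : ‖x‖ ≤ R := by simpa using hR hx
      have g2 : ‖y‖ ≤ R := by simpa using hR hy
      calc ‖y - x‖ ≤ ‖y‖ + ‖x‖ := norm_sub_le _ _
        _ ≤ _ := by linarith
    have f2 : ‖y - x‖ ^ 2 ≤ (2 * R) ^ 2 := pow_le_pow_left₀ (norm_nonneg _) f1 2
    have f3 : U * ‖y - x‖ ^ 2 ≤ U * (2 * R) ^ 2 := mul_le_mul_of_nonneg_left f2 hU0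
    linarith

end Pool.Agent.H793.MS
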