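import Pool.Agent.H793.MS.KerD
import Pool.Agent.H793.MS.Chr

set_option autoImplicit false

open scoped ContDiff Topology ENNReal Manifold
open MeasureTheory Set Filter

namespace Pool.Agent.H793.MS

variable {n m : ℕ}

/-- Elementary facts about the kernels. -/
theorem qf_nonneg (G : Metric n) (x y : E n) : 0 ≤ qf G x y := by
  unfold qf
  by_cases h : y - x = 0
  · rw [h, map_zero]
  · exact (G.pos x _ h).le

theorem continuous_qf (G : Metric n) : Continuous fun p : E n × E n => qf G p.1 p.2 := by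
  unfold qf
  have hg : Continuous G.g := G.smooth.continuous
  have h1 : Continuous fun p : E n × E n => G.g p.1 := hg.comp continuous_fst
  have h2 : Continuous fun p : E n × E n => p.2 - p.1 := continuous_snd.sub continuous_fst
  exact (h1.clm_apply h2).clm_apply h2

theorem KerH_contDiff_qf (G : Metric n) (x : E n) : ContDiff ℝ ∞ (fun y => qf G x y) := by
  unfold qf
  have h1 : ContDiff ℝ ∞ (fun y : E n => y - x) := contDiff_id.sub contDiff_const
  have h2 : ContDiff ℝ ∞ (fun y : E n => G.g x (y - x)) :=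
    (G.g x).contDiff.comp h1
  exact h2.clm_apply h1

theorem KerH_pos (G : Metric n) (x : E n) (r : ℝ) (hr : 0 < r) (y : E n) :
    0 < r ^ 2 + qf G x y := by
  have h1 := qf_nonneg G x y
  have h2 : 0 < r ^ 2 := by positivity
  linarith

theorem KerH_contDiff_rpow (G : Metric n) (x : E n) (r : ℝ) (hr : 0 < r) (p : ℝ) :
    ContDiff ℝ ∞ (fun y => (r ^ 2 + qf G x y) ^ p) :=
  (contDiff_const.add (KerH_contDiff_qf G x)).rpow_const_of_ne
    (fun y => (KerH_pos G x r hr y).ne')

theorem contDiff_kerB (G : Metric n) (m : ℕ) (B : ℝ) (x : E n) (r : ℝ) (hr : 0 < r) :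
    ContDiff ℝ ∞ (kerB G m B x r) := by
  unfold kerB ker0
  exact (KerH_contDiff_rpow G x r hr _).add
    (contDiff_const.mul (KerH_contDiff_rpow G x r hr _))

theorem KerH_hasFDerivAt_Q (G : Metric n) (x : E n) (r : ℝ) (y : E n) :
    HasFDerivAt (fun y => r ^ 2 + qf G x y) ((2 : ℝ) • G.g x (y - x)) y := by
  unfold qf
  have h1 : HasFDerivAt (fun y : E n => y - x) (ContinuousLinearMap.id ℝ (E n)) y :=
    (hasFDerivAt_id y).sub_const x
  have h2 : HasFDerivAt (fun y : E n => G.g x (y - x))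
      ((G.g x).comp (ContinuousLinearMap.id ℝ (E n))) y := (G.g x).hasFDerivAt.comp y h1
  have h3 := (h2.clm_apply h1).const_add (r ^ 2)
  have h4 : (2 : ℝ) • G.g x (y - x) = (G.g x (y - x)).comp (ContinuousLinearMap.id ℝ (E n)) +
      ((G.g x).comp (ContinuousLinearMap.id ℝ (E n))).flip (y - x) := by
    ext v
    show 2 * G.g x (y - x) v = G.g x (y - x) v + G.g x v (y - x)
    rw [G.symm x v (y - x)]
    ring
  rw [h4]
  exact h3

/-- The Hessian of a power of `r² + q`. -/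
theorem hess_rpow (G : Metric n) (x : E n) (r : ℝ) (hr : 0 < r) (α : ℝ) (y w : E n) :
    G.hess (fun y => (r ^ 2 + qf G x y) ^ (-α)) y w w =
      -(2 * α * (r ^ 2 + qf G x y) ^ (-α - 1) *
          (G.g x w w - G.g x (y - x) (G.christoffel y w w))) +
        4 * α * (α + 1) * (r ^ 2 + qf G x y) ^ (-α - 2) * G.g x (y - x) w ^ 2 := by
  have hQ : ∀ z : E n, HasFDerivAt (fun y => r ^ 2 + qf G x y) ((2 : ℝ) • G.g x (z - x)) z :=
    KerH_hasFDerivAt_Q G x r
  have hF : ∀ z : E n, HasFDerivAt (fun y => (r ^ 2 + qf G x y) ^ (-α))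
      ((-(2 * α) * (r ^ 2 + qf G x z) ^ (-α - 1)) • G.g x (z - x)) z := by
    intro z
    have h := (hQ z).rpow_const (p := -α) (Or.inl (KerH_pos G x r hr z).ne')
    have e : (-(2 * α) * (r ^ 2 + qf G x z) ^ (-α - 1)) • G.g x (z - x) =
        (-α * (r ^ 2 + qf G x z) ^ (-α - 1)) • ((2 : ℝ) • G.g x (z - x)) := by
      rw [smul_smul]
      congr 1
      ring
    rw [e]
    exact h
  have hD : fderiv ℝ (fun y => (r ^ 2 + qf G x y) ^ (-α)) =
      fun z => (-(2 * α) * (r ^ 2 + qf G x z) ^ (-α - 1)) • G.g x (z - x) := by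
    funext z
    exact (hF z).fderiv
  have hc : HasFDerivAt (fun z => -(2 * α) * (r ^ 2 + qf G x z) ^ (-α - 1))
      ((-(2 * α)) • (((-α - 1) * (r ^ 2 + qf G x y) ^ (-α - 1 - 1)) •
        ((2 : ℝ) • G.g x (y - x)))) y :=
    ((hQ y).rpow_const (p := -α - 1) (Or.inl (KerH_pos G x r hr y).ne')).const_mul (-(2 * α))
  have h1 : HasFDerivAt (fun y : E n => y - x) (ContinuousLinearMap.id ℝ (E n)) y :=
    (hasFDerivAt_id y).sub_const x
  have hL : HasFDerivAt (fun y : E n => G.g x (y - x))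
      ((G.g x).comp (ContinuousLinearMap.id ℝ (E n))) y := (G.g x).hasFDerivAt.comp y h1
  have h2 : fderiv ℝ (fun z => (-(2 * α) * (r ^ 2 + qf G x z) ^ (-α - 1)) • G.g x (z - x)) y = _ :=
    (hc.smul hL).fderiv
  have h3 : G.hess (fun y => (r ^ 2 + qf G x y) ^ (-α)) y w w =
      fderiv ℝ (fderiv ℝ (fun y => (r ^ 2 + qf G x y) ^ (-α))) y w w -
        fderiv ℝ (fun y => (r ^ 2 + qf G x y) ^ (-α)) y (G.christoffel y w w) := rfl
  rw [h3, hD]
  rw [h2]
  have e2 : (-α - 1 - 1 : ℝ) = -α - 2 := by ring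
  rw [e2]
  show (-(2 * α) * (r ^ 2 + qf G x y) ^ (-α - 1)) * G.g x w w +
    ((-(2 * α)) * (((-α - 1) * (r ^ 2 + qf G x y) ^ (-α - 2)) * (2 * G.g x (y - x) w))) *
      G.g x (y - x) w -
    (-(2 * α) * (r ^ 2 + qf G x y) ^ (-α - 1)) * G.g x (y - x) (G.christoffel y w w) = _
  ring

/-- The Hessian is linear in the function. -/
theorem hess_add (G : Metric n) (F₁ F₂ : E n → ℝ) (c : ℝ) (y w : E n)
    (h₁ : ContDiff ℝ 2 F₁) (h₂ : ContDiff ℝ 2 F₂) :
    G.hess (fun y => F₁ y + c * F₂ y) y w w = G.hess F₁ y w w + c * G.hess F₂ y w w := by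
  have d1 : Differentiable ℝ F₁ := h₁.differentiable (by norm_num)
  have d2 : Differentiable ℝ F₂ := h₂.differentiable (by norm_num)
  have dd1 : Differentiable ℝ (fderiv ℝ F₁) :=
    (h₁.fderiv_right (m := 1) (by norm_num)).differentiable (by norm_num)
  have dd2 : Differentiable ℝ (fderiv ℝ F₂) :=
    (h₂.fderiv_right (m := 1) (by norm_num)).differentiable (by norm_num)
  have hD : fderiv ℝ (fun y => F₁ y + c * F₂ y) =
      fun z => fderiv ℝ F₁ z + c • fderiv ℝ F₂ z := by
    funext z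
    exact ((d1 z).hasFDerivAt.add ((d2 z).hasFDerivAt.const_mul c)).fderiv
  have h2 : fderiv ℝ (fun z => fderiv ℝ F₁ z + c • fderiv ℝ F₂ z) y =
      fderiv ℝ (fderiv ℝ F₁) y + c • fderiv ℝ (fderiv ℝ F₂) y :=
    ((dd1 y).hasFDerivAt.add ((dd2 y).hasFDerivAt.const_smul c)).fderiv
  unfold Metric.hess
  rw [hD, h2]
  show fderiv ℝ (fderiv ℝ F₁) y w w + c * fderiv ℝ (fderiv ℝ F₂) y w w -
    (fderiv ℝ F₁ y (G.christoffel y w w) + c * fderiv ℝ F₂ y (G.christoffel y w w)) = _
  ring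

theorem hess_neg (G : Metric n) (F : E n → ℝ) (y w : E n) :
    G.hess (fun y => -F y) y w w = -G.hess F y w w := by
  have hD : fderiv ℝ (fun y => -F y) = fun z => -fderiv ℝ F z := by
    funext z
    exact fderiv_fun_neg
  have h2 : fderiv ℝ (fun z => -fderiv ℝ F z) y = - fderiv ℝ (fderiv ℝ F) y := fderiv_fun_neg
  unfold Metric.hess
  rw [hD, h2]
  show -(fderiv ℝ (fderiv ℝ F) y w w) - -(fderiv ℝ F y (G.christoffel y w w)) = _
  ring

theorem hess_sum (G : Metric n) {ι : Type*} (s : Finset ι) (c : ι → ℝ) (F : ι → E n → ℝ)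
    (h : ∀ i ∈ s, ContDiff ℝ 2 (F i)) (y w : E n) :
    G.hess (fun y => ∑ i ∈ s, c i * F i y) y w w = ∑ i ∈ s, c i * G.hess (F i) y w w := by
  classical
  induction s using Finset.induction_on with
  | empty =>
    have hD : fderiv ℝ (fun _ : E n => (0 : ℝ)) = fun _ => 0 := by
      funext z
      exact (hasFDerivAt_const (0 : ℝ) z).fderiv
    simp only [Finset.sum_empty]
    unfold Metric.hess
    rw [hD]
    have h2 : fderiv ℝ (fun _ : E n => (0 : E n →L[ℝ] ℝ)) y = 0 :=
      (hasFDerivAt_const (0 : E n →L[ℝ] ℝ) y).fderiv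
    rw [h2]
    simp
  | insert i s hi ih =>
    have hs : ContDiff ℝ 2 (fun y => ∑ i ∈ s, c i * F i y) :=
      ContDiff.sum fun j hj => contDiff_const.mul (h j (Finset.mem_insert_of_mem hj))
    have e : (fun y => ∑ j ∈ insert i s, c j * F j y) =
        fun y => (∑ j ∈ s, c j * F j y) + c i * F i y := by
      funext z
      rw [Finset.sum_insert hi, add_comm]
    rw [e, hess_add G _ _ _ y w hs (h i (Finset.mem_insert_self i s)),
      ih (fun j hj => h j (Finset.mem_insert_of_mem hj)), Finset.sum_insert hi, add_comm]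

end Pool.Agent.H793.MS
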