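import Pool.Agent.H793.MS.Defs

set_option autoImplicit false

open scoped ContDiff Topology ENNReal Manifold
open MeasureTheory Set Filter

namespace Pool.Agent.H793.MS

variable {n m : ℕ}

/-- the growth bound extended to the radius zero, in `ℝ≥0∞` -/
theorem null_growth_ball (ν : Measure (E n)) [IsFiniteMeasure ν] (m : ℕ) (hm : 1 ≤ m)
    (r₀ : ℝ) (hr₀ : 0 < r₀) (C : ℝ) (x : E n)
    (h : ∀ r : ℝ, 0 < r → r ≤ r₀ → ν.real (Metric.closedBall x r) ≤ C * r ^ m)
    (r : ℝ) (hr : 0 ≤ r) (hr' : r ≤ r₀) :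
    ν (Metric.closedBall x r) ≤ ENNReal.ofReal (C * r ^ m) := by
  have key : ∀ ρ : ℝ, 0 < ρ → ρ ≤ r₀ →
      ν (Metric.closedBall x ρ) ≤ ENNReal.ofReal (C * ρ ^ m) := by
    intro ρ h1 h2
    rw [← ENNReal.ofReal_toReal (measure_ne_top ν (Metric.closedBall x ρ))]
    exact ENNReal.ofReal_le_ofReal (h ρ h1 h2)
  rcases hr.lt_or_eq with h0 | h0
  · exact key r h0 hr'
  · subst h0
    have hc : Continuous fun ρ : ℝ => ENNReal.ofReal (C * ρ ^ m) :=
      ENNReal.continuous_ofReal.comp (by fun_prop)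
    have ht : Tendsto (fun ρ : ℝ => ENNReal.ofReal (C * ρ ^ m)) (𝓝[>] 0)
        (𝓝 (ENNReal.ofReal (C * (0 : ℝ) ^ m))) :=
      (hc.tendsto 0).mono_left nhdsWithin_le_nhds
    refine ge_of_tendsto ht ?_
    filter_upwards [Ioc_mem_nhdsGT hr₀] with ρ hρ
    exact (measure_mono (Metric.closedBall_subset_closedBall hρ.1.le)).trans (key ρ hρ.1 hρ.2)

/-- The mass distribution principle. -/
theorem null_of_growth (ν : Measure (E n)) [IsFiniteMeasure ν] (m : ℕ) (hm : 1 ≤ m)
    (S : Set (E n)) (hS : μH[(m : ℝ)] S = 0) (r₀ : ℝ) (hr₀ : 0 < r₀) (C : ℝ) (hC : 0 ≤ C)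
    (h : ∀ x ∈ S, ∀ r : ℝ, 0 < r → r ≤ r₀ → ν.real (Metric.closedBall x r) ≤ C * r ^ m) :
    ν S = 0 := by
  have hc0 : ENNReal.ofReal C + 1 ≠ 0 := by simp
  have hct : ENNReal.ofReal C + 1 ≠ ⊤ := by simp
  have hr : (0 : ℝ≥0∞) < ENNReal.ofReal r₀ := ENNReal.ofReal_pos.2 hr₀
  have main : ν S / (ENNReal.ofReal C + 1) ≤ μH[(m : ℝ)] S := by
    rw [Measure.hausdorffMeasure_apply]
    refine le_iSup₂_of_le (ENNReal.ofReal r₀) hr ?_
    refine le_iInf fun t => le_iInf fun hcov => le_iInf fun hd => ?_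
    rw [ENNReal.div_le_iff hc0 hct]
    have h1 : S ⊆ ⋃ k, (t k ∩ S) := by
      intro x hx
      obtain ⟨k, hk⟩ := mem_iUnion.1 (hcov hx)
      exact mem_iUnion.2 ⟨k, hk, hx⟩
    calc ν S ≤ ν (⋃ k, (t k ∩ S)) := measure_mono h1
      _ ≤ ∑' k, ν (t k ∩ S) := measure_iUnion_le _
      _ ≤ ∑' k, (⨆ _ : (t k).Nonempty, Metric.ediam (t k) ^ (m : ℝ)) *
            (ENNReal.ofReal C + 1) := by
          refine ENNReal.tsum_le_tsum fun k => ?_
          rcases (t k ∩ S).eq_empty_or_nonempty with he | ⟨x, hx, hxS⟩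
          · rw [he, measure_empty]
            exact zero_le
          · have hfin : Metric.ediam (t k) ≠ ⊤ := ne_top_of_le_ne_top ENNReal.ofReal_ne_top (hd k)
            have hle : (Metric.ediam (t k)).toReal ≤ r₀ :=
              ENNReal.toReal_le_of_le_ofReal hr₀.le (hd k)
            have hsub : t k ∩ S ⊆ Metric.closedBall x (Metric.ediam (t k)).toReal := by
              rintro y ⟨hy, -⟩
              rw [Metric.mem_closedBall, dist_edist]
              exact ENNReal.toReal_mono hfin (Metric.edist_le_ediam_of_mem hy hx)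
            have h2 := null_growth_ball ν m hm r₀ hr₀ C x (h x hxS)
              (Metric.ediam (t k)).toReal ENNReal.toReal_nonneg hle
            have h3 : ENNReal.ofReal (C * (Metric.ediam (t k)).toReal ^ m) =
                Metric.ediam (t k) ^ (m : ℝ) * ENNReal.ofReal C := by
              rw [ENNReal.ofReal_mul hC, ENNReal.ofReal_pow ENNReal.toReal_nonneg,
                ENNReal.ofReal_toReal hfin, ENNReal.rpow_natCast, mul_comm]
            refine (measure_mono hsub).trans (h2.trans ?_)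
            rw [h3]
            have h4 : Metric.ediam (t k) ^ (m : ℝ) ≤
                ⨆ _ : (t k).Nonempty, Metric.ediam (t k) ^ (m : ℝ) :=
              le_iSup (fun _ : (t k).Nonempty => Metric.ediam (t k) ^ (m : ℝ)) ⟨x, hx⟩
            exact mul_le_mul' h4 le_self_add
      _ = (∑' k, ⨆ _ : (t k).Nonempty, Metric.ediam (t k) ^ (m : ℝ)) *
            (ENNReal.ofReal C + 1) := ENNReal.tsum_mul_right
  rw [hS] at main
  have h5 : ν S / (ENNReal.ofReal C + 1) = 0 := le_antisymm main zero_le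
  rw [ENNReal.div_eq_zero_iff] at h5
  rcases h5 with h5 | h5
  · exact h5
  · exact absurd h5 hct

end Pool.Agent.H793.MS
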