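import Pool.Agent.H793.MS.Grow
import Pool.Agent.H793.MS.Mass
import Pool.Agent.H793.MS.Dual
import Pool.Agent.H793.MS.KerH
import Pool.Agent.H793.MS.KerF

set_option autoImplicit false

open scoped ContDiff Topology ENNReal Manifold
open MeasureTheory Set Filter

namespace Pool.Agent.H793.MS

variable {n m : ℕ}

/-- The base of the kernels is positive. -/
theorem ew_base_pos (G : Metric n) (x y : E n) {r : ℝ} (hr : 0 < r) : 0 < r ^ 2 + qf G x y := by
  have h1 := qf_nonneg G x y
  positivity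

/-- Continuity of the quadratic form in the second variable. -/
theorem ew_cont_qf (G : Metric n) (x : E n) : Continuous fun y : E n => qf G x y :=
  (continuous_qf G).comp (continuous_const.prodMk continuous_id)

/-- Continuity of the powers. -/
theorem ew_cont_pow (G : Metric n) (x : E n) {r : ℝ} (hr : 0 < r) (α : ℝ) :
    Continuous fun y : E n => (r ^ 2 + qf G x y) ^ α :=
  (continuous_const.add (ew_cont_qf G x)).rpow_const fun y => Or.inl (ew_base_pos G x y hr).ne'

/-- A combination of the kernels with `∑ c_i (kk - A ker0) > 0` on a compact `H^m`-null set. -/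
theorem exists_combination (hm : 3 ≤ m) (G : Metric n) (S : Set (E n)) (hSc : IsCompact S)
    (hS : μH[(m : ℝ)] S = 0) (A : ℝ) (hA : 0 ≤ A) :
    ∃ (N : ℕ) (c : Fin N → ℝ) (x : Fin N → E n) (r : Fin N → ℝ),
      (∀ i, 0 ≤ c i ∧ x i ∈ S ∧ 0 < r i ∧ r i ≤ 1) ∧
      ∀ y ∈ S, 0 < ∑ i, c i * (kk G m (x i) (r i) y - A * ker0 G m (x i) (r i) y) := by
  classical
  have hcs : CompactSpace S := isCompact_iff_compactSpace.mp hSc
  let T : Type := {p : E n × ℝ // p.1 ∈ S ∧ 0 < p.2 ∧ p.2 ≤ 1}
  have hck : ∀ t : T, Continuous fun y : S => kk G m t.1.1 t.1.2 (y : E n) := fun t => by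
    unfold kk
    exact continuous_const.mul ((ew_cont_pow G t.1.1 t.2.2.1 _).comp continuous_subtype_val)
  have hc0 : ∀ t : T, Continuous fun y : S => ker0 G m t.1.1 t.1.2 (y : E n) := fun t => by
    unfold ker0
    exact (ew_cont_pow G t.1.1 t.2.2.1 _).comp continuous_subtype_val
  let ψ : T → C(S, ℝ) := fun t =>
    ⟨fun y => kk G m t.1.1 t.1.2 (y : E n) - A * ker0 G m t.1.1 t.1.2 (y : E n),
      (hck t).sub (continuous_const.mul (hc0 t))⟩
  rcases dual_alternative ψ with ⟨N, c, t, hc, hpos⟩ | ⟨ν, hν, hν0, hνt⟩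
  · exact ⟨N, c, fun i => (t i).1.1, fun i => (t i).1.2,
      fun i => ⟨hc i, (t i).2.1, (t i).2.2.1, (t i).2.2.2⟩, fun y hy => hpos ⟨y, hy⟩⟩
  exfalso
  obtain ⟨C, hC, hgr⟩ := growth m hm A hA
  obtain ⟨Ck, hCk, hqb⟩ := qf_bounds G S hSc
  have hCk0 : 0 < Ck := by linarith
  have hint : ∀ f : S → ℝ, Continuous f → Integrable f ν := fun f hf =>
    hf.integrable_of_hasCompactSupport (HasCompactSupport.of_compactSpace f)
  -- growth of `ν`
  have hg : ∀ x ∈ S, ∀ r : ℝ, 0 < r → r ≤ 1 →
      ν.real {y : S | qf G x (y : E n) ≤ r ^ 2} ≤ C * ν.real univ * r ^ m := by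
    intro x hx
    refine hgr S ν (fun y : S => qf G x (y : E n))
      ((ew_cont_qf G x).comp continuous_subtype_val).measurable
      (fun y => qf_nonneg G x (y : E n)) fun r hr hr1 => ?_
    have h1 := hνt ⟨(x, r), hx, hr, hr1⟩
    have h2 : ∫ y : S, (kk G m x r (y : E n) - A * ker0 G m x r (y : E n)) ∂ν =
        (∫ y : S, kk G m x r (y : E n) ∂ν) - A * ∫ y : S, ker0 G m x r (y : E n) ∂ν := by
      rw [integral_sub (hint _ (hck ⟨(x, r), hx, hr, hr1⟩))
        ((hint _ (hc0 ⟨(x, r), hx, hr, hr1⟩)).const_mul A), integral_const_mul]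
    have h3 : ∫ y : S, (kk G m x r (y : E n) - A * ker0 G m x r (y : E n)) ∂ν ≤ 0 := h1
    rw [h2] at h3
    have h4 : (∫ y : S, kk G m x r (y : E n) ∂ν) ≤ A * ∫ y : S, ker0 G m x r (y : E n) ∂ν := by
      linarith
    exact h4
  have hme : MeasurableEmbedding (Subtype.val : S → E n) :=
    MeasurableEmbedding.subtype_coe hSc.measurableSet
  have hfm : IsFiniteMeasure (ν.map (Subtype.val : S → E n)) :=
    Measure.isFiniteMeasure_map ν _
  have hnull := null_of_growth (ν.map (Subtype.val : S → E n)) m (by omega) S hS (1 / Ck)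
    (by positivity) (C * ν.real univ * Ck ^ m) (by positivity) (by
      intro x hx ρ hρ hρ1
      have hρ2 : Ck * ρ ≤ 1 := by
        rw [le_div_iff₀ hCk0] at hρ1
        linarith
      have h1 := hg x hx (Ck * ρ) (by positivity) hρ2
      have h2 : (ν.map (Subtype.val : S → E n)).real (Metric.closedBall x ρ) =
          ν.real ((Subtype.val : S → E n) ⁻¹' Metric.closedBall x ρ) := by
        unfold Measure.real
        rw [hme.map_apply]
      have h3 : ν.real ((Subtype.val : S → E n) ⁻¹' Metric.closedBall x ρ) ≤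
          ν.real {y : S | qf G x (y : E n) ≤ (Ck * ρ) ^ 2} := by
        refine measureReal_mono ?_ (measure_ne_top _ _)
        intro y hy
        have hy1 : ‖(y : E n) - x‖ ≤ ρ := by
          have : (y : E n) ∈ Metric.closedBall x ρ := hy
          rw [Metric.mem_closedBall, dist_eq_norm] at this
          exact this
        have hy2 := (hqb x hx (y : E n) y.2).2.1
        show qf G x (y : E n) ≤ (Ck * ρ) ^ 2
        calc qf G x (y : E n) ≤ Ck ^ 2 * ‖(y : E n) - x‖ ^ 2 := hy2
          _ ≤ Ck ^ 2 * ρ ^ 2 := by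
              refine mul_le_mul_of_nonneg_left ?_ (by positivity)
              exact pow_le_pow_left₀ (norm_nonneg _) hy1 2
          _ = (Ck * ρ) ^ 2 := by ring
      rw [h2]
      calc _ ≤ C * ν.real univ * (Ck * ρ) ^ m := h3.trans h1
        _ = C * ν.real univ * Ck ^ m * ρ ^ m := by rw [mul_pow]; ring)
  rw [hme.map_apply] at hnull
  apply hν0
  have h5 : (Subtype.val : S → E n) ⁻¹' S = univ := by
    ext y
    simp
  rwa [h5] at hnull

end Pool.Agent.H793.MS
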