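import Pool.Agent.H793.MS.Defs

set_option autoImplicit false

open scoped ContDiff Topology ENNReal Manifold
open MeasureTheory Set Filter

namespace Pool.Agent.H793.MS

variable {n m : ℕ}

theorem fr_bas_sum (x : E m) : ∑ i, x i • bas i = x := by
  ext j
  simp [bas, Finset.sum_apply, Pi.single_apply]

theorem fr_form (G : Metric n) (y : E n) (L : E m →L[ℝ] E n) (x x' : E m) :
    G.g y (L x) (L x') = ∑ i, ∑ j, x i * x' j * G.g y (L (bas i)) (L (bas j)) := by
  conv_lhs => rw [← fr_bas_sum x, ← fr_bas_sum x']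
  simp only [map_sum, map_smul, FunLike.coe_sum, Finset.sum_apply, FunLike.coe_smul, Pi.smul_apply,
    smul_eq_mul, Finset.mul_sum]
  rw [Finset.sum_comm]
  exact Finset.sum_congr rfl fun i _ => Finset.sum_congr rfl fun j _ => by ring

/-- The Gram matrix of an immersion is positive definite. -/
theorem gram_posDef (G : Metric n) (ψ : E m → E n) (u : E m)
    (h : Function.Injective (fderiv ℝ ψ u)) : (gram G ψ u).PosDef := by
  refine Matrix.PosDef.of_dotProduct_mulVec_pos ?_ ?_
  · ext i j
    simp only [Matrix.conjTranspose_apply, gram, Matrix.of_apply, star_trivial]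
    exact G.symm _ _ _
  · intro x hx
    have h1 : star x ⬝ᵥ (gram G ψ u).mulVec x =
        G.g (ψ u) (fderiv ℝ ψ u (WithLp.toLp 2 x)) (fderiv ℝ ψ u (WithLp.toLp 2 x)) := by
      rw [fr_form]
      simp only [dotProduct, Matrix.mulVec, gram, Matrix.of_apply, Finset.mul_sum, star_trivial]
      exact Finset.sum_congr rfl fun i _ => Finset.sum_congr rfl fun j _ => by ring
    rw [h1]
    refine G.pos _ _ fun h0 => hx ?_
    have h2 : (WithLp.toLp 2 x : E m) = 0 := h (by rw [h0, map_zero])
    funext i
    have := congrArg (fun z : E m => z i) h2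
    simpa using this

open scoped MatrixOrder in
theorem fr_factor {P : Matrix (Fin m) (Fin m) ℝ} (hP : P.PosDef) :
    ∃ A : Matrix (Fin m) (Fin m) ℝ, A.transpose * P * A = 1 ∧ P⁻¹ = A * A.transpose := by
  obtain ⟨B, hB⟩ := CStarAlgebra.nonneg_iff_eq_star_mul_self.mp hP.posSemidef.nonneg
  have hB' : P = B.transpose * B := by
    rw [hB]
    congr 1
  have hdet : IsUnit B.det := by
    have h1 := hP.det_pos
    rw [hB', Matrix.det_mul, Matrix.det_transpose] at h1
    exact isUnit_iff_ne_zero.2 fun h => by rw [h, mul_zero] at h1; exact lt_irrefl _ h1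
  refine ⟨B⁻¹, ?_, ?_⟩
  · rw [hB', Matrix.mul_assoc, Matrix.mul_assoc, Matrix.mul_nonsing_inv _ hdet, Matrix.mul_one,
      ← Matrix.transpose_mul, Matrix.mul_nonsing_inv _ hdet, Matrix.transpose_one]
  · rw [hB', Matrix.mul_inv_rev, Matrix.transpose_nonsing_inv]

/-- There is an orthonormal basis of the tangent space, and contraction with the inverse of the
Gram matrix is the trace in this basis. -/
theorem exists_frame (G : Metric n) (ψ : E m → E n) (u : E m)
    (h : Function.Injective (fderiv ℝ ψ u)) :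
    ∃ v : Fin m → E m, G.Ortho (ψ u) (fun i => fderiv ℝ ψ u (v i)) ∧
      ∀ (X : Type) [AddCommGroup X] [Module ℝ X] (B : E m →ₗ[ℝ] E m →ₗ[ℝ] X),
        ∑ i, ∑ j, (gram G ψ u)⁻¹ i j • B (bas i) (bas j) = ∑ k, B (v k) (v k) := by
  obtain ⟨A, hA1, hA2⟩ := fr_factor (gram_posDef G ψ u h)
  refine ⟨fun k => WithLp.toLp 2 fun i => A i k, fun k l => ?_, ?_⟩
  · rw [fr_form]
    have h1 := congrFun (congrFun hA1 k) l
    rw [Matrix.one_apply] at h1
    rw [← h1, Matrix.mul_apply]
    simp only [Matrix.mul_apply, Matrix.transpose_apply, gram, Matrix.of_apply, Finset.sum_mul]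
    rw [Finset.sum_comm]
    exact Finset.sum_congr rfl fun i _ => Finset.sum_congr rfl fun j _ => by ring
  · intro X _ _ B
    rw [hA2]
    have h2 : ∀ k, B (WithLp.toLp 2 fun i => A i k) (WithLp.toLp 2 fun i => A i k) =
        ∑ i, ∑ j, (A i k * A j k) • B (bas i) (bas j) := by
      intro k
      conv_lhs => rw [← fr_bas_sum (WithLp.toLp 2 fun i => A i k)]
      simp only [map_sum, map_smul, LinearMap.sum_apply, LinearMap.smul_apply, Finset.smul_sum,
        smul_smul]
      rw [Finset.sum_comm]
      exact Finset.sum_congr rfl fun i _ => Finset.sum_congr rfl fun j _ => by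
        rw [mul_comm]
    simp only [h2]
    symm
    rw [Finset.sum_comm]
    refine Finset.sum_congr rfl fun i _ => ?_
    rw [Finset.sum_comm]
    refine Finset.sum_congr rfl fun j _ => ?_
    rw [Matrix.mul_apply, Finset.sum_smul]
    rfl

end Pool.Agent.H793.MS
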