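import Mathlib
import Pool.Agent.H793.MS.Defs

set_option autoImplicit false

open scoped ContDiff Topology ENNReal Manifold
open MeasureTheory Set Filter

namespace Pool.Agent.H793.MS

variable {n m : ℕ}

theorem ibp_cont (O K : Set (E m)) (hO : IsOpen O) (hK : IsClosed K) (hKO : K ⊆ O) (a : E m → ℝ)
    (ha : ContinuousOn a O) (h0 : ∀ x, x ∉ K → a x = 0) : Continuous a := by
  rw [continuous_iff_continuousAt]
  intro x
  by_cases hx : x ∈ O
  · exact ha.continuousAt (hO.mem_nhds hx)
  · have hxK : x ∉ K := fun h => hx (hKO h)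
    have he : a =ᶠ[𝓝 x] fun _ => (0 : ℝ) := by
      filter_upwards [hK.isOpen_compl.mem_nhds hxK] with y hy
      exact h0 y hy
    exact continuousAt_const.congr he.symm

theorem ibp_zero (h : E m → ℝ) (hh : ContDiff ℝ 1 h) (hc : HasCompactSupport h) (v : E m) :
    ∫ u, fderiv ℝ h u v = 0 := by
  have hcf : Continuous (fun u => fderiv ℝ h u v) :=
    (hh.continuous_fderiv one_ne_zero).clm_apply continuous_const
  have hi : Integrable (fun u => fderiv ℝ h u v) :=
    hcf.integrable_of_hasCompactSupport (hc.fderiv_apply ℝ v)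
  have hi2 : Integrable h := hh.continuous.integrable_of_hasCompactSupport hc
  have hd : Differentiable ℝ h := hh.differentiable one_ne_zero
  have key := integral_mul_fderiv_eq_neg_fderiv_mul_of_integrable (μ := (volume : Measure (E m)))
    (𝕜 := ℝ) (f := fun _ : E m => (1 : ℝ)) (g := h) (v := v)
    (by simp) (by simpa using hi) (by simpa using hi2) (fun x _ => differentiableAt_const _)
    (fun x _ => hd x)
  simpa using key

/-- Integration by parts in an open set of `ℝᵐ`. -/
theorem ibp (O : Set (E m)) (hO : IsOpen O) (X : E m → Fin m → ℝ)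
    (hX : ∀ j, ContDiffOn ℝ 1 (fun v => X v j) O) (f : E m → ℝ) (hf : ContDiff ℝ 1 f)
    (hc : HasCompactSupport f) (hs : tsupport f ⊆ O) :
    ∫ u, ∑ j, X u j * fderiv ℝ f u (bas j) =
      -∫ u, f u * ∑ j, fderiv ℝ (fun v => X v j) u (bas j) := by
  have hcl : IsClosed (tsupport f) := isClosed_tsupport f
  have f0 : ∀ x, x ∉ tsupport f → f x = 0 := fun x hx => image_eq_zero_of_notMem_tsupport hx
  have fe : ∀ x, x ∉ tsupport f → f =ᶠ[𝓝 x] fun _ => (0 : ℝ) := by
    intro x hx
    filter_upwards [hcl.isOpen_compl.mem_nhds hx] with y hy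
    exact f0 y hy
  have df0 : ∀ x, x ∉ tsupport f → fderiv ℝ f x = 0 := by
    intro x hx
    rw [(fe x hx).fderiv_eq]
    simp
  -- the two functions
  have cA : ∀ j, Continuous (fun u => X u j * fderiv ℝ f u (bas j)) := by
    intro j
    refine ibp_cont O (tsupport f) hO hcl hs _ ?_ ?_
    · exact (hX j).continuousOn.mul
        ((hf.continuous_fderiv one_ne_zero).clm_apply continuous_const).continuousOn
    · intro x hx
      rw [df0 x hx]
      simp
  have cB : ∀ j, Continuous (fun u => f u * fderiv ℝ (fun v => X v j) u (bas j)) := by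
    intro j
    refine ibp_cont O (tsupport f) hO hcl hs _ ?_ ?_
    · exact hf.continuous.continuousOn.mul
        (((hX j).continuousOn_fderiv_of_isOpen hO le_rfl).clm_apply continuousOn_const)
    · intro x hx
      rw [f0 x hx]
      simp
  have iA : ∀ j, Integrable (fun u => X u j * fderiv ℝ f u (bas j)) := by
    intro j
    refine (cA j).integrable_of_hasCompactSupport (HasCompactSupport.intro hc ?_)
    intro x hx
    rw [df0 x hx]
    simp
  have iB : ∀ j, Integrable (fun u => f u * fderiv ℝ (fun v => X v j) u (bas j)) := by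
    intro j
    refine (cB j).integrable_of_hasCompactSupport (HasCompactSupport.intro hc ?_)
    intro x hx
    rw [f0 x hx]
    simp
  have hh : ∀ j, ContDiff ℝ 1 (fun u => X u j * f u) := by
    intro j
    rw [contDiff_iff_contDiffAt]
    intro x
    by_cases hx : x ∈ O
    · exact ((hX j).contDiffAt (hO.mem_nhds hx)).mul hf.contDiffAt
    · have hxK : x ∉ tsupport f := fun h => hx (hs h)
      have he : (fun u => X u j * f u) =ᶠ[𝓝 x] fun _ => (0 : ℝ) := by
        filter_upwards [fe x hxK] with y hy
        rw [hy, mul_zero]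
      exact contDiffAt_const.congr_of_eventuallyEq he
  have hhc : ∀ j, HasCompactSupport (fun u => X u j * f u) := by
    intro j
    refine HasCompactSupport.intro hc ?_
    intro x hx
    rw [f0 x hx, mul_zero]
  have hd : ∀ j u, fderiv ℝ (fun u => X u j * f u) u (bas j) =
      X u j * fderiv ℝ f u (bas j) + f u * fderiv ℝ (fun v => X v j) u (bas j) := by
    intro j u
    by_cases hu : u ∈ tsupport f
    · have huO : u ∈ O := hs hu
      have d1 : DifferentiableAt ℝ (fun v => X v j) u :=
        ((hX j).contDiffAt (hO.mem_nhds huO)).differentiableAt one_ne_zero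
      have d2 : DifferentiableAt ℝ f u := hf.contDiffAt.differentiableAt one_ne_zero
      rw [fderiv_fun_mul d1 d2]
      simp
    · have he : (fun u => X u j * f u) =ᶠ[𝓝 u] fun _ => (0 : ℝ) := by
        filter_upwards [fe u hu] with y hy
        rw [hy, mul_zero]
      rw [he.fderiv_eq, df0 u hu, f0 u hu]
      simp
  have hj : ∀ j, (∫ u, X u j * fderiv ℝ f u (bas j)) =
      - ∫ u, f u * fderiv ℝ (fun v => X v j) u (bas j) := by
    intro j
    have h1 := ibp_zero _ (hh j) (hhc j) (bas j)
    simp only [hd] at h1
    rw [integral_add (iA j) (iB j)] at h1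
    linarith
  rw [integral_finsetSum _ (fun j _ => iA j)]
  simp only [Finset.mul_sum]
  rw [integral_finsetSum _ (fun j _ => iB j), ← Finset.sum_neg_distrib]
  exact Finset.sum_congr rfl (fun j _ => hj j)

end Pool.Agent.H793.MS
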