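import Pool.Agent.H793.MS.Div
import Pool.Agent.H793.MS.Ibp

set_option autoImplicit false

open scoped ContDiff Topology ENNReal Manifold
open MeasureTheory Set Filter

namespace Pool.Agent.H793.MS

variable {n m : ℕ}

/-- Green's formula in coordinates. -/
theorem green_chart (G : Metric n) (ψ : E m → E n) (O : Set (E m)) (hO : IsOpen O)
    (hψ : ContDiffOn ℝ ∞ ψ O) (himm : ∀ u ∈ O, Function.Injective (fderiv ℝ ψ u))
    (hmin : ∀ u ∈ O, MeanCurvZero G ψ u) (F : E n → ℝ) (hF : ContDiff ℝ 2 F)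
    (f : E m → ℝ) (hf : ContDiff ℝ 1 f) (hc : HasCompactSupport f) (hs : tsupport f ⊆ O) :
    ∫ u, dens G ψ u * ginner G ψ (fun y => F (ψ y)) f u =
      -∫ u, dens G ψ u * (f u * trH G ψ F u) := by
  have hFψ : ContDiffOn ℝ 2 (fun y => F (ψ y)) O :=
    hF.comp_contDiffOn (hψ.of_le (WithTop.coe_le_coe.2 (le_top : (2 : ℕ∞) ≤ ⊤)))
  have hfd : ContDiffOn ℝ 1 (fderiv ℝ (fun y => F (ψ y))) O :=
    hFψ.fderiv_of_isOpen hO (by norm_num)
  have hX : ∀ j, ContDiffOn ℝ 1 (fun v => dens G ψ v *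
      ((gram G ψ v)⁻¹.mulVec (pd (fun y => F (ψ y)) v)) j) O := by
    intro j
    refine ContDiffOn.mul ((contDiffOn_dens G ψ O hO hψ himm).of_le (by exact_mod_cast le_top)) ?_
    have h1 : (fun v => ((gram G ψ v)⁻¹.mulVec (pd (fun y => F (ψ y)) v)) j) =
        fun v => ∑ i, (gram G ψ v)⁻¹ j i * fderiv ℝ (fun y => F (ψ y)) v (bas i) := rfl
    rw [h1]
    exact ContDiffOn.sum fun i _ => ContDiffOn.mul
      ((contDiffOn_gram_inv G ψ O hO hψ himm j i).of_le (by exact_mod_cast le_top))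
      (hfd.clm_apply contDiffOn_const)
  have h := ibp O hO (fun v j => dens G ψ v *
    ((gram G ψ v)⁻¹.mulVec (pd (fun y => F (ψ y)) v)) j) hX f hf hc hs
  have hL : ∀ u, dens G ψ u * ginner G ψ (fun y => F (ψ y)) f u =
      ∑ j, (dens G ψ u * ((gram G ψ u)⁻¹.mulVec (pd (fun y => F (ψ y)) u)) j) *
        fderiv ℝ f u (bas j) := by
    intro u
    have hsym : ((gram G ψ u)⁻¹).transpose = (gram G ψ u)⁻¹ := by
      rw [Matrix.transpose_nonsing_inv]
      congr 1
      ext i j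
      exact G.symm _ _ _
    unfold ginner
    rw [Matrix.dotProduct_mulVec, ← Matrix.mulVec_transpose, hsym, dotProduct, Finset.mul_sum]
    exact Finset.sum_congr rfl fun j _ => (mul_assoc _ _ _).symm
  have hR : ∀ u, f u * ∑ j, fderiv ℝ (fun v => dens G ψ v *
      ((gram G ψ v)⁻¹.mulVec (pd (fun y => F (ψ y)) v)) j) u (bas j) =
      dens G ψ u * (f u * trH G ψ F u) := by
    intro u
    by_cases hu : u ∈ O
    · rw [div_identity G ψ O hO hψ himm hmin F hF u hu]
      ring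
    · have h2 : f u = 0 := image_eq_zero_of_notMem_tsupport fun hc => hu (hs hc)
      rw [h2, zero_mul, zero_mul, mul_zero]
  simp only [hL]
  rw [h]
  simp only [hR]

end Pool.Agent.H793.MS
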