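import Pool.Agent.H793.MS.Vol
import Pool.Agent.H793.MS.Cont
import Pool.Agent.H793.MS.GrCh

set_option autoImplicit false

open scoped ContDiff Topology ENNReal Manifold
open MeasureTheory Set Filter

namespace Pool.Agent.H793.MS

variable {n m : ℕ}

section
variable {M : Type*} [TopologicalSpace M] [ChartedSpace (E m) M] [IsManifold (𝓡 m) ∞ M]
  [MeasurableSpace M] [BorelSpace M]

/-- Green's formula for functions supported in the domain of a chart. -/
theorem green_local [T2Space M] (G : Metric n) (φ : M → E n)
    (hφ : IsMinimalImmersion (m := m) G φ)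
    (μ : Measure M) (hμ : IsVolume (m := m) G φ μ) (F : E n → ℝ) (hF : ContDiff ℝ 2 F)
    (f : M → ℝ) (hf : ContMDiff (𝓡 m) 𝓘(ℝ, ℝ) 1 f) (hc : HasCompactSupport f) (x₀ : M)
    (hs : tsupport f ⊆ (chartAt (E m) x₀).source) :
    ∫ p, gradInner (m := m) G φ (fun p => F (φ p)) f p ∂μ =
      -∫ p, f p * trHess (m := m) G φ F p ∂μ := by
  classical
  set c := chartAt (E m) x₀ with hcdef
  set ψ : E m → E n := loc (m := m) φ x₀ with hψdef
  set K : Set M := tsupport f with hKdef
  have hKc : IsCompact K := hc
  have hcK : IsCompact (c '' K) := hKc.image_of_continuousOn (c.continuousOn.mono hs)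
  have hcKo : IsOpen (c '' K)ᶜ := hcK.isClosed.isOpen_compl
  have hto : IsOpen c.target := c.open_target
  have hKt : c '' K ⊆ c.target := by
    rintro _ ⟨p, hp, rfl⟩
    exact c.map_source (hs hp)
  set ft : E m → ℝ := fun u => if u ∈ c.target then loc (m := m) f x₀ u else 0 with hft
  have hft0 : ∀ u ∈ (c '' K)ᶜ, ft u = 0 := by
    intro u hu
    by_cases hut : u ∈ c.target
    · have h1 : c.symm u ∉ K := fun h => hu ⟨c.symm u, h, c.right_inv hut⟩
      have h2 : f (c.symm u) = 0 := image_eq_zero_of_notMem_tsupport h1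
      simp only [hft, if_pos hut]
      exact h2
    · simp only [hft, if_neg hut]
  have hfteq : ∀ u ∈ c.target, ft =ᶠ[𝓝 u] loc (m := m) f x₀ := by
    intro u hu
    filter_upwards [hto.mem_nhds hu] with v hv
    simp only [hft, if_pos hv]
  have hftz : ∀ u, u ∉ c.target → ft =ᶠ[𝓝 u] fun _ => 0 := by
    intro u hu
    filter_upwards [hcKo.mem_nhds (fun h => hu (hKt h))] with v hv
    exact hft0 v hv
  have hlf : ContDiffOn ℝ 1 (loc (m := m) f x₀) c.target :=
    contDiffOn_loc (m := m) 1 f hf x₀
  have hftC : ContDiff ℝ 1 ft := by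
    rw [contDiff_iff_contDiffAt]
    intro u
    by_cases hut : u ∈ c.target
    · exact (hlf.contDiffAt (hto.mem_nhds hut)).congr_of_eventuallyEq (hfteq u hut)
    · exact contDiffAt_const.congr_of_eventuallyEq (hftz u hut)
  have hsupp : tsupport ft ⊆ c '' K := by
    refine closure_minimal ?_ hcK.isClosed
    intro u hu
    by_contra h
    exact hu (hft0 u h)
  have hftc : HasCompactSupport ft := hcK.of_isClosed_subset (isClosed_tsupport ft) hsupp
  have hψC : ContDiffOn ℝ ∞ ψ c.target := by
    have := contDiffOn_loc (m := m) ⊤ φ hφ.smooth x₀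
    exact this
  have hFφ : ContMDiff (𝓡 m) 𝓘(ℝ, ℝ) 1 (fun p => F (φ p)) := by
    have h1 : ContMDiff 𝓘(ℝ, E n) 𝓘(ℝ, ℝ) 1 F := (hF.of_le (by norm_num)).contMDiff
    have h2 : ContMDiff (𝓡 m) 𝓘(ℝ, E n) 1 φ := hφ.smooth.of_le (by exact_mod_cast le_top)
    exact h1.comp h2
  have hgreen := green_chart G ψ c.target hto hψC (hφ.immersion x₀) (hφ.minimal x₀) F hF ft
    hftC hftc (hsupp.trans hKt)
  -- the left-hand side
  have hL : ∫ p, gradInner (m := m) G φ (fun p => F (φ p)) f p ∂μ =
      ∫ u, dens G ψ u * ginner G ψ (fun y => F (ψ y)) ft u := by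
    have h1 : ∫ p, gradInner (m := m) G φ (fun p => F (φ p)) f p ∂μ =
        ∫ p in c.source, gradInner (m := m) G φ (fun p => F (φ p)) f p ∂μ := by
      refine (setIntegral_eq_integral_of_forall_compl_eq_zero ?_).symm
      intro p hp
      exact gradInner_eq_zero G φ _ f p (fun h => hp (hs h))
    rw [h1, integral_chart G φ hφ μ hμ x₀ _
      (continuous_gradInner G φ hφ _ f hFφ hf).measurable]
    have h2 : ∫ u, dens G ψ u * ginner G ψ (fun y => F (ψ y)) ft u =
        ∫ u in c.target, dens G ψ u * ginner G ψ (fun y => F (ψ y)) ft u := by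
      refine (setIntegral_eq_integral_of_forall_compl_eq_zero ?_).symm
      intro u hu
      have h3 : pd ft u = 0 := by
        funext i
        simp only [pd, (hftz u hu).fderiv_eq]
        simp
      simp only [ginner, h3, Matrix.mulVec_zero, dotProduct_zero, mul_zero]
    rw [h2]
    refine setIntegral_congr_fun hto.measurableSet ?_
    intro u hu
    have h4 : c.symm u ∈ c.source := c.map_target hu
    have h5 := gradInner_eq G φ hφ.smooth (fun p => F (φ p)) f hFφ hf x₀ (c.symm u) h4
    have h6 : c (c.symm u) = u := c.right_inv hu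
    have h7 : pd ft u = pd (loc (m := m) f x₀) u := by
      funext i
      simp only [pd, (hfteq u hu).fderiv_eq]
    have h8 : loc (m := m) (gradInner (m := m) G φ (fun p => F (φ p)) f) x₀ u =
        ginner G ψ (fun y => F (ψ y)) ft u := by
      change gradInner (m := m) G φ (fun p => F (φ p)) f (c.symm u) = _
      rw [h5]
      change ginner G ψ (loc (m := m) (fun p => F (φ p)) x₀) (loc (m := m) f x₀)
        (c (c.symm u)) = _
      rw [h6]
      simp only [ginner, h7]
      rfl
    simp only [h8]
    rfl
  have hR : ∫ p, f p * trHess (m := m) G φ F p ∂μ =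
      ∫ u, dens G ψ u * (ft u * trH G ψ F u) := by
    have h1 : ∫ p, f p * trHess (m := m) G φ F p ∂μ =
        ∫ p in c.source, f p * trHess (m := m) G φ F p ∂μ := by
      refine (setIntegral_eq_integral_of_forall_compl_eq_zero ?_).symm
      intro p hp
      have : f p = 0 := image_eq_zero_of_notMem_tsupport (fun h => hp (hs h))
      rw [this, zero_mul]
    have hmeas : Measurable (fun p => f p * trHess (m := m) G φ F p) :=
      (hf.continuous.mul (continuous_trHess G φ hφ F hF)).measurable
    rw [h1, integral_chart G φ hφ μ hμ x₀ (fun p => f p * trHess (m := m) G φ F p) hmeas]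
    have h2 : ∫ u, dens G ψ u * (ft u * trH G ψ F u) =
        ∫ u in c.target, dens G ψ u * (ft u * trH G ψ F u) := by
      refine (setIntegral_eq_integral_of_forall_compl_eq_zero ?_).symm
      intro u hu
      have : ft u = 0 := by simp only [hft, if_neg hu]
      rw [this, zero_mul, mul_zero]
    rw [h2]
    refine setIntegral_congr_fun hto.measurableSet ?_
    intro u hu
    have h4 : c.symm u ∈ c.source := c.map_target hu
    have h5 := trHess_eq G φ hφ.smooth F x₀ (c.symm u) h4
    have h6 : c (c.symm u) = u := c.right_inv hu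
    have h7 : ft u = f (c.symm u) := by
      have hu' : u ∈ c.target := hu
      simp only [hft, if_pos hu']
      rfl
    have h8 : loc (m := m) (fun p => f p * trHess (m := m) G φ F p) x₀ u =
        ft u * trH G ψ F u := by
      change f (c.symm u) * trHess (m := m) G φ F (c.symm u) = _
      rw [h5, h7]
      change f (c.symm u) * trH G ψ F (c (c.symm u)) = _
      rw [h6]
    simp only [h8]
    rfl
  rw [hL, hR]
  exact hgreen

end

end Pool.Agent.H793.MS
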