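import Pool.Agent.H793.MS.Green

set_option autoImplicit false

open scoped ContDiff Topology ENNReal Manifold
open MeasureTheory Set Filter

namespace Pool.Agent.H793.MS

variable {n m : ℕ}

section
variable {M : Type*} [TopologicalSpace M] [ChartedSpace (E m) M] [IsManifold (𝓡 m) ∞ M]
  [MeasurableSpace M] [BorelSpace M]

/-- The inner product of gradients is additive in the second function. -/
theorem gradInner_sum {M : Type*} [TopologicalSpace M] [ChartedSpace (E m) M]
    [IsManifold (𝓡 m) ∞ M] (G : Metric n) (φ : M → E n) (a : M → ℝ) {ι : Type*} (s : Finset ι)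
    (b : ι → M → ℝ) (hb : ∀ i ∈ s, ContMDiff (𝓡 m) 𝓘(ℝ, ℝ) 1 (b i)) (p : M) :
    gradInner (m := m) G φ a (fun q => ∑ i ∈ s, b i q) p =
      ∑ i ∈ s, gradInner (m := m) G φ a (b i) p := by
  have hp : chartAt (E m) p p ∈ (chartAt (E m) p).target := mem_chart_target (E m) p
  have hd : ∀ i ∈ s, DifferentiableAt ℝ (loc (m := m) (b i) p) (chartAt (E m) p p) := by
    intro i hi
    have h1 := contDiffOn_loc (m := m) 1 (b i) (hb i hi) p
    exact ((h1.contDiffAt ((isOpen_target p).mem_nhds hp)).differentiableAt (by norm_num))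
  have e1 : loc (m := m) (fun q => ∑ i ∈ s, b i q) p = fun u => ∑ i ∈ s, loc (m := m) (b i) p u :=
    rfl
  have e2 : pd (loc (m := m) (fun q => ∑ i ∈ s, b i q) p) (chartAt (E m) p p) =
      ∑ i ∈ s, pd (loc (m := m) (b i) p) (chartAt (E m) p p) := by
    funext j
    rw [e1]
    simp only [pd, Finset.sum_apply]
    have := fderiv_fun_sum (𝕜 := ℝ) (u := s) (A := fun i => loc (m := m) (b i) p) hd
    rw [this]
    simp
  simp only [gradInner, ginner]
  rw [e2]
  rw [Matrix.mulVec_sum, dotProduct_sum]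

/-- Green's formula: for a minimal immersion, `∫ ⟨∇(F ∘ φ), ∇f⟩ = - ∫ f tr Hess F`. -/
theorem green [T2Space M] [SecondCountableTopology M] (G : Metric n) (φ : M → E n)
    (hφ : IsMinimalImmersion (m := m) G φ)
    (μ : Measure M) (hμ : IsVolume (m := m) G φ μ) (F : E n → ℝ) (hF : ContDiff ℝ 2 F)
    (f : M → ℝ) (hf : ContMDiff (𝓡 m) 𝓘(ℝ, ℝ) 1 f) (hc : HasCompactSupport f) :
    ∫ p, gradInner (m := m) G φ (fun p => F (φ p)) f p ∂μ =
      -∫ p, f p * trHess (m := m) G φ F p ∂μ := by
  classical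
  have hfin : IsFiniteMeasureOnCompacts μ := isFiniteMeasureOnCompacts (m := m) G φ hφ μ hμ
  have hlc : LocallyCompactSpace M := ChartedSpace.locallyCompactSpace (E m) M
  have hsc : SigmaCompactSpace M := inferInstance
  -- a finite cover of the support
  obtain ⟨t, ht⟩ : ∃ t : Finset M, tsupport f ⊆ ⋃ x ∈ t, (chartAt (E m) x).source := by
    refine hc.elim_finite_subcover (fun x : M => (chartAt (E m) x).source)
      (fun x => (chartAt (E m) x).open_source) ?_
    intro x _
    exact mem_iUnion.2 ⟨x, mem_chart_source (E m) x⟩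
  obtain ⟨ρ, hρ⟩ := SmoothPartitionOfUnity.exists_isSubordinate (𝓡 m) (isClosed_tsupport f)
    (fun x : t => (chartAt (E m) (x : M)).source)
    (fun x => (chartAt (E m) (x : M)).open_source) (by
      intro x hx
      obtain ⟨y, hy, hxy⟩ := mem_iUnion₂.1 (ht hx)
      exact mem_iUnion.2 ⟨⟨y, hy⟩, hxy⟩)
  set b : t → M → ℝ := fun i q => ρ i q * f q with hb
  have hbs : ∀ i, ContMDiff (𝓡 m) 𝓘(ℝ, ℝ) 1 (b i) := by
    intro i
    have h1 : ContMDiff (𝓡 m) 𝓘(ℝ, ℝ) 1 (ρ i) := (ρ i).contMDiff.of_le (by exact_mod_cast le_top)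
    exact h1.mul hf
  have hbc : ∀ i, HasCompactSupport (b i) := fun i => hc.mul_left
  have hbt : ∀ i, tsupport (b i) ⊆ (chartAt (E m) (i : M)).source := by
    intro i
    refine (closure_mono ?_).trans (hρ i)
    intro q hq
    exact left_ne_zero_of_mul hq
  have hsum : f = fun q => ∑ i ∈ (Finset.univ : Finset t), b i q := by
    funext q
    simp only [hb]
    rw [← Finset.sum_mul]
    by_cases hq : q ∈ tsupport f
    · have := ρ.sum_eq_one hq
      rw [finsum_eq_sum_of_fintype] at this
      rw [this, one_mul]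
    · rw [image_eq_zero_of_notMem_tsupport hq, mul_zero]
  have hFφ : ContMDiff (𝓡 m) 𝓘(ℝ, ℝ) 1 (fun p => F (φ p)) := by
    have h1 : ContMDiff 𝓘(ℝ, E n) 𝓘(ℝ, ℝ) 1 F := (hF.of_le (by norm_num)).contMDiff
    have h2 : ContMDiff (𝓡 m) 𝓘(ℝ, E n) 1 φ := hφ.smooth.of_le (by exact_mod_cast le_top)
    exact h1.comp h2
  have hgc : ∀ i, Integrable (fun p => gradInner (m := m) G φ (fun p => F (φ p)) (b i) p) μ := by
    intro i
    refine (continuous_gradInner G φ hφ _ _ hFφ (hbs i)).integrable_of_hasCompactSupport ?_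
    refine HasCompactSupport.intro (hbc i) fun p hp => ?_
    exact gradInner_eq_zero G φ _ _ p hp
  have htc : ∀ i, Integrable (fun p => b i p * trHess (m := m) G φ F p) μ := by
    intro i
    refine ((hbs i).continuous.mul (continuous_trHess G φ hφ F hF)).integrable_of_hasCompactSupport
      ?_
    exact (hbc i).mul_right
  have e1 : ∀ p, gradInner (m := m) G φ (fun p => F (φ p)) f p =
      ∑ i ∈ (Finset.univ : Finset t), gradInner (m := m) G φ (fun p => F (φ p)) (b i) p := by
    intro p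
    conv_lhs => rw [hsum]
    exact gradInner_sum G φ _ Finset.univ b (fun i _ => hbs i) p
  have e2 : ∀ p, f p * trHess (m := m) G φ F p =
      ∑ i ∈ (Finset.univ : Finset t), b i p * trHess (m := m) G φ F p := by
    intro p
    conv_lhs => rw [hsum]
    rw [Finset.sum_mul]
  simp_rw [e1, e2]
  rw [integral_finsetSum _ fun i _ => hgc i, integral_finsetSum _ fun i _ => htc i,
    ← Finset.sum_neg_distrib]
  refine Finset.sum_congr rfl fun i _ => ?_
  exact green_local G φ hφ μ hμ F hF (b i) (hbs i) (hbc i) i (hbt i)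

end

end Pool.Agent.H793.MS
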