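import Pool.Agent.H793.MS.Poinc

set_option autoImplicit false

open scoped ContDiff Topology ENNReal Manifold
open MeasureTheory Set Filter

namespace Pool.Agent.H793.MS

variable {n m : ℕ}

/-- a cell of the grid -/
def gcell (x : E m) (R s : ℝ) (k : Fin m → ℤ) : Set (E m) :=
  {u | ∀ j, ⌊u j / s⌋ = k j} ∩ Metric.closedBall x R

lemma gcell_meas (x : E m) (R s : ℝ) (k : Fin m → ℤ) : MeasurableSet (gcell x R s k) := by
  unfold gcell
  apply MeasurableSet.inter _ Metric.isClosed_closedBall.measurableSet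
  have e : {u : E m | ∀ j, ⌊u j / s⌋ = k j} = ⋂ j, {u : E m | ⌊u j / s⌋ = k j} := by
    ext u; simp
  rw [e]
  apply MeasurableSet.iInter
  intro j
  have hm : Measurable (fun u : E m => ⌊u j / s⌋) := by
    apply Int.measurable_floor.comp
    apply Measurable.div_const
    exact (continuous_apply j).measurable.comp
      (PiLp.continuous_ofLp 2 (fun _ : Fin m => ℝ)).measurable
  exact hm (measurableSet_singleton (k j))

lemma gcell_convex (x : E m) (R s : ℝ) (hs : 0 < s) (k : Fin m → ℤ) :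
    Convex ℝ (gcell x R s k) := by
  unfold gcell
  apply Convex.inter _ (convex_closedBall x R)
  intro u hu v hv a b ha hb hab j
  have h1 := Int.floor_eq_iff.mp (hu j)
  have h2 := Int.floor_eq_iff.mp (hv j)
  rw [Int.floor_eq_iff]
  have e : (a • u + b • v) j / s = a * (u j / s) + b * (v j / s) := by
    simp only [PiLp.add_apply, PiLp.smul_apply, smul_eq_mul]
    ring
  rw [e]
  have hb' : b = 1 - a := by linarith
  subst hb'
  constructor
  · nlinarith [h1.1, h2.1, mul_le_mul_of_nonneg_left h1.1 ha, mul_le_mul_of_nonneg_left h2.1 hb]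
  · rcases ha.eq_or_lt with h0 | h0
    · rw [← h0]; linarith [h2.2]
    · have h3 := mul_lt_mul_of_pos_left h1.2 h0
      have h4 := mul_le_mul_of_nonneg_left h2.2.le hb
      nlinarith

lemma gcell_diam (x : E m) (R s : ℝ) (hs : 0 < s) (k : Fin m → ℤ) :
    ∀ u ∈ gcell x R s k, ∀ v ∈ gcell x R s k, ‖u - v‖ ≤ Real.sqrt (m * s ^ 2) := by
  intro u hu v hv
  rw [EuclideanSpace.norm_eq]
  apply Real.sqrt_le_sqrt
  have h : ∀ j : Fin m, ‖(u - v) j‖ ^ 2 ≤ s ^ 2 := by
    intro j
    have h1 := Int.floor_eq_iff.mp (hu.1 j)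
    have h2 := Int.floor_eq_iff.mp (hv.1 j)
    rw [le_div_iff₀ hs, div_lt_iff₀ hs] at h1 h2
    rw [PiLp.sub_apply, Real.norm_eq_abs, sq_abs]
    apply sq_le_sq'
    · nlinarith
    · nlinarith
  calc ∑ j : Fin m, ‖(u - v) j‖ ^ 2 ≤ ∑ _j : Fin m, s ^ 2 := Finset.sum_le_sum fun j _ => h j
    _ = m * s ^ 2 := by simp

lemma abs_apply_le (u : E m) (j : Fin m) : |u j| ≤ ‖u‖ := by
  have := PiLp.norm_apply_le u j
  simpa using this

/-- On a closed ball in an open set, finitely many means control the `L²` norm by a small multiple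
of the gradient. -/
theorem grid (O : Set (E m)) (hO : IsOpen O) (x : E m) (R : ℝ)
    (hR : Metric.closedBall x R ⊆ O) (ε : ℝ) (hε : 0 < ε) :
    ∃ (N : ℕ) (Q : Fin N → Set (E m)), (∀ i, MeasurableSet (Q i) ∧ Q i ⊆ Metric.closedBall x R) ∧
      ∀ f : E m → ℝ, ContDiffOn ℝ 1 f O → (∀ i, ∫ u in Q i, f u = 0) →
        ∫ u in Metric.closedBall x R, f u ^ 2 ≤
          ε * ∫ u in Metric.closedBall x R, ‖fderiv ℝ f u‖ ^ 2 := by
  classical
  -- the side
  obtain ⟨s, hs, hse⟩ : ∃ s : ℝ, 0 < s ∧ 2 ^ m * (m * s ^ 2) ≤ ε := by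
    refine ⟨Real.sqrt (ε / (2 ^ m * (m + 1))), Real.sqrt_pos.mpr (by positivity), ?_⟩
    rw [Real.sq_sqrt (by positivity)]
    have h2 : (0 : ℝ) < 2 ^ m := by positivity
    have h3 : (2 : ℝ) ^ m * (m * (ε / (2 ^ m * (m + 1)))) = ε * (m / (m + 1)) := by
      field_simp
    rw [h3]
    have h4 : (m : ℝ) / (m + 1) ≤ 1 := by
      rw [div_le_one (by positivity)]; linarith
    nlinarith
  set T : Finset (Fin m → ℤ) :=
    Fintype.piFinset (fun j => Finset.Icc ⌊(x j - R) / s⌋ ⌊(x j + R) / s⌋) with hT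
  have hcov : Metric.closedBall x R = ⋃ k ∈ T, gcell x R s k := by
    ext u
    simp only [mem_iUnion, exists_prop]
    constructor
    · intro hu
      refine ⟨fun j => ⌊u j / s⌋, ?_, fun j => rfl, hu⟩
      rw [hT, Fintype.mem_piFinset]
      intro j
      rw [Finset.mem_Icc]
      have h1 : |u j - x j| ≤ R := by
        have h2 := abs_apply_le (u - x) j
        rw [PiLp.sub_apply] at h2
        have h3 : ‖u - x‖ ≤ R := by
          rw [← dist_eq_norm]; exact Metric.mem_closedBall.mp hu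
        linarith
      rw [abs_le] at h1
      constructor
      · apply Int.floor_le_floor
        apply div_le_div_of_nonneg_right _ hs.le
        linarith
      · apply Int.floor_le_floor
        apply div_le_div_of_nonneg_right _ hs.le
        linarith
    · rintro ⟨k, _, hk⟩
      exact hk.2
  have hdisj : Set.Pairwise (T : Set (Fin m → ℤ)) (Function.onFun Disjoint (gcell x R s)) := by
    intro k _ l _ hkl
    show Disjoint (gcell x R s k) (gcell x R s l)
    rw [Set.disjoint_left]
    intro u hu hv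
    apply hkl
    funext j
    rw [← hu.1 j, ← hv.1 j]
  refine ⟨T.card, fun i => gcell x R s ((T.equivFin.symm i : T) : Fin m → ℤ), ?_, ?_⟩
  · intro i
    exact ⟨gcell_meas x R s _, Set.inter_subset_right⟩
  · intro f hf h0
    have hcf : ContinuousOn f O := hf.continuousOn
    have hcd : ContinuousOn (fderiv ℝ f) O := hf.continuousOn_fderiv_of_isOpen hO le_rfl
    have hi1 : IntegrableOn (fun u => f u ^ 2) (Metric.closedBall x R) :=
      ContinuousOn.integrableOn_compact (isCompact_closedBall x R) ((hcf.mono hR).pow 2)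
    have hi2 : IntegrableOn (fun u => ‖fderiv ℝ f u‖ ^ 2) (Metric.closedBall x R) :=
      ContinuousOn.integrableOn_compact (isCompact_closedBall x R) ((hcd.mono hR).norm.pow 2)
    have hsub : ∀ k, gcell x R s k ⊆ Metric.closedBall x R := fun k => Set.inter_subset_right
    have e1 : ∫ u in Metric.closedBall x R, f u ^ 2 = ∑ k ∈ T, ∫ u in gcell x R s k, f u ^ 2 := by
      conv_lhs => rw [hcov]
      exact integral_biUnion_finset T (fun k _ => gcell_meas x R s k) hdisj
        (fun k _ => hi1.mono_set (hsub k))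
    have e2 : ∫ u in Metric.closedBall x R, ‖fderiv ℝ f u‖ ^ 2 =
        ∑ k ∈ T, ∫ u in gcell x R s k, ‖fderiv ℝ f u‖ ^ 2 := by
      conv_lhs => rw [hcov]
      exact integral_biUnion_finset T (fun k _ => gcell_meas x R s k) hdisj
        (fun k _ => hi2.mono_set (hsub k))
    have hsum : ∀ k ∈ T, ∫ u in gcell x R s k, f u ^ 2 ≤
        2 ^ m * (m * s ^ 2) * ∫ u in gcell x R s k, ‖fderiv ℝ f u‖ ^ 2 := by
      intro k hk
      have h00 : ∫ u in gcell x R s k, f u = 0 := by
        have := h0 (T.equivFin ⟨k, hk⟩)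
        simpa using this
      have hp := poincare_convex O (gcell x R s k) hO ((hsub k).trans hR)
        (gcell_convex x R s hs k) (gcell_meas x R s k)
        ⟨Metric.closedBall x R, isCompact_closedBall x R, hsub k, hR⟩ (Real.sqrt (m * s ^ 2))
        (gcell_diam x R s hs k) f hf h00
      rwa [Real.sq_sqrt (by positivity)] at hp
    have hnn : 0 ≤ ∫ u in Metric.closedBall x R, ‖fderiv ℝ f u‖ ^ 2 :=
      integral_nonneg fun u => by positivity
    calc ∫ u in Metric.closedBall x R, f u ^ 2 = ∑ k ∈ T, ∫ u in gcell x R s k, f u ^ 2 := e1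
      _ ≤ ∑ k ∈ T, 2 ^ m * (m * s ^ 2) * ∫ u in gcell x R s k, ‖fderiv ℝ f u‖ ^ 2 :=
          Finset.sum_le_sum hsum
      _ = 2 ^ m * (m * s ^ 2) * ∫ u in Metric.closedBall x R, ‖fderiv ℝ f u‖ ^ 2 := by
          rw [e2, Finset.mul_sum]
      _ ≤ _ := mul_le_mul_of_nonneg_right hse hnn

end Pool.Agent.H793.MS
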