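import Mathlib

set_option autoImplicit false

open scoped ContDiff Topology ENNReal Manifold
open MeasureTheory Set Filter

namespace Pool.Agent.H793.MS

variable {n m : ℕ}

theorem growth_int {Z : Type} [MeasurableSpace Z] (ν : Measure Z) [IsFiniteMeasure ν]
    (s : Z → ℝ) (hs : Measurable s) (hs0 : ∀ z, 0 ≤ s z) (q r : ℝ) (hq : 0 ≤ q) (hr : 0 < r) :
    Integrable (fun z => (r ^ 2 + s z) ^ (-q)) ν := by
  refine Integrable.of_bound (((measurable_const.add hs).pow_const _).aestronglyMeasurable)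
    ((r ^ 2) ^ (-q)) (Eventually.of_forall fun z => ?_)
  have h1 : 0 < r ^ 2 + s z := by have := hs0 z; positivity
  rw [Real.norm_of_nonneg (Real.rpow_nonneg h1.le _)]
  exact Real.rpow_le_rpow_of_nonpos (by positivity) (by have := hs0 z; linarith) (by linarith)

/-- The Gronwall argument: if the measure `ν` satisfies `∫ r²(r² + s)^{-(m+2)/2} dν ≤
A ∫ (r² + s)^{-(m-2)/2} dν` for all `r ∈ (0, 1]`, then `ν(s ≤ r²) ≤ C ν(Z) r^m`. -/
theorem growth (m : ℕ) (hm : 3 ≤ m) (A : ℝ) (hA : 0 ≤ A) :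
    ∃ C : ℝ, 0 ≤ C ∧ ∀ (Z : Type) [MeasurableSpace Z] (ν : Measure Z) [IsFiniteMeasure ν]
      (s : Z → ℝ), Measurable s → (∀ z, 0 ≤ s z) →
      (∀ r : ℝ, 0 < r → r ≤ 1 →
        ∫ z, r ^ 2 * (r ^ 2 + s z) ^ (-(((m : ℝ) + 2) / 2)) ∂ν ≤
          A * ∫ z, (r ^ 2 + s z) ^ (-(((m : ℝ) - 2) / 2)) ∂ν) →
      ∀ r : ℝ, 0 < r → r ≤ 1 → ν.real {z | s z ≤ r ^ 2} ≤ C * ν.real univ * r ^ m := by
  obtain ⟨p, hp⟩ : ∃ p : ℝ, p = ((m : ℝ) - 2) / 2 := ⟨_, rfl⟩
  have hm3 : (3 : ℝ) ≤ m := by exact_mod_cast hm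
  have hp0 : 0 < p := by rw [hp]; linarith
  have e2 : ((m : ℝ) + 2) / 2 = p + 2 := by rw [hp]; ring
  have em : (m : ℝ) = 2 * p + 2 := by rw [hp]; ring
  rw [← hp, e2]
  obtain ⟨c, hc⟩ : ∃ c : ℝ, c = 4 * p * (p + 1) * A := ⟨_, rfl⟩
  have hc0 : 0 ≤ c := by rw [hc]; positivity
  refine ⟨2 ^ (p + 2) * (A * (Real.exp c * (1 + 2 * p))), by positivity, ?_⟩
  intro Z _ ν _ s hs hs0 H r hr hr1
  have hpos : ∀ z (t : ℝ), 0 < t → 0 < t ^ 2 + s z := fun z t ht => by
    have := hs0 z; positivity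
  have hI : ∀ (q t : ℝ), 0 ≤ q → 0 < t → Integrable (fun z => (t ^ 2 + s z) ^ (-q)) ν :=
    fun q t hq ht => growth_int ν s hs hs0 q t hq ht
  have hnn : ∀ z (t q : ℝ), 0 < t → 0 ≤ (t ^ 2 + s z) ^ (-q) := fun z t q ht =>
    Real.rpow_nonneg (hpos z t ht).le _
  let f : ℝ → Z → ℝ := fun t z =>
    (t ^ 2 + s z) ^ (-p) + 2 * p * (t * (t ^ 2 + s z) ^ (-(p + 1)))
  let f' : ℝ → Z → ℝ := fun t z =>
    2 * p * ((1 - t) * (t ^ 2 + s z) ^ (-(p + 1))) -
      4 * p * (p + 1) * (t ^ 2 * (t ^ 2 + s z) ^ (-(p + 2)))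
  have hd : ∀ z t, 0 < t → HasDerivAt (fun t => f t z) (f' t z) t := by
    intro z t ht
    have h0 := hpos z t ht
    have h1 : HasDerivAt (fun t : ℝ => t ^ 2 + s z) (2 * t) t := by
      simpa using (hasDerivAt_pow 2 t).add_const (s z)
    have h2 := h1.rpow_const (p := -p) (Or.inl h0.ne')
    have h3 := h1.rpow_const (p := -(p + 1)) (Or.inl h0.ne')
    have h4 := h2.add (((hasDerivAt_id t).mul h3).const_mul (2 * p))
    refine h4.congr_deriv ?_
    have e3 : -p - 1 = -(p + 1) := by ring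
    have e4 : -(p + 1) - 1 = -(p + 2) := by ring
    simp only [f', e3, e4, id]
    ring
  have hfi : ∀ t, 0 < t → Integrable (f t) ν := fun t ht =>
    (hI p t hp0.le ht).add (((hI (p + 1) t (by linarith) ht).const_mul t).const_mul (2 * p))
  have hf'm : ∀ t, AEStronglyMeasurable (f' t) ν := fun t => by
    have a1 : Measurable fun z => (t ^ 2 + s z) ^ (-(p + 1)) :=
      (measurable_const.add hs).pow_const _
    have a2 : Measurable fun z => (t ^ 2 + s z) ^ (-(p + 2)) :=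
      (measurable_const.add hs).pow_const _
    exact (((a1.const_mul _).const_mul _).sub ((a2.const_mul _).const_mul _)).aestronglyMeasurable
  have hH : ∀ t, 0 < t → HasDerivAt (fun t => ∫ z, f t z ∂ν) (∫ z, f' t z ∂ν) t := by
    intro t ht
    obtain ⟨δ, hδ⟩ : ∃ δ : ℝ, δ = (t / 2) ^ 2 := ⟨_, rfl⟩
    have hδ0 : 0 < δ := by rw [hδ]; positivity
    obtain ⟨R, hR⟩ : ∃ R : ℝ, R = t + 1 := ⟨_, rfl⟩
    refine (hasDerivAt_integral_of_dominated_loc_of_deriv_le (s := Ioo (t / 2) R)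
      (bound := fun _ => 2 * p * ((1 + R) * δ ^ (-(p + 1))) +
        4 * p * (p + 1) * (R ^ 2 * δ ^ (-(p + 2))))
      (Ioo_mem_nhds (by linarith) (by linarith)) ?_ (hfi t ht) (hf'm t) ?_
      (integrable_const _) ?_).2
    · filter_upwards [Ioi_mem_nhds ht] with u hu
      exact (hfi u hu).aestronglyMeasurable
    · refine Eventually.of_forall fun z u hu => ?_
      have hu0 : 0 < u := by have := hu.1; linarith
      have huR : u < R := hu.2
      have hdu : δ ≤ u ^ 2 + s z := by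
        have h5 : (t / 2) ^ 2 ≤ u ^ 2 := by
          apply pow_le_pow_left₀ (by linarith) hu.1.le
        have := hs0 z
        rw [hδ]; linarith
      have b1 : (u ^ 2 + s z) ^ (-(p + 1)) ≤ δ ^ (-(p + 1)) :=
        Real.rpow_le_rpow_of_nonpos hδ0 hdu (by linarith)
      have b2 : (u ^ 2 + s z) ^ (-(p + 2)) ≤ δ ^ (-(p + 2)) :=
        Real.rpow_le_rpow_of_nonpos hδ0 hdu (by linarith)
      have n1 := hnn z u (p + 1) hu0
      have n2 := hnn z u (p + 2) hu0
      have c1 : |(1 - u) * (u ^ 2 + s z) ^ (-(p + 1))| ≤ (1 + R) * δ ^ (-(p + 1)) := by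
        rw [abs_mul, abs_of_nonneg n1]
        apply mul_le_mul _ b1 n1 (by linarith)
        rw [abs_le]; constructor <;> linarith
      have c2 : u ^ 2 * (u ^ 2 + s z) ^ (-(p + 2)) ≤ R ^ 2 * δ ^ (-(p + 2)) := by
        apply mul_le_mul _ b2 n2 (by positivity)
        exact pow_le_pow_left₀ hu0.le huR.le 2
      have c3 : 0 ≤ u ^ 2 * (u ^ 2 + s z) ^ (-(p + 2)) := by positivity
      rw [Real.norm_eq_abs]
      refine (abs_sub _ _).trans ?_
      rw [abs_mul (2 * p), abs_of_pos (show 0 < 2 * p by linarith),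
        abs_of_nonneg (show 0 ≤ 4 * p * (p + 1) * (u ^ 2 * (u ^ 2 + s z) ^ (-(p + 2))) by
          positivity)]
      gcongr
    · exact Eventually.of_forall fun z u hu => hd z u (by have := hu.1; linarith)
  let G : ℝ → ℝ := fun t => ∫ z, f t z ∂ν
  have hΦ : ∀ t, 0 < t → ∫ z, (t ^ 2 + s z) ^ (-p) ∂ν ≤ G t := by
    intro t ht
    refine integral_mono (hI p t hp0.le ht) (hfi t ht) fun z => ?_
    have := hnn z t (p + 1) ht
    simp only [f]
    have h6 : 0 ≤ 2 * p * (t * (t ^ 2 + s z) ^ (-(p + 1))) := by positivity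
    linarith
  have hlow : ∀ t, 0 < t → t ≤ 1 → -c * G t ≤ ∫ z, f' t z ∂ν := by
    intro t ht ht1
    have i1 := hI (p + 1) t (by linarith) ht
    have i2 := hI (p + 2) t (by linarith) ht
    have e5 : ∫ z, f' t z ∂ν = 2 * p * ((1 - t) * ∫ z, (t ^ 2 + s z) ^ (-(p + 1)) ∂ν) -
        4 * p * (p + 1) * ∫ z, t ^ 2 * (t ^ 2 + s z) ^ (-(p + 2)) ∂ν := by
      simp only [f']
      rw [integral_sub ((i1.const_mul _).const_mul _) ((i2.const_mul _).const_mul _),
        integral_const_mul, integral_const_mul, integral_const_mul]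
    have h7 : 0 ≤ ∫ z, (t ^ 2 + s z) ^ (-(p + 1)) ∂ν :=
      integral_nonneg fun z => hnn z t (p + 1) ht
    have h8 := H t ht ht1
    have h9 : A * ∫ z, (t ^ 2 + s z) ^ (-p) ∂ν ≤ A * G t :=
      mul_le_mul_of_nonneg_left (hΦ t ht) hA
    have h10 : 0 ≤ 2 * p * ((1 - t) * ∫ z, (t ^ 2 + s z) ^ (-(p + 1)) ∂ν) := by
      have : 0 ≤ 1 - t := by linarith
      positivity
    have h11 : 4 * p * (p + 1) * ∫ z, t ^ 2 * (t ^ 2 + s z) ^ (-(p + 2)) ∂ν ≤
        4 * p * (p + 1) * (A * G t) :=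
      mul_le_mul_of_nonneg_left (h8.trans h9) (by positivity)
    rw [e5, hc]
    nlinarith
  have hmono : Real.exp (c * r) * G r ≤ Real.exp (c * 1) * G 1 := by
    have hder : ∀ t, 0 < t → HasDerivAt (fun t => Real.exp (c * t) * G t)
        (Real.exp (c * t) * c * G t + Real.exp (c * t) * ∫ z, f' t z ∂ν) t := by
      intro t ht
      have k1 : HasDerivAt (fun t : ℝ => Real.exp (c * t)) (Real.exp (c * t) * c) t := by
        simpa using ((hasDerivAt_id t).const_mul c).exp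
      exact k1.mul (hH t ht)
    have hM : MonotoneOn (fun t => Real.exp (c * t) * G t) (Icc r 1) := by
      apply monotoneOn_of_deriv_nonneg (convex_Icc r 1)
      · intro t ht
        exact (hder t (lt_of_lt_of_le hr ht.1)).continuousAt.continuousWithinAt
      · intro t ht
        rw [interior_Icc] at ht
        exact (hder t (hr.trans ht.1)).differentiableAt.differentiableWithinAt
      · intro t ht
        rw [interior_Icc] at ht
        have ht0 : 0 < t := hr.trans ht.1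
        rw [(hder t ht0).deriv]
        have := hlow t ht0 ht.2.le
        have e0 := Real.exp_pos (c * t)
        nlinarith
    exact hM ⟨le_rfl, hr1⟩ ⟨hr1, le_rfl⟩ hr1
  have hG1 : G 1 ≤ (1 + 2 * p) * ν.real univ := by
    have : G 1 ≤ ∫ _z, (1 + 2 * p) ∂ν := by
      refine integral_mono (hfi 1 one_pos) (integrable_const _) fun z => ?_
      have q1 : ((1 : ℝ) ^ 2 + s z) ^ (-p) ≤ 1 :=
        Real.rpow_le_one_of_one_le_of_nonpos (by have := hs0 z; linarith) (by linarith)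
      have q2 : ((1 : ℝ) ^ 2 + s z) ^ (-(p + 1)) ≤ 1 :=
        Real.rpow_le_one_of_one_le_of_nonpos (by have := hs0 z; linarith) (by linarith)
      simp only [f]
      nlinarith
    rw [integral_const, smul_eq_mul] at this
    linarith
  have hGr0 : 0 ≤ G r := by
    refine le_trans ?_ (hΦ r hr)
    exact integral_nonneg fun z => hnn z r p hr
  have hGr : G r ≤ Real.exp c * ((1 + 2 * p) * ν.real univ) := by
    have k1 : (1 : ℝ) ≤ Real.exp (c * r) := Real.one_le_exp (by positivity)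
    have k2 : G r ≤ Real.exp (c * r) * G r := by nlinarith
    rw [mul_one] at hmono
    calc G r ≤ Real.exp c * G 1 := k2.trans hmono
      _ ≤ _ := mul_le_mul_of_nonneg_left hG1 (Real.exp_pos c).le
  -- conclusion
  have hset : MeasurableSet {z | s z ≤ r ^ 2} := measurableSet_le hs measurable_const
  have hK : (2 : ℝ) ^ (-(p + 2)) * (r ^ m)⁻¹ * ν.real {z | s z ≤ r ^ 2} ≤
      ∫ z, r ^ 2 * (r ^ 2 + s z) ^ (-(p + 2)) ∂ν := by
    have i2 := (hI (p + 2) r (by linarith) hr).const_mul (r ^ 2)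
    have j1 : ∫ z in {z | s z ≤ r ^ 2}, (2 : ℝ) ^ (-(p + 2)) * (r ^ m)⁻¹ ∂ν =
        (2 : ℝ) ^ (-(p + 2)) * (r ^ m)⁻¹ * ν.real {z | s z ≤ r ^ 2} := by
      rw [setIntegral_const, smul_eq_mul, mul_comm]
    rw [← j1]
    calc _ ≤ ∫ z in {z | s z ≤ r ^ 2}, r ^ 2 * (r ^ 2 + s z) ^ (-(p + 2)) ∂ν := by
          refine setIntegral_mono_on (integrable_const _).integrableOn i2.integrableOn hset
            fun z hz => ?_
          have hz' : s z ≤ r ^ 2 := hz
          have l1 : (2 * r ^ 2) ^ (-(p + 2)) ≤ (r ^ 2 + s z) ^ (-(p + 2)) :=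
            Real.rpow_le_rpow_of_nonpos (hpos z r hr) (by linarith) (by linarith)
          have l2 : r ^ 2 * (2 * r ^ 2) ^ (-(p + 2)) = (2 : ℝ) ^ (-(p + 2)) * (r ^ m)⁻¹ := by
            rw [Real.mul_rpow (by norm_num) (by positivity), ← Real.rpow_natCast r 2,
              ← Real.rpow_mul hr.le, ← Real.rpow_natCast r m, ← Real.rpow_neg hr.le, em,
              mul_left_comm, ← Real.rpow_add hr]
            congr 2
            push_cast
            ring
          rw [← l2]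
          exact mul_le_mul_of_nonneg_left l1 (by positivity)
      _ ≤ _ := by
          refine setIntegral_le_integral i2 (Eventually.of_forall fun z => ?_)
          have := hnn z r (p + 2) hr
          change 0 ≤ r ^ 2 * (r ^ 2 + s z) ^ (-(p + 2))
          positivity
  have hfin : (2 : ℝ) ^ (-(p + 2)) * (r ^ m)⁻¹ * ν.real {z | s z ≤ r ^ 2} ≤
      A * (Real.exp c * ((1 + 2 * p) * ν.real univ)) :=
    hK.trans ((H r hr hr1).trans (mul_le_mul_of_nonneg_left ((hΦ r hr).trans hGr) hA))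
  have hrm : 0 < r ^ m := by positivity
  have h2p : (0 : ℝ) < 2 ^ (p + 2) := by positivity
  have e6 : ν.real {z | s z ≤ r ^ 2} = 2 ^ (p + 2) * r ^ m *
      ((2 : ℝ) ^ (-(p + 2)) * (r ^ m)⁻¹ * ν.real {z | s z ≤ r ^ 2}) := by
    rw [Real.rpow_neg (by norm_num)]
    field_simp
  rw [e6]
  calc _ ≤ 2 ^ (p + 2) * r ^ m * (A * (Real.exp c * ((1 + 2 * p) * ν.real univ))) :=
        mul_le_mul_of_nonneg_left hfin (by positivity)
    _ = _ := by ring

end Pool.Agent.H793.MS
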