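import Mathlib

set_option autoImplicit false

open scoped ContDiff Topology ENNReal Manifold
open MeasureTheory Set Filter

namespace Pool.Agent.H793.MS

variable {n m : ℕ}

/-- the derivative of a determinant -/
theorem hasFDerivAt_det_aux {V : Type*} [NormedAddCommGroup V] [NormedSpace ℝ V]
    (P : V → Matrix (Fin m) (Fin m) ℝ) (u : V)
    (hP : ∀ i j, DifferentiableAt ℝ (fun v => P v i j) u) :
    HasFDerivAt (fun v => (P v).det)
      (∑ σ : Equiv.Perm (Fin m), ((Equiv.Perm.sign σ : ℤ) : ℝ) •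
        ∑ i : Fin m, (∏ j ∈ Finset.univ.erase i, P u (σ j) j) •
          fderiv ℝ (fun v => P v (σ i) i) u) u := by
  classical
  have h1 : (fun v => (P v).det) = fun v => ∑ σ : Equiv.Perm (Fin m),
      ((Equiv.Perm.sign σ : ℤ) : ℝ) * ∏ i, P v (σ i) i := by
    funext v
    rw [Matrix.det_apply']
  rw [h1]
  apply HasFDerivAt.fun_sum
  intro σ _
  apply HasFDerivAt.const_mul
  exact HasFDerivAt.finset_prod (fun i _ => (hP (σ i) i).hasFDerivAt)

theorem fderiv_det_aux {V : Type*} [NormedAddCommGroup V] [NormedSpace ℝ V]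
    (P : V → Matrix (Fin m) (Fin m) ℝ) (u : V)
    (hP : ∀ i j, DifferentiableAt ℝ (fun v => P v i j) u) (k : V) :
    fderiv ℝ (fun v => (P v).det) u k =
      ∑ i, ∑ j, (P u).adjugate i j * fderiv ℝ (fun v => P v j i) u k := by
  classical
  rw [(hasFDerivAt_det_aux P u hP).fderiv]
  have h1 : ∀ i : Fin m, ∑ j, (P u).adjugate i j * fderiv ℝ (fun v => P v j i) u k =
      ∑ σ : Equiv.Perm (Fin m), ((Equiv.Perm.sign σ : ℤ) : ℝ) *
        ((∏ j ∈ Finset.univ.erase i, P u (σ j) j) * fderiv ℝ (fun v => P v (σ i) i) u k) := by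
    intro i
    have h2 : ∑ j, (P u).adjugate i j * fderiv ℝ (fun v => P v j i) u k =
        Matrix.cramer (P u) (fun j => fderiv ℝ (fun v => P v j i) u k) i := by
      rw [Matrix.cramer_eq_adjugate_mulVec]
      rfl
    rw [h2, Matrix.cramer_apply, Matrix.det_apply']
    apply Finset.sum_congr rfl
    intro σ _
    congr 1
    rw [← Finset.mul_prod_erase Finset.univ _ (Finset.mem_univ i), mul_comm]
    congr 1
    · apply Finset.prod_congr rfl
      intro j hj
      rw [Matrix.updateCol_ne (Finset.ne_of_mem_erase hj)]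
    · rw [Matrix.updateCol_self]
  rw [Finset.sum_congr rfl fun i _ => h1 i, Finset.sum_comm]
  simp only [ContinuousLinearMap.sum_apply, ContinuousLinearMap.smul_apply, smul_eq_mul,
    Finset.mul_sum]

/-- Jacobi's formula for the derivative of the square root of a determinant. -/
theorem fderiv_sqrt_det {V : Type*} [NormedAddCommGroup V] [NormedSpace ℝ V]
    (P : V → Matrix (Fin m) (Fin m) ℝ) (u : V)
    (hP : ∀ i j, DifferentiableAt ℝ (fun v => P v i j) u) (hpos : 0 < (P u).det) (k : V) :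
    fderiv ℝ (fun v => Real.sqrt (P v).det) u k =
      Real.sqrt (P u).det / 2 * ∑ i, ∑ j, (P u)⁻¹ i j * fderiv ℝ (fun v => P v j i) u k := by
  have hd : DifferentiableAt ℝ (fun v => (P v).det) u :=
    (hasFDerivAt_det_aux P u hP).differentiableAt
  have h1 := (hd.hasFDerivAt.sqrt hpos.ne').fderiv
  rw [h1, ContinuousLinearMap.smul_apply, fderiv_det_aux P u hP k, smul_eq_mul]
  have h2 : ∀ i j, (P u).adjugate i j = (P u).det * (P u)⁻¹ i j := by
    intro i j
    rw [Matrix.inv_def, Matrix.smul_apply, smul_eq_mul, Ring.inverse_eq_inv', ← mul_assoc,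
      mul_inv_cancel₀ hpos.ne', one_mul]
  have h3 : ∑ i, ∑ j, (P u).adjugate i j * fderiv ℝ (fun v => P v j i) u k =
      (P u).det * ∑ i, ∑ j, (P u)⁻¹ i j * fderiv ℝ (fun v => P v j i) u k := by
    rw [Finset.mul_sum]
    apply Finset.sum_congr rfl
    intro i _
    rw [Finset.mul_sum]
    apply Finset.sum_congr rfl
    intro j _
    rw [h2]
    ring
  rw [h3, ← mul_assoc]
  congr 1
  have h4 : Real.sqrt (P u).det ≠ 0 := (Real.sqrt_pos.2 hpos).ne'
  have h5 : Real.sqrt (P u).det * Real.sqrt (P u).det = (P u).det := Real.mul_self_sqrt hpos.le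
  field_simp
  nlinarith [h5]

theorem differentiableAt_adj_aux {V : Type*} [NormedAddCommGroup V] [NormedSpace ℝ V]
    (P : V → Matrix (Fin m) (Fin m) ℝ) (u : V)
    (hP : ∀ i j, DifferentiableAt ℝ (fun v => P v i j) u) (i j : Fin m) :
    DifferentiableAt ℝ (fun v => (P v).adjugate i j) u := by
  have h1 : (fun v => (P v).adjugate i j) = fun v => ((P v).updateRow j (Pi.single i 1)).det := by
    funext v
    rw [Matrix.adjugate_apply]
  rw [h1]
  refine (hasFDerivAt_det_aux (fun v => (P v).updateRow j (Pi.single i 1)) u ?_).differentiableAt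
  intro a b
  by_cases h : a = j
  · subst h
    have h2 : (fun v => (P v).updateRow a (Pi.single i 1) a b) =
        fun _ => (Pi.single i 1 : Fin m → ℝ) b := by
      funext v
      rw [Matrix.updateRow_self]
    rw [h2]
    exact differentiableAt_const _
  · have h2 : (fun v => (P v).updateRow j (Pi.single i 1) a b) = fun v => P v a b := by
      funext v
      rw [Matrix.updateRow_ne h]
    rw [h2]
    exact hP a b

theorem differentiableAt_inv_aux {V : Type*} [NormedAddCommGroup V] [NormedSpace ℝ V]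
    (P : V → Matrix (Fin m) (Fin m) ℝ) (u : V)
    (hP : ∀ i j, DifferentiableAt ℝ (fun v => P v i j) u) (hpos : (P u).det ≠ 0) (i j : Fin m) :
    DifferentiableAt ℝ (fun v => (P v)⁻¹ i j) u := by
  have h1 : (fun v => (P v)⁻¹ i j) = fun v => ((P v).det)⁻¹ * (P v).adjugate i j := by
    funext v
    rw [Matrix.inv_def, Matrix.smul_apply, smul_eq_mul, Ring.inverse_eq_inv']
  rw [h1]
  exact ((hasFDerivAt_det_aux P u hP).differentiableAt.inv hpos).mul
    (differentiableAt_adj_aux P u hP i j)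

/-- The derivative of the inverse matrix. -/
theorem fderiv_matrix_inv {V : Type*} [NormedAddCommGroup V] [NormedSpace ℝ V]
    (P : V → Matrix (Fin m) (Fin m) ℝ) (u : V)
    (hP : ∀ i j, DifferentiableAt ℝ (fun v => P v i j) u) (hpos : (P u).det ≠ 0) (k : V)
    (i j : Fin m) :
    fderiv ℝ (fun v => (P v)⁻¹ i j) u k =
      -∑ a, ∑ b, (P u)⁻¹ i a * fderiv ℝ (fun v => P v a b) u k * (P u)⁻¹ b j := by
  have hQ := differentiableAt_inv_aux P u hP hpos
  have hcont : ContinuousAt (fun v => (P v).det) u :=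
    (hasFDerivAt_det_aux P u hP).continuousAt
  have hev : ∀ᶠ v in 𝓝 u, (P v).det ≠ 0 := hcont.eventually_ne hpos
  -- the relation
  have rel : ∀ a : Fin m, ∑ b, (P u a b * fderiv ℝ (fun v => (P v)⁻¹ b j) u k +
      (P u)⁻¹ b j * fderiv ℝ (fun v => P v a b) u k) = 0 := by
    intro a
    have h1 : (fun v => ∑ b, P v a b * (P v)⁻¹ b j) =ᶠ[𝓝 u]
        fun _ => (1 : Matrix (Fin m) (Fin m) ℝ) a j := by
      filter_upwards [hev] with v hv
      have h2 : P v * (P v)⁻¹ = 1 := Matrix.mul_nonsing_inv _ (isUnit_iff_ne_zero.2 hv)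
      rw [← h2, Matrix.mul_apply]
    have h3 := h1.fderiv_eq (𝕜 := ℝ)
    have h4 : HasFDerivAt (fun v => ∑ b, P v a b * (P v)⁻¹ b j)
        (∑ b, (P u a b • fderiv ℝ (fun v => (P v)⁻¹ b j) u +
          (P u)⁻¹ b j • fderiv ℝ (fun v => P v a b) u)) u := by
      apply HasFDerivAt.fun_sum
      intro b _
      exact (hP a b).hasFDerivAt.mul (hQ b j).hasFDerivAt
    rw [h4.fderiv, fderiv_const_apply] at h3
    have h5 := congrArg (fun L : V →L[ℝ] ℝ => L k) h3
    simpa only [ContinuousLinearMap.sum_apply, ContinuousLinearMap.add_apply,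
      ContinuousLinearMap.smul_apply, smul_eq_mul, ContinuousLinearMap.zero_apply] using h5
  have hinv : (P u)⁻¹ * P u = 1 := Matrix.nonsing_inv_mul _ (isUnit_iff_ne_zero.2 hpos)
  have h6 : ∑ a, (P u)⁻¹ i a * ∑ b, (P u a b * fderiv ℝ (fun v => (P v)⁻¹ b j) u k +
      (P u)⁻¹ b j * fderiv ℝ (fun v => P v a b) u k) = 0 := by
    apply Finset.sum_eq_zero
    intro a _
    rw [rel a, mul_zero]
  have h7 : ∑ a, (P u)⁻¹ i a * ∑ b, (P u a b * fderiv ℝ (fun v => (P v)⁻¹ b j) u k +
      (P u)⁻¹ b j * fderiv ℝ (fun v => P v a b) u k) =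
      (∑ b, (∑ a, (P u)⁻¹ i a * P u a b) * fderiv ℝ (fun v => (P v)⁻¹ b j) u k) +
        ∑ a, ∑ b, (P u)⁻¹ i a * fderiv ℝ (fun v => P v a b) u k * (P u)⁻¹ b j := by
    simp only [Finset.mul_sum, Finset.sum_mul, mul_add, Finset.sum_add_distrib]
    congr 1
    · rw [Finset.sum_comm]
      apply Finset.sum_congr rfl
      intro b _
      apply Finset.sum_congr rfl
      intro a _
      ring
    · apply Finset.sum_congr rfl
      intro b _
      apply Finset.sum_congr rfl
      intro a _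
      ring
  have h8 : ∀ b, ∑ a, (P u)⁻¹ i a * P u a b = (1 : Matrix (Fin m) (Fin m) ℝ) i b := by
    intro b
    rw [← hinv, Matrix.mul_apply]
  have h9 : (∑ b, (∑ a, (P u)⁻¹ i a * P u a b) * fderiv ℝ (fun v => (P v)⁻¹ b j) u k) =
      fderiv ℝ (fun v => (P v)⁻¹ i j) u k := by
    rw [Finset.sum_eq_single i]
    · rw [h8, Matrix.one_apply_eq, one_mul]
    · intro b _ hb
      rw [h8, Matrix.one_apply_ne (Ne.symm hb), zero_mul]
    · intro h
      exact absurd (Finset.mem_univ i) h
  rw [h7, h9] at h6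
  linarith

end Pool.Agent.H793.MS
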