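import Pool.Agent.H793.MS.Defs

set_option autoImplicit false

open scoped ContDiff Topology ENNReal Manifold
open MeasureTheory Set Filter

namespace Pool.Agent.H793.MS

variable {n m : ℕ}

/-- The quadratic form `g_x(y - x, y - x)`. -/
noncomputable def qf (G : Metric n) (x y : E n) : ℝ := G.g x (y - x) (y - x)

/-- The kernel `(r² + q)^{-(m-2)/2}`. -/
noncomputable def ker0 (G : Metric n) (m : ℕ) (x : E n) (r : ℝ) (y : E n) : ℝ :=
  (r ^ 2 + qf G x y) ^ (-(((m : ℝ) - 2) / 2))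

/-- The corrected kernel. -/
noncomputable def kerB (G : Metric n) (m : ℕ) (B : ℝ) (x : E n) (r : ℝ) (y : E n) : ℝ :=
  ker0 G m x r y + B * (r ^ 2 + qf G x y) ^ (-((2 * (m : ℝ) - 5) / 4))

/-- The positive part of the Laplacian of the kernel. -/
noncomputable def kk (G : Metric n) (m : ℕ) (x : E n) (r : ℝ) (y : E n) : ℝ :=
  r ^ 2 * (r ^ 2 + qf G x y) ^ (-(((m : ℝ) + 2) / 2))

end Pool.Agent.H793.MS
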