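import Pool.Agent.H793.MS.KerH
import Pool.Agent.H793.MS.KerF

set_option autoImplicit false

open scoped ContDiff Topology ENNReal Manifold
open MeasureTheory Set Filter

namespace Pool.Agent.H793.MS

variable {n m : ℕ}

namespace KerE

/-- the main term -/
lemma low1 {M X u r2 q d A Q C C2 : ℝ} (hM : 3 ≤ M) (hX : 0 < X) (hu : 0 < u) (hr : 0 ≤ r2)
    (_hq : 0 ≤ q) (hS : r2 + q = u ^ 4) (hd : 0 ≤ d) (hC : 1 ≤ C) (hdu : d ≤ C2 * u ^ 2)
    (hA : M - 2 * C * d ≤ A) (hQ : Q ≤ (1 + C * d) * q) :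
    X * r2 - (M - 2) * (M + 2) * C * C2 * (X * u ^ 6) ≤
      (M - 2) * (X * u ^ 4) * A - (M - 2) * M * X * Q := by
  have h4 : 0 < u ^ 4 := by positivity
  have hqu : q ≤ u ^ 4 := by linarith
  have hCd : 0 ≤ C * d := by positivity
  have e1 : u ^ 4 * (M - 2 * C * d) ≤ u ^ 4 * A := mul_le_mul_of_nonneg_left hA h4.le
  have e2 : M * Q ≤ M * ((1 + C * d) * q) := mul_le_mul_of_nonneg_left hQ (by linarith)
  have e3 : M * (C * d) * q ≤ M * (C * d) * u ^ 4 := mul_le_mul_of_nonneg_left hqu (by positivity)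
  have e4 : (M + 2) * C * u ^ 4 * d ≤ (M + 2) * C * u ^ 4 * (C2 * u ^ 2) :=
    mul_le_mul_of_nonneg_left hdu (by positivity)
  have e5 : M * r2 - (M + 2) * C * C2 * u ^ 6 ≤ u ^ 4 * A - M * Q := by
    have e6 : (M + 2) * C * u ^ 4 * (C2 * u ^ 2) = (M + 2) * C * C2 * u ^ 6 := by ring
    have e7 : M * (r2 + q) = M * u ^ 4 := by rw [hS]
    nlinarith
  have e8 : (M - 2) * X * (M * r2 - (M + 2) * C * C2 * u ^ 6) ≤ (M - 2) * X * (u ^ 4 * A - M * Q) :=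
    mul_le_mul_of_nonneg_left e5 (mul_nonneg (by linarith) hX.le)
  have e9 : X * r2 * 1 ≤ X * r2 * ((M - 2) * M) :=
    mul_le_mul_of_nonneg_left (by nlinarith) (by positivity)
  nlinarith

/-- the correction -/
lemma low2 {M X u r2 q d A Q C C2 β : ℝ} (hM : 3 ≤ M) (hX : 0 < X) (hu : 0 < u) (hr : 0 ≤ r2)
    (_hq : 0 ≤ q) (hS : r2 + q = u ^ 4) (hd : 0 ≤ d) (hC : 1 ≤ C) (hdu : d ≤ C2 * u ^ 2)
    (hA : M - 2 * C * d ≤ A) (hQ : Q ≤ (1 + C * d) * q) (hβ : 0 < β)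
    (hβM : 2 * (β + 1) = M - 1 / 2) :
    X * (β * u ^ 5) - 2 * β * (M + 2) * C * C2 * (X * u ^ 7) ≤
      2 * β * (X * u ^ 5) * A - 4 * β * (β + 1) * (X * u) * Q := by
  have h4 : 0 < u ^ 4 := by positivity
  have hqu : q ≤ u ^ 4 := by linarith
  have hCd : 0 ≤ C * d := by positivity
  have e1 : u ^ 4 * (M - 2 * C * d) ≤ u ^ 4 * A := mul_le_mul_of_nonneg_left hA h4.le
  have e2 : (M - 1 / 2) * Q ≤ (M - 1 / 2) * ((1 + C * d) * u ^ 4) := by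
    apply mul_le_mul_of_nonneg_left _ (by linarith)
    exact hQ.trans (mul_le_mul_of_nonneg_left hqu (by positivity))
  have e4 : (M + 2) * C * u ^ 4 * d ≤ (M + 2) * C * u ^ 4 * (C2 * u ^ 2) :=
    mul_le_mul_of_nonneg_left hdu (by positivity)
  have e5 : u ^ 4 / 2 - (M + 2) * C * C2 * u ^ 6 ≤ u ^ 4 * A - (M - 1 / 2) * Q := by
    have e6 : (M + 2) * C * u ^ 4 * (C2 * u ^ 2) = (M + 2) * C * C2 * u ^ 6 := by ring
    have e7 : 0 ≤ u ^ 4 * (C * d) := by positivity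
    nlinarith
  have e8 : 2 * β * (X * u) * (u ^ 4 / 2 - (M + 2) * C * C2 * u ^ 6) ≤
      2 * β * (X * u) * (u ^ 4 * A - (M - 1 / 2) * Q) :=
    mul_le_mul_of_nonneg_left e5 (by positivity)
  have e9 : 4 * β * (β + 1) * (X * u) * Q = 2 * β * (X * u) * ((M - 1 / 2) * Q) := by
    rw [← hβM]
    ring
  rw [e9]
  nlinarith

/-- the combination -/
lemma comb {u U C5 C6 B β a b : ℝ} (hu : 0 < u) (huU : u ≤ U) (hC5 : 0 < C5) (ha : a = C5 * U)
    (hB : B * β = 2 * a) (hb : b = B * C6) (hb0 : 0 ≤ b) :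
    0 ≤ B * β - C5 * u - B * C6 * u ^ 2 + b * (b / a + 1) * u ^ 3 := by
  have hU : 0 < U := by linarith
  have ha0 : 0 < a := by rw [ha]; positivity
  have h1 : C5 * u ≤ a := by
    rw [ha]
    exact mul_le_mul_of_nonneg_left huU hC5.le
  have h2 : b * u ^ 2 ≤ a + b * (b / a + 1) * u ^ 3 := by
    have hk : 0 < b / a + 1 := by positivity
    rcases le_or_gt 1 ((b / a + 1) * u) with h3 | h3
    · have h4 : b * u ^ 2 * 1 ≤ b * u ^ 2 * ((b / a + 1) * u) :=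
        mul_le_mul_of_nonneg_left h3 (by positivity)
      have h5 : b * u ^ 2 * ((b / a + 1) * u) = b * (b / a + 1) * u ^ 3 := by ring
      linarith
    · have h4 : b * u + a * u < a := by
        have h5 : a * ((b / a + 1) * u) = b * u + a * u := by
          field_simp
        rw [← h5]
        exact mul_lt_of_lt_one_right ha0 h3
      have h6 : u < 1 := by
        by_contra h7
        push Not at h7
        have h8 : 0 ≤ b * u := by positivity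
        nlinarith
      have h9 : b * u ^ 2 ≤ b * u := by
        apply mul_le_mul_of_nonneg_left _ hb0
        nlinarith
      have h10 : 0 ≤ b * (b / a + 1) * u ^ 3 := by positivity
      nlinarith
  rw [hB, ← hb]
  linarith

/-- smoothness of the two pieces -/
lemma cd1 (G : Metric n) (m : ℕ) (x : E n) (r : ℝ) (hr : 0 < r) :
    ContDiff ℝ 2 (fun y => (r ^ 2 + qf G x y) ^ (-(((m : ℝ) - 2) / 2))) := by
  have h := contDiff_kerB G m 0 x r hr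
  have e : kerB G m 0 x r = fun y => (r ^ 2 + qf G x y) ^ (-(((m : ℝ) - 2) / 2)) := by
    funext y
    unfold kerB ker0
    rw [zero_mul, add_zero]
  rw [e] at h
  exact h.of_le (by decide)

lemma cd2 (G : Metric n) (m : ℕ) (x : E n) (r : ℝ) (hr : 0 < r) :
    ContDiff ℝ 2 (fun y => (r ^ 2 + qf G x y) ^ (-((2 * (m : ℝ) - 5) / 4))) := by
  have h := (contDiff_kerB G m 1 x r hr).sub (contDiff_kerB G m 0 x r hr)
  have e : (fun y => kerB G m 1 x r y - kerB G m 0 x r y) =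
      fun y => (r ^ 2 + qf G x y) ^ (-((2 * (m : ℝ) - 5) / 4)) := by
    funext y
    unfold kerB
    ring
  rw [e] at h
  exact h.of_le (by decide)

/-- the powers -/
lemma pows {S M : ℝ} (hS : 0 < S) : ∃ X u : ℝ, 0 < X ∧ 0 < u ∧ S = u ^ 4 ∧ u = S ^ (1 / 4 : ℝ) ∧
    S ^ (-((M - 2) / 2) - 2) = X ∧ S ^ (-((M - 2) / 2) - 1) = X * u ^ 4 ∧
    S ^ (-((M - 2) / 2)) = X * u ^ 8 ∧ S ^ (-((M + 2) / 2)) = X ∧
    S ^ (-((2 * M - 5) / 4) - 2) = X * u ∧ S ^ (-((2 * M - 5) / 4) - 1) = X * u ^ 5 ∧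
    S ^ (-((2 * M - 5) / 4)) = X * u ^ 9 := by
  have hu : 0 < S ^ (1 / 4 : ℝ) := Real.rpow_pos_of_pos hS _
  have hX : 0 < S ^ (-((M - 2) / 2) - 2) := Real.rpow_pos_of_pos hS _
  have hSu : S = (S ^ (1 / 4 : ℝ)) ^ 4 := by
    rw [← Real.rpow_natCast, ← Real.rpow_mul hS.le]
    norm_num
  have h1 : ∀ k : ℕ, ∀ e : ℝ, S ^ (e + (k : ℝ) / 4) = S ^ e * (S ^ (1 / 4 : ℝ)) ^ k := by
    intro k e
    rw [Real.rpow_add hS, ← Real.rpow_natCast (S ^ (1 / 4 : ℝ)) k, ← Real.rpow_mul hS.le]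
    congr 2
    ring
  refine ⟨S ^ (-((M - 2) / 2) - 2), S ^ (1 / 4 : ℝ), hX, hu, hSu, rfl, rfl, ?_, ?_, ?_, ?_, ?_, ?_⟩
  · rw [← h1 4]
    congr 1
    push_cast
    ring
  · rw [← h1 8]
    congr 1
    push_cast
    ring
  · congr 1
    ring
  · have h2 := h1 1 (-((M - 2) / 2) - 2)
    rw [pow_one] at h2
    rw [← h2]
    congr 1
    push_cast
    ring
  · rw [← h1 5]
    congr 1
    push_cast
    ring
  · rw [← h1 9]
    congr 1
    push_cast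
    ring

end KerE

open KerE in
/-- The kernel estimate: for `m ≥ 3`, on a compact set, `- tr Hess (kerB) ≥ kk - C ker0` on every
`m`-dimensional subspace, and `ker0 ≤ kerB ≤ C ker0`. -/
theorem kernel_estimate (hm : 3 ≤ m) (G : Metric n) (K : Set (E n)) (hK : IsCompact K) :
    ∃ B C : ℝ, 0 ≤ B ∧ 1 ≤ C ∧ ∀ x ∈ K, ∀ r : ℝ, 0 < r → r ≤ 1 → ∀ y ∈ K,
      (0 < ker0 G m x r y ∧ ker0 G m x r y ≤ kerB G m B x r y ∧
        kerB G m B x r y ≤ C * ker0 G m x r y) ∧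
      ∀ w : Fin m → E n, G.Ortho y w →
        kk G m x r y - C * ker0 G m x r y ≤ -∑ i, G.hess (kerB G m B x r) y (w i) (w i) := by
  obtain ⟨C1, hC1, hfr⟩ := frame_bounds G m K hK
  obtain ⟨C2, hC2, hqf⟩ := qf_bounds G K hK
  obtain ⟨M, hMe⟩ : ∃ M : ℝ, M = (m : ℝ) := ⟨_, rfl⟩
  have hM : 3 ≤ M := by
    rw [hMe]
    exact_mod_cast hm
  obtain ⟨β, hβe⟩ : ∃ β : ℝ, β = (2 * M - 5) / 4 := ⟨_, rfl⟩
  have hβ : 0 < β := by rw [hβe]; linarith
  have hβM : 2 * (β + 1) = M - 1 / 2 := by rw [hβe]; ring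
  obtain ⟨U, hUe⟩ : ∃ U : ℝ, U = 1 + C2 ^ 2 := ⟨_, rfl⟩
  have hU : 1 ≤ U := by rw [hUe]; nlinarith
  obtain ⟨C5, hC5e⟩ : ∃ C5 : ℝ, C5 = (M - 2) * (M + 2) * C1 * C2 := ⟨_, rfl⟩
  have hC5 : 0 < C5 := by
    rw [hC5e]
    have : 0 < M - 2 := by linarith
    positivity
  obtain ⟨C6, hC6e⟩ : ∃ C6 : ℝ, C6 = 2 * β * (M + 2) * C1 * C2 := ⟨_, rfl⟩
  have hC6 : 0 < C6 := by rw [hC6e]; positivity
  obtain ⟨a, hae⟩ : ∃ a : ℝ, a = C5 * U := ⟨_, rfl⟩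
  have ha : 0 < a := by rw [hae]; positivity
  obtain ⟨B, hBe⟩ : ∃ B : ℝ, B = 2 * a / β := ⟨_, rfl⟩
  have hB : 0 < B := by rw [hBe]; positivity
  have hBβ : B * β = 2 * a := by rw [hBe]; field_simp
  obtain ⟨b, hbe⟩ : ∃ b : ℝ, b = B * C6 := ⟨_, rfl⟩
  have hb : 0 < b := by rw [hbe]; positivity
  refine ⟨B, 1 + B * U + b * (b / a + 1), hB.le, ?_, ?_⟩
  · have : 0 ≤ B * U + b * (b / a + 1) := by positivity
    linarith
  intro x hx r hr hr1 y hy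
  obtain ⟨q, hqe⟩ : ∃ q : ℝ, q = qf G x y := ⟨_, rfl⟩
  have hq0 : 0 ≤ q := by rw [hqe]; exact qf_nonneg G x y
  obtain ⟨hq1, -, hq3⟩ := hqf x hx y hy
  rw [← hqe] at hq1 hq3
  have hS : 0 < r ^ 2 + q := by positivity
  obtain ⟨X, u, hX, hu, hSu, hue, p1, p2, p3, p4, p5, p6, p7⟩ := pows (M := M) hS
  have huU : u ≤ U := by
    have h1 : r ^ 2 + q ≤ U := by
      rw [hUe]
      nlinarith
    have h2 : u ^ 4 ≤ U := by rw [← hSu]; exact h1
    by_contra hcon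
    push Not at hcon
    have h3 : 1 < u := by linarith
    have h4 : u ≤ u ^ 4 := le_self_pow₀ h3.le (by norm_num)
    linarith
  have hk0 : ker0 G m x r y = X * u ^ 8 := by
    unfold ker0
    rw [← hqe, ← hMe]
    exact p3
  have hkB : kerB G m B x r y = X * u ^ 8 + B * (X * u ^ 9) := by
    unfold kerB
    rw [hk0, ← hqe, ← hMe, p7]
  have hkk : kk G m x r y = r ^ 2 * X := by
    unfold kk
    rw [← hqe, ← hMe, p4]
  have hK0 : 0 < X * u ^ 8 := by positivity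
  refine ⟨⟨?_, ?_, ?_⟩, ?_⟩
  · rw [hk0]
    exact hK0
  · rw [hk0, hkB]
    have : 0 ≤ B * (X * u ^ 9) := by positivity
    linarith
  · rw [hk0, hkB]
    have h1 : B * (X * u ^ 9) = B * u * (X * u ^ 8) := by ring
    have h2 : B * u * (X * u ^ 8) ≤ B * U * (X * u ^ 8) :=
      mul_le_mul_of_nonneg_right (mul_le_mul_of_nonneg_left huU hB.le) hK0.le
    have h3 : 0 ≤ b * (b / a + 1) * (X * u ^ 8) := by positivity
    rw [h1]
    nlinarith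
  intro w hw
  obtain ⟨f1, f2, f3⟩ := hfr x hx y hy w hw
  obtain ⟨d, hde⟩ : ∃ d : ℝ, d = ‖y - x‖ := ⟨_, rfl⟩
  rw [← hde] at f1 f2 f3 hq1
  rw [← hqe] at f2
  rw [← hMe] at f1
  have hd : 0 ≤ d := by rw [hde]; exact norm_nonneg _
  have hdu : d ≤ C2 * u ^ 2 := by
    apply le_of_sq_le_sq _ (by positivity)
    calc d ^ 2 ≤ C2 ^ 2 * q := hq1
      _ ≤ C2 ^ 2 * u ^ 4 := by
          apply mul_le_mul_of_nonneg_left _ (by positivity)
          rw [← hSu]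
          nlinarith [sq_nonneg r]
      _ = (C2 * u ^ 2) ^ 2 := by ring
  obtain ⟨Ga, hGa⟩ : ∃ Ga : ℝ, Ga = ∑ i, G.g x (y - x) (G.christoffel y (w i) (w i)) := ⟨_, rfl⟩
  obtain ⟨A0, hA0⟩ : ∃ A0 : ℝ, A0 = ∑ i, G.g x (w i) (w i) := ⟨_, rfl⟩
  obtain ⟨Q, hQe⟩ : ∃ Q : ℝ, Q = ∑ i, G.g x (y - x) (w i) ^ 2 := ⟨_, rfl⟩
  rw [← hGa] at f3
  rw [← hA0] at f1
  rw [← hQe] at f2
  have hA : M - 2 * C1 * d ≤ A0 - Ga := by
    have := (abs_le.1 f3).2
    linarith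
  -- the sum of the Hessians
  have hsum : ∀ α : ℝ, ∑ i, G.hess (fun y => (r ^ 2 + qf G x y) ^ (-α)) y (w i) (w i) =
      -(2 * α * (r ^ 2 + q) ^ (-α - 1) * (A0 - Ga)) +
        4 * α * (α + 1) * (r ^ 2 + q) ^ (-α - 2) * Q := by
    intro α
    rw [Finset.sum_congr rfl (fun i _ => hess_rpow G x r hr α y (w i)), Finset.sum_add_distrib,
      Finset.sum_neg_distrib, ← Finset.mul_sum, ← Finset.mul_sum, Finset.sum_sub_distrib,
      ← hGa, ← hA0, ← hQe, ← hqe]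
  have hB1 : ∑ i, G.hess (kerB G m B x r) y (w i) (w i) =
      ∑ i, G.hess (fun y => (r ^ 2 + qf G x y) ^ (-((M - 2) / 2))) y (w i) (w i) +
      B * ∑ i, G.hess (fun y => (r ^ 2 + qf G x y) ^ (-((2 * M - 5) / 4))) y (w i) (w i) := by
    rw [Finset.mul_sum, ← Finset.sum_add_distrib]
    apply Finset.sum_congr rfl
    intro i _
    have h := hess_add G (fun y => (r ^ 2 + qf G x y) ^ (-(((m : ℝ) - 2) / 2)))
      (fun y => (r ^ 2 + qf G x y) ^ (-((2 * (m : ℝ) - 5) / 4))) B y (w i)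
      (cd1 G m x r hr) (cd2 G m x r hr)
    rw [hMe]
    exact h
  rw [hB1, hsum, hsum, p1, p2, p5, p6, hkk, hk0, ← hβe]
  have hr2 : 0 ≤ r ^ 2 := sq_nonneg r
  have l1 := low1 (A := A0 - Ga) (Q := Q) (C := C1) (C2 := C2) hM hX hu hr2 hq0 hSu hd hC1 hdu hA f2
  have l2 := low2 (A := A0 - Ga) (Q := Q) (C := C1) (C2 := C2) hM hX hu hr2 hq0 hSu hd hC1 hdu hA f2
    hβ hβM
  rw [← hC5e] at l1
  rw [← hC6e] at l2
  have l3 := mul_le_mul_of_nonneg_left l2 hB.le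
  have l4 := comb (β := β) (C6 := C6) hu huU hC5 hae hBβ hbe hb.le
  have l5 : 0 ≤ X * u ^ 5 * (B * β - C5 * u - B * C6 * u ^ 2 + b * (b / a + 1) * u ^ 3) :=
    mul_nonneg (by positivity) l4
  have l6 : 0 ≤ (1 + B * U) * (X * u ^ 8) := by positivity
  have g1 : -(-(2 * ((M - 2) / 2) * (X * u ^ 4) * (A0 - Ga)) +
      4 * ((M - 2) / 2) * ((M - 2) / 2 + 1) * X * Q +
      B * (-(2 * β * (X * u ^ 5) * (A0 - Ga)) + 4 * β * (β + 1) * (X * u) * Q)) =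
      ((M - 2) * (X * u ^ 4) * (A0 - Ga) - (M - 2) * M * X * Q) +
      B * (2 * β * (X * u ^ 5) * (A0 - Ga) - 4 * β * (β + 1) * (X * u) * Q) := by ring
  rw [g1]
  have g2 : X * u ^ 5 * (B * β - C5 * u - B * C6 * u ^ 2 + b * (b / a + 1) * u ^ 3) =
      B * (X * (β * u ^ 5) - C6 * (X * u ^ 7)) - C5 * (X * u ^ 6) +
        b * (b / a + 1) * (X * u ^ 8) := by ring
  rw [g2] at l5
  have g3 : (1 + B * U + b * (b / a + 1)) * (X * u ^ 8) =
      (1 + B * U) * (X * u ^ 8) + b * (b / a + 1) * (X * u ^ 8) := by ring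
  rw [g3]
  linarith

end Pool.Agent.H793.MS
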