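import Pool.Agent.H793.MS.Chr

set_option autoImplicit false

open scoped ContDiff Topology ENNReal Manifold
open MeasureTheory Set Filter

namespace Pool.Agent.H793.MS

variable {n m : ℕ}

/-- The covariant derivative of `∂_i ψ` in the direction `k`. -/
noncomputable def cov2 (G : Metric n) (ψ : E m → E n) (u : E m) (k i : Fin m) : E n :=
  fderiv ℝ (fderiv ℝ ψ) u (bas k) (bas i) +
    G.christoffel (ψ u) (fderiv ℝ ψ u (bas k)) (fderiv ℝ ψ u (bas i))

theorem cov2_symm (G : Metric n) (ψ : E m → E n) (O : Set (E m)) (hO : IsOpen O)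
    (hψ : ContDiffOn ℝ ∞ ψ O) (u : E m) (hu : u ∈ O) (k i : Fin m) :
    cov2 G ψ u k i = cov2 G ψ u i k := by
  obtain ⟨Γ, -, hΓ, hsymm, -⟩ := exists_christoffel G
  have h1 : ContDiffAt ℝ ∞ ψ u := hψ.contDiffAt (hO.mem_nhds hu)
  have hh : (2 : WithTop ℕ∞) ≤ ((⊤ : ℕ∞) : WithTop ℕ∞) :=
    WithTop.coe_le_coe.2 (le_top : (2 : ℕ∞) ≤ ⊤)
  have h2 : IsSymmSndFDerivAt ℝ ψ u := h1.isSymmSndFDerivAt (by simpa using hh)
  unfold cov2
  rw [hΓ, hΓ, hsymm, h2 (bas k) (bas i)]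

/-- The derivative of the metric is symmetric. -/
theorem fderiv_g_symm (G : Metric n) (x v a b : E n) :
    fderiv ℝ G.g x v a b = fderiv ℝ G.g x v b a := by
  have hd : HasFDerivAt G.g (fderiv ℝ G.g x) x :=
    ((G.smooth.differentiable (by simp)) x).hasFDerivAt
  have h1 : ∀ a b : E n, HasFDerivAt (fun y => G.g y a b)
      (((fderiv ℝ G.g x).flip a).flip b) x := by
    intro a b
    have h2 := hd.clm_apply (hasFDerivAt_const a x)
    have h3 := h2.clm_apply (hasFDerivAt_const b x)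
    refine h3.congr_fderiv ?_
    ext w
    simp
  have h2 : (fun y => G.g y a b) = fun y => G.g y b a := by
    funext y
    exact G.symm y a b
  have h3 := h1 a b
  rw [h2] at h3
  have h4 := h3.unique (h1 b a)
  have h5 := congrArg (fun (A : E n →L[ℝ] ℝ) => A v) h4
  simpa using h5

/-- The Levi-Civita connection is compatible with the metric. -/
theorem fderiv_gram (G : Metric n) (ψ : E m → E n) (O : Set (E m)) (hO : IsOpen O)
    (hψ : ContDiffOn ℝ ∞ ψ O) (u : E m) (hu : u ∈ O) (i j k : Fin m) :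
    fderiv ℝ (fun v => gram G ψ v i j) u (bas k) =
      G.g (ψ u) (cov2 G ψ u k i) (fderiv ℝ ψ u (bas j)) +
        G.g (ψ u) (fderiv ℝ ψ u (bas i)) (cov2 G ψ u k j) := by
  obtain ⟨Γ, -, hΓ, hsymm, hKos⟩ := exists_christoffel G
  have h1 : ContDiffAt ℝ ∞ ψ u := hψ.contDiffAt (hO.mem_nhds hu)
  have hψ1 : HasFDerivAt ψ (fderiv ℝ ψ u) u := (h1.differentiableAt (by simp)).hasFDerivAt
  have h2 : ContDiffAt ℝ ∞ (fderiv ℝ ψ) u := h1.fderiv_right (by simp)
  have hψ2 : HasFDerivAt (fderiv ℝ ψ) (fderiv ℝ (fderiv ℝ ψ) u) u :=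
    (h2.differentiableAt (by simp)).hasFDerivAt
  have hg : HasFDerivAt G.g (fderiv ℝ G.g (ψ u)) (ψ u) :=
    ((G.smooth.differentiable (by simp)) (ψ u)).hasFDerivAt
  have hgψ : HasFDerivAt (fun v => G.g (ψ v)) ((fderiv ℝ G.g (ψ u)).comp (fderiv ℝ ψ u)) u :=
    HasFDerivAt.comp (g := G.g) (f := ψ) (g' := fderiv ℝ G.g (ψ u)) u hg hψ1
  have hA : ∀ i : Fin m, HasFDerivAt (fun v => fderiv ℝ ψ v (bas i))
      ((fderiv ℝ (fderiv ℝ ψ) u).flip (bas i)) u := by
    intro i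
    have h3 := hψ2.clm_apply (hasFDerivAt_const (bas i : E m) u)
    refine h3.congr_fderiv ?_
    ext w
    simp
  have h3 := hgψ.clm_apply (hA i)
  have h4 := h3.clm_apply (hA j)
  have h5 : fderiv ℝ (fun v => gram G ψ v i j) u = _ := h4.fderiv
  rw [h5]
  set a := fderiv ℝ ψ u (bas k) with ha
  set b := fderiv ℝ ψ u (bas i) with hb
  set c := fderiv ℝ ψ u (bas j) with hc
  have e1 := hKos (ψ u) a b c
  have e2 := hKos (ψ u) a c b
  have e3 := fderiv_g_symm G (ψ u) a b c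
  have e4 := G.symm (ψ u) b (Γ (ψ u) a c)
  unfold cov2
  rw [hΓ, hΓ]
  simp only [ContinuousLinearMap.comp_apply,
    ContinuousLinearMap.flip_apply, map_add, _root_.add_apply]
  rw [e4, e1, e2, ← ha]
  linarith

end Pool.Agent.H793.MS
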