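import Pool.Agent.H793.MS.Defs

set_option autoImplicit false

open scoped ContDiff Topology ENNReal Manifold
open MeasureTheory Set Filter

namespace Pool.Agent.H793.MS

variable {n m : ℕ}

section
variable {M : Type*} [TopologicalSpace M] {X : Type*} [MetricSpace X]

theorem limSet_clusterPt (φ : M → X) {x : X} (h : x ∈ limSet φ) :
    ClusterPt x (map φ (cocompact M)) := by
  obtain ⟨p, hp, hx⟩ := h
  have h1 : Tendsto (fun k => φ (p k)) atTop (map φ (cocompact M)) := tendsto_map.comp hp
  have h2 : Tendsto (fun k => φ (p k)) atTop (𝓝 x ⊓ map φ (cocompact M)) := tendsto_inf.2 ⟨hx, h1⟩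
  exact h2.neBot

theorem countable_cocompact [LocallyCompactSpace M] [SecondCountableTopology M] :
    (cocompact M).IsCountablyGenerated := by
  have K := CompactExhaustion.choice M
  refine isCountablyGenerated_of_seq ⟨fun i => (K i)ᶜ, le_antisymm ?_ ?_⟩
  · exact le_iInf fun i => le_principal_iff.2 (K.isCompact i).compl_mem_cocompact
  · intro s hs
    obtain ⟨t, ht, hts⟩ := mem_cocompact.1 hs
    obtain ⟨i, hi⟩ := K.exists_superset_of_isCompact ht
    exact mem_of_superset (mem_iInf_of_mem i (mem_principal_self _))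
      ((compl_subset_compl.2 hi).trans hts)

theorem clusterPt_limSet [LocallyCompactSpace M] [SecondCountableTopology M] [T2Space M]
    (φ : M → X) {x : X} (h : ClusterPt x (map φ (cocompact M))) : x ∈ limSet φ := by
  have hne : (comap φ (𝓝 x) ⊓ cocompact M).NeBot := by
    rw [← Filter.map_neBot_iff φ, Filter.push_pull']
    exact h
  have hcg : (cocompact M).IsCountablyGenerated := countable_cocompact
  obtain ⟨p, hp⟩ := exists_seq_tendsto (comap φ (𝓝 x) ⊓ cocompact M)
  exact ⟨p, (tendsto_inf.1 hp).2, tendsto_comap_iff.1 (tendsto_inf.1 hp).1⟩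

theorem isClosed_limSet [LocallyCompactSpace M] [SecondCountableTopology M] [T2Space M]
    (φ : M → X) (hφ : Continuous φ) : IsClosed (limSet φ) := by
  have h : limSet φ = {x | ClusterPt x (map φ (cocompact M))} := by
    ext x
    exact ⟨limSet_clusterPt φ, clusterPt_limSet φ⟩
  rw [h]
  exact isClosed_setOfPred_clusterPt

theorem limSet_subset_closure (φ : M → X) (D : Set X) (hφ : ∀ p, φ p ∈ D) :
    limSet φ ⊆ closure D := by
  rintro x ⟨p, -, hx⟩
  exact mem_closure_of_tendsto hx (Eventually.of_forall fun k => hφ (p k))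

/-- Outside a compact set the values of `φ` are close to the limit set. -/
theorem exists_compact_limSet [LocallyCompactSpace M] [SecondCountableTopology M] [T2Space M]
    (φ : M → X) (hφ : Continuous φ) (D : Set X) (hD : IsCompact (closure D))
    (hφD : ∀ p, φ p ∈ D) (U : Set X) (hU : IsOpen U) (h : limSet φ ⊆ U) :
    ∃ K : Set M, IsCompact K ∧ ∀ p, p ∉ K → φ p ∈ U := by
  have key : ∀ᶠ p in cocompact M, φ p ∈ U := by
    by_contra hcon
    have hne : (cocompact M ⊓ 𝓟 {p | φ p ∉ U}).NeBot := by
      rw [← frequently_mem_iff_neBot]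
      exact fun h => hcon (h.mono fun p hp => not_not.1 hp)
    have h1 : map φ (cocompact M ⊓ 𝓟 {p | φ p ∉ U}) ≤ 𝓟 (closure D) := by
      rw [le_principal_iff, mem_map]
      exact univ_mem' fun p => subset_closure (hφD p)
    obtain ⟨x, hx, hc⟩ := hD h1
    have h2 : ClusterPt x (map φ (cocompact M)) := hc.mono (map_mono inf_le_left)
    have h3 : x ∈ U := h (clusterPt_limSet φ h2)
    have h4 : map φ (cocompact M ⊓ 𝓟 {p | φ p ∉ U}) ≤ 𝓟 Uᶜ := by
      rw [le_principal_iff, mem_map]
      exact mem_inf_of_right (mem_principal.2 fun p hp => hp)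
    have h5 : x ∈ closure Uᶜ := mem_closure_iff_clusterPt.2 (hc.mono h4)
    rw [hU.isClosed_compl.closure_eq] at h5
    exact h5 h3
  rw [Filter.Eventually, mem_cocompact] at key
  obtain ⟨K, hK, hKU⟩ := key
  exact ⟨K, hK, fun p hp => hKU hp⟩

end

end Pool.Agent.H793.MS
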