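import Pool.Agent.H793.MS.LitD
import Pool.Agent.H793.MS.Chr

set_option autoImplicit false

open scoped ContDiff Topology ENNReal Manifold
open MeasureTheory Set Filter

namespace Pool.Agent.H793.MS

variable {n m : ℕ}

theorem christoffel_flat (x v w : E n) : (flat n).christoffel x v w = 0 := by
  have hd : fderiv ℝ (flat n).g x = 0 := by
    have h1 : (flat n).g = fun _ => innerSL ℝ := rfl
    rw [h1]
    exact fderiv_const_apply _
  have hex : ∃ u : E n, ∀ z, (flat n).g x u z =
      (fderiv ℝ (flat n).g x v w z + fderiv ℝ (flat n).g x w v z -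
        fderiv ℝ (flat n).g x z v w) / 2 := by
    refine ⟨0, fun z => ?_⟩
    rw [hd]
    simp
  have h2 := Classical.epsilon_spec hex
  have h3 : ∀ z, (flat n).g x ((flat n).christoffel x v w) z =
      (fderiv ℝ (flat n).g x v w z + fderiv ℝ (flat n).g x w v z -
        fderiv ℝ (flat n).g x z v w) / 2 := h2
  have h4 := h3 ((flat n).christoffel x v w)
  rw [hd] at h4
  have h5 : inner ℝ ((flat n).christoffel x v w) ((flat n).christoffel x v w) = 0 := by
    have h6 : (flat n).g x ((flat n).christoffel x v w) ((flat n).christoffel x v w) =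
        inner ℝ ((flat n).christoffel x v w) ((flat n).christoffel x v w) := rfl
    rw [← h6, h4]
    simp
  exact inner_self_eq_zero.1 h5

theorem hess_flat (F : E n → ℝ) (x v w : E n) :
    (flat n).hess F x v w = fderiv ℝ (fderiv ℝ F) x v w := by
  unfold Metric.hess
  rw [christoffel_flat, map_zero, sub_zero]

theorem ortho_flat (x : E n) (w : Fin m → E n) : (flat n).Ortho x w ↔ Orthonormal ℝ w := by
  rw [orthonormal_iff_ite]
  exact Iff.rfl

end Pool.Agent.H793.MS
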