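import Pool.Agent.H793.MS.Lit1

set_option autoImplicit false

open scoped ContDiff Topology ENNReal Manifold
open MeasureTheory Set Filter

namespace Pool.Agent.H793.MS

variable {n m : ℕ}

theorem L2_max_pow (k : ℕ) (t : ℝ) :
    HasDerivAt (fun t : ℝ => max t 0 ^ (k + 2)) (((k + 2 : ℕ) : ℝ) * max t 0 ^ (k + 1)) t := by
  have hp : ∀ s : ℝ, HasDerivAt (fun t : ℝ => t ^ (k + 2)) (((k + 2 : ℕ) : ℝ) * s ^ (k + 1)) s :=
    fun s => by simpa using hasDerivAt_pow (k + 2) s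
  rcases lt_trichotomy t 0 with h | h | h
  · have e : (fun t : ℝ => max t 0 ^ (k + 2)) =ᶠ[𝓝 t] fun _ => 0 := by
      filter_upwards [Iio_mem_nhds h] with s hs
      rw [max_eq_right (le_of_lt hs), zero_pow (by omega)]
    have h1 : ((k + 2 : ℕ) : ℝ) * max t 0 ^ (k + 1) = 0 := by
      rw [max_eq_right h.le, zero_pow (by omega), mul_zero]
    rw [h1]
    exact (hasDerivAt_const t (0 : ℝ)).congr_of_eventuallyEq e
  · subst h
    rw [← hasDerivWithinAt_univ, ← Set.Iic_union_Ici (a := (0 : ℝ))]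
    refine HasDerivWithinAt.union ?_ ?_
    · have h1 : ((k + 2 : ℕ) : ℝ) * max 0 0 ^ (k + 1) = 0 := by
        rw [max_self, zero_pow (by omega), mul_zero]
      rw [h1]
      refine (hasDerivWithinAt_const (0 : ℝ) (Set.Iic 0) (0 : ℝ)).congr ?_ ?_
      · intro s hs
        rw [max_eq_right hs, zero_pow (by omega)]
      · rw [max_self, zero_pow (by omega)]
    · rw [max_self]
      refine (hp 0).hasDerivWithinAt.congr ?_ ?_
      · intro s hs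
        rw [max_eq_left hs]
      · rw [max_self]
  · have e : (fun t : ℝ => max t 0 ^ (k + 2)) =ᶠ[𝓝 t] fun t => t ^ (k + 2) := by
      filter_upwards [Ioi_mem_nhds h] with s hs
      rw [max_eq_left (le_of_lt hs)]
    rw [max_eq_left h.le]
    exact (hp t).congr_of_eventuallyEq e

theorem L2_d3 (t : ℝ) : HasDerivAt (fun t : ℝ => max t 0 ^ 3) (3 * max t 0 ^ 2) t := by
  simpa using L2_max_pow 1 t

theorem L2_d2 (t : ℝ) : HasDerivAt (fun t : ℝ => max t 0 ^ 2) (2 * max t 0) t := by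
  simpa using L2_max_pow 0 t

theorem L2_contDiff_max : ContDiff ℝ 2 (fun t : ℝ => max t 0 ^ 3) := by
  have h1 : deriv (fun t : ℝ => max t 0 ^ 3) = fun t => 3 * max t 0 ^ 2 :=
    funext fun t => (L2_d3 t).deriv
  have h2 : deriv (fun t : ℝ => 3 * max t 0 ^ 2) = fun t => 3 * (2 * max t 0) :=
    funext fun t => ((L2_d2 t).const_mul 3).deriv
  have h3 : ContDiff ℝ 1 (fun t : ℝ => 3 * max t 0 ^ 2) := by
    have : (1 : WithTop ℕ∞) = 0 + 1 := by norm_num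
    rw [this, contDiff_succ_iff_deriv]
    refine ⟨fun t => ((L2_d2 t).const_mul 3).differentiableAt, by simp, ?_⟩
    rw [h2, contDiff_zero]
    fun_prop
  have : (2 : WithTop ℕ∞) = 1 + 1 := by norm_num
  rw [this, contDiff_succ_iff_deriv]
  refine ⟨fun t => (L2_d3 t).differentiableAt, by simp, ?_⟩
  rw [h1]
  exact h3

theorem L2_coord (i : Fin 5) : ContDiff ℝ 2 (fun p : E 5 => p i) :=
  (EuclideanSpace.proj (𝕜 := ℝ) i : E 5 →L[ℝ] ℝ).contDiff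

theorem contDiff_F0 : ContDiff ℝ 2 F0 := by
  have h0 := L2_coord 0
  have h1 := L2_coord 1
  have h2 := L2_coord 2
  have h3 := L2_coord 3
  have h4 := L2_coord 4
  have hX : ContDiff ℝ 2 (fun p : E 5 => p 0 ^ 2 + p 1 ^ 2 + p 4 ^ 2) :=
    ((h0.pow 2).add (h1.pow 2)).add (h4.pow 2)
  have hm : ContDiff ℝ 2 (fun p : E 5 => max (p 0 ^ 2 + p 1 ^ 2 + p 4 ^ 2 - 3) 0 ^ 3) :=
    L2_contDiff_max.comp (hX.sub contDiff_const)
  have hF : ContDiff ℝ 2 (fun p : E 5 => -p 2 + 10 * (p 2 ^ 2 + p 3 ^ 2) +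
      1 / 2 * p 2 ^ 2 * (p 0 ^ 2 + p 1 ^ 2 + p 4 ^ 2) +
      max (p 0 ^ 2 + p 1 ^ 2 + p 4 ^ 2 - 3) 0 ^ 3) :=
    ((h2.neg.add (contDiff_const.mul ((h2.pow 2).add (h3.pow 2)))).add
      ((contDiff_const.mul (h2.pow 2)).mul hX)).add hm
  exact hF

theorem L2_bounds {p : E 5} (hp : F0 p < 0) : 0 < p 2 ∧ p 2 < 1 / 10 ∧ p 3 ^ 2 < 1 / 100 ∧
    p 0 ^ 2 + p 1 ^ 2 + p 4 ^ 2 < 33 / 10 := by
  unfold F0 at hp
  have hX : 0 ≤ p 0 ^ 2 + p 1 ^ 2 + p 4 ^ 2 := by positivity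
  have hm : 0 ≤ max (p 0 ^ 2 + p 1 ^ 2 + p 4 ^ 2 - 3) 0 ^ 3 := by positivity
  have hq : 0 ≤ 1 / 2 * p 2 ^ 2 * (p 0 ^ 2 + p 1 ^ 2 + p 4 ^ 2) := by positivity
  have h1 : 0 < p 2 := by nlinarith [sq_nonneg (p 2), sq_nonneg (p 3)]
  have h2 : p 2 < 1 / 10 := by nlinarith [sq_nonneg (p 2), sq_nonneg (p 3)]
  have h3 : p 3 ^ 2 < 1 / 100 := by nlinarith [sq_nonneg (p 2 - 1 / 20), sq_nonneg (p 3)]
  refine ⟨h1, h2, h3, ?_⟩
  by_contra hcon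
  push Not at hcon
  have h4 : (3 / 10 : ℝ) ≤ max (p 0 ^ 2 + p 1 ^ 2 + p 4 ^ 2 - 3) 0 :=
    le_trans (by linarith) (le_max_left _ _)
  have h5 : (3 / 10 : ℝ) ^ 3 ≤ max (p 0 ^ 2 + p 1 ^ 2 + p 4 ^ 2 - 3) 0 ^ 3 :=
    pow_le_pow_left₀ (by norm_num) h4 3
  nlinarith [sq_nonneg (p 2 - 1 / 20), sq_nonneg (p 3)]

/-- Facts about the domain. -/
theorem D0_facts : IsOpen D0 ∧ IsCompact (closure D0) ∧ ∀ p ∈ D0, 0 < p 2 := by
  refine ⟨isOpen_lt contDiff_F0.continuous continuous_const, ?_, fun p hp => (L2_bounds hp).1⟩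
  refine Metric.isCompact_of_isClosed_isBounded isClosed_closure ?_
  refine Bornology.IsBounded.closure ?_
  refine (Metric.isBounded_closedBall (x := (0 : E 5)) (r := 2)).subset ?_
  intro p hp
  obtain ⟨h1, h2, h3, h4⟩ := L2_bounds hp
  rw [mem_closedBall_zero_iff, EuclideanSpace.norm_eq]
  rw [Real.sqrt_le_left (by norm_num)]
  simp only [Fin.sum_univ_five, Real.norm_eq_abs, sq_abs]
  nlinarith

theorem L2_line (F : E n → ℝ) (hF : ContDiff ℝ 2 F) (x v : E n) (ψ : ℝ → ℝ) (A : ℝ)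
    (h1 : ∀ t, HasDerivAt (fun t : ℝ => F (x + t • v)) (ψ t) t) (h2 : HasDerivAt ψ A 0) :
    fderiv ℝ (fderiv ℝ F) x v v = A := by
  have hl : ∀ t : ℝ, HasDerivAt (fun t : ℝ => x + t • v) v t := by
    intro t
    have := ((hasDerivAt_id t).smul_const v).const_add x
    simpa using this
  have hd : Differentiable ℝ F := hF.differentiable (by norm_num)
  have hd2 : Differentiable ℝ (fderiv ℝ F) :=
    (hF.fderiv_right (m := 1) (by norm_num)).differentiable (by norm_num)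
  have e : ψ = fun t => fderiv ℝ F (x + t • v) v := by
    funext t
    exact (h1 t).unique ((hd (x + t • v)).hasFDerivAt.comp_hasDerivAt t (hl t))
  have h3 : HasDerivAt (fun t : ℝ => fderiv ℝ F (x + t • v))
      (fderiv ℝ (fderiv ℝ F) (x + (0 : ℝ) • v) v) 0 :=
    (hd2 (x + (0 : ℝ) • v)).hasFDerivAt.comp_hasDerivAt (0 : ℝ) (hl 0)
  have h4 := h3.clm_apply (hasDerivAt_const (0 : ℝ) v)
  rw [map_zero, add_zero, zero_smul, add_zero] at h4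
  rw [e] at h2
  exact h4.unique h2

theorem L2_second (x v : E 5) : fderiv ℝ (fderiv ℝ F0) x v v =
    20 * (v 2 ^ 2 + v 3 ^ 2) + v 2 ^ 2 * (x 0 ^ 2 + x 1 ^ 2 + x 4 ^ 2) +
      4 * x 2 * v 2 * (x 0 * v 0 + x 1 * v 1 + x 4 * v 4) +
      x 2 ^ 2 * (v 0 ^ 2 + v 1 ^ 2 + v 4 ^ 2) +
      6 * max (x 0 ^ 2 + x 1 ^ 2 + x 4 ^ 2 - 3) 0 *
        (2 * (x 0 * v 0 + x 1 * v 1 + x 4 * v 4)) ^ 2 +
      6 * max (x 0 ^ 2 + x 1 ^ 2 + x 4 ^ 2 - 3) 0 ^ 2 * (v 0 ^ 2 + v 1 ^ 2 + v 4 ^ 2) := by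
  have hq : ∀ (i : Fin 5) (t : ℝ), HasDerivAt (fun t : ℝ => x i + t * v i) (v i) t := by
    intro i t
    have := ((hasDerivAt_id t).mul_const (v i)).const_add (x i)
    simpa using this
  have hX : ∀ t : ℝ, HasDerivAt (fun t : ℝ => (x 0 + t * v 0) ^ 2 + (x 1 + t * v 1) ^ 2 +
      (x 4 + t * v 4) ^ 2) (2 * ((x 0 + t * v 0) * v 0 + (x 1 + t * v 1) * v 1 +
      (x 4 + t * v 4) * v 4)) t := by
    intro t
    have := (((hq 0 t).pow 2).add ((hq 1 t).pow 2)).add ((hq 4 t).pow 2)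
    refine this.congr_deriv ?_
    push_cast
    ring
  have hY : ∀ t : ℝ, HasDerivAt (fun t : ℝ => (x 0 + t * v 0) * v 0 + (x 1 + t * v 1) * v 1 +
      (x 4 + t * v 4) * v 4) (v 0 ^ 2 + v 1 ^ 2 + v 4 ^ 2) t := by
    intro t
    have := (((hq 0 t).mul_const (v 0)).add ((hq 1 t).mul_const (v 1))).add
      ((hq 4 t).mul_const (v 4))
    refine this.congr_deriv ?_
    ring
  have hm3 : ∀ t : ℝ, HasDerivAt (fun t : ℝ => max ((x 0 + t * v 0) ^ 2 + (x 1 + t * v 1) ^ 2 +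
      (x 4 + t * v 4) ^ 2 - 3) 0 ^ 3) (3 * max ((x 0 + t * v 0) ^ 2 + (x 1 + t * v 1) ^ 2 +
      (x 4 + t * v 4) ^ 2 - 3) 0 ^ 2 * (2 * ((x 0 + t * v 0) * v 0 + (x 1 + t * v 1) * v 1 +
      (x 4 + t * v 4) * v 4))) t := fun t =>
    (L2_d3 _).comp t ((hX t).sub_const 3)
  have hm2 : ∀ t : ℝ, HasDerivAt (fun t : ℝ => max ((x 0 + t * v 0) ^ 2 + (x 1 + t * v 1) ^ 2 +
      (x 4 + t * v 4) ^ 2 - 3) 0 ^ 2) (2 * max ((x 0 + t * v 0) ^ 2 + (x 1 + t * v 1) ^ 2 +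
      (x 4 + t * v 4) ^ 2 - 3) 0 * (2 * ((x 0 + t * v 0) * v 0 + (x 1 + t * v 1) * v 1 +
      (x 4 + t * v 4) * v 4))) t := fun t =>
    (L2_d2 _).comp t ((hX t).sub_const 3)
  have key := L2_line F0 contDiff_F0 x v
    (fun t => -v 2 + 10 * (2 * (x 2 + t * v 2) * v 2 + 2 * (x 3 + t * v 3) * v 3) +
      ((x 2 + t * v 2) * v 2 * ((x 0 + t * v 0) ^ 2 + (x 1 + t * v 1) ^ 2 +
      (x 4 + t * v 4) ^ 2) + (x 2 + t * v 2) ^ 2 * ((x 0 + t * v 0) * v 0 + (x 1 + t * v 1) * v 1 +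
      (x 4 + t * v 4) * v 4)) +
      3 * max ((x 0 + t * v 0) ^ 2 + (x 1 + t * v 1) ^ 2 +
      (x 4 + t * v 4) ^ 2 - 3) 0 ^ 2 * (2 * ((x 0 + t * v 0) * v 0 + (x 1 + t * v 1) * v 1 +
      (x 4 + t * v 4) * v 4))) (20 * (v 2 ^ 2 + v 3 ^ 2) + v 2 ^ 2 * (x 0 ^ 2 + x 1 ^ 2 + x 4 ^ 2) +
      4 * x 2 * v 2 * (x 0 * v 0 + x 1 * v 1 + x 4 * v 4) +
      x 2 ^ 2 * (v 0 ^ 2 + v 1 ^ 2 + v 4 ^ 2) +
      6 * max (x 0 ^ 2 + x 1 ^ 2 + x 4 ^ 2 - 3) 0 *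
        (2 * (x 0 * v 0 + x 1 * v 1 + x 4 * v 4)) ^ 2 +
      6 * max (x 0 ^ 2 + x 1 ^ 2 + x 4 ^ 2 - 3) 0 ^ 2 * (v 0 ^ 2 + v 1 ^ 2 + v 4 ^ 2)) ?_ ?_
  · exact key
  · intro t
    have e : (fun t : ℝ => F0 (x + t • v)) = fun t : ℝ =>
        -(x 2 + t * v 2) + 10 * ((x 2 + t * v 2) ^ 2 + (x 3 + t * v 3) ^ 2) +
        1 / 2 * (x 2 + t * v 2) ^ 2 * ((x 0 + t * v 0) ^ 2 + (x 1 + t * v 1) ^ 2 +
        (x 4 + t * v 4) ^ 2) + max ((x 0 + t * v 0) ^ 2 + (x 1 + t * v 1) ^ 2 +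
        (x 4 + t * v 4) ^ 2 - 3) 0 ^ 3 := by
      funext t
      unfold F0
      simp only [PiLp.add_apply, PiLp.smul_apply, smul_eq_mul]
    rw [e]
    have := (((hq 2 t).neg.add ((((hq 2 t).pow 2).add ((hq 3 t).pow 2)).const_mul 10)).add
      ((((hq 2 t).pow 2).const_mul (1 / 2)).mul (hX t))).add (hm3 t)
    refine this.congr_deriv ?_
    simp only [Pi.pow_apply]
    push_cast
    ring
  · have h1 := (((((hq 2 0).const_mul 2).mul_const (v 2)).add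
      (((hq 3 0).const_mul 2).mul_const (v 3))).const_mul 10).const_add (-v 2)
    have h2 := (((hq 2 0).mul_const (v 2)).mul (hX 0)).add (((hq 2 0).pow 2).mul (hY 0))
    have h3 := ((hm2 0).const_mul 3).mul ((hY 0).const_mul 2)
    refine ((h1.add h2).add h3).congr_deriv ?_
    simp only [Pi.pow_apply, zero_mul, add_zero]
    push_cast
    ring

theorem L2_zero {a b c : ℝ} (h : a ^ 2 + b ^ 2 + c ^ 2 = 0) : a = 0 ∧ b = 0 ∧ c = 0 := by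
  have ha : a ^ 2 = 0 := le_antisymm (by linarith [sq_nonneg b, sq_nonneg c]) (sq_nonneg a)
  have hb : b ^ 2 = 0 := le_antisymm (by linarith [sq_nonneg a, sq_nonneg c]) (sq_nonneg b)
  have hc : c ^ 2 = 0 := le_antisymm (by linarith [sq_nonneg a, sq_nonneg b]) (sq_nonneg c)
  exact ⟨(pow_eq_zero_iff two_ne_zero).1 ha, (pow_eq_zero_iff two_ne_zero).1 hb,
    (pow_eq_zero_iff two_ne_zero).1 hc⟩

/-- the inequality between real numbers -/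
theorem L2_real (a b c p s t u v w A B : ℝ) (hp : 0 < p)
    (hX : a ^ 2 + b ^ 2 + c ^ 2 < 33 / 10) (hA : 0 ≤ A) (hB : 0 ≤ B)
    (hne : ¬ (s = 0 ∧ t = 0 ∧ u = 0 ∧ v = 0 ∧ w = 0)) :
    0 < 20 * (u ^ 2 + v ^ 2) + u ^ 2 * (a ^ 2 + b ^ 2 + c ^ 2) +
      4 * p * u * (a * s + b * t + c * w) + p ^ 2 * (s ^ 2 + t ^ 2 + w ^ 2) + A + B := by
  have hC : 0 ≤ u ^ 2 * (a ^ 2 + b ^ 2 + c ^ 2) := by positivity
  have hCS : (a * s + b * t + c * w) ^ 2 ≤ (a ^ 2 + b ^ 2 + c ^ 2) * (s ^ 2 + t ^ 2 + w ^ 2) := by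
    have e : (a ^ 2 + b ^ 2 + c ^ 2) * (s ^ 2 + t ^ 2 + w ^ 2) - (a * s + b * t + c * w) ^ 2 =
      (a * t - b * s) ^ 2 + (a * w - c * s) ^ 2 + (b * w - c * t) ^ 2 := by ring
    have e2 : 0 ≤ (a * t - b * s) ^ 2 + (a * w - c * s) ^ 2 + (b * w - c * t) ^ 2 := by positivity
    linarith
  by_cases hN : s ^ 2 + t ^ 2 + w ^ 2 = 0
  · obtain ⟨rfl, rfl, rfl⟩ := L2_zero hN
    have h7 : 0 < u ^ 2 + v ^ 2 := by
      by_contra hcon
      have h8 : u ^ 2 = 0 := le_antisymm (by linarith [sq_nonneg v]) (sq_nonneg u)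
      have h9 : v ^ 2 = 0 := le_antisymm (by linarith [sq_nonneg u]) (sq_nonneg v)
      exact hne ⟨rfl, rfl, (pow_eq_zero_iff two_ne_zero).1 h8,
        (pow_eq_zero_iff two_ne_zero).1 h9, rfl⟩
    have e1 : 4 * p * u * (a * 0 + b * 0 + c * 0) + p ^ 2 * ((0 : ℝ) ^ 2 + 0 ^ 2 + 0 ^ 2) = 0 := by
      ring
    linarith
  · have hN2 : 0 < s ^ 2 + t ^ 2 + w ^ 2 := lt_of_le_of_ne (by positivity) (Ne.symm hN)
    generalize s ^ 2 + t ^ 2 + w ^ 2 = N at *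
    generalize a * s + b * t + c * w = y at *
    have hCS2 : y ^ 2 ≤ 33 / 10 * N := hCS.trans (mul_le_mul_of_nonneg_right hX.le hN2.le)
    have h5 : p ^ 2 * y ^ 2 ≤ p ^ 2 * (33 / 10 * N) := mul_le_mul_of_nonneg_left hCS2 (sq_nonneg _)
    have h6 : 0 ≤ 20 * (u + p * y / 10) ^ 2 := by positivity
    have e : 20 * (u + p * y / 10) ^ 2 = 20 * u ^ 2 + 4 * p * u * y + p ^ 2 * y ^ 2 / 5 := by ring
    have h7 : 0 < p ^ 2 * N := by positivity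
    have h8 : p ^ 2 * (33 / 10 * N) = 33 / 10 * (p ^ 2 * N) := by ring
    have h9 := sq_nonneg v
    linarith

theorem L2_pos {x : E 5} (hx : F0 x < 0) {v : E 5} (hv : v ≠ 0) :
    0 < fderiv ℝ (fderiv ℝ F0) x v v := by
  obtain ⟨h1, h2, h3, h4⟩ := L2_bounds hx
  rw [L2_second]
  have hm : 0 ≤ max (x 0 ^ 2 + x 1 ^ 2 + x 4 ^ 2 - 3) 0 := le_max_right _ _
  refine L2_real (x 0) (x 1) (x 4) (x 2) (v 0) (v 1) (v 2) (v 3) (v 4) _ _ h1 h4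
    (by positivity) (by positivity) ?_
  rintro ⟨z0, z1, z2, z3, z4⟩
  apply hv
  ext i
  fin_cases i
  · exact z0
  · exact z1
  · exact z2
  · exact z3
  · exact z4

theorem convexLit_D0 : IsConvexDomainLit (flat 5) 3 D0 := by
  refine ⟨F0, contDiff_F0, fun x hx => hx, fun x hx => ?_, fun x hx w hw => ?_⟩
  · exact frontier_lt_subset_eq contDiff_F0.continuous continuous_const hx
  · rw [ortho_flat] at hw
    refine Finset.sum_pos (fun i _ => ?_) ⟨0, Finset.mem_univ _⟩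
    rw [hess_flat]
    exact L2_pos hx (hw.ne_zero i)

end Pool.Agent.H793.MS
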