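import Pool.Agent.H793.MS.Defs

set_option autoImplicit false

open scoped ContDiff Topology ENNReal Manifold
open MeasureTheory Set Filter

namespace Pool.Agent.H793.MS

variable {n m : ℕ}

section
variable {M : Type*} [TopologicalSpace M] [ChartedSpace (E m) M]

theorem loc_chart {X : Type*} (f : M → X) (p : M) :
    loc (m := m) f p (chartAt (E m) p p) = f p := by
  unfold loc
  rw [(chartAt (E m) p).left_inv (mem_chart_source (E m) p)]

theorem isOpen_target (p : M) : IsOpen (chartAt (E m) p).target :=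
  (chartAt (E m) p).open_target

/-- Smooth maps are smooth in charts. -/
theorem contDiffOn_loc [IsManifold (𝓡 m) ∞ M] {X : Type*} [NormedAddCommGroup X]
    [NormedSpace ℝ X] (k : ℕ∞) (f : M → X) (hf : ContMDiff (𝓡 m) 𝓘(ℝ, X) k f) (x₀ : M) :
    ContDiffOn ℝ k (loc (m := m) f x₀) (chartAt (E m) x₀).target := by
  have h1 : ContMDiffOn (𝓡 m) (𝓡 m) k (chartAt (E m) x₀).symm (chartAt (E m) x₀).target :=
    (contMDiffOn_chart_symm (I := 𝓡 m) (n := ∞) (x := x₀)).of_le (by exact_mod_cast le_top)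
  have h2 : ContMDiffOn (𝓡 m) 𝓘(ℝ, X) k (f ∘ (chartAt (E m) x₀).symm)
      (chartAt (E m) x₀).target := hf.comp_contMDiffOn h1
  exact contMDiffOn_iff_contDiffOn.1 h2

/-- The coordinate changes are smooth. -/
theorem contDiffOn_transition [IsManifold (𝓡 m) ∞ M] (x₀ x₁ : M) :
    ContDiffOn ℝ ∞ (fun u => chartAt (E m) x₁ ((chartAt (E m) x₀).symm u))
      ((chartAt (E m) x₀).target ∩ (chartAt (E m) x₀).symm ⁻¹' (chartAt (E m) x₁).source) := by
  have h1 : ContMDiffOn (𝓡 m) (𝓡 m) ∞ (chartAt (E m) x₀).symm (chartAt (E m) x₀).target :=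
    contMDiffOn_chart_symm (I := 𝓡 m) (n := ∞) (x := x₀)
  have h2 : ContMDiffOn (𝓡 m) (𝓡 m) ∞ (chartAt (E m) x₁) (chartAt (E m) x₁).source :=
    contMDiffOn_chart (I := 𝓡 m) (n := ∞) (x := x₁)
  have h3 : ContMDiffOn (𝓡 m) (𝓡 m) ∞ ((chartAt (E m) x₁) ∘ (chartAt (E m) x₀).symm)
      ((chartAt (E m) x₀).target ∩ (chartAt (E m) x₀).symm ⁻¹' (chartAt (E m) x₁).source) :=
    h2.comp (h1.mono inter_subset_left) (fun u hu => hu.2)
  exact contMDiffOn_iff_contDiffOn.1 h3

/-- The derivatives of the coordinate changes are injective. -/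
theorem injective_transition [IsManifold (𝓡 m) ∞ M] (x₀ x₁ : M) (u : E m)
    (hu : u ∈ (chartAt (E m) x₀).target)
    (hu' : (chartAt (E m) x₀).symm u ∈ (chartAt (E m) x₁).source) :
    Function.Injective
      (fderiv ℝ (fun u => chartAt (E m) x₁ ((chartAt (E m) x₀).symm u)) u) := by
  have hopen : IsOpen ((chartAt (E m) x₀).target ∩
      (chartAt (E m) x₀).symm ⁻¹' (chartAt (E m) x₁).source) :=
    (chartAt (E m) x₀).isOpen_inter_preimage_symm (chartAt (E m) x₁).open_source
  have hopen' : IsOpen ((chartAt (E m) x₁).target ∩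
      (chartAt (E m) x₁).symm ⁻¹' (chartAt (E m) x₀).source) :=
    (chartAt (E m) x₁).isOpen_inter_preimage_symm (chartAt (E m) x₀).open_source
  have hw : chartAt (E m) x₁ ((chartAt (E m) x₀).symm u) ∈ (chartAt (E m) x₁).target ∩
      (chartAt (E m) x₁).symm ⁻¹' (chartAt (E m) x₀).source := by
    refine ⟨(chartAt (E m) x₁).map_source hu', ?_⟩
    change (chartAt (E m) x₁).symm (chartAt (E m) x₁ ((chartAt (E m) x₀).symm u)) ∈
      (chartAt (E m) x₀).source
    rw [(chartAt (E m) x₁).left_inv hu']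
    exact (chartAt (E m) x₀).map_target hu
  have hT : DifferentiableAt ℝ (fun u => chartAt (E m) x₁ ((chartAt (E m) x₀).symm u)) u :=
    ((contDiffOn_transition x₀ x₁).contDiffAt (hopen.mem_nhds ⟨hu, hu'⟩)).differentiableAt
      (by simp)
  have hS : DifferentiableAt ℝ (fun w => chartAt (E m) x₀ ((chartAt (E m) x₁).symm w))
      (chartAt (E m) x₁ ((chartAt (E m) x₀).symm u)) :=
    ((contDiffOn_transition x₁ x₀).contDiffAt (hopen'.mem_nhds hw)).differentiableAt
      (by simp)
  have hid : (fun v => (fun w => chartAt (E m) x₀ ((chartAt (E m) x₁).symm w))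
      ((fun u => chartAt (E m) x₁ ((chartAt (E m) x₀).symm u)) v)) =ᶠ[𝓝 u] fun v => v := by
    filter_upwards [hopen.mem_nhds ⟨hu, hu'⟩] with v hv
    rw [(chartAt (E m) x₁).left_inv hv.2, (chartAt (E m) x₀).right_inv hv.1]
  have hcomp := hS.hasFDerivAt.comp u hT.hasFDerivAt
  have hcomp2 : HasFDerivAt (fun v : E m => v)
      ((fderiv ℝ (fun w => chartAt (E m) x₀ ((chartAt (E m) x₁).symm w))
        (chartAt (E m) x₁ ((chartAt (E m) x₀).symm u))).comp
        (fderiv ℝ (fun u => chartAt (E m) x₁ ((chartAt (E m) x₀).symm u)) u)) u :=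
    hcomp.congr_of_eventuallyEq hid.symm
  have heq := hcomp2.unique (hasFDerivAt_id u)
  intro v w hvw
  have h1 := congrArg (fun L : E m →L[ℝ] E m => L v) heq
  have h2 := congrArg (fun L : E m →L[ℝ] E m => L w) heq
  simp only [ContinuousLinearMap.comp_apply, ContinuousLinearMap.id_apply] at h1 h2
  rw [← h1, ← h2, hvw]

end

end Pool.Agent.H793.MS
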