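import Pool.Agent.H793.MS.LitD
import Pool.Agent.H793.MS.Loc

set_option autoImplicit false

open scoped ContDiff Topology ENNReal Manifold
open MeasureTheory Set Filter

namespace Pool.Agent.H793.MS

variable {n m : ℕ}

/-- The charts of an open set of `ℝᵐ`. -/
theorem chart_opens (U : TopologicalSpace.Opens (E m)) (x₀ : U) :
    (chartAt (E m) x₀).source = univ ∧ (chartAt (E m) x₀).target = (U : Set (E m)) ∧
      (∀ p : U, chartAt (E m) x₀ p = (p : E m)) ∧
      ∀ (u : E m) (hu : u ∈ U), (chartAt (E m) x₀).symm u = ⟨u, hu⟩ := by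
  have hs : (chartAt (E m) x₀).source = univ := by
    rw [TopologicalSpace.Opens.chartAt_eq, OpenPartialHomeomorph.subtypeRestr_source]
    simp
  have ht : (chartAt (E m) x₀).target = (U : Set (E m)) := by
    rw [TopologicalSpace.Opens.chartAt_eq, OpenPartialHomeomorph.subtypeRestr_def,
      OpenPartialHomeomorph.trans_target]
    simp
  have ha : ∀ p : U, chartAt (E m) x₀ p = (p : E m) := fun p => rfl
  refine ⟨hs, ht, ha, ?_⟩
  intro u hu
  apply Subtype.ext
  rw [← ha]
  exact (chartAt (E m) x₀).right_inv (by rw [ht]; exact hu)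

theorem loc_opens_eq {X : Type*} (U : TopologicalSpace.Opens (E m)) (g : E m → X) (x₀ : U)
    (u : E m) (hu : u ∈ U) : loc (m := m) (fun p : U => g (p : E m)) x₀ u = g u := by
  show g (((chartAt (E m) x₀).symm u : U) : E m) = g u
  rw [(chart_opens U x₀).2.2.2 u hu]

theorem loc_opens {X : Type*} (U : TopologicalSpace.Opens (E m)) (g : E m → X) (x₀ : U)
    (u : E m) (hu : u ∈ U) : loc (m := m) (fun p : U => g (p : E m)) x₀ =ᶠ[𝓝 u] g := by
  filter_upwards [U.isOpen.mem_nhds hu] with v hv
  exact loc_opens_eq U g x₀ v hv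

theorem gram_opens (G : Metric n) (ψ : E m → E n) (U : TopologicalSpace.Opens (E m)) (x₀ : U)
    (u : E m) (hu : u ∈ U) :
    gram G (loc (m := m) (fun p : U => ψ (p : E m)) x₀) u = gram G ψ u := by
  unfold gram
  rw [loc_opens_eq U ψ x₀ u hu, (loc_opens U ψ x₀ u hu).fderiv_eq]

/-- Restrictions of minimal immersions to open sets of `ℝᵐ`. -/
theorem minimal_opens (G : Metric n) (ψ : E m → E n) (U : TopologicalSpace.Opens (E m))
    (hψ : ContDiff ℝ ∞ ψ) (himm : ∀ u ∈ U, Function.Injective (fderiv ℝ ψ u))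
    (hmin : ∀ u ∈ U, MeanCurvZero G ψ u) :
    IsMinimalImmersion (m := m) G (fun p : U => ψ (p : E m)) := by
  refine ⟨?_, ?_, ?_⟩
  · exact hψ.contMDiff.comp contMDiff_subtype_val
  · intro x₀ u hu
    have hu' : u ∈ U := by
      rw [(chart_opens U x₀).2.1] at hu
      exact hu
    rw [(loc_opens U ψ x₀ u hu').fderiv_eq]
    exact himm u hu'
  · intro x₀ u hu
    have hu' : u ∈ U := by
      rw [(chart_opens U x₀).2.1] at hu
      exact hu
    have h1 := (loc_opens U ψ x₀ u hu').fderiv_eq (𝕜 := ℝ)
    have h2 := ((loc_opens U ψ x₀ u hu').fderiv (𝕜 := ℝ)).fderiv_eq (𝕜 := ℝ)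
    have h3 := loc_opens_eq U ψ x₀ u hu'
    unfold MeanCurvZero
    rw [h1, h2, h3]
    exact hmin u hu'

/-- The volume measure on an open set of `ℝᵐ`. -/
theorem isVolume_opens (G : Metric n) (ψ : E m → E n) (U : TopologicalSpace.Opens (E m))
    (hψ : ContDiff ℝ ∞ ψ) :
    IsVolume (m := m) G (fun p : U => ψ (p : E m)) (volU G ψ U) := by
  intro x₀ s hs hms
  have hU : MeasurableSet (U : Set (E m)) := U.isOpen.measurableSet
  have himg : (chartAt (E m) x₀) '' s = Subtype.val '' s := by
    apply Set.image_congr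
    intro p _
    exact (chart_opens U x₀).2.2.1 p
  have hmv : MeasurableSet (Subtype.val '' s : Set (E m)) :=
    (MeasurableEmbedding.subtype_coe hU).measurableSet_image.mpr hms
  have h1 : volU G ψ U s = ((volume : Measure (E m)).withDensity fun u =>
      ENNReal.ofReal (dens G ψ u)) (Subtype.val '' s) := by
    unfold volU
    exact (MeasurableEmbedding.subtype_coe hU).comap_apply _ _
  rw [h1, himg, withDensity_apply _ hmv]
  apply setLIntegral_congr_fun hmv
  rintro u ⟨p, _, rfl⟩
  show ENNReal.ofReal (dens G ψ (p : E m)) = ENNReal.ofReal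
    (dens G (loc (m := m) (fun p : U => ψ (p : E m)) x₀) (p : E m))
  unfold dens
  rw [gram_opens G ψ U x₀ p p.2]

theorem dens_cont (G : Metric n) (ψ : E m → E n) (hψ : ContDiff ℝ ∞ ψ) :
    Continuous (fun u => dens G ψ u) := by
  unfold dens
  apply Real.continuous_sqrt.comp
  apply Continuous.matrix_det
  apply continuous_matrix
  intro i j
  have hd : Continuous (fderiv ℝ ψ) := hψ.continuous_fderiv (by simp)
  have hg : Continuous (fun u => G.g (ψ u)) := G.smooth.continuous.comp hψ.continuous
  exact (hg.clm_apply (hd.clm_apply continuous_const)).clm_apply (hd.clm_apply continuous_const)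

/-- Integration on an open set of `ℝᵐ`. -/
theorem integral_opens (G : Metric n) (ψ : E m → E n) (U : TopologicalSpace.Opens (E m))
    (hψ : ContDiff ℝ ∞ ψ) (f : E m → ℝ) (hf : Continuous f) :
    ∫ p : U, f p ∂(volU G ψ U) = ∫ u in (U : Set (E m)), dens G ψ u * f u := by
  have hU : MeasurableSet (U : Set (E m)) := U.isOpen.measurableSet
  have h1 : ∫ p : U, f p ∂(volU G ψ U) = ∫ u in (U : Set (E m)), f u
      ∂((volume : Measure (E m)).withDensity fun u => ENNReal.ofReal (dens G ψ u)) := by
    unfold volU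
    exact integral_subtype_comap hU f
  rw [h1, setIntegral_withDensity_eq_setIntegral_toReal_smul
    (dens_cont G ψ hψ).measurable.ennreal_ofReal
    (Filter.Eventually.of_forall fun x => ENNReal.ofReal_lt_top) f hU]
  apply setIntegral_congr_fun hU
  intro u _
  show (ENNReal.ofReal (dens G ψ u)).toReal • f u = dens G ψ u * f u
  have h0 : 0 ≤ dens G ψ u := Real.sqrt_nonneg _
  rw [ENNReal.toReal_ofReal h0, smul_eq_mul]

/-- The gradient on an open set of `ℝᵐ`. -/
theorem gradSq_opens (G : Metric n) (ψ : E m → E n) (U : TopologicalSpace.Opens (E m))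
    (f : E m → ℝ) (p : U) :
    gradSq (m := m) G (fun p : U => ψ (p : E m)) (fun p : U => f p) p =
      ginner G ψ f f (p : E m) := by
  unfold gradSq gradInner ginner pd
  rw [(chart_opens U p).2.2.1 p, gram_opens G ψ U p p p.2, (loc_opens U f p p p.2).fderiv_eq]

end Pool.Agent.H793.MS
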