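import Pool.Agent.H793.MS.Lit1
import Pool.Agent.H793.MS.Fr

set_option autoImplicit false

open scoped ContDiff Topology ENNReal Manifold
open MeasureTheory Set Filter

namespace Pool.Agent.H793.MS

variable {n m : ℕ}

lemma spi0 (u : E 3) : spiral u 0 = Real.exp (u 1) * Real.cos (u 0) := by simp [spiral]
lemma spi1 (u : E 3) : spiral u 1 = Real.exp (u 1) * Real.sin (u 0) := by simp [spiral]
lemma spi2 (u : E 3) : spiral u 2 = 1 / 20 * (Real.exp (-u 0) * Real.cos (u 1)) := by simp [spiral]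
lemma spi3 (u : E 3) : spiral u 3 = 1 / 20 * (Real.exp (-u 0) * Real.sin (u 1)) := by simp [spiral]
lemma spi4 (u : E 3) : spiral u 4 = u 2 := by simp [spiral]

lemma hpr (i : Fin 3) (u : E 3) :
    HasFDerivAt (fun x : E 3 => x i) (EuclideanSpace.proj i : E 3 →L[ℝ] ℝ) u :=
  (EuclideanSpace.proj i : E 3 →L[ℝ] ℝ).hasFDerivAt

lemma cpr (i : Fin 3) : ContDiff ℝ ∞ (fun x : E 3 => x i) :=
  (EuclideanSpace.proj i : E 3 →L[ℝ] ℝ).contDiff

theorem contDiff_spiral : ContDiff ℝ ∞ spiral := by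
  rw [contDiff_euclidean]
  intro i
  have h0 := cpr 0
  have h1 := cpr 1
  have h2 := cpr 2
  fin_cases i
  · show ContDiff ℝ ∞ fun x => spiral x 0
    simp only [spi0]
    exact h1.exp.mul h0.cos
  · show ContDiff ℝ ∞ fun x => spiral x 1
    simp only [spi1]
    exact h1.exp.mul h0.sin
  · show ContDiff ℝ ∞ fun x => spiral x 2
    simp only [spi2]
    exact contDiff_const.mul (h0.neg.exp.mul h1.cos)
  · show ContDiff ℝ ∞ fun x => spiral x 3
    simp only [spi3]
    exact contDiff_const.mul (h0.neg.exp.mul h1.sin)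
  · show ContDiff ℝ ∞ fun x => spiral x 4
    simp only [spi4]
    exact h2

lemma comp_fd (f : E 3 → E 5) (u v : E 3) (hf : DifferentiableAt ℝ f u) (i : Fin 5) :
    (fderiv ℝ f u v) i = fderiv ℝ (fun x => f x i) u v := by
  have h := (EuclideanSpace.proj i : E 5 →L[ℝ] ℝ).hasFDerivAt.comp u hf.hasFDerivAt
  have h2 : HasFDerivAt (fun x => f x i)
    ((EuclideanSpace.proj i : E 5 →L[ℝ] ℝ).comp (fderiv ℝ f u)) u := h
  rw [h2.fderiv]
  rfl

lemma fd_spiral (u v : E 3) : fderiv ℝ spiral u v =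
    !₂[Real.exp (u 1) * (v 1 * Real.cos (u 0) - v 0 * Real.sin (u 0)),
      Real.exp (u 1) * (v 1 * Real.sin (u 0) + v 0 * Real.cos (u 0)),
      1 / 20 * (Real.exp (-u 0) * (-(v 0 * Real.cos (u 1)) - v 1 * Real.sin (u 1))),
      1 / 20 * (Real.exp (-u 0) * (-(v 0 * Real.sin (u 1)) + v 1 * Real.cos (u 1))), v 2] := by
  have hd : DifferentiableAt ℝ spiral u := contDiff_spiral.differentiable (by simp) u
  have h0 := hpr 0 u
  have h1 := hpr 1 u
  have h2 := hpr 2 u
  ext i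
  rw [comp_fd spiral u v hd i]
  fin_cases i
  · show fderiv ℝ (fun x => spiral x 0) u v = _
    simp only [spi0]
    have hh : HasFDerivAt (fun x : E 3 => Real.exp (x 1) * Real.cos (x 0)) _ u := h1.exp.mul h0.cos
    rw [hh.fderiv]
    simp
    ring
  · show fderiv ℝ (fun x => spiral x 1) u v = _
    simp only [spi1]
    have hh : HasFDerivAt (fun x : E 3 => Real.exp (x 1) * Real.sin (x 0)) _ u := h1.exp.mul h0.sin
    rw [hh.fderiv]
    simp
    ring
  · show fderiv ℝ (fun x => spiral x 2) u v = _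
    simp only [spi2]
    have hh : HasFDerivAt (fun x : E 3 => 1 / 20 * (Real.exp (-x 0) * Real.cos (x 1))) _ u :=
      (h0.neg.exp.mul h1.cos).const_mul (1 / 20)
    rw [hh.fderiv]
    simp
    ring
  · show fderiv ℝ (fun x => spiral x 3) u v = _
    simp only [spi3]
    have hh : HasFDerivAt (fun x : E 3 => 1 / 20 * (Real.exp (-x 0) * Real.sin (x 1))) _ u :=
      (h0.neg.exp.mul h1.sin).const_mul (1 / 20)
    rw [hh.fderiv]
    simp
    ring
  · show fderiv ℝ (fun x => spiral x 4) u v = _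
    simp only [spi4]
    rw [h2.fderiv]
    simp

lemma fd2_spiral (u v w : E 3) : fderiv ℝ (fderiv ℝ spiral) u v w =
    !₂[Real.exp (u 1) * ((v 1 * w 1 - v 0 * w 0) * Real.cos (u 0) -
        (v 1 * w 0 + v 0 * w 1) * Real.sin (u 0)),
      Real.exp (u 1) * ((v 1 * w 1 - v 0 * w 0) * Real.sin (u 0) +
        (v 1 * w 0 + v 0 * w 1) * Real.cos (u 0)),
      -(1 / 20 * (Real.exp (-u 0) * ((v 1 * w 1 - v 0 * w 0) * Real.cos (u 1) -
        (v 1 * w 0 + v 0 * w 1) * Real.sin (u 1)))),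
      -(1 / 20 * (Real.exp (-u 0) * ((v 1 * w 1 - v 0 * w 0) * Real.sin (u 1) +
        (v 1 * w 0 + v 0 * w 1) * Real.cos (u 1)))), 0] := by
  have hcd : ContDiff ℝ ∞ (fderiv ℝ spiral) := contDiff_spiral.fderiv_right (by simp)
  have hd : DifferentiableAt ℝ (fderiv ℝ spiral) u := hcd.differentiable (by simp) u
  have h0 := hpr 0 u
  have h1 := hpr 1 u
  have e1 : HasFDerivAt (fun x => fderiv ℝ spiral x w)
      ((ContinuousLinearMap.apply ℝ (E 5) w).comp (fderiv ℝ (fderiv ℝ spiral) u)) u :=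
    (ContinuousLinearMap.apply ℝ (E 5) w).hasFDerivAt.comp u hd.hasFDerivAt
  have e2 : fderiv ℝ (fderiv ℝ spiral) u v w = fderiv ℝ (fun x => fderiv ℝ spiral x w) u v := by
    rw [e1.fderiv]
    rfl
  have hdw : DifferentiableAt ℝ (fun x => fderiv ℝ spiral x w) u := e1.differentiableAt
  rw [e2]
  ext i
  rw [comp_fd _ u v hdw i]
  fin_cases i
  · have : (fun x => (fderiv ℝ spiral x w) 0) = fun x : E 3 =>
        Real.exp (x 1) * (w 1 * Real.cos (x 0) - w 0 * Real.sin (x 0)) := by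
      ext x
      rw [fd_spiral]
      simp
    show fderiv ℝ (fun x => (fderiv ℝ spiral x w) 0) u v = _
    have hh : HasFDerivAt (fun x : E 3 =>
        Real.exp (x 1) * (w 1 * Real.cos (x 0) - w 0 * Real.sin (x 0))) _ u :=
      h1.exp.mul ((h0.cos.const_mul (w 1)).sub (h0.sin.const_mul (w 0)))
    rw [this, hh.fderiv]
    simp
    ring
  · have : (fun x => (fderiv ℝ spiral x w) 1) = fun x : E 3 =>
        Real.exp (x 1) * (w 1 * Real.sin (x 0) + w 0 * Real.cos (x 0)) := by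
      ext x
      rw [fd_spiral]
      simp
    show fderiv ℝ (fun x => (fderiv ℝ spiral x w) 1) u v = _
    have hh : HasFDerivAt (fun x : E 3 =>
        Real.exp (x 1) * (w 1 * Real.sin (x 0) + w 0 * Real.cos (x 0))) _ u :=
      h1.exp.mul ((h0.sin.const_mul (w 1)).add (h0.cos.const_mul (w 0)))
    rw [this, hh.fderiv]
    simp
    ring
  · have : (fun x => (fderiv ℝ spiral x w) 2) = fun x : E 3 =>
        1 / 20 * (Real.exp (-x 0) * (-(w 0 * Real.cos (x 1)) - w 1 * Real.sin (x 1))) := by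
      ext x
      rw [fd_spiral]
      simp
    show fderiv ℝ (fun x => (fderiv ℝ spiral x w) 2) u v = _
    have hh : HasFDerivAt (fun x : E 3 =>
        1 / 20 * (Real.exp (-x 0) * (-(w 0 * Real.cos (x 1)) - w 1 * Real.sin (x 1)))) _ u :=
      (h0.neg.exp.mul ((h1.cos.const_mul (w 0)).neg.sub (h1.sin.const_mul (w 1)))).const_mul (1 / 20)
    rw [this, hh.fderiv]
    simp
    ring
  · have : (fun x => (fderiv ℝ spiral x w) 3) = fun x : E 3 =>
        1 / 20 * (Real.exp (-x 0) * (-(w 0 * Real.sin (x 1)) + w 1 * Real.cos (x 1))) := by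
      ext x
      rw [fd_spiral]
      simp
    show fderiv ℝ (fun x => (fderiv ℝ spiral x w) 3) u v = _
    have hh : HasFDerivAt (fun x : E 3 =>
        1 / 20 * (Real.exp (-x 0) * (-(w 0 * Real.sin (x 1)) + w 1 * Real.cos (x 1)))) _ u :=
      (h0.neg.exp.mul ((h1.sin.const_mul (w 0)).neg.add (h1.cos.const_mul (w 1)))).const_mul (1 / 20)
    rw [this, hh.fderiv]
    simp
    ring
  · have : (fun x => (fderiv ℝ spiral x w) 4) = fun _ : E 3 => w 2 := by
      ext x
      rw [fd_spiral]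
      simp
    show fderiv ℝ (fun x => (fderiv ℝ spiral x w) 4) u v = _
    rw [this]
    simp

lemma inner_fd (u v w : E 3) : inner ℝ (fderiv ℝ spiral u v) (fderiv ℝ spiral u w) =
    (Real.exp (u 1) ^ 2 + 1 / 400 * Real.exp (-u 0) ^ 2) * (v 0 * w 0 + v 1 * w 1) + v 2 * w 2 := by
  rw [fd_spiral, fd_spiral, PiLp.inner_apply, Fin.sum_univ_five]
  simp
  have h1 := Real.sin_sq_add_cos_sq (u 0)
  have h2 := Real.sin_sq_add_cos_sq (u 1)
  linear_combination (Real.exp (u 1) ^ 2 * (v 0 * w 0 + v 1 * w 1)) * h1 +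
    (1 / 400 * Real.exp (-u 0) ^ 2 * (v 0 * w 0 + v 1 * w 1)) * h2

theorem gram_spiral (u : E 3) : gram (flat 5) spiral u =
    Matrix.diagonal ![Real.exp (u 1) ^ 2 + 1 / 400 * Real.exp (-u 0) ^ 2,
      Real.exp (u 1) ^ 2 + 1 / 400 * Real.exp (-u 0) ^ 2, 1] := by
  ext i j
  have h : gram (flat 5) spiral u i j =
      inner ℝ (fderiv ℝ spiral u (bas i)) (fderiv ℝ spiral u (bas j)) := rfl
  rw [h, inner_fd]
  fin_cases i <;> fin_cases j <;> simp [bas]

theorem injective_spiral (u : E 3) : Function.Injective (fderiv ℝ spiral u) := by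
  rw [injective_iff_map_eq_zero]
  intro v hv
  have h := inner_fd u v v
  rw [hv, inner_zero_left] at h
  have hp : 0 < Real.exp (u 1) ^ 2 + 1 / 400 * Real.exp (-u 0) ^ 2 := by positivity
  have h1 : 0 ≤ (Real.exp (u 1) ^ 2 + 1 / 400 * Real.exp (-u 0) ^ 2) * (v 0 * v 0 + v 1 * v 1) := by
    have : 0 ≤ v 0 * v 0 + v 1 * v 1 := by nlinarith [mul_self_nonneg (v 0), mul_self_nonneg (v 1)]
    positivity
  have h2 := mul_self_nonneg (v 2)
  have h3 : v 2 * v 2 = 0 := by linarith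
  have h4 : (Real.exp (u 1) ^ 2 + 1 / 400 * Real.exp (-u 0) ^ 2) * (v 0 * v 0 + v 1 * v 1) = 0 := by
    linarith
  have h5 : v 0 * v 0 + v 1 * v 1 = 0 := (mul_eq_zero.1 h4).resolve_left hp.ne'
  have h6 : v 0 * v 0 = 0 := by nlinarith [mul_self_nonneg (v 0), mul_self_nonneg (v 1)]
  have h7 : v 1 * v 1 = 0 := by nlinarith [mul_self_nonneg (v 0), mul_self_nonneg (v 1)]
  ext i
  fin_cases i
  · simpa using h6
  · simpa using h7
  · simpa using h3

theorem meanCurvZero_spiral (u : E 3) : MeanCurvZero (flat 5) spiral u := by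
  intro v hv
  set la : ℝ := Real.exp (u 1) ^ 2 + 1 / 400 * Real.exp (-u 0) ^ 2 with hla
  have hp : 0 < la := by positivity
  have ho : ∀ i j, la * (v i 0 * v j 0 + v i 1 * v j 1) + v i 2 * v j 2 =
      if i = j then 1 else 0 := by
    intro i j
    rw [← inner_fd u (v i) (v j)]
    exact hv i j
  -- the matrix identity
  let A : Matrix (Fin 3) (Fin 3) ℝ := Matrix.of fun i k => v i k
  let G : Matrix (Fin 3) (Fin 3) ℝ := Matrix.diagonal ![la, la, 1]
  have hA : A * (G * A.transpose) = 1 := by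
    ext i j
    rw [Matrix.mul_apply, Matrix.one_apply, ← ho i j, Fin.sum_univ_three]
    simp only [G, Matrix.diagonal_mul, Matrix.transpose_apply]
    simp [A]
    ring
  have hA2 : (G * A.transpose) * A = 1 := mul_eq_one_comm.1 hA
  have q : ∀ k l : Fin 3, (![la, la, 1] k) * ∑ i, v i k * v i l = if k = l then 1 else 0 := by
    intro k l
    have := congrFun (congrFun hA2 k) l
    rw [Matrix.mul_apply, Matrix.one_apply] at this
    rw [← this, Finset.mul_sum]
    refine Finset.sum_congr rfl fun i _ => ?_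
    simp only [G, Matrix.diagonal_mul, Matrix.transpose_apply]
    simp [A]
    ring
  have q00 : la * ∑ i, v i 0 * v i 0 = 1 := by simpa using q 0 0
  have q11 : la * ∑ i, v i 1 * v i 1 = 1 := by simpa using q 1 1
  have q01 : la * ∑ i, v i 0 * v i 1 = 0 := by simpa using q 0 1
  have s1 : ∑ i, v i 1 * v i 1 = ∑ i, v i 0 * v i 0 :=
    mul_left_cancel₀ hp.ne' (by rw [q11, q00])
  have s2 : ∑ i, v i 0 * v i 1 = 0 := (mul_eq_zero.1 q01).resolve_left hp.ne'
  rw [Fin.sum_univ_three] at s2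
  rw [Fin.sum_univ_three, Fin.sum_univ_three] at s1
  refine ⟨0, ?_⟩
  rw [map_zero, Fin.sum_univ_three]
  simp only [christoffel_flat, add_zero, fd2_spiral]
  ext i
  fin_cases i
  · simp
    linear_combination (Real.exp (u 1) * Real.cos (u 0)) * s1 -
      (2 * Real.exp (u 1) * Real.sin (u 0)) * s2
  · simp
    linear_combination (Real.exp (u 1) * Real.sin (u 0)) * s1 +
      (2 * Real.exp (u 1) * Real.cos (u 0)) * s2
  · simp
    linear_combination (-(1 / 20) * Real.exp (-u 0) * Real.cos (u 1)) * s1 +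
      (1 / 10 * Real.exp (-u 0) * Real.sin (u 1)) * s2
  · simp
    linear_combination (-(1 / 20) * Real.exp (-u 0) * Real.sin (u 1)) * s1 -
      (1 / 10 * Real.exp (-u 0) * Real.cos (u 1)) * s2
  · simp

theorem spiral_mem (u : E 3) (hu : u ∈ U0) : spiral u ∈ D0 := by
  obtain ⟨ht, hs, hb⟩ : 0 < u 0 ∧ |u 1| < 1 / 4 ∧ |u 2| < 1 := hu
  show F0 (spiral u) < 0
  unfold F0
  rw [spi0, spi1, spi2, spi3, spi4]
  set t := u 0
  set s := u 1
  set b := u 2
  set ρ : ℝ := 1 / 20 * Real.exp (-t) with hρ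
  have hρ0 : 0 < ρ := by positivity
  have hρ1 : ρ < 1 / 20 := by
    have : Real.exp (-t) < 1 := by
      rw [← Real.exp_zero]
      exact Real.exp_lt_exp.2 (by linarith)
    linarith
  have a1 := abs_lt.1 hs
  have a2 := abs_lt.1 hb
  have hb2 : b ^ 2 < 1 := by nlinarith
  have hs2 : s ^ 2 < 1 / 16 := by nlinarith
  have hc : 0.96 < Real.cos s := by
    have := Real.one_sub_sq_div_two_le_cos (x := s)
    linarith
  have hc1 : Real.cos s ≤ 1 := Real.cos_le_one s
  have he : Real.exp s ^ 2 < 1.65 := by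
    have h1 : Real.exp s ^ 2 < Real.exp (1 / 2) := by
      rw [← Real.exp_nat_mul]
      refine Real.exp_lt_exp.2 ?_
      push_cast
      linarith
    have h2 : Real.exp (1 / 2) ^ 2 < 1.65 ^ 2 := by
      rw [← Real.exp_nat_mul]
      have := Real.exp_one_lt_d9
      norm_num at this ⊢
      linarith
    have h3 : Real.exp (1 / 2) < 1.65 := lt_of_pow_lt_pow_left₀ 2 (by norm_num) h2
    linarith
  have he0 : 0 ≤ Real.exp s ^ 2 := by positivity
  have e1 : (Real.exp s * Real.cos t) ^ 2 + (Real.exp s * Real.sin t) ^ 2 + b ^ 2 =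
      Real.exp s ^ 2 + b ^ 2 := by
    have := Real.sin_sq_add_cos_sq t
    linear_combination Real.exp s ^ 2 * this
  have e2 : 1 / 20 * (Real.exp (-t) * Real.cos s) = ρ * Real.cos s := by rw [hρ]; ring
  have e3 : 1 / 20 * (Real.exp (-t) * Real.sin s) = ρ * Real.sin s := by rw [hρ]; ring
  have e4 : max (Real.exp s ^ 2 + b ^ 2 - 3) 0 = 0 := max_eq_right (by linarith)
  rw [e1, e2, e3, e4]
  have e5 : (ρ * Real.cos s) ^ 2 + (ρ * Real.sin s) ^ 2 = ρ ^ 2 := by
    have := Real.sin_sq_add_cos_sq s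
    linear_combination ρ ^ 2 * this
  rw [e5]
  have e6 : 1 / 2 * (ρ * Real.cos s) ^ 2 * (Real.exp s ^ 2 + b ^ 2) ≤ 1 / 2 * ρ ^ 2 * 2.65 := by
    have f1 : (ρ * Real.cos s) ^ 2 ≤ ρ ^ 2 := by
      have : Real.cos s ^ 2 ≤ 1 := by nlinarith
      rw [mul_pow]
      nlinarith [sq_nonneg ρ]
    have f2 : Real.exp s ^ 2 + b ^ 2 ≤ 2.65 := by linarith
    have f3 : 0 ≤ Real.exp s ^ 2 + b ^ 2 := by positivity
    calc 1 / 2 * (ρ * Real.cos s) ^ 2 * (Real.exp s ^ 2 + b ^ 2)
        ≤ 1 / 2 * ρ ^ 2 * (Real.exp s ^ 2 + b ^ 2) := by gcongr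
      _ ≤ 1 / 2 * ρ ^ 2 * 2.65 := by gcongr
  have e7 : ρ ^ 2 < ρ * (1 / 20) := by nlinarith
  have e8 : 0.96 * ρ < ρ * Real.cos s := by nlinarith
  norm_num
  nlinarith

end Pool.Agent.H793.MS
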