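import Pool.Agent.H793.MS.LitD
import Pool.Agent.H793.MS.Lit2
import Pool.Agent.H793.MS.Lit4

set_option autoImplicit false

open scoped ContDiff Topology ENNReal Manifold
open MeasureTheory Set Filter

namespace Pool.Agent.H793.MS

variable {n m : ℕ}

/-- The plane where the coordinate `i` is `c`, parametrised. -/
noncomputable def pl5 (i : Fin 3) (c : ℝ) (v : E 2) : E 3 := WithLp.toLp 2 (i.insertNth c v.ofLp)

theorem pl5_contDiff (i : Fin 3) (c : ℝ) : ContDiff ℝ 1 (pl5 i c) := by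
  rw [contDiff_euclidean]
  intro j
  rcases Fin.eq_self_or_eq_succAbove i j with rfl | ⟨k, rfl⟩
  · have h : (fun v : E 2 => pl5 j c v j) = fun _ => c := by
      funext v
      show (j.insertNth c v.ofLp : Fin 3 → ℝ) j = c
      rw [Fin.insertNth_apply_same]
    rw [h]
    exact contDiff_const
  · have h : (fun v : E 2 => pl5 i c v (i.succAbove k)) = fun v => v k := by
      funext v
      show (i.insertNth c v.ofLp : Fin 3 → ℝ) (i.succAbove k) = v k
      rw [Fin.insertNth_apply_succAbove]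
    rw [h]
    exact (EuclideanSpace.proj (𝕜 := ℝ) k).contDiff

theorem pl5_mem (i : Fin 3) (c : ℝ) {u : E 3} (h : u i = c) : u ∈ range (pl5 i c) := by
  refine ⟨WithLp.toLp 2 (i.removeNth u.ofLp), ?_⟩
  subst h
  show WithLp.toLp 2 (i.insertNth (u.ofLp i) (i.removeNth u.ofLp)) = u
  rw [Fin.insertNth_self_removeNth]

theorem pl5_null (i : Fin 3) (c : ℝ) : μH[((3 : ℕ) : ℝ)] (spiral '' {u : E 3 | u i = c}) = 0 := by
  have h0 : spiral '' {u : E 3 | u i = c} ⊆ range (spiral ∘ pl5 i c) := by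
    rintro _ ⟨u, hu, rfl⟩
    obtain ⟨v, hv⟩ := pl5_mem i c hu
    exact ⟨v, by rw [Function.comp_apply, hv]⟩
  have h1 : ContDiff ℝ 1 (spiral ∘ pl5 i c) :=
    (contDiff_spiral.of_le (by exact_mod_cast le_top)).comp (pl5_contDiff i c)
  have h2 : dimH (range (spiral ∘ pl5 i c)) ≤ 2 := by
    have h3 := h1.dimH_range_le
    rwa [finrank_euclideanSpace_fin] at h3
  have h3 : ((3 : ℕ) : ℝ) = ((3 : NNReal) : ℝ) := by norm_num
  rw [h3]
  refine hausdorffMeasure_of_dimH_lt ?_
  refine lt_of_le_of_lt ((dimH_mono h0).trans h2) ?_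
  norm_num

theorem limSet_sub5 : limSet (fun p : U0 => spiral (p : E 3)) ∩ D0 ⊆
    spiral '' {u : E 3 | u 0 = 0} ∪ (spiral '' {u : E 3 | u 1 = 1 / 4} ∪
      (spiral '' {u : E 3 | u 1 = -(1 / 4)} ∪ (spiral '' {u : E 3 | u 2 = 1} ∪
        spiral '' {u : E 3 | u 2 = -1}))) := by
  rintro x ⟨⟨p, hp, hx⟩, hxD⟩
  have hx2 : 0 < x 2 := D0_facts.2.2 x hxD
  have hc (i : Fin 3) : Continuous fun u : E 3 => u i :=
    EuclideanSpace.proj (𝕜 := ℝ) i |>.continuous
  have hc5 (i : Fin 5) : Continuous fun u : E 5 => u i :=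
    EuclideanSpace.proj (𝕜 := ℝ) i |>.continuous
  have h1 : Tendsto (fun k => spiral (p k : E 3) 2) atTop (𝓝 (x 2)) :=
    ((hc5 2).tendsto x).comp hx
  have h2 : ∀ᶠ k in atTop, x 2 / 2 < spiral (p k : E 3) 2 :=
    h1.eventually (lt_mem_nhds (by linarith))
  -- the sequence is bounded
  set T : ℝ := -Real.log (10 * x 2) with hT
  have h3 : ∀ᶠ k in atTop, (p k : E 3) 0 < T := by
    filter_upwards [h2] with k hk
    have h4 : spiral (p k : E 3) 2 =
        1 / 20 * (Real.exp (-(p k : E 3) 0) * Real.cos ((p k : E 3) 1)) := rfl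
    rw [h4] at hk
    have h5 : Real.exp (-(p k : E 3) 0) * Real.cos ((p k : E 3) 1) ≤
        Real.exp (-(p k : E 3) 0) := by
      have := Real.cos_le_one ((p k : E 3) 1)
      have := Real.exp_pos (-(p k : E 3) 0)
      nlinarith
    have h6 : 10 * x 2 < Real.exp (-(p k : E 3) 0) := by linarith
    have h7 := (Real.log_lt_iff_lt_exp (by linarith)).2 h6
    rw [hT]
    linarith
  have hbd : Bornology.IsBounded (Metric.closedBall (0 : E 3) (Real.sqrt (T ^ 2 + 2))) :=
    Metric.isBounded_closedBall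
  have h4 : ∀ᶠ k in atTop, (p k : E 3) ∈ Metric.closedBall (0 : E 3) (Real.sqrt (T ^ 2 + 2)) := by
    filter_upwards [h3] with k hk
    rw [mem_closedBall_zero_iff, EuclideanSpace.norm_eq]
    apply Real.sqrt_le_sqrt
    rw [Fin.sum_univ_three]
    obtain ⟨ha, hb, hd⟩ := (p k).2
    simp only [Real.norm_eq_abs, sq_abs]
    rw [abs_lt] at hb hd
    nlinarith
  obtain ⟨u, -, φ, hφ, hu⟩ := tendsto_subseq_of_frequently_bounded hbd h4.frequently
  have hxu : spiral u = x := by
    have h5 : Tendsto (fun k => spiral (p (φ k) : E 3)) atTop (𝓝 (spiral u)) :=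
      (contDiff_spiral.continuous.tendsto u).comp hu
    exact tendsto_nhds_unique h5 (hx.comp hφ.tendsto_atTop)
  have hi (i : Fin 3) : Tendsto (fun k => (p (φ k) : E 3) i) atTop (𝓝 (u i)) :=
    ((hc i).tendsto u).comp hu
  have hu0 : 0 ≤ u 0 := ge_of_tendsto' (hi 0) fun k => (p (φ k)).2.1.le
  have hu1 : |u 1| ≤ 1 / 4 := le_of_tendsto' (hi 1).abs fun k => (p (φ k)).2.2.1.le
  have hu2 : |u 2| ≤ 1 := le_of_tendsto' (hi 2).abs fun k => (p (φ k)).2.2.2.le
  have hnot : u ∉ U0 := by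
    intro hmem
    have : LocallyCompactSpace U0 := U0.isOpen.locallyCompactSpace
    have h5 : Tendsto (fun k => p (φ k)) atTop (𝓝 (⟨u, hmem⟩ : U0)) :=
      tendsto_subtype_rng.2 hu
    have h6 : Tendsto (fun k => p (φ k)) atTop (cocompact U0) := hp.comp hφ.tendsto_atTop
    have h7 := (disjoint_nhds_cocompact (⟨u, hmem⟩ : U0))
    have h8 : (atTop : Filter ℕ).map (fun k => p (φ k)) ≤ ⊥ := by
      rw [← h7.eq_bot]
      exact le_inf h5 h6
    exact (map_neBot (f := (atTop : Filter ℕ)) (m := fun k => p (φ k))).ne (le_bot_iff.1 h8)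
  have hcase : u 0 = 0 ∨ |u 1| = 1 / 4 ∨ |u 2| = 1 := by
    by_contra hcon
    push Not at hcon
    apply hnot
    exact ⟨lt_of_le_of_ne hu0 (Ne.symm hcon.1), lt_of_le_of_ne hu1 hcon.2.1,
      lt_of_le_of_ne hu2 hcon.2.2⟩
  rcases hcase with h | h | h
  · exact Or.inl ⟨u, h, hxu⟩
  · rcases eq_or_eq_neg_of_abs_eq h with h | h
    · exact Or.inr (Or.inl ⟨u, h, hxu⟩)
    · exact Or.inr (Or.inr (Or.inl ⟨u, h, hxu⟩))
  · rcases eq_or_eq_neg_of_abs_eq h with h | h
    · exact Or.inr (Or.inr (Or.inr (Or.inl ⟨u, h, hxu⟩)))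
    · exact Or.inr (Or.inr (Or.inr (Or.inr ⟨u, h, hxu⟩)))

/-- The limit set of the spiral is small inside the domain. -/
theorem limSet_spiral : μH[(3 : ℕ)] (limSet (fun p : U0 => spiral (p : E 3)) ∩ D0) = 0 := by
  refine measure_mono_null limSet_sub5 ?_
  rw [measure_union_null_iff, measure_union_null_iff, measure_union_null_iff,
    measure_union_null_iff]
  exact ⟨pl5_null _ _, pl5_null _ _, pl5_null _ _, pl5_null _ _, pl5_null _ _⟩

theorem connected_U0 : ConnectedSpace U0 := by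
  have hconv : Convex ℝ (U0 : Set (E 3)) := by
    intro u hu v hv a b ha hb hab
    obtain ⟨hu0, hu1, hu2⟩ := hu
    obtain ⟨hv0, hv1, hv2⟩ := hv
    have key : ∀ (i : Fin 3) (r : ℝ), |u i| < r → |v i| < r → |(a • u + b • v) i| < r := by
      intro i r h1 h2
      have h3 : (a • u + b • v) i = a * u i + b * v i := rfl
      rw [h3]
      rw [abs_lt] at h1 h2 ⊢
      constructor
      · rcases ha.eq_or_lt with h | h
        · subst h
          have : b = 1 := by linarith
          subst this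
          linarith
        · nlinarith
      · rcases ha.eq_or_lt with h | h
        · subst h
          have : b = 1 := by linarith
          subst this
          linarith
        · nlinarith
    refine ⟨?_, key 1 _ hu1 hv1, key 2 _ hu2 hv2⟩
    show 0 < a * u 0 + b * v 0
    rcases ha.eq_or_lt with h | h
    · subst h
      have : b = 1 := by linarith
      subst this
      linarith
    · nlinarith [mul_pos h hu0, mul_nonneg hb hv0.le]
  have hne : (U0 : Set (E 3)).Nonempty := by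
    refine ⟨!₂[1, 0, 0], ?_⟩
    refine ⟨?_, ?_, ?_⟩
    · show (0 : ℝ) < 1
      norm_num
    · show |(0 : ℝ)| < 1 / 4
      norm_num
    · show |(0 : ℝ)| < 1
      norm_num
  exact isConnected_iff_connectedSpace.1 ⟨hne, hconv.isPreconnected⟩

end Pool.Agent.H793.MS
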