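import Pool.Agent.H793.MS.Lit3
import Pool.Agent.H793.MS.Lit4

set_option autoImplicit false

open scoped ContDiff Topology ENNReal Manifold
open MeasureTheory Set Filter

namespace Pool.Agent.H793.MS

variable {n m : ℕ}

namespace L6

/-- the conformal factor of the spiral -/
noncomputable def lam (u : E 3) : ℝ := Real.exp (u 1) ^ 2 + 1 / 400 * Real.exp (-u 0) ^ 2

theorem lam_pos (u : E 3) : 0 < lam u := by
  unfold lam
  positivity

theorem continuous_coord (i : Fin 3) : Continuous fun u : E 3 => u i :=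
  (EuclideanSpace.proj (𝕜 := ℝ) i).continuous

theorem continuous_lam : Continuous lam := by
  unfold lam
  have h0 := continuous_coord 0
  have h1 := continuous_coord 1
  fun_prop

theorem lam_bounds (u : E 3) (hu : u ∈ U0) : 1 / 2 ≤ lam u ∧ lam u ≤ 2 := by
  obtain ⟨h0, h1, -⟩ : 0 < u 0 ∧ |u 1| < 1 / 4 ∧ |u 2| < 1 := hu
  rw [abs_lt] at h1
  have e1 : Real.exp (u 1) ^ 2 = Real.exp (2 * u 1) := by
    rw [← Real.exp_nat_mul]
    norm_num
  have e2 : Real.exp (-u 0) ≤ 1 := by
    rw [Real.exp_le_one_iff]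
    linarith
  have e3 : 0 < Real.exp (-u 0) := Real.exp_pos _
  have e4 : Real.exp (-u 0) ^ 2 ≤ 1 := by nlinarith
  have e5 : (1 : ℝ) / 2 ≤ Real.exp (2 * u 1) := by
    have h := Real.add_one_le_exp (2 * u 1)
    linarith
  have e6 : Real.exp (2 * u 1) ≤ 19 / 10 := by
    have h7 : Real.exp (2 * u 1) ≤ Real.exp (1 / 2) := Real.exp_le_exp.2 (by linarith)
    have h8 : Real.exp (1 / 2) ^ 2 = Real.exp 1 := by
      rw [← Real.exp_nat_mul]
      norm_num
    have h9 := Real.exp_one_lt_d9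
    have h10 : 0 < Real.exp (1 / 2) := Real.exp_pos _
    nlinarith
  unfold lam
  rw [e1]
  constructor
  · nlinarith [sq_nonneg (Real.exp (-u 0))]
  · linarith

theorem gram_eq (u : E 3) : gram (flat 5) spiral u = Matrix.diagonal ![lam u, lam u, 1] :=
  gram_spiral u

theorem dens_eq (u : E 3) : dens (flat 5) spiral u = lam u := by
  unfold dens
  rw [gram_eq, Matrix.det_diagonal, Fin.prod_univ_three]
  have h : (![lam u, lam u, 1] : Fin 3 → ℝ) 0 * (![lam u, lam u, 1] : Fin 3 → ℝ) 1 *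
      (![lam u, lam u, 1] : Fin 3 → ℝ) 2 = lam u * lam u := by
    simp
  rw [h]
  exact Real.sqrt_mul_self (lam_pos u).le

theorem ginner_eq (f : E 3 → ℝ) (u : E 3) : ginner (flat 5) spiral f f u =
    (pd f u 0 ^ 2 + pd f u 1 ^ 2) / lam u + pd f u 2 ^ 2 := by
  have hl := (lam_pos u).ne'
  have h1 : (gram (flat 5) spiral u)⁻¹ = Matrix.diagonal ![(lam u)⁻¹, (lam u)⁻¹, 1] := by
    rw [gram_eq]
    apply Matrix.inv_eq_right_inv
    rw [Matrix.diagonal_mul_diagonal, ← Matrix.diagonal_one]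
    congr 1
    funext i
    fin_cases i
    · simp [hl]
    · simp [hl]
    · simp
  unfold ginner
  rw [h1]
  simp only [dotProduct, Matrix.mulVec_diagonal, Fin.sum_univ_three]
  simp only [Matrix.cons_val_zero, Matrix.cons_val_one, Matrix.cons_val]
  field_simp

/-- the bump function -/
noncomputable def bump : ContDiffBump (0 : E 3) := ⟨1 / 16, 1 / 8, by norm_num, by norm_num⟩

/-- the centres -/
noncomputable def cen (j : ℕ) : E 3 := EuclideanSpace.single 0 (1 + 3 * (j : ℝ))

theorem cen_zero (j : ℕ) : cen j 0 = 1 + 3 * (j : ℝ) := by simp [cen]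
theorem cen_one (j : ℕ) : cen j 1 = 0 := by simp [cen]
theorem cen_two (j : ℕ) : cen j 2 = 0 := by simp [cen]

theorem abs_coord_le (u : E 3) (i : Fin 3) : |u i| ≤ ‖u‖ := by
  have h := EuclideanSpace.norm_eq u
  rw [h]
  apply Real.le_sqrt_of_sq_le
  have h2 : |u i| ^ 2 = ‖u i‖ ^ 2 := by rw [Real.norm_eq_abs]
  rw [h2]
  exact Finset.single_le_sum (f := fun i => ‖u i‖ ^ 2) (fun _ _ => sq_nonneg _) (Finset.mem_univ i)

theorem near (u : E 3) (j : ℕ) (h : u - cen j ∈ Metric.closedBall (0 : E 3) (1 / 8)) :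
    |u 0 - (1 + 3 * (j : ℝ))| ≤ 1 / 8 ∧ |u 1| ≤ 1 / 8 ∧ |u 2| ≤ 1 / 8 := by
  rw [mem_closedBall_zero_iff] at h
  have h0 := (abs_coord_le (u - cen j) 0).trans h
  have h1 := (abs_coord_le (u - cen j) 1).trans h
  have h2 := (abs_coord_le (u - cen j) 2).trans h
  rw [PiLp.sub_apply, cen_zero] at h0
  rw [PiLp.sub_apply, cen_one, sub_zero] at h1
  rw [PiLp.sub_apply, cen_two, sub_zero] at h2
  exact ⟨h0, h1, h2⟩

theorem near_mem (u : E 3) (j : ℕ) (h : u - cen j ∈ Metric.closedBall (0 : E 3) (1 / 8)) :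
    u ∈ U0 := by
  obtain ⟨h0, h1, h2⟩ := near u j h
  have hj : (0 : ℝ) ≤ j := Nat.cast_nonneg j
  refine ⟨?_, by linarith, by linarith⟩
  have := (abs_le.1 h0).1
  linarith

theorem sep (u : E 3) (i j : ℕ) (hij : i ≠ j) :
    u - cen i ∉ Metric.closedBall (0 : E 3) (1 / 8) ∨
      u - cen j ∉ Metric.closedBall (0 : E 3) (1 / 8) := by
  by_contra h
  push Not at h
  obtain ⟨h1, -⟩ := near u i h.1
  obtain ⟨h2, -⟩ := near u j h.2
  rw [abs_le] at h1 h2
  rcases lt_or_gt_of_ne hij with h3 | h3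
  · have h4 : (i : ℝ) + 1 ≤ j := by exact_mod_cast h3
    linarith [h1.1, h1.2, h2.1, h2.2]
  · have h4 : (j : ℝ) + 1 ≤ i := by exact_mod_cast h3
    linarith [h1.1, h1.2, h2.1, h2.2]

theorem bump_zero (v : E 3) (h : v ∉ Metric.closedBall (0 : E 3) (1 / 8)) : bump v = 0 := by
  by_contra h1
  have h2 : v ∈ tsupport bump := subset_tsupport _ h1
  rw [bump.tsupport_eq] at h2
  exact h h2

theorem fderiv_bump_zero (v : E 3) (h : v ∉ Metric.closedBall (0 : E 3) (1 / 8)) :
    fderiv ℝ bump v = 0 := by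
  by_contra h1
  have h2 : v ∈ tsupport bump := support_fderiv_subset ℝ h1
  rw [bump.tsupport_eq] at h2
  exact h h2

theorem sq_sum {k : ℕ} (x : Fin k → ℝ) (h : ∀ i j, i ≠ j → x i * x j = 0) :
    (∑ i, x i) ^ 2 = ∑ i, x i ^ 2 := by
  rw [sq, Finset.sum_mul_sum]
  refine Finset.sum_congr rfl fun i _ => ?_
  rw [Finset.sum_eq_single i]
  · ring
  · intro j _ hji
    exact h i j (Ne.symm hji)
  · intro h
    exact absurd (Finset.mem_univ i) h

/-- the combinations of the translates -/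
noncomputable def Fa {k : ℕ} (a : Fin k → ℝ) (u : E 3) : ℝ := ∑ j, a j * bump (u - cen j)

theorem contDiff_Fa {k : ℕ} (a : Fin k → ℝ) : ContDiff ℝ ∞ (Fa a) := by
  unfold Fa
  refine ContDiff.sum fun j _ => contDiff_const.mul ?_
  exact bump.contDiff.comp (contDiff_id.sub contDiff_const)

theorem pd_Fa {k : ℕ} (a : Fin k → ℝ) (u : E 3) (i : Fin 3) :
    pd (Fa a) u i = ∑ j, a j * fderiv ℝ bump (u - cen j) (bas i) := by
  have h1 : ∀ j : Fin k, HasFDerivAt (fun u : E 3 => bump (u - cen j))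
      (fderiv ℝ bump (u - cen j)) u := by
    intro j
    have h2 : HasFDerivAt bump (fderiv ℝ bump (u - cen j)) (u - cen j) :=
      ((bump.contDiff (n := 1)).differentiable (by simp) _).hasFDerivAt
    have h3 : HasFDerivAt (fun u : E 3 => u - cen j) (ContinuousLinearMap.id ℝ (E 3)) u :=
      (hasFDerivAt_id u).sub_const _
    exact h2.comp u h3
  have h4 : HasFDerivAt (Fa a) (∑ j, a j • fderiv ℝ bump (u - cen j)) u := by
    unfold Fa
    exact HasFDerivAt.fun_sum fun j _ => (h1 j).const_mul (a j)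
  unfold pd
  rw [h4.fderiv]
  simp

theorem Fa_sq {k : ℕ} (a : Fin k → ℝ) (u : E 3) :
    Fa a u ^ 2 = ∑ j, a j ^ 2 * bump (u - cen j) ^ 2 := by
  unfold Fa
  rw [sq_sum]
  · exact Finset.sum_congr rfl fun j _ => by ring
  · intro i j hij
    rcases sep u i j (fun h => hij (Fin.ext h)) with h | h
    · rw [bump_zero _ h]
      ring
    · rw [bump_zero _ h]
      ring

theorem pd_Fa_sq {k : ℕ} (a : Fin k → ℝ) (u : E 3) (i : Fin 3) :
    pd (Fa a) u i ^ 2 = ∑ j, a j ^ 2 * (fderiv ℝ bump (u - cen j) (bas i)) ^ 2 := by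
  rw [pd_Fa, sq_sum]
  · exact Finset.sum_congr rfl fun j _ => by ring
  · intro i' j hij
    rcases sep u i' j (fun h => hij (Fin.ext h)) with h | h
    · rw [fderiv_bump_zero _ h]
      simp
    · rw [fderiv_bump_zero _ h]
      simp

/-- the squared length of the gradient of the bump -/
noncomputable def ene (v : E 3) : ℝ := ∑ i, (fderiv ℝ bump v (bas i)) ^ 2

theorem continuous_fd (i : Fin 3) : Continuous fun v : E 3 => fderiv ℝ bump v (bas i) :=
  (((bump.contDiff (n := 1)).continuous_fderiv (by simp))).clm_apply continuous_const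

theorem continuous_ene : Continuous ene := by
  unfold ene
  exact continuous_finsetSum _ fun i _ => (continuous_fd i).pow 2

theorem integrable_ene : Integrable ene := by
  refine continuous_ene.integrable_of_hasCompactSupport ?_
  refine HasCompactSupport.of_support_subset_isCompact (isCompact_closedBall (0 : E 3) (1 / 8)) ?_
  intro v hv
  by_contra h
  apply hv
  unfold ene
  rw [fderiv_bump_zero _ h]
  simp

theorem integrable_bump : Integrable fun v : E 3 => bump v ^ 2 := by
  refine (bump.continuous.pow 2).integrable_of_hasCompactSupport ?_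
  refine HasCompactSupport.of_support_subset_isCompact (isCompact_closedBall (0 : E 3) (1 / 8)) ?_
  intro v hv
  by_contra h
  apply hv
  show bump v ^ 2 = 0
  rw [bump_zero _ h]
  ring

theorem bump_center : bump (0 : E 3) = 1 :=
  bump.one_of_mem_closedBall (by simp [bump.rIn_pos.le])

theorem B_pos : 0 < ∫ v : E 3, bump v ^ 2 := by
  rw [integral_pos_iff_support_of_nonneg (fun v => sq_nonneg _) integrable_bump]
  have h1 : IsOpen (Function.support fun v : E 3 => bump v ^ 2) :=
    (bump.continuous.pow 2).isOpen_support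
  refine h1.measure_pos volume ⟨0, ?_⟩
  show bump (0 : E 3) ^ 2 ≠ 0
  rw [bump_center]
  norm_num

theorem cont_pd {k : ℕ} (a : Fin k → ℝ) (i : Fin 3) : Continuous fun u => pd (Fa a) u i := by
  have h : (fun u => pd (Fa a) u i) = fun u => ∑ j, a j * fderiv ℝ bump (u - cen j) (bas i) :=
    funext fun u => pd_Fa a u i
  rw [h]
  refine continuous_finsetSum _ fun j _ => continuous_const.mul ?_
  exact (continuous_fd i).comp (continuous_id.sub continuous_const)

theorem cont_ginner {k : ℕ} (a : Fin k → ℝ) : Continuous (ginner (flat 5) spiral (Fa a) (Fa a)) := by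
  have h : ginner (flat 5) spiral (Fa a) (Fa a) = fun u =>
      (pd (Fa a) u 0 ^ 2 + pd (Fa a) u 1 ^ 2) / lam u + pd (Fa a) u 2 ^ 2 :=
    funext fun u => ginner_eq _ u
  rw [h]
  exact ((((cont_pd a 0).pow 2).add ((cont_pd a 1).pow 2)).div continuous_lam
    fun u => (lam_pos u).ne').add ((cont_pd a 2).pow 2)

theorem integral_ene {k : ℕ} (a : Fin k → ℝ) :
    ∫ u : E 3, 2 * ∑ j, a j ^ 2 * ene (u - cen j) = 2 * ((∑ j, a j ^ 2) * ∫ v, ene v) := by
  rw [integral_const_mul, integral_finsetSum]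
  · congr 1
    rw [Finset.sum_mul]
    refine Finset.sum_congr rfl fun j _ => ?_
    rw [integral_const_mul, integral_sub_right_eq_self]
  · intro j _
    exact (integrable_ene.comp_sub_right (cen j)).const_mul _

theorem energy_le {k : ℕ} (a : Fin k → ℝ) :
    ∫ u in (U0 : Set (E 3)), dens (flat 5) spiral u * ginner (flat 5) spiral (Fa a) (Fa a) u ≤
      2 * ((∑ j, a j ^ 2) * ∫ v, ene v) := by
  rw [← integral_ene a]
  have hi : Integrable fun u : E 3 => 2 * ∑ j, a j ^ 2 * ene (u - cen j) := by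
    refine Integrable.const_mul ?_ _
    exact integrable_finsetSum _ fun j _ => (integrable_ene.comp_sub_right (cen j)).const_mul _
  have hn : ∀ u : E 3, 0 ≤ 2 * ∑ j, a j ^ 2 * ene (u - cen j) := by
    intro u
    refine mul_nonneg (by norm_num) (Finset.sum_nonneg fun j _ => mul_nonneg (sq_nonneg _) ?_)
    unfold ene
    exact Finset.sum_nonneg fun i _ => sq_nonneg _
  have hp : ∀ u ∈ (U0 : Set (E 3)),
      dens (flat 5) spiral u * ginner (flat 5) spiral (Fa a) (Fa a) u ≤
        2 * ∑ j, a j ^ 2 * ene (u - cen j) := by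
    intro u hu
    obtain ⟨-, hl2⟩ := lam_bounds u hu
    have hl := lam_pos u
    rw [dens_eq, ginner_eq]
    have h1 : lam u * ((pd (Fa a) u 0 ^ 2 + pd (Fa a) u 1 ^ 2) / lam u + pd (Fa a) u 2 ^ 2) =
        pd (Fa a) u 0 ^ 2 + pd (Fa a) u 1 ^ 2 + lam u * pd (Fa a) u 2 ^ 2 := by
      field_simp
    have h2 : ∑ j, a j ^ 2 * ene (u - cen j) =
        pd (Fa a) u 0 ^ 2 + pd (Fa a) u 1 ^ 2 + pd (Fa a) u 2 ^ 2 := by
      rw [pd_Fa_sq, pd_Fa_sq, pd_Fa_sq, ← Finset.sum_add_distrib, ← Finset.sum_add_distrib]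
      refine Finset.sum_congr rfl fun j _ => ?_
      unfold ene
      rw [Fin.sum_univ_three]
      ring
    rw [h1, h2]
    nlinarith [sq_nonneg (pd (Fa a) u 0), sq_nonneg (pd (Fa a) u 1), sq_nonneg (pd (Fa a) u 2)]
  have hmeas : MeasurableSet (U0 : Set (E 3)) := U0.isOpen.measurableSet
  have hg0 : ∀ u ∈ (U0 : Set (E 3)),
      0 ≤ dens (flat 5) spiral u * ginner (flat 5) spiral (Fa a) (Fa a) u := by
    intro u _
    have hl := lam_pos u
    rw [dens_eq, ginner_eq]
    positivity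
  have hcont : Continuous fun u => dens (flat 5) spiral u * ginner (flat 5) spiral (Fa a) (Fa a) u := by
    have h : (dens (flat 5) spiral) = lam := funext dens_eq
    rw [h]
    exact continuous_lam.mul (cont_ginner a)
  calc ∫ u in (U0 : Set (E 3)), dens (flat 5) spiral u * ginner (flat 5) spiral (Fa a) (Fa a) u
      ≤ ∫ u in (U0 : Set (E 3)), 2 * ∑ j, a j ^ 2 * ene (u - cen j) := by
        refine setIntegral_mono_on ?_ hi.integrableOn hmeas hp
        refine Integrable.mono' hi.integrableOn hcont.aestronglyMeasurable ?_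
        refine (ae_restrict_iff' hmeas).2 (ae_of_all _ fun u hu => ?_)
        rw [Real.norm_eq_abs, abs_of_nonneg (hg0 u hu)]
        exact hp u hu
    _ ≤ ∫ u : E 3, 2 * ∑ j, a j ^ 2 * ene (u - cen j) :=
        setIntegral_le_integral hi (ae_of_all _ hn)

theorem mass_ge {k : ℕ} (a : Fin k → ℝ) :
    1 / 2 * ((∑ j, a j ^ 2) * ∫ v : E 3, bump v ^ 2) ≤
      ∫ u in (U0 : Set (E 3)), dens (flat 5) spiral u * Fa a u ^ 2 := by
  have hi : Integrable fun u : E 3 => Fa a u ^ 2 := by
    have h : (fun u : E 3 => Fa a u ^ 2) = fun u => ∑ j, a j ^ 2 * bump (u - cen j) ^ 2 :=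
      funext fun u => Fa_sq a u
    rw [h]
    exact integrable_finsetSum _ fun j _ => (integrable_bump.comp_sub_right (cen j)).const_mul _
  have hI : ∫ u : E 3, Fa a u ^ 2 = (∑ j, a j ^ 2) * ∫ v : E 3, bump v ^ 2 := by
    have h : (fun u : E 3 => Fa a u ^ 2) = fun u => ∑ j, a j ^ 2 * bump (u - cen j) ^ 2 :=
      funext fun u => Fa_sq a u
    rw [h, integral_finsetSum]
    · rw [Finset.sum_mul]
      refine Finset.sum_congr rfl fun j _ => ?_
      rw [integral_const_mul, integral_sub_right_eq_self (fun v : E 3 => bump v ^ 2) (cen j)]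
    · intro j _
      exact (integrable_bump.comp_sub_right (cen j)).const_mul _
  have hmeas : MeasurableSet (U0 : Set (E 3)) := U0.isOpen.measurableSet
  have h0 : ∫ u in (U0 : Set (E 3)), Fa a u ^ 2 = ∫ u : E 3, Fa a u ^ 2 := by
    refine setIntegral_eq_integral_of_forall_compl_eq_zero fun u hu => ?_
    rw [Fa_sq]
    refine Finset.sum_eq_zero fun j _ => ?_
    rw [bump_zero]
    · ring
    · exact fun h => hu (near_mem u j h)
  rw [← hI, ← h0, ← integral_const_mul]
  have hb : ∀ u ∈ (U0 : Set (E 3)), 1 / 2 * Fa a u ^ 2 ≤ dens (flat 5) spiral u * Fa a u ^ 2 := by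
    intro u hu
    rw [dens_eq]
    exact mul_le_mul_of_nonneg_right (lam_bounds u hu).1 (sq_nonneg _)
  have hb2 : ∀ u ∈ (U0 : Set (E 3)), dens (flat 5) spiral u * Fa a u ^ 2 ≤ 2 * Fa a u ^ 2 := by
    intro u hu
    rw [dens_eq]
    exact mul_le_mul_of_nonneg_right (lam_bounds u hu).2 (sq_nonneg _)
  refine setIntegral_mono_on (hi.const_mul _).integrableOn ?_ hmeas hb
  have hcont : Continuous fun u => dens (flat 5) spiral u * Fa a u ^ 2 := by
    have h : (dens (flat 5) spiral) = lam := funext dens_eq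
    rw [h]
    exact continuous_lam.mul ((contDiff_Fa a).continuous.pow 2)
  refine Integrable.mono' (hi.const_mul 2).integrableOn hcont.aestronglyMeasurable ?_
  refine (ae_restrict_iff' hmeas).2 (ae_of_all _ fun u hu => ?_)
  have h1 : 0 ≤ dens (flat 5) spiral u * Fa a u ^ 2 := by
    rw [dens_eq]
    exact mul_nonneg (lam_pos u).le (sq_nonneg _)
  rw [Real.norm_eq_abs, abs_of_nonneg h1]
  exact hb2 u hu

/-- the space of test functions -/
noncomputable def L (k : ℕ) : (Fin k → ℝ) →ₗ[ℝ] (U0 → ℝ) where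
  toFun a := fun p => Fa a p
  map_add' a b := by
    funext p
    simp only [Fa, Pi.add_apply, add_mul, Finset.sum_add_distrib]
  map_smul' c a := by
    funext p
    simp only [Fa, Pi.smul_apply, smul_eq_mul, RingHom.id_apply, Finset.mul_sum, mul_assoc]

theorem Fa_cen {k : ℕ} (a : Fin k → ℝ) (i : Fin k) : Fa a (cen i) = a i := by
  unfold Fa
  rw [Finset.sum_eq_single i]
  · rw [sub_self, bump_center, mul_one]
  · intro j _ hj
    rw [bump_zero, mul_zero]
    rcases sep (cen i) j i (fun h => hj (Fin.ext h)) with h | h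
    · exact h
    · exact absurd (by simp) h
  · intro h
    exact absurd (Finset.mem_univ i) h

theorem cen_mem (i : ℕ) : cen i ∈ U0 := near_mem _ i (by simp)

theorem L_injective (k : ℕ) : Function.Injective (L k) := by
  intro a b hab
  funext i
  have h := congrFun hab ⟨cen i, cen_mem i⟩
  have h1 : Fa a (cen i) = Fa b (cen i) := h
  rwa [Fa_cen, Fa_cen] at h1

theorem smooth_L {k : ℕ} (a : Fin k → ℝ) : ContMDiff (𝓡 3) 𝓘(ℝ, ℝ) ∞ (L k a) := by
  have h : (L k a) = Fa a ∘ (Subtype.val : U0 → E 3) := rfl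
  rw [h]
  exact (contDiff_Fa a).contMDiff.comp contMDiff_subtype_val

theorem compact_L {k : ℕ} (a : Fin k → ℝ) : HasCompactSupport (L k a) := by
  have hK : IsCompact (⋃ j : Fin k, Metric.closedBall (cen j) (1 / 8)) :=
    isCompact_iUnion fun j => isCompact_closedBall _ _
  have hsub : (⋃ j : Fin k, Metric.closedBall (cen j) (1 / 8)) ⊆
      Set.range (Subtype.val : U0 → E 3) := by
    intro u hu
    obtain ⟨j, hj⟩ := mem_iUnion.1 hu
    refine ⟨⟨u, near_mem u j ?_⟩, rfl⟩
    rw [mem_closedBall_zero_iff, ← dist_eq_norm]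
    exact hj
  have hK' : IsCompact ((Subtype.val : U0 → E 3) ⁻¹'
      (⋃ j : Fin k, Metric.closedBall (cen j) (1 / 8))) :=
    Topology.IsInducing.subtypeVal.isCompact_preimage' hK hsub
  refine HasCompactSupport.of_support_subset_isCompact hK' ?_
  intro p hp
  by_contra hn
  apply hp
  show Fa a p = 0
  unfold Fa
  refine Finset.sum_eq_zero fun j _ => ?_
  rw [bump_zero, mul_zero]
  intro h
  apply hn
  refine mem_iUnion.2 ⟨j, ?_⟩
  rw [mem_closedBall_zero_iff, ← dist_eq_norm] at h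
  exact h

end L6

/-- The spectrum of the spiral is not discrete. -/
theorem not_discrete_spiral : ¬ DiscreteSpectrum (m := 3) (flat 5)
    (fun p : U0 => spiral (p : E 3)) (volU (flat 5) spiral U0) := by
  intro hD
  have hB := L6.B_pos
  obtain ⟨k, hk⟩ := hD (4 * (∫ v, L6.ene v) / ∫ v : E 3, L6.bump v ^ 2)
  have h1 := hk (LinearMap.range (L6.L (k + 1))) ?_ ?_
  · rw [rank_range_of_injective _ (L6.L_injective (k + 1)), rank_fin_fun] at h1
    have h2 : k + 1 ≤ k := by exact_mod_cast h1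
    omega
  · rintro f ⟨a, rfl⟩
    exact ⟨L6.smooth_L a, L6.compact_L a⟩
  · rintro f ⟨a, rfl⟩
    have e1 : ∫ p, gradSq (m := 3) (flat 5) (fun p : U0 => spiral (p : E 3)) (L6.L (k + 1) a) p
        ∂(volU (flat 5) spiral U0) =
        ∫ u in (U0 : Set (E 3)), dens (flat 5) spiral u *
          ginner (flat 5) spiral (L6.Fa a) (L6.Fa a) u := by
      rw [← integral_opens (flat 5) spiral U0 contDiff_spiral _ (L6.cont_ginner a)]
      refine integral_congr_ae (ae_of_all _ fun p => ?_)
      exact gradSq_opens (flat 5) spiral U0 (L6.Fa a) p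
    have e2 : ∫ p, L6.L (k + 1) a p ^ 2 ∂(volU (flat 5) spiral U0) =
        ∫ u in (U0 : Set (E 3)), dens (flat 5) spiral u * L6.Fa a u ^ 2 :=
      integral_opens (flat 5) spiral U0 contDiff_spiral (fun u => L6.Fa a u ^ 2)
        ((L6.contDiff_Fa a).continuous.pow 2)
    rw [e1, e2]
    have h3 := L6.energy_le a
    have h4 := L6.mass_ge a
    have hA : 0 ≤ ∫ v, L6.ene v := integral_nonneg fun v => by
      unfold L6.ene
      exact Finset.sum_nonneg fun i _ => sq_nonneg _
    refine h3.trans ?_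
    have h5 : 2 * ((∑ j, a j ^ 2) * ∫ v, L6.ene v) =
        4 * (∫ v, L6.ene v) / (∫ v : E 3, L6.bump v ^ 2) *
          (1 / 2 * ((∑ j, a j ^ 2) * ∫ v : E 3, L6.bump v ^ 2)) := by
      field_simp
      ring
    rw [h5]
    exact mul_le_mul_of_nonneg_left h4 (by positivity)

end Pool.Agent.H793.MS
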