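import Pool.Agent.H793.MS.Defs

set_option autoImplicit false

open scoped ContDiff Topology ENNReal Manifold
open MeasureTheory Set Filter

namespace Pool.Agent.H793.MS

variable {n m : ℕ}

/-- The flat metric of `ℝⁿ`. -/
noncomputable def flat (n : ℕ) : Metric n where
  g := fun _ => innerSL ℝ
  smooth := contDiff_const
  symm := fun _ v w => by
    show inner ℝ v w = inner ℝ w v
    exact real_inner_comm _ _
  pos := fun _ v hv => by
    show 0 < inner ℝ v v
    exact real_inner_self_pos.mpr hv

/-- The condition of `m`-convexity in which the sum of the `m` smallest eigenvalues of the Hessian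
is only required to be positive at the points of `D`. -/
def IsConvexDomainLit (G : Metric n) (m : ℕ) (D : Set (E n)) : Prop :=
  ∃ F : E n → ℝ, ContDiff ℝ 2 F ∧ (∀ x ∈ D, F x < 0) ∧ (∀ x ∈ frontier D, F x = 0) ∧
    ∀ x ∈ D, ∀ w : Fin m → E n, G.Ortho x w → 0 < ∑ i, G.hess F x (w i) (w i)

/-- The defining function of the domain of the counterexample. -/
noncomputable def F0 (p : E 5) : ℝ :=
  -p 2 + 10 * (p 2 ^ 2 + p 3 ^ 2) + 1 / 2 * p 2 ^ 2 * (p 0 ^ 2 + p 1 ^ 2 + p 4 ^ 2) +
    max (p 0 ^ 2 + p 1 ^ 2 + p 4 ^ 2 - 3) 0 ^ 3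

/-- The domain of the counterexample. -/
def D0 : Set (E 5) := {p | F0 p < 0}

/-- The box of parameters `(t, s, b)`, `t > 0`, `|s| < 1/4`, `|b| < 1`. -/
def U0 : TopologicalSpace.Opens (E 3) where
  carrier := {u | 0 < u 0 ∧ |u 1| < 1 / 4 ∧ |u 2| < 1}
  is_open' := by
    have h (i : Fin 3) : Continuous fun u : E 3 => u i := EuclideanSpace.proj (𝕜 := ℝ) i |>.continuous
    exact (isOpen_lt continuous_const (h 0)).inter
      ((isOpen_lt (h 1).abs continuous_const).inter (isOpen_lt (h 2).abs continuous_const))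

/-- The holomorphic spiral `z = s + i t ↦ (e^z, e^{iz}/20)`, times a segment. -/
noncomputable def spiral (u : E 3) : E 5 :=
  !₂[Real.exp (u 1) * Real.cos (u 0), Real.exp (u 1) * Real.sin (u 0),
    1 / 20 * (Real.exp (-u 0) * Real.cos (u 1)), 1 / 20 * (Real.exp (-u 0) * Real.sin (u 1)), u 2]

/-- The volume measure of the metric induced by `ψ` on an open set of `ℝᵐ`. -/
noncomputable def volU (G : Metric n) (ψ : E m → E n) (U : TopologicalSpace.Opens (E m)) :
    Measure U :=
  Measure.comap Subtype.val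
    ((volume : Measure (E m)).withDensity fun u => ENNReal.ofReal (dens G ψ u))

end Pool.Agent.H793.MS
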