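import Pool.Agent.H793.MS.Chr

set_option autoImplicit false

open scoped ContDiff Topology ENNReal Manifold
open MeasureTheory Set Filter

namespace Pool.Agent.H793.MS

variable {n m : ℕ}

theorem low_continuous_g (G : Metric n) : Continuous fun p : E n × E n × E n => G.g p.1 p.2.1 p.2.2 :=
  ((G.smooth.continuous.comp continuous_fst).clm_apply (continuous_fst.comp continuous_snd)).clm_apply
    (continuous_snd.comp continuous_snd)

/-- A uniform lower bound for the metric on a compact set. -/
theorem low_pos (G : Metric n) (K : Set (E n)) (hK : IsCompact K) :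
    ∃ a : ℝ, 0 < a ∧ ∀ x ∈ K, ∀ v, a * ‖v‖ ^ 2 ≤ G.g x v v := by
  have hcomp : IsCompact (K ×ˢ _root_.Metric.sphere (0 : E n) 1) := hK.prod (isCompact_sphere 0 1)
  have hcont : Continuous fun p : E n × E n => G.g p.1 p.2 p.2 :=
    (low_continuous_g G).comp (continuous_fst.prodMk (continuous_snd.prodMk continuous_snd))
  by_cases hne : (K ×ˢ _root_.Metric.sphere (0 : E n) 1).Nonempty
  · obtain ⟨p, hp, hmin⟩ := hcomp.exists_isMinOn hne hcont.continuousOn
    have hp2 : p.2 ≠ 0 := by
      intro h0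
      have := hp.2
      rw [mem_sphere_iff_norm, sub_zero, h0, norm_zero] at this
      exact zero_ne_one this
    refine ⟨G.g p.1 p.2 p.2, G.pos _ _ hp2, ?_⟩
    intro x hx v
    by_cases hv : v = 0
    · rw [hv, norm_zero]
      simp
    · have hv0 : 0 < ‖v‖ := norm_pos_iff.2 hv
      have h1 : (x, ‖v‖⁻¹ • v) ∈ K ×ˢ _root_.Metric.sphere (0 : E n) 1 := by
        refine ⟨hx, ?_⟩
        rw [mem_sphere_iff_norm, sub_zero, norm_smul, norm_inv, norm_norm,
          inv_mul_cancel₀ hv0.ne']
      have h2 := hmin h1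
      have h3 : G.g p.1 p.2 p.2 ≤ G.g x (‖v‖⁻¹ • v) (‖v‖⁻¹ • v) := h2
      rw [map_smul, map_smul, smul_apply, smul_eq_mul, smul_eq_mul] at h3
      have h4 : G.g x v v = ‖v‖ ^ 2 * (‖v‖⁻¹ * (‖v‖⁻¹ * G.g x v v)) := by
        field_simp
      rw [h4, mul_comm]
      exact mul_le_mul_of_nonneg_left h3 (by positivity)
  · refine ⟨1, one_pos, ?_⟩
    intro x hx v
    by_cases hv : v = 0
    · rw [hv, norm_zero]
      simp
    · exfalso
      have hv0 : 0 < ‖v‖ := norm_pos_iff.2 hv
      refine hne ⟨(x, ‖v‖⁻¹ • v), hx, ?_⟩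
      rw [mem_sphere_iff_norm, sub_zero, norm_smul, norm_inv, norm_norm,
        inv_mul_cancel₀ hv0.ne']

/-- Strict convexity on a compact set is uniform. -/
theorem exists_lower (G : Metric n) (m : ℕ) (F : E n → ℝ) (hF : ContDiff ℝ 2 F) (K : Set (E n))
    (hK : IsCompact K)
    (h : ∀ x ∈ K, ∀ w : Fin m → E n, G.Ortho x w → 0 < ∑ i, G.hess F x (w i) (w i)) :
    ∃ c : ℝ, 0 < c ∧ ∀ x ∈ K, ∀ w : Fin m → E n, G.Ortho x w →
      c ≤ ∑ i, G.hess F x (w i) (w i) := by
  obtain ⟨Γ, hΓ, hΓ1, -, -⟩ := exists_christoffel G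
  obtain ⟨a, ha, hlow⟩ := low_pos G K hK
  have hF1 : ContDiff ℝ 1 (fderiv ℝ F) := hF.fderiv_right (m := 1) le_rfl
  have hF2 : Continuous (fderiv ℝ (fderiv ℝ F)) := hF1.continuous_fderiv one_ne_zero
  -- the sum of the Hessians is continuous
  have hcont : Continuous fun p : E n × (Fin m → E n) => ∑ i, G.hess F p.1 (p.2 i) (p.2 i) := by
    unfold Metric.hess
    simp only [hΓ1]
    refine continuous_finsetSum _ fun i _ => ?_
    have hw : Continuous fun p : E n × (Fin m → E n) => p.2 i :=
      (continuous_apply i).comp continuous_snd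
    refine Continuous.sub ?_ ?_
    · exact ((hF2.comp continuous_fst).clm_apply hw).clm_apply hw
    · exact (hF1.continuous.comp continuous_fst).clm_apply
        (((hΓ.comp continuous_fst).clm_apply hw).clm_apply hw)
  -- the set of the orthonormal families over `K` is compact
  set T : Set (E n × (Fin m → E n)) := {p | p.1 ∈ K ∧ G.Ortho p.1 p.2} with hT
  have hTc : IsCompact T := by
    have h1 : T = (K ×ˢ _root_.Metric.closedBall (0 : Fin m → E n) (√(1 / a))) ∩
        ⋂ i, ⋂ j, {p : E n × (Fin m → E n) | G.g p.1 (p.2 i) (p.2 j) = if i = j then 1 else 0} := by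
      ext p
      constructor
      · rintro ⟨h1, h2⟩
        refine ⟨⟨h1, ?_⟩, ?_⟩
        · rw [mem_closedBall_zero_iff, pi_norm_le_iff_of_nonneg (Real.sqrt_nonneg _)]
          intro i
          have h3 := hlow p.1 h1 (p.2 i)
          rw [h2 i i, if_pos rfl] at h3
          refine Real.le_sqrt_of_sq_le ?_
          rw [le_div_iff₀ ha]
          linarith
        · refine mem_iInter.2 fun i => mem_iInter.2 fun j => ?_
          exact h2 i j
      · rintro ⟨⟨h1, -⟩, h3⟩
        refine ⟨h1, fun i j => ?_⟩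
        exact mem_iInter.1 (mem_iInter.1 h3 i) j
    rw [h1]
    refine (hK.prod (isCompact_closedBall _ _)).inter_right ?_
    refine isClosed_iInter fun i => isClosed_iInter fun j => ?_
    refine isClosed_eq ?_ continuous_const
    have hwi : Continuous fun p : E n × (Fin m → E n) => p.2 i :=
      (continuous_apply i).comp continuous_snd
    have hwj : Continuous fun p : E n × (Fin m → E n) => p.2 j :=
      (continuous_apply j).comp continuous_snd
    exact ((G.smooth.continuous.comp continuous_fst).clm_apply hwi).clm_apply hwj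
  by_cases hne : T.Nonempty
  · obtain ⟨p, hp, hmin⟩ := hTc.exists_isMinOn hne hcont.continuousOn
    exact ⟨_, h p.1 hp.1 p.2 hp.2, fun x hx w hw => hmin (show (x, w) ∈ T from ⟨hx, hw⟩)⟩
  · exact ⟨1, one_pos, fun x hx w hw => (hne ⟨(x, w), hx, hw⟩).elim⟩

end Pool.Agent.H793.MS
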