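import Pool.Agent.H793.MS.Pot
import Pool.Agent.H793.MS.Barta
import Pool.Agent.H793.MS.Disc
import Pool.Agent.H793.MS.Lim

set_option autoImplicit false

open scoped ContDiff Topology ENNReal Manifold
open MeasureTheory Set Filter

namespace Pool.Agent.H793.MS

variable {n m : ℕ}

/-- Minimal submanifolds whose limit set is `H^m`-null inside a strictly `m`-convex domain have
discrete spectrum. -/
theorem main (hm : 3 ≤ m) (G : Metric n) (D : Set (E n)) (hDo : IsOpen D)
    (hDc : IsCompact (closure D)) (hD : IsConvexDomain G m D)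
    {M : Type*} [TopologicalSpace M] [T2Space M] [SecondCountableTopology M]
    [ChartedSpace (E m) M] [IsManifold (𝓡 m) ∞ M] [MeasurableSpace M] [BorelSpace M]
    (φ : M → E n) (hφ : IsMinimalImmersion (m := m) G φ) (hφD : ∀ p, φ p ∈ D)
    (μ : Measure M) (hμ : IsVolume (m := m) G φ μ)
    (hlim : μH[(m : ℝ)] (limSet φ ∩ D) = 0) : DiscreteSpectrum (m := m) G φ μ := by
  apply discrete_of_persson G φ hφ μ hμ
  intro Λ
  have hcont : Continuous φ := hφ.smooth.continuous
  haveI : LocallyCompactSpace M := ChartedSpace.locallyCompactSpace (E m) M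
  haveI : IsFiniteMeasureOnCompacts μ := isFiniteMeasureOnCompacts G φ hφ μ hμ
  obtain ⟨W₁, W₂, h1, h2, hpos, U, hU, hSU, hineq⟩ :=
    potential hm G D hDo hDc hD (limSet φ) (isClosed_limSet φ hcont)
      (limSet_subset_closure φ D hφD) hlim Λ
  obtain ⟨K, hK, hKU⟩ := exists_compact_limSet φ hcont D hDc hφD U hU hSU
  refine ⟨K, hK, fun f hf hc hfK => ?_⟩
  have b1 := barta G φ hφ μ hμ W₁ h1 (fun p => (hpos _ (hφD p)).1) f hf hc
  have b2 := barta G φ hφ μ hμ W₂ h2 (fun p => (hpos _ (hφD p)).2) f hf hc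
  have hfc : Continuous f := hf.continuous
  have hc2 : HasCompactSupport fun p => f p ^ 2 := hc.comp_left (g := fun t : ℝ => t ^ 2) (by simp)
  have hint : ∀ W : E n → ℝ, ContDiff ℝ 2 W → (∀ p, 0 < W (φ p)) →
      Integrable (fun p => (-trHess (m := m) G φ W p) / W (φ p) * f p ^ 2) μ := by
    intro W hW hWp
    apply Continuous.integrable_of_hasCompactSupport
    · exact (((continuous_trHess G φ hφ W hW).neg).div (hW.continuous.comp hcont)
        (fun p => (hWp p).ne')).mul (hfc.pow 2)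
    · exact hc2.mul_left
  have i1 := hint W₁ h1 (fun p => (hpos _ (hφD p)).1)
  have i2 := hint W₂ h2 (fun p => (hpos _ (hφD p)).2)
  have i3 : Integrable (fun p => 2 * Λ * f p ^ 2) μ :=
    (Continuous.integrable_of_hasCompactSupport (hfc.pow 2) hc2).const_mul _
  have key : ∫ p, 2 * Λ * f p ^ 2 ∂μ ≤
      ∫ p, ((-trHess (m := m) G φ W₁ p) / W₁ (φ p) * f p ^ 2 +
        (-trHess (m := m) G φ W₂ p) / W₂ (φ p) * f p ^ 2) ∂μ := by
    apply integral_mono i3 (i1.add i2)
    intro p
    show 2 * Λ * f p ^ 2 ≤ (-trHess (m := m) G φ W₁ p) / W₁ (φ p) * f p ^ 2 +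
        (-trHess (m := m) G φ W₂ p) / W₂ (φ p) * f p ^ 2
    by_cases hp : f p = 0
    · simp [hp]
    · have hpK : p ∉ K := fun h => hp (hfK p h)
      obtain ⟨w, hw, htr⟩ := trHess_frame (m := m) G φ hφ p
      have := hineq (φ p) ⟨hKU p hpK, hφD p⟩ w hw
      rw [← htr W₁, ← htr W₂] at this
      have h0 : 0 ≤ f p ^ 2 := sq_nonneg _
      calc 2 * Λ * f p ^ 2 ≤ ((-trHess (m := m) G φ W₁ p) / W₁ (φ p) +
            (-trHess (m := m) G φ W₂ p) / W₂ (φ p)) * f p ^ 2 :=
            mul_le_mul_of_nonneg_right this h0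
        _ = _ := by ring
  rw [integral_add i1 i2, integral_const_mul] at key
  linarith

end Pool.Agent.H793.MS
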