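import Pool.Agent.H793.MS.Defs

set_option autoImplicit false

open scoped ContDiff Topology ENNReal Manifold
open MeasureTheory Set Filter

namespace Pool.Agent.H793.MS

variable {n m : ℕ}

/-- Integrals over homothetic images. -/
theorem poinc_scale (g : E m → ℝ≥0∞) (hg : Measurable g) (x : E m) (t : ℝ) (ht : 1 / 2 ≤ t) : ∫⁻ y, g (x + t • (y - x)) ≤ 2 ^ m * ∫⁻ y, g y := by
  have ht0 : t ≠ 0 := by linarith
  have htp : 0 < t := by linarith
  set G : E m → ℝ≥0∞ := fun z => g ((1 - t) • x + z) with hG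
  have hGm : Measurable G := hg.comp (measurable_const_add _)
  have h1 : (fun y => g (x + t • (y - x))) = fun y => G (t • y) := by
    funext y
    simp only [hG]
    congr 1
    rw [smul_sub, sub_smul, one_smul]
    abel
  rw [h1]
  have h2 : ∫⁻ y, G (t • y) = ∫⁻ y, G y ∂(Measure.map (fun y : E m => t • y) volume) := by
    rw [lintegral_map hGm (measurable_const_smul t)]
  rw [h2, Measure.map_addHaar_smul volume ht0, lintegral_smul_measure, finrank_euclideanSpace_fin]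
  have h3 : ∫⁻ y, G y = ∫⁻ y, g y := lintegral_add_left_eq_self g ((1 - t) • x)
  rw [h3, smul_eq_mul]
  gcongr
  have h4 : |(t ^ m)⁻¹| ≤ 2 ^ m := by
    rw [abs_of_pos (by positivity), inv_le_comm₀ (by positivity) (by positivity)]
    rw [← inv_pow]
    apply pow_le_pow_left₀ (by norm_num)
    linarith
  calc ENNReal.ofReal |(t ^ m)⁻¹| ≤ ENNReal.ofReal (2 ^ m) := ENNReal.ofReal_le_ofReal h4
    _ = 2 ^ m := by
      rw [ENNReal.ofReal_pow (by norm_num)]
      norm_num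

/-- Elementary inequality in `[0, ∞]`. -/
theorem poinc_two (A B C : ℝ) (hB : 0 ≤ B) (hC : 0 ≤ C) (h : A ≤ 2 * B + 2 * C) :
    ENNReal.ofReal A ≤ 2 * ENNReal.ofReal B + 2 * ENNReal.ofReal C := by
  have e3 : (2 : ℝ≥0∞) = ENNReal.ofReal 2 := by norm_num
  rw [e3, ← ENNReal.ofReal_mul (by norm_num), ← ENNReal.ofReal_mul (by norm_num),
    ← ENNReal.ofReal_add (by positivity) (by positivity)]
  exact ENNReal.ofReal_le_ofReal h

/-- Averages over homothetic images. -/
theorem poinc_avg (Q : Set (E m)) (g : E m → ℝ≥0∞) (hg : Measurable g) (x : E m) :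
    ∫⁻ y in Q, ∫⁻ s in Icc (0 : ℝ) 1, g (x + ((1 + s) / 2) • (y - x)) ≤ 2 ^ m * ∫⁻ y, g y := by
  have hc : Continuous (fun p : E m × ℝ => x + ((1 + p.2) / 2) • (p.1 - x)) := by fun_prop
  have hGm : AEMeasurable (Function.uncurry fun (y : E m) (s : ℝ) => g (x + ((1 + s) / 2) • (y - x)))
      ((volume.restrict Q).prod (volume.restrict (Icc (0 : ℝ) 1))) :=
    (hg.comp hc.measurable).aemeasurable
  rw [lintegral_lintegral_swap hGm]
  have h1 : ∀ s ∈ Icc (0 : ℝ) 1, ∫⁻ y in Q, g (x + ((1 + s) / 2) • (y - x)) ≤ 2 ^ m * ∫⁻ y, g y := by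
    intro s hs
    refine (lintegral_mono' Measure.restrict_le_self le_rfl).trans ?_
    exact poinc_scale g hg x _ (by linarith [hs.1])
  refine (setLIntegral_mono' measurableSet_Icc h1).trans ?_
  rw [setLIntegral_const]
  simp

/-- Cauchy-Schwarz on the unit interval. -/
theorem poinc_cs (φ : ℝ → ℝ) (hφ : ContinuousOn φ (Icc 0 1)) :
    (∫ s in (0 : ℝ)..1, φ s) ^ 2 ≤ ∫ s in (0 : ℝ)..1, φ s ^ 2 := by
  set c := ∫ s in (0 : ℝ)..1, φ s with hc
  have hφ' : ContinuousOn φ (uIcc 0 1) := by rwa [uIcc_of_le zero_le_one]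
  have h1 : IntervalIntegrable φ volume 0 1 := hφ'.intervalIntegrable
  have h2 : IntervalIntegrable (fun s => φ s ^ 2) volume 0 1 := (hφ'.pow 2).intervalIntegrable
  have h3 : 0 ≤ ∫ s in (0 : ℝ)..1, (φ s - c) ^ 2 :=
    intervalIntegral.integral_nonneg zero_le_one (fun s _ => sq_nonneg _)
  have h4 : ∫ s in (0 : ℝ)..1, (φ s - c) ^ 2 = (∫ s in (0 : ℝ)..1, φ s ^ 2) - c ^ 2 := by
    have e : (fun s => (φ s - c) ^ 2) = fun s => φ s ^ 2 - (2 * c) * φ s + c ^ 2 := by
      funext s; ring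
    rw [e, intervalIntegral.integral_add (h2.sub (h1.const_mul _)) (by simp),
      intervalIntegral.integral_sub h2 (h1.const_mul _), intervalIntegral.integral_const_mul,
      intervalIntegral.integral_const, ← hc]
    simp
    ring
  linarith

/-- The estimate along a segment. -/
theorem poinc_seg (O Q : Set (E m)) (hO : IsOpen O) (hQO : Q ⊆ O) (hQ : Convex ℝ Q) (d : ℝ)
    (hd : ∀ x ∈ Q, ∀ y ∈ Q, ‖x - y‖ ≤ d) (f : E m → ℝ) (hf : ContDiffOn ℝ 1 f O)
    (x y : E m) (hx : x ∈ Q) (hy : y ∈ Q) :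
    ENNReal.ofReal ((f y - f (x + (1 / 2 : ℝ) • (y - x))) ^ 2) ≤ ENNReal.ofReal (d ^ 2 / 4) *
      ∫⁻ s in Icc (0 : ℝ) 1,
        (Q.indicator (fun z => ENNReal.ofReal (‖fderiv ℝ f z‖ ^ 2))) (x + ((1 + s) / 2) • (y - x)) := by
  have hfd : ContinuousOn (fderiv ℝ f) O := hf.continuousOn_fderiv_of_isOpen hO le_rfl
  set γ : ℝ → E m := fun s => x + ((1 + s) / 2) • (y - x) with hγ
  have hγc : Continuous γ := by
    simp only [hγ]
    fun_prop
  have hγQ : ∀ s ∈ Icc (0 : ℝ) 1, γ s ∈ Q := by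
    intro s hs
    exact hQ.add_smul_sub_mem hx hy ⟨by linarith [hs.1], by linarith [hs.2]⟩
  set v : E m := (1 / 2 : ℝ) • (y - x) with hv
  have hγd : ∀ s, HasDerivAt γ v s := by
    intro s
    have h1 : HasDerivAt (fun s : ℝ => (1 + s) / 2) (1 / 2) s := by
      have := ((hasDerivAt_id s).const_add 1).div_const 2
      simpa using this
    exact (h1.smul_const (y - x)).const_add x
  set φ : ℝ → ℝ := fun s => fderiv ℝ f (γ s) v with hφ
  have hφc : ContinuousOn φ (Icc 0 1) := by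
    have h1 : ContinuousOn (fun s => fderiv ℝ f (γ s)) (Icc 0 1) :=
      hfd.comp hγc.continuousOn (fun s hs => hQO (hγQ s hs))
    exact h1.clm_apply continuousOn_const
  have hder : ∀ s ∈ uIcc (0 : ℝ) 1, HasDerivAt (fun s => f (γ s)) (φ s) s := by
    intro s hs
    rw [uIcc_of_le zero_le_one] at hs
    have h1 : DifferentiableAt ℝ f (γ s) :=
      (hf.contDiffAt (hO.mem_nhds (hQO (hγQ s hs)))).differentiableAt (by simp)
    exact h1.hasFDerivAt.comp_hasDerivAt s (hγd s)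
  have hFTC : ∫ s in (0 : ℝ)..1, φ s = f y - f (x + (1 / 2 : ℝ) • (y - x)) := by
    rw [intervalIntegral.integral_eq_sub_of_hasDerivAt hder
      (by rw [← uIcc_of_le (zero_le_one (α := ℝ))] at hφc; exact hφc.intervalIntegrable)]
    have e1 : γ 1 = y := by simp [hγ]
    have e0 : γ 0 = x + (1 / 2 : ℝ) • (y - x) := by simp [hγ]
    rw [e1, e0]
  have hd0 : 0 ≤ d := (norm_nonneg _).trans (hd x hx y hy)
  have hvn : ‖v‖ ^ 2 ≤ d ^ 2 / 4 := by
    have h1 : ‖v‖ = 1 / 2 * ‖y - x‖ := by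
      rw [hv, norm_smul]; norm_num
    have h2 := hd y hy x hx
    have h3 := norm_nonneg (y - x)
    rw [h1]
    nlinarith
  rw [← hFTC]
  calc ENNReal.ofReal ((∫ s in (0 : ℝ)..1, φ s) ^ 2)
      ≤ ENNReal.ofReal (∫ s in (0 : ℝ)..1, φ s ^ 2) := ENNReal.ofReal_le_ofReal (poinc_cs φ hφc)
    _ = ∫⁻ s in Icc (0 : ℝ) 1, ENNReal.ofReal (φ s ^ 2) := by
        rw [intervalIntegral.integral_of_le zero_le_one, ← integral_Icc_eq_integral_Ioc]
        apply ofReal_integral_eq_lintegral_ofReal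
        · exact (hφc.pow 2).integrableOn_Icc
        · exact Eventually.of_forall (fun s => sq_nonneg _)
    _ ≤ ∫⁻ s in Icc (0 : ℝ) 1, ENNReal.ofReal (d ^ 2 / 4) *
          (Q.indicator (fun z => ENNReal.ofReal (‖fderiv ℝ f z‖ ^ 2))) (γ s) := by
        apply setLIntegral_mono' measurableSet_Icc
        intro s hs
        rw [indicator_of_mem (hγQ s hs), ← ENNReal.ofReal_mul (by positivity)]
        apply ENNReal.ofReal_le_ofReal
        have h1 : |φ s| ≤ ‖fderiv ℝ f (γ s)‖ * ‖v‖ := (fderiv ℝ f (γ s)).le_opNorm v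
        have h2 : φ s ^ 2 ≤ (‖fderiv ℝ f (γ s)‖ * ‖v‖) ^ 2 := by
          rw [← sq_abs]
          exact pow_le_pow_left₀ (abs_nonneg _) h1 2
        calc φ s ^ 2 ≤ (‖fderiv ℝ f (γ s)‖ * ‖v‖) ^ 2 := h2
          _ = ‖v‖ ^ 2 * ‖fderiv ℝ f (γ s)‖ ^ 2 := by ring
          _ ≤ d ^ 2 / 4 * ‖fderiv ℝ f (γ s)‖ ^ 2 := by gcongr
    _ = _ := by
        rw [lintegral_const_mul' _ _ ENNReal.ofReal_ne_top]

/-- The Poincaré inequality on a bounded convex set. -/
theorem poincare_convex (O Q : Set (E m)) (hO : IsOpen O) (hQO : Q ⊆ O) (hQ : Convex ℝ Q)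
    (hQm : MeasurableSet Q) (hQc : ∃ Q' : Set (E m), IsCompact Q' ∧ Q ⊆ Q' ∧ Q' ⊆ O) (d : ℝ)
    (hd : ∀ x ∈ Q, ∀ y ∈ Q, ‖x - y‖ ≤ d) (f : E m → ℝ) (hf : ContDiffOn ℝ 1 f O)
    (h0 : ∫ u in Q, f u = 0) :
    ∫ u in Q, f u ^ 2 ≤ 2 ^ m * d ^ 2 * ∫ u in Q, ‖fderiv ℝ f u‖ ^ 2 := by
  classical
  obtain ⟨Q', hQ'c, hQQ', hQ'O⟩ := hQc
  have hvol : volume Q < ⊤ := (measure_mono hQQ').trans_lt hQ'c.measure_lt_top
  have hfd : ContinuousOn (fderiv ℝ f) O := hf.continuousOn_fderiv_of_isOpen hO le_rfl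
  have hfc : ContinuousOn f Q := hf.continuousOn.mono hQO
  have hfdc : ContinuousOn (fderiv ℝ f) Q := hfd.mono hQO
  obtain ⟨C1, hC1⟩ := hQ'c.exists_bound_of_continuousOn (hf.continuousOn.mono hQ'O)
  obtain ⟨C2, hC2⟩ := hQ'c.exists_bound_of_continuousOn (hfd.mono hQ'O)
  set μ : Measure (E m) := volume.restrict Q with hμ
  have : IsFiniteMeasure μ := ⟨by rw [hμ, Measure.restrict_apply_univ]; exact hvol⟩
  have hI1 : Integrable f μ := by
    refine IntegrableOn.of_bound hvol (hfc.aestronglyMeasurable hQm) C1 ?_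
    exact ae_restrict_of_forall_mem hQm (fun x hx => hC1 x (hQQ' hx))
  have hI2 : Integrable (fun u => f u ^ 2) μ := by
    refine IntegrableOn.of_bound hvol ((hfc.pow 2).aestronglyMeasurable hQm) (C1 ^ 2) ?_
    refine ae_restrict_of_forall_mem hQm (fun x hx => ?_)
    rw [norm_pow]
    exact pow_le_pow_left₀ (norm_nonneg _) (hC1 x (hQQ' hx)) 2
  have hI3 : Integrable (fun u => ‖fderiv ℝ f u‖ ^ 2) μ := by
    refine IntegrableOn.of_bound hvol ((hfdc.norm.pow 2).aestronglyMeasurable hQm) (C2 ^ 2) ?_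
    refine ae_restrict_of_forall_mem hQm (fun x hx => ?_)
    rw [norm_pow, norm_norm]
    exact pow_le_pow_left₀ (norm_nonneg _) (hC2 x (hQQ' hx)) 2
  set V : ℝ := μ.real univ with hV
  set S : ℝ := ∫ u, f u ^ 2 ∂μ with hS
  set T : ℝ := ∫ u, ‖fderiv ℝ f u‖ ^ 2 ∂μ with hT
  have hV0 : 0 ≤ V := measureReal_nonneg
  have hS0 : 0 ≤ S := integral_nonneg (fun u => sq_nonneg _)
  have hT0 : 0 ≤ T := integral_nonneg (fun u => sq_nonneg _)
  -- the double integral
  have hinner : ∀ x, ∫ y, (f x - f y) ^ 2 ∂μ = V * f x ^ 2 + S := by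
    intro x
    have e : (fun y => (f x - f y) ^ 2) = fun y => (f x ^ 2 - (2 * f x) * f y) + f y ^ 2 := by
      funext y; ring
    have hA : Integrable (fun y => f x ^ 2 - (2 * f x) * f y) μ :=
      (integrable_const (f x ^ 2)).sub (hI1.const_mul (2 * f x))
    rw [e, integral_add hA hI2,
      integral_sub (integrable_const (f x ^ 2)) (hI1.const_mul (2 * f x)), integral_const,
      integral_const_mul]
    have h0' : ∫ y, f y ∂μ = 0 := h0
    rw [h0', ← hV, ← hS, smul_eq_mul]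
    ring
  have hinnerI : ∀ x, Integrable (fun y => (f x - f y) ^ 2) μ := by
    intro x
    have e : (fun y => (f x - f y) ^ 2) = fun y => (f x ^ 2 - (2 * f x) * f y) + f y ^ 2 := by
      funext y; ring
    rw [e]
    exact ((integrable_const _).sub (hI1.const_mul _)).add hI2
  have key1 : ENNReal.ofReal (2 * V * S) =
      ∫⁻ x, ∫⁻ y, ENNReal.ofReal ((f x - f y) ^ 2) ∂μ ∂μ := by
    have e1 : ∀ x, ∫⁻ y, ENNReal.ofReal ((f x - f y) ^ 2) ∂μ = ENNReal.ofReal (V * f x ^ 2 + S) := by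
      intro x
      rw [← hinner x]
      exact (ofReal_integral_eq_lintegral_ofReal (hinnerI x)
        (Eventually.of_forall fun y => sq_nonneg _)).symm
    simp_rw [e1]
    have hB : Integrable (fun x => V * f x ^ 2 + S) μ := (hI2.const_mul V).add (integrable_const S)
    rw [← ofReal_integral_eq_lintegral_ofReal hB
      (Eventually.of_forall fun x => add_nonneg (mul_nonneg hV0 (sq_nonneg _)) hS0)]
    congr 1
    rw [integral_add (hI2.const_mul V) (integrable_const S), integral_const_mul, integral_const,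
      ← hS, ← hV, smul_eq_mul]
    ring
  -- measurable versions
  set fq : E m → ℝ := Q.indicator f with hfq
  have hfqm : Measurable fq := by
    rw [hfq, ← piecewise_eq_indicator]
    exact hfc.measurable_piecewise continuousOn_const hQm
  set gq : E m → ℝ≥0∞ := Q.indicator (fun z => ENNReal.ofReal (‖fderiv ℝ f z‖ ^ 2)) with hgq
  have hgqm : Measurable gq := by
    rw [hgq, ← piecewise_eq_indicator]
    refine ContinuousOn.measurable_piecewise ?_ continuousOn_const hQm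
    exact ENNReal.continuous_ofReal.comp_continuousOn (hfdc.norm.pow 2)
  set F : E m → E m → ℝ≥0∞ := fun x y =>
    ENNReal.ofReal ((fq y - fq (x + (1 / 2 : ℝ) • (y - x))) ^ 2) with hF
  have hFm : Measurable (Function.uncurry F) := by
    have h1 : Measurable (fun p : E m × E m => fq p.2 - fq (p.1 + (1 / 2 : ℝ) • (p.2 - p.1))) := by
      refine (hfqm.comp measurable_snd).sub (hfqm.comp ?_)
      exact (continuous_fst.add ((continuous_snd.sub continuous_fst).const_smul (1 / 2 : ℝ))).measurable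
    exact (h1.pow_const 2).ennreal_ofReal
  have hmid : ∀ x ∈ Q, ∀ y ∈ Q, x + (1 / 2 : ℝ) • (y - x) ∈ Q := by
    intro x hx y hy
    exact hQ.add_smul_sub_mem hx hy ⟨by norm_num, by norm_num⟩
  have hmid2 : ∀ x y : E m, x + (1 / 2 : ℝ) • (y - x) = y + (1 / 2 : ℝ) • (x - y) := by
    intro x y
    have : x = (1 / 2 : ℝ) • x + (1 / 2 : ℝ) • x := by
      rw [← add_smul]; norm_num
    have hy : y = (1 / 2 : ℝ) • y + (1 / 2 : ℝ) • y := by
      rw [← add_smul]; norm_num
    rw [smul_sub, smul_sub]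
    nth_rewrite 1 [this]
    nth_rewrite 2 [hy]
    abel
  have key2 : ∫⁻ x, ∫⁻ y, ENNReal.ofReal ((f x - f y) ^ 2) ∂μ ∂μ ≤ 4 * ∫⁻ x, ∫⁻ y, F x y ∂μ ∂μ := by
    have h1 : ∀ x ∈ Q, ∀ y ∈ Q, ENNReal.ofReal ((f x - f y) ^ 2) ≤ 2 * F x y + 2 * F y x := by
      intro x hx y hy
      have e1 : F x y = ENNReal.ofReal ((f y - f (x + (1 / 2 : ℝ) • (y - x))) ^ 2) := by
        simp only [hF, hfq]
        rw [indicator_of_mem hy, indicator_of_mem (hmid x hx y hy)]
      have e2 : F y x = ENNReal.ofReal ((f x - f (x + (1 / 2 : ℝ) • (y - x))) ^ 2) := by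
        simp only [hF, hfq]
        rw [indicator_of_mem hx, indicator_of_mem (hmid y hy x hx), ← hmid2 x y]
      rw [e1, e2]
      apply poinc_two _ _ _ (sq_nonneg _) (sq_nonneg _)
      set c := f (x + (1 / 2 : ℝ) • (y - x))
      nlinarith [sq_nonneg (f x + f y - 2 * c)]
    have hm1 : ∀ x, Measurable (F x) := fun x => hFm.comp (measurable_prodMk_left)
    have hm2 : ∀ x, Measurable (fun y => F y x) := fun x => hFm.comp (measurable_prodMk_right)
    have hm3 : Measurable (fun x => ∫⁻ y, F x y ∂μ) := hFm.lintegral_prod_right'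
    calc ∫⁻ x, ∫⁻ y, ENNReal.ofReal ((f x - f y) ^ 2) ∂μ ∂μ
        ≤ ∫⁻ x, ∫⁻ y, (2 * F x y + 2 * F y x) ∂μ ∂μ := by
          apply setLIntegral_mono' hQm
          intro x hx
          apply setLIntegral_mono' hQm
          intro y hy
          exact h1 x hx y hy
      _ = ∫⁻ x, (2 * ∫⁻ y, F x y ∂μ + 2 * ∫⁻ y, F y x ∂μ) ∂μ := by
          congr 1
          funext x
          rw [lintegral_add_left ((hm1 x).const_mul 2), lintegral_const_mul _ (hm1 x),
            lintegral_const_mul _ (hm2 x)]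
      _ = 2 * ∫⁻ x, ∫⁻ y, F x y ∂μ ∂μ + 2 * ∫⁻ x, ∫⁻ y, F y x ∂μ ∂μ := by
          rw [lintegral_add_left (hm3.const_mul 2), lintegral_const_mul _ hm3,
            lintegral_const_mul' _ _ (by norm_num)]
      _ = 4 * ∫⁻ x, ∫⁻ y, F x y ∂μ ∂μ := by
          have hsw : ∫⁻ x, ∫⁻ y, F y x ∂μ ∂μ = ∫⁻ x, ∫⁻ y, F x y ∂μ ∂μ :=
            (lintegral_lintegral_swap hFm.aemeasurable).symm
          rw [hsw, ← add_mul]
          norm_num
  have key3 : ∀ x ∈ Q, ∫⁻ y, F x y ∂μ ≤ ENNReal.ofReal (d ^ 2 / 4) * (2 ^ m * ∫⁻ z, gq z) := by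
    intro x hx
    have h1 : ∫⁻ y, F x y ∂μ ≤ ∫⁻ y, ENNReal.ofReal (d ^ 2 / 4) *
          (∫⁻ s in Icc (0 : ℝ) 1, gq (x + ((1 + s) / 2) • (y - x))) ∂μ := by
      apply setLIntegral_mono' hQm
      intro y hy
      have e1 : F x y = ENNReal.ofReal ((f y - f (x + (1 / 2 : ℝ) • (y - x))) ^ 2) := by
        simp only [hF, hfq]
        rw [indicator_of_mem hy, indicator_of_mem (hmid x hx y hy)]
      rw [e1]
      exact poinc_seg O Q hO hQO hQ d hd f hf x y hx hy
    refine h1.trans ?_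
    rw [lintegral_const_mul' _ _ ENNReal.ofReal_ne_top]
    exact mul_le_mul_right (poinc_avg Q gq hgqm x) _
  have key4 : ∫⁻ z, gq z = ENNReal.ofReal T := by
    rw [hgq, lintegral_indicator hQm, hT]
    exact (ofReal_integral_eq_lintegral_ofReal hI3 (Eventually.of_forall fun u => sq_nonneg _)).symm
  have hμV : μ univ = ENNReal.ofReal V := by
    rw [hV, Measure.real, ENNReal.ofReal_toReal (measure_ne_top μ univ)]
  have hfin : ENNReal.ofReal (2 * V * S) ≤ ENNReal.ofReal (4 * (d ^ 2 / 4 * (2 ^ m * T)) * V) := by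
    calc ENNReal.ofReal (2 * V * S) ≤ 4 * ∫⁻ x, ∫⁻ y, F x y ∂μ ∂μ := by rw [key1]; exact key2
      _ ≤ 4 * ∫⁻ x, (ENNReal.ofReal (d ^ 2 / 4) * (2 ^ m * ∫⁻ z, gq z)) ∂μ := by
          gcongr 4 * ?_
          exact setLIntegral_mono' hQm key3
      _ = ENNReal.ofReal (4 * (d ^ 2 / 4 * (2 ^ m * T)) * V) := by
          rw [lintegral_const, key4, hμV]
          have e4 : (4 : ℝ≥0∞) = ENNReal.ofReal 4 := by norm_num
          have e2 : (2 : ℝ≥0∞) ^ m = ENNReal.ofReal (2 ^ m) := by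
            rw [ENNReal.ofReal_pow (by norm_num)]
            norm_num
          rw [e4, e2, ← ENNReal.ofReal_mul (by positivity), ← ENNReal.ofReal_mul (by positivity),
            ← ENNReal.ofReal_mul (by positivity), ← ENNReal.ofReal_mul (by positivity)]
          congr 1
          ring
  have hfin2 : 2 * V * S ≤ 4 * (d ^ 2 / 4 * (2 ^ m * T)) * V :=
    (ENNReal.ofReal_le_ofReal_iff (by positivity)).1 hfin
  rcases hV0.eq_or_lt with hV00 | hVpos
  · have hμ0 : μ = 0 := by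
      rw [← Measure.measure_univ_eq_zero, hμV, ← hV00]
      simp
    have : S = 0 := by rw [hS, hμ0]; simp
    show S ≤ 2 ^ m * d ^ 2 * T
    rw [this]
    positivity
  · show S ≤ 2 ^ m * d ^ 2 * T
    have h1 : 2 * S ≤ 2 ^ m * d ^ 2 * T := by
      have : V * (2 * S) ≤ V * (2 ^ m * d ^ 2 * T) := by nlinarith
      exact le_of_mul_le_mul_left this hVpos
    linarith

end Pool.Agent.H793.MS
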