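import Pool.Agent.H793.MS.ExW
import Pool.Agent.H793.MS.KerE
import Pool.Agent.H793.MS.Low

set_option autoImplicit false

open scoped ContDiff Topology ENNReal Manifold
open MeasureTheory Set Filter

namespace Pool.Agent.H793.MS

variable {n m : ℕ}

theorem pot_continuous_base (G : Metric n) (x : E n) (r : ℝ) :
    Continuous fun y => r ^ 2 + qf G x y :=
  continuous_const.add ((continuous_qf G).comp (continuous_const.prodMk continuous_id))

theorem pot_base_pos (G : Metric n) (x : E n) (r : ℝ) (hr : 0 < r) (y : E n) :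
    0 < r ^ 2 + qf G x y := by
  have := qf_nonneg G x y
  positivity

theorem pot_continuous_ker0 (G : Metric n) (m : ℕ) (x : E n) (r : ℝ) (hr : 0 < r) :
    Continuous (ker0 G m x r) :=
  (pot_continuous_base G x r).rpow_const fun y => Or.inl (pot_base_pos G x r hr y).ne'

theorem pot_continuous_kk (G : Metric n) (m : ℕ) (x : E n) (r : ℝ) (hr : 0 < r) :
    Continuous (kk G m x r) :=
  continuous_const.mul
    ((pot_continuous_base G x r).rpow_const fun y => Or.inl (pot_base_pos G x r hr y).ne')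

theorem pot_hess_const (G : Metric n) (c : ℝ) (x v w : E n) :
    G.hess (fun _ => c) x v w = 0 := by
  unfold Metric.hess
  have h1 : fderiv ℝ (fun _ : E n => c) = fun _ => 0 := by
    funext y
    exact fderiv_const_apply c
  rw [h1]
  have h2 : fderiv ℝ (fun _ : E n => (0 : E n →L[ℝ] ℝ)) x = 0 := fderiv_const_apply _
  rw [h2]
  simp

/-- The second function near the part of `S` on which `F ≤ -η`. -/
theorem pot_second (hm : 3 ≤ m) (G : Metric n) (K : Set (E n)) (hK : IsCompact K) (B C L : ℝ)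
    (hB : 0 ≤ B) (hC : 1 ≤ C) (hL : 0 ≤ L)
    (hker : ∀ x ∈ K, ∀ r : ℝ, 0 < r → r ≤ 1 → ∀ y ∈ K,
      (0 < ker0 G m x r y ∧ ker0 G m x r y ≤ kerB G m B x r y ∧
        kerB G m B x r y ≤ C * ker0 G m x r y) ∧
      ∀ w : Fin m → E n, G.Ortho y w →
        kk G m x r y - C * ker0 G m x r y ≤ -∑ i, G.hess (kerB G m B x r) y (w i) (w i))
    (T : Set (E n)) (hT : IsCompact T) (hTK : T ⊆ K) (hT0 : μH[(m : ℝ)] T = 0) :
    ∃ W : E n → ℝ, ContDiff ℝ 2 W ∧ (∀ x ∈ K, 0 < W x) ∧
      (∀ x ∈ K, ∀ w : Fin m → E n, G.Ortho x w → -C * W x ≤ -∑ i, G.hess W x (w i) (w i)) ∧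
      ∃ U : Set (E n), IsOpen U ∧ T ⊆ U ∧ ∀ x ∈ U ∩ K, ∀ w : Fin m → E n, G.Ortho x w →
        2 * L * W x ≤ -∑ i, G.hess W x (w i) (w i) := by
  rcases T.eq_empty_or_nonempty with hTe | ⟨y₀, hy₀⟩
  · refine ⟨fun _ => 1, contDiff_const, fun _ _ => one_pos, ?_, ∅, isOpen_empty, ?_, ?_⟩
    · intro x _ w _
      simp only [pot_hess_const, Finset.sum_const_zero, neg_zero]
      linarith
    · rw [hTe]
    · rintro x ⟨hx, _⟩
      exact hx.elim
  · set A : ℝ := C + 2 * L * C with hA
    have hA0 : 0 ≤ A := by positivity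
    obtain ⟨N, c, x, r, hcx, hpos⟩ := exists_combination hm G T hT hT0 A hA0
    have hsm : ∀ i ∈ (Finset.univ : Finset (Fin N)), ContDiff ℝ 2 (kerB G m B (x i) (r i)) :=
      fun i _ => (contDiff_kerB G m B (x i) (r i) (hcx i).2.2.1).of_le
        (WithTop.coe_le_coe.2 le_top)
    have hker' : ∀ (i : Fin N), ∀ y ∈ K, _ := fun i y hy =>
      hker (x i) (hTK (hcx i).2.1) (r i) (hcx i).2.2.1 (hcx i).2.2.2 y hy
    -- the Hessian
    have hhess : ∀ y ∈ K, ∀ w : Fin m → E n, G.Ortho y w →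
        ∑ k, c k * (kk G m (x k) (r k) y - C * ker0 G m (x k) (r k) y) ≤
          -∑ i, G.hess (fun y => ∑ k, c k * kerB G m B (x k) (r k) y) y (w i) (w i) := by
      intro y hy w hw
      have h1 : ∀ i, G.hess (fun y => ∑ k, c k * kerB G m B (x k) (r k) y) y (w i) (w i) =
          ∑ k, c k * G.hess (kerB G m B (x k) (r k)) y (w i) (w i) := fun i =>
        hess_sum G Finset.univ c (fun k => kerB G m B (x k) (r k)) hsm y (w i)
      simp only [h1]
      rw [Finset.sum_comm, ← Finset.sum_neg_distrib]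
      refine Finset.sum_le_sum fun k _ => ?_
      rw [← Finset.mul_sum, ← mul_neg]
      exact mul_le_mul_of_nonneg_left ((hker' k y hy).2 w hw) (hcx k).1
    have hWle : ∀ y ∈ K, ∑ k, c k * kerB G m B (x k) (r k) y ≤
        C * ∑ k, c k * ker0 G m (x k) (r k) y := by
      intro y hy
      rw [Finset.mul_sum]
      refine Finset.sum_le_sum fun k _ => ?_
      have h1 := mul_le_mul_of_nonneg_left (hker' k y hy).1.2.2 (hcx k).1
      linarith
    have hWge : ∀ y ∈ K, ∑ k, c k * ker0 G m (x k) (r k) y ≤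
        ∑ k, c k * kerB G m B (x k) (r k) y := fun y hy =>
      Finset.sum_le_sum fun k _ => mul_le_mul_of_nonneg_left (hker' k y hy).1.2.1 (hcx k).1
    have hkk : ∀ k y, 0 ≤ kk G m (x k) (r k) y := fun k y => by
      unfold kk
      have := pot_base_pos G (x k) (r k) (hcx k).2.2.1 y
      positivity
    refine ⟨fun y => ∑ k, c k * kerB G m B (x k) (r k) y, ?_, ?_, ?_,
      {y | 0 < ∑ k, c k * (kk G m (x k) (r k) y - A * ker0 G m (x k) (r k) y)}, ?_, hpos, ?_⟩
    · exact ContDiff.sum fun k hk => contDiff_const.mul (hsm k hk)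
    · intro y hy
      obtain ⟨k, hk⟩ : ∃ k, 0 < c k := by
        by_contra hcon
        push Not at hcon
        have h1 : ∀ k, c k = 0 := fun k => le_antisymm (hcon k) (hcx k).1
        have h2 := hpos y₀ hy₀
        simp [h1] at h2
      refine Finset.sum_pos' (fun i _ => ?_) ⟨k, Finset.mem_univ k, ?_⟩
      · exact mul_nonneg (hcx i).1 ((hker' i y hy).1.1.trans_le (hker' i y hy).1.2.1).le
      · exact mul_pos hk ((hker' k y hy).1.1.trans_le (hker' k y hy).1.2.1)
    · intro y hy w hw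
      refine le_trans ?_ (hhess y hy w hw)
      have h1 : ∑ k, c k * (kk G m (x k) (r k) y - C * ker0 G m (x k) (r k) y) =
          ∑ k, c k * kk G m (x k) (r k) y - C * ∑ k, c k * ker0 G m (x k) (r k) y := by
        rw [Finset.mul_sum, ← Finset.sum_sub_distrib]
        refine Finset.sum_congr rfl fun k _ => ?_
        ring
      have h2 : 0 ≤ ∑ k, c k * kk G m (x k) (r k) y :=
        Finset.sum_nonneg fun k _ => mul_nonneg (hcx k).1 (hkk k y)
      have h3 := mul_le_mul_of_nonneg_left (hWge y hy) (by linarith : (0 : ℝ) ≤ C)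
      rw [h1]
      show -C * ∑ k, c k * kerB G m B (x k) (r k) y ≤ _
      linarith
    · refine isOpen_lt continuous_const ?_
      exact continuous_finsetSum _ fun k _ => continuous_const.mul
        ((pot_continuous_kk G m (x k) (r k) (hcx k).2.2.1).sub
          (continuous_const.mul (pot_continuous_ker0 G m (x k) (r k) (hcx k).2.2.1)))
    · rintro y ⟨hyU, hy⟩ w hw
      refine le_trans ?_ (hhess y hy w hw)
      have hyU' : 0 < ∑ k, c k * (kk G m (x k) (r k) y - A * ker0 G m (x k) (r k) y) := hyU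
      have h1 : ∑ k, c k * (kk G m (x k) (r k) y - C * ker0 G m (x k) (r k) y) =
          ∑ k, c k * (kk G m (x k) (r k) y - A * ker0 G m (x k) (r k) y) +
            (A - C) * ∑ k, c k * ker0 G m (x k) (r k) y := by
        rw [Finset.mul_sum, ← Finset.sum_add_distrib]
        refine Finset.sum_congr rfl fun k _ => ?_
        ring
      have h2 := mul_le_mul_of_nonneg_left (hWle y hy) (by linarith : (0 : ℝ) ≤ 2 * L)
      rw [h1]
      show 2 * L * ∑ k, c k * kerB G m B (x k) (r k) y ≤ _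
      have h3 : A - C = 2 * L * C := by
        rw [hA]
        ring
      rw [h3]
      linarith

/-- The potential theory: two positive functions whose logarithmic superharmonicity on
`m`-dimensional subspaces is large near the set `S`. -/
theorem potential (hm : 3 ≤ m) (G : Metric n) (D : Set (E n)) (hDo : IsOpen D)
    (hDc : IsCompact (closure D)) (hD : IsConvexDomain G m D) (S : Set (E n))
    (hSc : IsClosed S) (hSD : S ⊆ closure D) (hS : μH[(m : ℝ)] (S ∩ D) = 0) (Λ : ℝ) :
    ∃ W₁ W₂ : E n → ℝ, ContDiff ℝ 2 W₁ ∧ ContDiff ℝ 2 W₂ ∧ (∀ x ∈ D, 0 < W₁ x ∧ 0 < W₂ x) ∧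
      ∃ U : Set (E n), IsOpen U ∧ S ⊆ U ∧ ∀ x ∈ U ∩ D, ∀ w : Fin m → E n, G.Ortho x w →
        2 * Λ ≤ (-∑ i, G.hess W₁ x (w i) (w i)) / W₁ x +
          (-∑ i, G.hess W₂ x (w i) (w i)) / W₂ x := by
  obtain ⟨F, hF, hFneg, hF0, hFc⟩ := hD
  obtain ⟨c, hc, hlow⟩ := exists_lower G m F hF (closure D) hDc hFc
  obtain ⟨B, C, hB, hC, hker⟩ := kernel_estimate hm G (closure D) hDc
  have hden : 0 < 2 * |Λ| + C := by
    have := abs_nonneg Λ
    linarith
  set η : ℝ := c / (2 * |Λ| + C) with hη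
  have hη0 : 0 < η := div_pos hc hden
  have hT : IsCompact (S ∩ {y | F y ≤ -η}) :=
    (hDc.of_isClosed_subset hSc hSD).inter_right (isClosed_le hF.continuous continuous_const)
  have hTD : S ∩ {y | F y ≤ -η} ⊆ S ∩ D := by
    rintro y ⟨hyS, hyF⟩
    refine ⟨hyS, ?_⟩
    by_contra hyD
    have h1 : y ∈ frontier D := by
      rw [frontier, hDo.interior_eq]
      exact ⟨hSD hyS, hyD⟩
    have h2 : F y ≤ -η := hyF
    rw [hF0 y h1] at h2
    linarith
  have hT0 : μH[(m : ℝ)] (S ∩ {y | F y ≤ -η}) = 0 := measure_mono_null hTD hS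
  obtain ⟨W, hW, hWpos, hWC, U, hU, hTU, hWU⟩ := pot_second hm G (closure D) hDc B C |Λ| hB hC
    (abs_nonneg Λ) hker _ hT (fun y hy => hSD hy.1) hT0
  refine ⟨fun y => -F y, W, hF.neg, hW, fun x hx => ⟨by linarith [hFneg x hx],
    hWpos x (subset_closure hx)⟩, U ∪ {y | -η < F y},
    hU.union (isOpen_lt continuous_const hF.continuous), ?_, ?_⟩
  · intro y hy
    rcases le_or_gt (F y) (-η) with h | h
    · exact Or.inl (hTU ⟨hy, h⟩)
    · exact Or.inr h
  · rintro x ⟨hxU, hxD⟩ w hw
    have hxK := subset_closure hxD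
    have h1 : -∑ i, G.hess (fun y => -F y) x (w i) (w i) = ∑ i, G.hess F x (w i) (w i) := by
      simp only [hess_neg, Finset.sum_neg_distrib, neg_neg]
    rw [h1]
    show 2 * Λ ≤ (∑ i, G.hess F x (w i) (w i)) / -F x + (-∑ i, G.hess W x (w i) (w i)) / W x
    have h2 := hlow x hxK w hw
    have h3 : 0 < -F x := by linarith [hFneg x hxD]
    have h4 := hWpos x hxK
    have h5 := le_abs_self Λ
    rcases hxU with hxU | hxU
    · have h6 := hWU x ⟨hxU, hxK⟩ w hw
      have h7 : 2 * |Λ| ≤ (-∑ i, G.hess W x (w i) (w i)) / W x := by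
        rw [le_div_iff₀ h4]
        exact h6
      have h8 : 0 ≤ (∑ i, G.hess F x (w i) (w i)) / -F x := div_nonneg (hc.le.trans h2) h3.le
      linarith
    · have h6 : -η < F x := hxU
      have h7 : -C ≤ (-∑ i, G.hess W x (w i) (w i)) / W x := by
        rw [le_div_iff₀ h4]
        exact hWC x hxK w hw
      have h8 : 2 * |Λ| + C ≤ (∑ i, G.hess F x (w i) (w i)) / -F x := by
        rw [le_div_iff₀ h3]
        have h9 : (2 * |Λ| + C) * η = c := by
          rw [hη]
          field_simp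
        calc (2 * |Λ| + C) * -F x ≤ (2 * |Λ| + C) * η :=
              mul_le_mul_of_nonneg_left (by linarith) hden.le
          _ = c := h9
          _ ≤ _ := h2
      linarith

end Pool.Agent.H793.MS
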