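import Pool.Agent.H793.MS.Loc
import Pool.Agent.H793.MS.Reg

set_option autoImplicit false

open scoped ContDiff Topology ENNReal Manifold
open MeasureTheory Set Filter

namespace Pool.Agent.H793.MS

variable {n m : ℕ}

section
variable {M : Type*} [TopologicalSpace M] [ChartedSpace (E m) M] [IsManifold (𝓡 m) ∞ M]
  [MeasurableSpace M] [BorelSpace M]

omit [MeasurableSpace M] [BorelSpace M] in
theorem Vol_dens (G : Metric n) (φ : M → E n) (hφ : IsMinimalImmersion (m := m) G φ) (x₀ : M) :
    ContinuousOn (dens G (loc (m := m) φ x₀)) (chartAt (E m) x₀).target :=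
  (contDiffOn_dens G (loc (m := m) φ x₀) (chartAt (E m) x₀).target (isOpen_target x₀)
    (contDiffOn_loc (⊤ : ℕ∞) φ hφ.smooth x₀) (hφ.immersion x₀)).continuousOn

/-- Integration over the domain of a chart. -/
theorem integral_chart (G : Metric n) (φ : M → E n) (hφ : IsMinimalImmersion (m := m) G φ)
    (μ : Measure M) (hμ : IsVolume (m := m) G φ μ) (x₀ : M) (f : M → ℝ) (hf : Measurable f) :
    ∫ p in (chartAt (E m) x₀).source, f p ∂μ =
      ∫ u in (chartAt (E m) x₀).target, dens G (loc (m := m) φ x₀) u * loc (m := m) f x₀ u := by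
  classical
  have hTo : IsOpen (chartAt (E m) x₀).target := isOpen_target x₀
  have hT : MeasurableSet (chartAt (E m) x₀).target := hTo.measurableSet
  have hS : MeasurableSet (chartAt (E m) x₀).source := (chartAt (E m) x₀).open_source.measurableSet
  have hD := Vol_dens G φ hφ x₀
  obtain ⟨g, hg⟩ : ∃ g : E m → M,
      g = (chartAt (E m) x₀).target.piecewise (chartAt (E m) x₀).symm (fun _ => x₀) := ⟨_, rfl⟩
  have hgm : Measurable g := by
    rw [hg]
    exact (chartAt (E m) x₀).continuousOn_symm.measurable_piecewise continuousOn_const hT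
  have hgT : ∀ u ∈ (chartAt (E m) x₀).target, g u = (chartAt (E m) x₀).symm u := by
    intro u hu
    rw [hg]
    exact Set.piecewise_eq_of_mem _ _ _ hu
  obtain ⟨D, hDd⟩ : ∃ D : E m → ℝ, D = dens G (loc (m := m) φ x₀) := ⟨_, rfl⟩
  rw [← hDd] at hD
  have hDm : AEMeasurable (fun u => ENNReal.ofReal (D u))
      ((volume : Measure (E m)).restrict (chartAt (E m) x₀).target) :=
    (hD.aemeasurable hT).ennreal_ofReal
  have hmap : μ.restrict (chartAt (E m) x₀).source =
      Measure.map g (((volume : Measure (E m)).restrict (chartAt (E m) x₀).target).withDensity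
        fun u => ENNReal.ofReal (D u)) := by
    refine Measure.ext fun A hA => ?_
    rw [Measure.map_apply hgm hA, withDensity_apply _ (hgm hA), Measure.restrict_apply hA,
      Measure.restrict_restrict (hgm hA), hμ x₀ _ inter_subset_right (hA.inter hS), ← hDd]
    have h1 : (chartAt (E m) x₀) '' (A ∩ (chartAt (E m) x₀).source) =
        g ⁻¹' A ∩ (chartAt (E m) x₀).target := by
      rw [inter_comm A, (chartAt (E m) x₀).image_source_inter_eq', inter_comm]
      ext u
      constructor
      · rintro ⟨h2, h3⟩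
        refine ⟨?_, h3⟩
        rw [mem_preimage, hgT u h3]
        exact h2
      · rintro ⟨h2, h3⟩
        refine ⟨?_, h3⟩
        rw [mem_preimage, hgT u h3] at h2
        exact h2
    rw [h1]
  rw [hmap, integral_map hgm.aemeasurable hf.aestronglyMeasurable,
    integral_withDensity_eq_integral_toReal_smul₀ hDm (Eventually.of_forall fun u =>
      ENNReal.ofReal_lt_top)]
  refine setIntegral_congr_fun hT fun u hu => ?_
  have h2 : 0 ≤ D u := by
    rw [hDd]
    exact Real.sqrt_nonneg _
  show (ENNReal.ofReal (D u)).toReal • f (g u) = dens G (loc (m := m) φ x₀) u * loc (m := m) f x₀ u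
  rw [ENNReal.toReal_ofReal h2, hgT u hu, ← hDd, smul_eq_mul]
  rfl

/-- The volume of compact sets is finite. -/
theorem isFiniteMeasureOnCompacts [T2Space M] (G : Metric n) (φ : M → E n)
    (hφ : IsMinimalImmersion (m := m) G φ) (μ : Measure M) (hμ : IsVolume (m := m) G φ μ) :
    IsFiniteMeasureOnCompacts μ := by
  have hloc : IsLocallyFiniteMeasure μ := by
    refine ⟨fun x => ?_⟩
    have hTo : IsOpen (chartAt (E m) x).target := isOpen_target x
    have hD := Vol_dens G φ hφ x
    have hx : chartAt (E m) x x ∈ (chartAt (E m) x).target := mem_chart_target _ x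
    obtain ⟨ε, hε, hεT⟩ := Metric.nhds_basis_closedBall.mem_iff.1 (hTo.mem_nhds hx)
    obtain ⟨C, hC⟩ := (isCompact_closedBall (chartAt (E m) x x) ε).exists_bound_of_continuousOn
      (hD.mono hεT)
    have hU : IsOpen ((chartAt (E m) x).source ∩
        chartAt (E m) x ⁻¹' Metric.ball (chartAt (E m) x x) ε) :=
      (chartAt (E m) x).isOpen_inter_preimage Metric.isOpen_ball
    refine ⟨(chartAt (E m) x).source ∩ chartAt (E m) x ⁻¹' Metric.ball (chartAt (E m) x x) ε,
      hU.mem_nhds ⟨mem_chart_source _ x, Metric.mem_ball_self hε⟩, ?_⟩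
    rw [hμ x _ inter_subset_left hU.measurableSet]
    have hsub : (chartAt (E m) x) '' ((chartAt (E m) x).source ∩
        chartAt (E m) x ⁻¹' Metric.ball (chartAt (E m) x x) ε) ⊆
          Metric.ball (chartAt (E m) x x) ε := by
      rintro _ ⟨p, hp, rfl⟩
      exact hp.2
    calc ∫⁻ u in (chartAt (E m) x) '' ((chartAt (E m) x).source ∩
            chartAt (E m) x ⁻¹' Metric.ball (chartAt (E m) x x) ε),
          ENNReal.ofReal (dens G (loc (m := m) φ x) u)
        ≤ ∫⁻ u in Metric.ball (chartAt (E m) x x) ε,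
            ENNReal.ofReal (dens G (loc (m := m) φ x) u) := lintegral_mono_set hsub
      _ ≤ ∫⁻ _ in Metric.ball (chartAt (E m) x x) ε, ENNReal.ofReal C := by
          refine setLIntegral_mono' Metric.isOpen_ball.measurableSet fun u hu => ?_
          exact ENNReal.ofReal_le_ofReal
            ((le_abs_self _).trans (hC u (Metric.ball_subset_closedBall hu)))
      _ = ENNReal.ofReal C * volume (Metric.ball (chartAt (E m) x x) ε) := by
          rw [setLIntegral_const]
      _ < ⊤ := ENNReal.mul_lt_top ENNReal.ofReal_lt_top measure_ball_lt_top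
  infer_instance

/-- Nonempty open sets have positive volume. -/
theorem isOpenPosMeasure (G : Metric n) (φ : M → E n)
    (hφ : IsMinimalImmersion (m := m) G φ) (μ : Measure M) (hμ : IsVolume (m := m) G φ μ) :
    μ.IsOpenPosMeasure := by
  refine ⟨fun U hU hne => ?_⟩
  obtain ⟨x, hxU⟩ := hne
  have hTo : IsOpen (chartAt (E m) x).target := isOpen_target x
  have hD := Vol_dens G φ hφ x
  have hx : chartAt (E m) x x ∈ (chartAt (E m) x).target := mem_chart_target _ x
  have hpos : 0 < dens G (loc (m := m) φ x) (chartAt (E m) x x) :=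
    dens_pos G _ _ (hφ.immersion x _ hx)
  have hU' : IsOpen ((chartAt (E m) x).source ∩ U) := (chartAt (E m) x).open_source.inter hU
  have hV : IsOpen ((chartAt (E m) x) '' ((chartAt (E m) x).source ∩ U)) :=
    (chartAt (E m) x).isOpen_image_of_subset_source hU' inter_subset_left
  have hxV : chartAt (E m) x x ∈ (chartAt (E m) x) '' ((chartAt (E m) x).source ∩ U) :=
    ⟨x, ⟨mem_chart_source _ x, hxU⟩, rfl⟩
  have hev : ∀ᶠ u in 𝓝 (chartAt (E m) x x),
      dens G (loc (m := m) φ x) (chartAt (E m) x x) / 2 < dens G (loc (m := m) φ x) u :=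
    (hD.continuousAt (hTo.mem_nhds hx)).eventually_const_lt (by linarith)
  obtain ⟨ε, hε, hεs⟩ := Metric.eventually_nhds_iff_ball.1 (hev.and (hV.mem_nhds hxV))
  have h1 : ENNReal.ofReal (dens G (loc (m := m) φ x) (chartAt (E m) x x) / 2) *
      volume (Metric.ball (chartAt (E m) x x) ε) ≤ μ U := by
    calc ENNReal.ofReal (dens G (loc (m := m) φ x) (chartAt (E m) x x) / 2) *
          volume (Metric.ball (chartAt (E m) x x) ε)
        = ∫⁻ _ in Metric.ball (chartAt (E m) x x) ε,
            ENNReal.ofReal (dens G (loc (m := m) φ x) (chartAt (E m) x x) / 2) := by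
          rw [setLIntegral_const]
      _ ≤ ∫⁻ u in Metric.ball (chartAt (E m) x x) ε,
            ENNReal.ofReal (dens G (loc (m := m) φ x) u) := by
          refine setLIntegral_mono' Metric.isOpen_ball.measurableSet fun u hu => ?_
          exact ENNReal.ofReal_le_ofReal (hεs u hu).1.le
      _ ≤ ∫⁻ u in (chartAt (E m) x) '' ((chartAt (E m) x).source ∩ U),
            ENNReal.ofReal (dens G (loc (m := m) φ x) u) :=
          lintegral_mono_set fun u hu => (hεs u hu).2
      _ = μ ((chartAt (E m) x).source ∩ U) := (hμ x _ inter_subset_left hU'.measurableSet).symm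
      _ ≤ μ U := measure_mono inter_subset_right
  intro h0
  rw [h0] at h1
  have h2 : 0 < ENNReal.ofReal (dens G (loc (m := m) φ x) (chartAt (E m) x x) / 2) *
      volume (Metric.ball (chartAt (E m) x x) ε) :=
    ENNReal.mul_pos (ENNReal.ofReal_pos.2 (by linarith)).ne' (Metric.measure_ball_pos _ _ hε).ne'
  exact absurd h1 (not_le.2 h2)

end

end Pool.Agent.H793.MS
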