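import Pool.Agent.H793.MS.Grid
import Pool.Agent.H793.MS.Vol
import Pool.Agent.H793.MS.Cont
import Pool.Agent.H793.MS.Fr2

set_option autoImplicit false

open scoped ContDiff Topology ENNReal Manifold
open MeasureTheory Set Filter

namespace Pool.Agent.H793.MS

variable {n m : ℕ}

/-- the norm of a functional is bounded by its values on the basis -/
theorem norm_sq_le_sum_bas (L : E m →L[ℝ] ℝ) : ‖L‖ ^ 2 ≤ ∑ i, (L (bas i)) ^ 2 := by
  have h0 : 0 ≤ ∑ i, (L (bas i)) ^ 2 := Finset.sum_nonneg fun i _ => sq_nonneg _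
  have h1 : ‖L‖ ≤ Real.sqrt (∑ i, (L (bas i)) ^ 2) := by
    refine L.opNorm_le_bound (Real.sqrt_nonneg _) fun x => ?_
    have hx : L x = ∑ i, x i * L (bas i) := by
      have e1 : x = ∑ i, x i • (bas i : E m) := by
        have h := (EuclideanSpace.basisFun (Fin m) ℝ).sum_repr x
        simp only [EuclideanSpace.basisFun_repr, EuclideanSpace.basisFun_apply] at h
        exact h.symm
      conv_lhs => rw [e1]
      rw [map_sum]
      simp
    have h2 := Finset.sum_mul_sq_le_sq_mul_sq Finset.univ (fun i => x i) (fun i => L (bas i))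
    rw [hx, Real.norm_eq_abs, EuclideanSpace.norm_eq, ← Real.sqrt_mul h0]
    apply Real.abs_le_sqrt
    simp only [Real.norm_eq_abs, sq_abs]
    linarith
  calc ‖L‖ ^ 2 ≤ (Real.sqrt (∑ i, (L (bas i)) ^ 2)) ^ 2 := by gcongr
    _ = _ := Real.sq_sqrt h0

/-- comparison with the quadratic form of the inverse matrix -/
theorem quad_inv_bound {A : Matrix (Fin m) (Fin m) ℝ} (hA : A.PosDef) (p : Fin m → ℝ) :
    ∑ i, p i ^ 2 ≤ (∑ i, ∑ j, |A i j| + 1) * (p ⬝ᵥ (A⁻¹.mulVec p)) := by
  have hS0 : 0 ≤ ∑ i, ∑ j, |A i j| :=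
    Finset.sum_nonneg fun i _ => Finset.sum_nonneg fun j _ => abs_nonneg _
  have hpp : p ⬝ᵥ p = ∑ i, p i ^ 2 := by
    unfold dotProduct
    exact Finset.sum_congr rfl fun i _ => (sq (p i)).symm
  have hp0 : 0 ≤ p ⬝ᵥ p := by
    rw [hpp]
    exact Finset.sum_nonneg fun i _ => sq_nonneg _
  have hAp : p ⬝ᵥ A.mulVec p ≤ (∑ i, ∑ j, |A i j|) * (p ⬝ᵥ p) := by
    have h1 : p ⬝ᵥ A.mulVec p = ∑ i, ∑ j, p i * (A i j * p j) := by
      unfold dotProduct Matrix.mulVec dotProduct
      exact Finset.sum_congr rfl fun i _ => Finset.mul_sum _ _ _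
    rw [h1, Finset.sum_mul]
    refine Finset.sum_le_sum fun i _ => ?_
    rw [Finset.sum_mul]
    refine Finset.sum_le_sum fun j _ => ?_
    have hi : p i ^ 2 ≤ p ⬝ᵥ p := by
      rw [hpp]
      exact Finset.single_le_sum (f := fun i => p i ^ 2) (fun i _ => sq_nonneg _) (Finset.mem_univ i)
    have hj : p j ^ 2 ≤ p ⬝ᵥ p := by
      rw [hpp]
      exact Finset.single_le_sum (f := fun i => p i ^ 2) (fun i _ => sq_nonneg _) (Finset.mem_univ j)
    have h2 : |p i * p j| ≤ p ⬝ᵥ p := by
      rw [abs_mul]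
      nlinarith [sq_nonneg (|p i| - |p j|), sq_abs (p i), sq_abs (p j)]
    calc p i * (A i j * p j) = A i j * (p i * p j) := by ring
      _ ≤ |A i j * (p i * p j)| := le_abs_self _
      _ = |A i j| * |p i * p j| := abs_mul _ _
      _ ≤ |A i j| * (p ⬝ᵥ p) := by gcongr
  generalize hq : A⁻¹.mulVec p = q
  have hu : IsUnit A.det := hA.det_pos.ne'.isUnit
  have hAq : A.mulVec q = p := by
    rw [← hq, Matrix.mulVec_mulVec, Matrix.mul_nonsing_inv _ hu, Matrix.one_mulVec]
  have hsym : q ⬝ᵥ A.mulVec p = p ⬝ᵥ p := by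
    have hT : A.transpose = A := by
      have := hA.isHermitian
      rw [Matrix.IsHermitian, Matrix.conjTranspose_eq_transpose_of_trivial] at this
      exact this
    rw [Matrix.dotProduct_mulVec, ← hT, Matrix.vecMul_transpose, hAq]
  set S : ℝ := ∑ i, ∑ j, |A i j| + 1 with hS
  have hSpos : 0 < S := by linarith
  have hpsd : 0 ≤ (q - (1 / S) • p) ⬝ᵥ A.mulVec (q - (1 / S) • p) := by
    have := hA.posSemidef.dotProduct_mulVec_nonneg (q - (1 / S) • p)
    simpa using this
  have hexp : (q - (1 / S) • p) ⬝ᵥ A.mulVec (q - (1 / S) • p) =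
      p ⬝ᵥ q - 2 * (1 / S) * (p ⬝ᵥ p) + (1 / S) ^ 2 * (p ⬝ᵥ A.mulVec p) := by
    rw [Matrix.mulVec_sub, Matrix.mulVec_smul, hAq, sub_dotProduct, dotProduct_sub, dotProduct_sub,
      smul_dotProduct, smul_dotProduct, dotProduct_smul, dotProduct_smul, hsym, dotProduct_comm q p]
    simp only [smul_eq_mul]
    ring
  rw [hexp] at hpsd
  have h3 : (1 / S) ^ 2 * (p ⬝ᵥ A.mulVec p) ≤ (1 / S) * (p ⬝ᵥ p) := by
    have h4 : p ⬝ᵥ A.mulVec p ≤ S * (p ⬝ᵥ p) := by nlinarith
    calc (1 / S) ^ 2 * (p ⬝ᵥ A.mulVec p) ≤ (1 / S) ^ 2 * (S * (p ⬝ᵥ p)) := by gcongr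
      _ = (1 / S) * (p ⬝ᵥ p) := by field_simp
  have h5 : (1 / S) * (p ⬝ᵥ p) ≤ p ⬝ᵥ q := by linarith
  rw [← hpp]
  calc p ⬝ᵥ p = S * ((1 / S) * (p ⬝ᵥ p)) := by field_simp
    _ ≤ S * (p ⬝ᵥ q) := by gcongr

section
variable {M : Type*} [TopologicalSpace M] [ChartedSpace (E m) M] [IsManifold (𝓡 m) ∞ M]
  [MeasurableSpace M] [BorelSpace M]

/-- In coordinates, the gradient of the induced metric is comparable with the Euclidean one on
compact sets. -/
theorem ginner_bounds (G : Metric n) (ψ : E m → E n) (O : Set (E m)) (hO : IsOpen O)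
    (hψ : ContDiffOn ℝ ∞ ψ O) (himm : ∀ u ∈ O, Function.Injective (fderiv ℝ ψ u))
    (K : Set (E m)) (hK : IsCompact K) (hKO : K ⊆ O) :
    ∃ C : ℝ, 1 ≤ C ∧ ∀ u ∈ K, dens G ψ u ≤ C ∧ 1 ≤ C * dens G ψ u ∧
      ∀ a : E m → ℝ, ‖fderiv ℝ a u‖ ^ 2 ≤ C * ginner G ψ a a u := by
  have hd : ContinuousOn (dens G ψ) K := (contDiffOn_dens G ψ O hO hψ himm).continuousOn.mono hKO
  have hdi : ContinuousOn (fun u => (dens G ψ u)⁻¹) K :=
    hd.inv₀ fun u hu => (dens_pos G ψ u (himm u (hKO hu))).ne'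
  have hs : ContinuousOn (fun u => ∑ i, ∑ j, |gram G ψ u i j| + 1) K := by
    refine ContinuousOn.add (continuousOn_finset_sum _ fun i _ => continuousOn_finset_sum _
      fun j _ => ?_) continuousOn_const
    exact ((contDiffOn_gram G ψ O hO hψ i j).continuousOn.mono hKO).abs
  obtain ⟨C1, h1⟩ := hK.exists_bound_of_continuousOn hd
  obtain ⟨C2, h2⟩ := hK.exists_bound_of_continuousOn hdi
  obtain ⟨C3, h3⟩ := hK.exists_bound_of_continuousOn hs
  refine ⟨max (max C1 C2) (max C3 1), le_max_of_le_right (le_max_right _ _), fun u hu => ?_⟩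
  have hpos := dens_pos G ψ u (himm u (hKO hu))
  have a1 := h1 u hu
  have a2 := h2 u hu
  have a3 := h3 u hu
  have b1 : C1 ≤ max (max C1 C2) (max C3 1) := le_max_of_le_left (le_max_left _ _)
  have b2 : C2 ≤ max (max C1 C2) (max C3 1) := le_max_of_le_left (le_max_right _ _)
  have b3 : C3 ≤ max (max C1 C2) (max C3 1) := le_max_of_le_right (le_max_left _ _)
  generalize max (max C1 C2) (max C3 1) = C at *
  rw [Real.norm_eq_abs] at a1 a2 a3
  refine ⟨(le_abs_self _).trans (a1.trans b1), ?_, fun a => ?_⟩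
  · have c1 : (dens G ψ u)⁻¹ ≤ C := (le_abs_self _).trans (a2.trans b2)
    calc (1 : ℝ) = (dens G ψ u)⁻¹ * dens G ψ u := (inv_mul_cancel₀ hpos.ne').symm
      _ ≤ C * dens G ψ u := by gcongr
  · have c1 : ∑ i, ∑ j, |gram G ψ u i j| + 1 ≤ C := (le_abs_self _).trans (a3.trans b3)
    have c2 := norm_sq_le_sum_bas (fderiv ℝ a u)
    have c3 := quad_inv_bound (gram_posDef G ψ u (himm u (hKO hu))) (pd a u)
    have c4 := ginner_nonneg G ψ u (himm u (hKO hu)) a
    calc ‖fderiv ℝ a u‖ ^ 2 ≤ ∑ i, (fderiv ℝ a u (bas i)) ^ 2 := c2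
      _ ≤ (∑ i, ∑ j, |gram G ψ u i j| + 1) * ginner G ψ a a u := c3
      _ ≤ C * ginner G ψ a a u := by gcongr

/-- integration over a subset of the domain of a chart -/
theorem setIntegral_chart (G : Metric n) (φ : M → E n) (hφ : IsMinimalImmersion (m := m) G φ)
    (μ : Measure M) (hμ : IsVolume (m := m) G φ μ) (p : M) (A : Set (E m))
    (hAT : A ⊆ (chartAt (E m) p).target) (hA : MeasurableSet A)
    (hB : MeasurableSet ((chartAt (E m) p).source ∩ (chartAt (E m) p) ⁻¹' A))
    (f : M → ℝ) (hf : Measurable f) :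
    ∫ q in (chartAt (E m) p).source ∩ (chartAt (E m) p) ⁻¹' A, f q ∂μ =
      ∫ u in A, dens G (loc (m := m) φ p) u * loc (m := m) f p u := by
  have h1 := integral_chart G φ hφ μ hμ p
    (((chartAt (E m) p).source ∩ (chartAt (E m) p) ⁻¹' A).indicator f) (hf.indicator hB)
  rw [setIntegral_indicator hB, inter_eq_self_of_subset_right inter_subset_left] at h1
  rw [h1]
  have h3 : EqOn (fun u => dens G (loc (m := m) φ p) u *
      loc (m := m) (((chartAt (E m) p).source ∩ (chartAt (E m) p) ⁻¹' A).indicator f) p u)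
      (A.indicator fun u => dens G (loc (m := m) φ p) u * loc (m := m) f p u)
      (chartAt (E m) p).target := by
    intro u hu
    have hs : (chartAt (E m) p).symm u ∈ (chartAt (E m) p).source := (chartAt (E m) p).map_target hu
    have hr : chartAt (E m) p ((chartAt (E m) p).symm u) = u := (chartAt (E m) p).right_inv hu
    by_cases hA' : u ∈ A
    · have h4 : (chartAt (E m) p).symm u ∈ (chartAt (E m) p).source ∩ (chartAt (E m) p) ⁻¹' A :=
        ⟨hs, by rw [mem_preimage, hr]; exact hA'⟩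
      simp only [loc]
      rw [indicator_of_mem h4, indicator_of_mem hA']
    · have h4 : (chartAt (E m) p).symm u ∉ (chartAt (E m) p).source ∩ (chartAt (E m) p) ⁻¹' A := by
        intro h
        have h5 := h.2
        rw [mem_preimage, hr] at h5
        exact hA' h5
      simp only [loc]
      rw [indicator_of_notMem h4, indicator_of_notMem hA', mul_zero]
  rw [setIntegral_congr_fun (isOpen_target p).measurableSet h3, setIntegral_indicator hA,
    inter_eq_self_of_subset_right hAT]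

/-- The local form of Rellich's lemma. -/
theorem rellich_local [T2Space M] (G : Metric n) (φ : M → E n)
    (hφ : IsMinimalImmersion (m := m) G φ)
    (μ : Measure M) (hμ : IsVolume (m := m) G φ μ) (p : M) :
    ∃ U : Set M, IsOpen U ∧ p ∈ U ∧ ∀ ε : ℝ, 0 < ε → ∃ N : ℕ, ∀ V : Submodule ℝ (M → ℝ),
      (∀ f ∈ V, ContMDiff (𝓡 m) 𝓘(ℝ, ℝ) ∞ f ∧ HasCompactSupport f) →
      ∃ L : V →ₗ[ℝ] (Fin N → ℝ), ∀ f : V, L f = 0 →
        ∫ p in U, (f : M → ℝ) p ^ 2 ∂μ ≤ ε * ∫ p, gradSq (m := m) G φ f p ∂μ := by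
  have hT : IsOpen (chartAt (E m) p).target := isOpen_target (m := m) p
  have hx : chartAt (E m) p p ∈ (chartAt (E m) p).target := mem_chart_target (E m) p
  obtain ⟨R0, hR0, hball⟩ := Metric.isOpen_iff.1 hT (chartAt (E m) p p) hx
  have hcl : Metric.closedBall (chartAt (E m) p p) (R0 / 2) ⊆ (chartAt (E m) p).target :=
    (Metric.closedBall_subset_ball (by linarith)).trans hball
  have hbl : Metric.ball (chartAt (E m) p p) (R0 / 2) ⊆ (chartAt (E m) p).target :=
    Metric.ball_subset_closedBall.trans hcl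
  have hKc : IsCompact (Metric.closedBall (chartAt (E m) p p) (R0 / 2)) := isCompact_closedBall _ _
  have hψ : ContDiffOn ℝ ∞ (loc (m := m) φ p) (chartAt (E m) p).target :=
    contDiffOn_loc (m := m) ⊤ φ hφ.smooth p
  have hUo : IsOpen ((chartAt (E m) p).source ∩
      (chartAt (E m) p) ⁻¹' Metric.ball (chartAt (E m) p p) (R0 / 2)) :=
    (chartAt (E m) p).isOpen_inter_preimage Metric.isOpen_ball
  have hBm : MeasurableSet ((chartAt (E m) p).source ∩
      (chartAt (E m) p) ⁻¹' Metric.closedBall (chartAt (E m) p p) (R0 / 2)) := by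
    have h1 : IsOpen ((chartAt (E m) p).source ∩
        (chartAt (E m) p) ⁻¹' (Metric.closedBall (chartAt (E m) p p) (R0 / 2))ᶜ) :=
      (chartAt (E m) p).isOpen_inter_preimage Metric.isClosed_closedBall.isOpen_compl
    have h2 : (chartAt (E m) p).source ∩
        (chartAt (E m) p) ⁻¹' Metric.closedBall (chartAt (E m) p p) (R0 / 2) =
        (chartAt (E m) p).source \ ((chartAt (E m) p).source ∩
        (chartAt (E m) p) ⁻¹' (Metric.closedBall (chartAt (E m) p p) (R0 / 2))ᶜ) := by
      ext q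
      simp only [mem_inter_iff, mem_preimage, mem_diff, mem_compl_iff]
      tauto
    rw [h2]
    exact (chartAt (E m) p).open_source.measurableSet.diff h1.measurableSet
  refine ⟨_, hUo, ⟨mem_chart_source (E m) p, Metric.mem_ball_self (by linarith)⟩, fun ε hε => ?_⟩
  obtain ⟨C, hC1, hC⟩ := ginner_bounds G (loc (m := m) φ p) _ hT hψ (hφ.immersion p) _ hKc hcl
  have hC0 : 0 < C := by linarith
  obtain ⟨N, Q, hQ, hgrid⟩ := grid _ hT (chartAt (E m) p p) (R0 / 2) hcl (ε / C ^ 3) (by positivity)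
  refine ⟨N, fun V hV => ?_⟩
  have hloc : ∀ f ∈ V, ContDiffOn ℝ ∞ (loc (m := m) f p) (chartAt (E m) p).target := fun f hf =>
    contDiffOn_loc (m := m) ⊤ f (hV f hf).1 p
  have hint : ∀ f ∈ V, ∀ i, IntegrableOn (loc (m := m) f p) (Q i) := fun f hf i =>
    (((hloc f hf).continuousOn.mono hcl).integrableOn_compact hKc).mono_set (hQ i).2
  refine ⟨{ toFun := fun f i => ∫ u in Q i, loc (m := m) (f : M → ℝ) p u
            map_add' := fun f g => ?_
            map_smul' := fun c f => ?_ }, fun f hf => ?_⟩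
  · funext i
    exact integral_add (hint f f.2 i) (hint g g.2 i)
  · funext i
    exact integral_const_mul c _
  have hf0 : ∀ i, ∫ u in Q i, loc (m := m) (f : M → ℝ) p u = 0 := fun i => congrFun hf i
  obtain ⟨hfs, hfc⟩ := hV f f.2
  have hfl := hloc f f.2
  have hf1 : ContMDiff (𝓡 m) 𝓘(ℝ, ℝ) 1 (f : M → ℝ) := hfs.of_le (by norm_cast)
  have hgr := hgrid (loc (m := m) (f : M → ℝ) p) (hfl.of_le (by norm_cast)) hf0
  haveI := isFiniteMeasureOnCompacts (m := m) G φ hφ μ hμ
  have hgc : Continuous (gradSq (m := m) G φ (f : M → ℝ)) := continuous_gradInner G φ hφ f f hf1 hf1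
  have hgi : Integrable (gradSq (m := m) G φ (f : M → ℝ)) μ := by
    refine hgc.integrable_of_hasCompactSupport (hfc.mono' fun q hq => ?_)
    by_contra hq'
    exact hq (gradInner_eq_zero G φ f f q hq')
  have hg0 : ∀ q, 0 ≤ gradSq (m := m) G φ (f : M → ℝ) q := fun q =>
    ginner_nonneg G _ _ (hφ.immersion q _ (mem_chart_target (E m) q)) _
  have hgl : ∀ u ∈ (chartAt (E m) p).target, loc (m := m) (gradSq (m := m) G φ (f : M → ℝ)) p u =
      ginner G (loc (m := m) φ p) (loc (m := m) (f : M → ℝ) p) (loc (m := m) (f : M → ℝ) p) u := by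
    intro u hu
    have h1 := gradInner_eq G φ hφ.smooth f f hf1 hf1 p ((chartAt (E m) p).symm u)
      ((chartAt (E m) p).map_target hu)
    rw [(chartAt (E m) p).right_inv hu] at h1
    exact h1
  have hglc : ContinuousOn (loc (m := m) (gradSq (m := m) G φ (f : M → ℝ)) p)
      (chartAt (E m) p).target := hgc.comp_continuousOn (chartAt (E m) p).continuousOn_symm
  have hdc : ContinuousOn (dens G (loc (m := m) φ p)) (chartAt (E m) p).target :=
    (contDiffOn_dens G _ _ hT hψ (hφ.immersion p)).continuousOn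
  have hflc := hfl.continuousOn
  have hfd : ContinuousOn (fun u => ‖fderiv ℝ (loc (m := m) (f : M → ℝ) p) u‖ ^ 2)
      (chartAt (E m) p).target :=
    ((hfl.continuousOn_fderiv_of_isOpen hT (by norm_cast)).norm).pow 2
  calc ∫ q in (chartAt (E m) p).source ∩
        (chartAt (E m) p) ⁻¹' Metric.ball (chartAt (E m) p p) (R0 / 2), (f : M → ℝ) q ^ 2 ∂μ
      = ∫ u in Metric.ball (chartAt (E m) p p) (R0 / 2),
          dens G (loc (m := m) φ p) u * loc (m := m) (f : M → ℝ) p u ^ 2 :=
        setIntegral_chart G φ hφ μ hμ p _ hbl Metric.isOpen_ball.measurableSet hUo.measurableSet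
          (fun q => (f : M → ℝ) q ^ 2) (hfs.continuous.measurable.pow_const 2)
    _ ≤ ∫ u in Metric.closedBall (chartAt (E m) p p) (R0 / 2),
          dens G (loc (m := m) φ p) u * loc (m := m) (f : M → ℝ) p u ^ 2 := by
        refine setIntegral_mono_set ?_ ?_ Metric.ball_subset_closedBall.eventuallyLE
        · exact ((hdc.mul (hflc.pow 2)).mono hcl).integrableOn_compact hKc
        · filter_upwards [ae_restrict_mem hKc.measurableSet] with u hu
          exact mul_nonneg (dens_pos G _ u (hφ.immersion p u (hcl hu))).le (sq_nonneg _)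
    _ ≤ ∫ u in Metric.closedBall (chartAt (E m) p p) (R0 / 2),
          C * loc (m := m) (f : M → ℝ) p u ^ 2 := by
        refine setIntegral_mono_on ?_ ?_ hKc.measurableSet fun u hu => ?_
        · exact ((hdc.mul (hflc.pow 2)).mono hcl).integrableOn_compact hKc
        · exact ((continuousOn_const.mul (hflc.pow 2)).mono hcl).integrableOn_compact hKc
        · exact mul_le_mul_of_nonneg_right (hC u hu).1 (sq_nonneg _)
    _ = C * ∫ u in Metric.closedBall (chartAt (E m) p p) (R0 / 2),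
          loc (m := m) (f : M → ℝ) p u ^ 2 := integral_const_mul _ _
    _ ≤ C * (ε / C ^ 3 * ∫ u in Metric.closedBall (chartAt (E m) p p) (R0 / 2),
          ‖fderiv ℝ (loc (m := m) (f : M → ℝ) p) u‖ ^ 2) := mul_le_mul_of_nonneg_left hgr hC0.le
    _ ≤ C * (ε / C ^ 3 * ∫ u in Metric.closedBall (chartAt (E m) p p) (R0 / 2),
          C ^ 2 * (dens G (loc (m := m) φ p) u *
            loc (m := m) (gradSq (m := m) G φ (f : M → ℝ)) p u)) := by
        refine mul_le_mul_of_nonneg_left (mul_le_mul_of_nonneg_left ?_ (by positivity)) hC0.le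
        refine setIntegral_mono_on ?_ ?_ hKc.measurableSet fun u hu => ?_
        · exact (hfd.mono hcl).integrableOn_compact hKc
        · exact ((continuousOn_const.mul (hdc.mul hglc)).mono hcl).integrableOn_compact hKc
        · rw [hgl u (hcl hu)]
          obtain ⟨_, h2, h3⟩ := hC u hu
          have h4 := ginner_nonneg G (loc (m := m) φ p) u (hφ.immersion p u (hcl hu))
            (loc (m := m) (f : M → ℝ) p)
          have h5 := h3 (loc (m := m) (f : M → ℝ) p)
          generalize ginner G (loc (m := m) φ p) (loc (m := m) (f : M → ℝ) p)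
            (loc (m := m) (f : M → ℝ) p) u = g at *
          generalize dens G (loc (m := m) φ p) u = d at *
          have h6 : C * g * 1 ≤ C * g * (C * d) := mul_le_mul_of_nonneg_left h2 (by positivity)
          calc _ ≤ C * g := h5
            _ = C * g * 1 := (mul_one _).symm
            _ ≤ C * g * (C * d) := h6
            _ = C ^ 2 * (d * g) := by ring
    _ = ε * ∫ u in Metric.closedBall (chartAt (E m) p p) (R0 / 2),
          (dens G (loc (m := m) φ p) u *
            loc (m := m) (gradSq (m := m) G φ (f : M → ℝ)) p u) := by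
        rw [integral_const_mul]
        field_simp
    _ = ε * ∫ q in (chartAt (E m) p).source ∩
          (chartAt (E m) p) ⁻¹' Metric.closedBall (chartAt (E m) p p) (R0 / 2),
          gradSq (m := m) G φ (f : M → ℝ) q ∂μ := by
        rw [setIntegral_chart G φ hφ μ hμ p _ hcl hKc.measurableSet hBm _ hgc.measurable]
    _ ≤ ε * ∫ q, gradSq (m := m) G φ (f : M → ℝ) q ∂μ := by
        refine mul_le_mul_of_nonneg_left ?_ hε.le
        exact setIntegral_le_integral hgi (Eventually.of_forall hg0)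

end

end Pool.Agent.H793.MS
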