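import Pool.Agent.H793.MS.Rel

set_option autoImplicit false

open scoped ContDiff Topology ENNReal Manifold
open MeasureTheory Set Filter

namespace Pool.Agent.H793.MS

variable {n m : ℕ}

section
variable {M : Type*} [TopologicalSpace M] [ChartedSpace (E m) M] [IsManifold (𝓡 m) ∞ M]
  [MeasurableSpace M] [BorelSpace M]

omit [IsManifold (𝓡 m) ∞ M] [MeasurableSpace M] [BorelSpace M] in
theorem b11_gradSq_nonneg (G : Metric n) (φ : M → E n) (hφ : IsMinimalImmersion (m := m) G φ)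
    (f : M → ℝ) (p : M) : 0 ≤ gradSq (m := m) G φ f p :=
  ginner_nonneg G _ _ (hφ.immersion p _ (mem_chart_target (E m) p)) _

/-- Rellich's lemma on a compact set. -/
theorem rellich [T2Space M] (G : Metric n) (φ : M → E n)
    (hφ : IsMinimalImmersion (m := m) G φ)
    (μ : Measure M) (hμ : IsVolume (m := m) G φ μ) (K : Set M) (hK : IsCompact K) (ε : ℝ)
    (hε : 0 < ε) :
    ∃ N : ℕ, ∀ V : Submodule ℝ (M → ℝ),
      (∀ f ∈ V, ContMDiff (𝓡 m) 𝓘(ℝ, ℝ) ∞ f ∧ HasCompactSupport f) →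
      ∃ L : V →ₗ[ℝ] (Fin N → ℝ), ∀ f : V, L f = 0 →
        ∫ p in K, (f : M → ℝ) p ^ 2 ∂μ ≤ ε * ∫ p, gradSq (m := m) G φ f p ∂μ := by
  classical
  have hfm : IsFiniteMeasureOnCompacts μ := isFiniteMeasureOnCompacts G φ hφ μ hμ
  choose U hUo hpU hU using fun p : M => rellich_local G φ hφ μ hμ p
  obtain ⟨t, -, ht⟩ := hK.elim_nhds_subcover U (fun p _ => (hUo p).mem_nhds (hpU p))
  have hc : (0 : ℝ) < (t.card : ℝ) + 1 := by positivity
  choose N hN using fun p : t => hU p.1 (ε / (t.card + 1)) (div_pos hε hc)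
  refine ⟨Fintype.card (Σ p : t, Fin (N p)), fun V hV => ?_⟩
  choose L hL using fun p : t => hN p V hV
  let e := Fintype.equivFin (Σ p : t, Fin (N p))
  refine ⟨LinearMap.pi fun i => (LinearMap.proj (e.symm i).2).comp (L (e.symm i).1),
    fun f hf => ?_⟩
  have hf' : ∀ p : t, L p f = 0 := by
    intro p
    funext j
    have h1 := congrFun hf (e ⟨p, j⟩)
    have key : ∀ y x : (Σ p : t, Fin (N p)), y = x → (L y.1 f) y.2 = 0 → (L x.1 f) x.2 = 0 := by
      rintro _ _ rfl h
      exact h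
    exact key _ ⟨p, j⟩ (e.symm_apply_apply _) h1
  have hcont : Continuous fun p => (f : M → ℝ) p ^ 2 := (hV f f.2).1.continuous.pow 2
  have hcs : HasCompactSupport fun p => (f : M → ℝ) p ^ 2 := by
    refine HasCompactSupport.intro (hV f f.2).2 fun p hp => ?_
    rw [image_eq_zero_of_notMem_tsupport hp]
    norm_num
  have hint : Integrable (fun p => (f : M → ℝ) p ^ 2) μ :=
    hcont.integrable_of_hasCompactSupport hcs
  have hB : 0 ≤ ∫ p, gradSq (m := m) G φ f p ∂μ :=
    integral_nonneg fun p => b11_gradSq_nonneg G φ hφ _ p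
  have h1 : ∫ p in K, (f : M → ℝ) p ^ 2 ∂μ ≤ ∑ q : t, ∫ p in U q.1, (f : M → ℝ) p ^ 2 ∂μ := by
    rw [← integral_indicator hK.measurableSet]
    have h2 : ∑ q : t, ∫ p in U q.1, (f : M → ℝ) p ^ 2 ∂μ =
        ∫ p, ∑ q : t, (U q.1).indicator (fun p => (f : M → ℝ) p ^ 2) p ∂μ := by
      rw [integral_finsetSum _ fun q _ => hint.indicator (hUo q.1).measurableSet]
      refine Finset.sum_congr rfl fun q _ => ?_
      rw [integral_indicator (hUo q.1).measurableSet]
    rw [h2]
    refine integral_mono (hint.indicator hK.measurableSet)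
      (integrable_finsetSum _ fun q _ => hint.indicator (hUo q.1).measurableSet) fun p => ?_
    have hnn : ∀ q : t, 0 ≤ (U q.1).indicator (fun p => (f : M → ℝ) p ^ 2) p := fun q =>
      indicator_nonneg (fun p _ => sq_nonneg _) p
    by_cases hp : p ∈ K
    · obtain ⟨q, hq, hpq⟩ := mem_iUnion₂.1 (ht hp)
      have h3 : (U q).indicator (fun p => (f : M → ℝ) p ^ 2) p = (f : M → ℝ) p ^ 2 :=
        indicator_of_mem hpq _
      rw [indicator_of_mem hp]
      calc (f : M → ℝ) p ^ 2 = (U q).indicator (fun p => (f : M → ℝ) p ^ 2) p := h3.symm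
        _ ≤ _ := Finset.single_le_sum (f := fun q : t =>
          (U q.1).indicator (fun p => (f : M → ℝ) p ^ 2) p) (fun q _ => hnn q)
          (Finset.mem_univ (⟨q, hq⟩ : t))
    · rw [indicator_of_notMem hp]
      exact Finset.sum_nonneg fun q _ => hnn q
  refine h1.trans ?_
  have h2 : ∑ q : t, ∫ p in U q.1, (f : M → ℝ) p ^ 2 ∂μ ≤
      ∑ _q : t, (ε / (t.card + 1)) * ∫ p, gradSq (m := m) G φ f p ∂μ :=
    Finset.sum_le_sum fun q _ => hL q f (hf' q)
  refine h2.trans ?_
  rw [Finset.sum_const, Finset.card_univ, Fintype.card_coe, nsmul_eq_mul, ← mul_assoc]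
  refine mul_le_mul_of_nonneg_right ?_ hB
  rw [mul_div_assoc', div_le_iff₀ hc]
  nlinarith

end

end Pool.Agent.H793.MS
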