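import Pool.Agent.H793.MS.Main
import Pool.Agent.H793.MS.Lit2
import Pool.Agent.H793.MS.Lit5
import Pool.Agent.H793.MS.Lit6

set_option autoImplicit false

open scoped ContDiff Topology ENNReal Manifold
open MeasureTheory Set Filter

namespace Pool.Agent.H793.MS.St

/-- A smooth Riemannian metric on `ℝⁿ` (in the global coordinates of `ℝⁿ`): `ip x v w` is the inner
product of the vectors `v` and `w` at the point `x`. -/
structure RMetric (n : ℕ) where
  /-- the inner product of two vectors at a point -/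
  ip : E n → E n → E n → ℝ
  smooth : ∀ v w, ContDiff ℝ ∞ fun x => ip x v w
  add : ∀ x u v w, ip x (u + v) w = ip x u w + ip x v w
  smul : ∀ x (c : ℝ) v w, ip x (c • v) w = c * ip x v w
  symm : ∀ x v w, ip x v w = ip x w v
  pos : ∀ x v, v ≠ 0 → 0 < ip x v v

/-- The derivative at `x` of the map `f`, in the direction `v`. -/
noncomputable def dir {k l : ℕ} (f : E k → E l) (x v : E k) : E l := fderiv ℝ f x v

/-- The derivative at `x` of the function `f`, in the direction `v`. -/
noncomputable def dirR {k : ℕ} (f : E k → ℝ) (x v : E k) : ℝ := fderiv ℝ f x v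

variable {n m : ℕ}

/-- The Christoffel symbols `Γ_x(v, w)` of the Levi-Civita connection: the vector with
`g_x(Γ_x(v, w), z) = ((∂_v g)(w, z) + (∂_w g)(v, z) - (∂_z g)(v, w)) / 2` for all `z`. -/
noncomputable def chr (G : RMetric n) (x v w : E n) : E n :=
  Classical.epsilon fun u => ∀ z, G.ip x u z = (dirR (fun y => G.ip y w z) x v +
    dirR (fun y => G.ip y v z) x w - dirR (fun y => G.ip y v w) x z) / 2

/-- The (covariant) Hessian of a function on the Riemannian manifold `(ℝⁿ, G)`. -/
noncomputable def hess (G : RMetric n) (F : E n → ℝ) (x v w : E n) : ℝ :=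
  dirR (fun y => dirR F y w) x v - dirR F x (chr G x v w)

/-- `w` is an orthonormal family of `m` vectors at `x`. -/
def Ortho (G : RMetric n) (x : E n) (w : Fin m → E n) : Prop :=
  ∀ i j, G.ip x (w i) (w j) = if i = j then 1 else 0

/-- The sum of the `m` smallest eigenvalues of the Hessian of `F` at `x` is positive, that is, the
trace of the Hessian on every `m`-dimensional subspace is positive. -/
def PosHess (G : RMetric n) (m : ℕ) (F : E n → ℝ) (x : E n) : Prop :=
  ∀ w : Fin m → E n, Ortho G x w → 0 < ∑ i, hess G F x (w i) (w i)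

/-- `D` is strictly `m`-convex, up to the boundary: there is `F` of class `C²` with `F < 0` on `D`,
`F = 0` on the boundary of `D`, and the sum of the `m` smallest eigenvalues of the Hessian of `F` is
positive at every point of the closure of `D`. -/
def ConvexUpToBoundary (G : RMetric n) (m : ℕ) (D : Set (E n)) : Prop :=
  ∃ F : E n → ℝ, ContDiff ℝ 2 F ∧ (∀ x ∈ D, F x < 0) ∧ (∀ x ∈ frontier D, F x = 0) ∧
    ∀ x ∈ closure D, PosHess G m F x

/-- The condition of `m`-convexity in which the sum of the `m` smallest eigenvalues of the Hessian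
is only required to be positive at the points of `D`. -/
def ConvexInside (G : RMetric n) (m : ℕ) (D : Set (E n)) : Prop :=
  ∃ F : E n → ℝ, ContDiff ℝ 2 F ∧ (∀ x ∈ D, F x < 0) ∧ (∀ x ∈ frontier D, F x = 0) ∧
    ∀ x ∈ D, PosHess G m F x

/-- The Gram matrix of the metric induced by `ψ`, in the coordinates of `ℝᵐ`. -/
noncomputable def gramM (G : RMetric n) (ψ : E m → E n) (u : E m) : Matrix (Fin m) (Fin m) ℝ :=
  Matrix.of fun i j => G.ip (ψ u) (dir ψ u (bas i)) (dir ψ u (bas j))

/-- The inner product of the gradients of two functions, in coordinates. -/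
noncomputable def ginn (G : RMetric n) (ψ : E m → E n) (a b : E m → ℝ) (u : E m) : ℝ :=
  pd a u ⬝ᵥ ((gramM G ψ u)⁻¹.mulVec (pd b u))

/-- The mean curvature of the immersion `ψ` vanishes at `u`: for an orthonormal basis `v` of the
tangent space, `∑ i, (D²ψ(v_i, v_i) + Γ(Dψ v_i, Dψ v_i))` is tangential. -/
def MeanCurvZero (G : RMetric n) (ψ : E m → E n) (u : E m) : Prop :=
  ∀ v : Fin m → E m, Ortho G (ψ u) (fun i => dir ψ u (v i)) →
    ∃ t : E m, ∑ i, (dir (fun y => dir ψ y (v i)) u (v i) +
      chr G (ψ u) (dir ψ u (v i)) (dir ψ u (v i))) = dir ψ u t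

section manifold

variable {M : Type*} [TopologicalSpace M] [ChartedSpace (E m) M]

/-- `φ : M → (ℝⁿ, G)` is a minimal immersion. -/
structure IsMinimal (G : RMetric n) (φ : M → E n) : Prop where
  smooth : ContMDiff (𝓡 m) 𝓘(ℝ, E n) ∞ φ
  immersion : ∀ x₀ : M, ∀ u ∈ (chartAt (E m) x₀).target,
    Function.Injective (dir (loc (m := m) φ x₀) u)
  minimal : ∀ x₀ : M, ∀ u ∈ (chartAt (E m) x₀).target, MeanCurvZero G (loc (m := m) φ x₀) u

/-- `μ` is the volume measure of the Riemannian metric induced by `φ`. -/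
def IsVol [MeasurableSpace M] (G : RMetric n) (φ : M → E n) (μ : Measure M) : Prop :=
  ∀ x₀ : M, ∀ s : Set M, s ⊆ (chartAt (E m) x₀).source → MeasurableSet s →
    μ s = ∫⁻ u in (chartAt (E m) x₀) '' s,
      ENNReal.ofReal (Real.sqrt (gramM G (loc (m := m) φ x₀) u).det)

/-- The squared length of the gradient of `f` on `M`, for the metric induced by `φ`. -/
noncomputable def gradSq (G : RMetric n) (φ : M → E n) (f : M → ℝ) (p : M) : ℝ :=
  ginn G (loc (m := m) φ p) (loc (m := m) f p) (loc (m := m) f p) (chartAt (E m) p p)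

/-- `f` is smooth with compact support. -/
def IsTest (f : M → ℝ) : Prop := ContMDiff (𝓡 m) 𝓘(ℝ, ℝ) ∞ f ∧ HasCompactSupport f

/-- The Friedrichs extension of `-Δ` on `C_c^∞(M)` has discrete spectrum, in the form of the
variational principle (Glazman's lemma): for every `Λ`, the dimensions of the spaces of smooth
compactly supported functions `f` with `∫ |∇f|² ≤ Λ ∫ f²` are bounded. -/
def DiscreteSpec [MeasurableSpace M] (G : RMetric n) (φ : M → E n) (μ : Measure M) : Prop :=
  ∀ Λ : ℝ, ∃ k : ℕ, ∀ V : Submodule ℝ (M → ℝ), (∀ f ∈ V, IsTest (m := m) f) →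
    (∀ f ∈ V, ∫ p, gradSq (m := m) G φ f p ∂μ ≤ Λ * ∫ p, f p ^ 2 ∂μ) →
    Module.rank ℝ V ≤ k

end manifold

/-- The flat metric of `ℝⁿ`. -/
noncomputable def flatR (n : ℕ) : RMetric n where
  ip := fun _ v w => inner ℝ v w
  smooth := fun _ _ => contDiff_const
  add := fun _ u v w => inner_add_left u v w
  smul := fun _ c v w => real_inner_smul_left v w c
  symm := fun _ v w => real_inner_comm w v
  pos := fun _ _ hv => real_inner_self_pos.mpr hv

/-! ### the bridge to the first layer of definitions -/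

section bridge

variable (G : RMetric n)

/-- `ip x · w` as a linear map -/
noncomputable def ipL (x w : E n) : E n →ₗ[ℝ] ℝ where
  toFun := fun v => G.ip x v w
  map_add' := fun u v => G.add x u v w
  map_smul' := fun c v => G.smul x c v w

/-- the bilinear form `v_i w_j` -/
noncomputable def bil (i j : Fin n) : E n →L[ℝ] E n →L[ℝ] ℝ :=
  (EuclideanSpace.proj i : E n →L[ℝ] ℝ).smulRight (EuclideanSpace.proj j : E n →L[ℝ] ℝ)

theorem bil_apply (i j : Fin n) (v w : E n) : bil i j v w = v i * w j := rfl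

theorem sum_bas (v : E n) : v = ∑ i, v i • (bas i : E n) := by
  ext j
  simp [bas, Finset.sum_apply, Pi.single_apply]

theorem ip_expand_left (x v w : E n) : G.ip x v w = ∑ i, v i * G.ip x (bas i) w := by
  have h := congrArg (ipL G x w) (sum_bas v)
  rw [map_sum] at h
  simpa [ipL, G.smul] using h

theorem ip_expand (x v w : E n) :
    G.ip x v w = ∑ i, ∑ j, G.ip x (bas i) (bas j) * (v i * w j) := by
  rw [ip_expand_left]
  refine Finset.sum_congr rfl fun i _ => ?_
  rw [G.symm, ip_expand_left, Finset.mul_sum]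
  refine Finset.sum_congr rfl fun j _ => ?_
  rw [G.symm x (bas j) (bas i)]
  ring

theorem contDiff_smul_bil (i j : Fin n) {f : E n → ℝ} (hf : ContDiff ℝ ∞ f) :
    ContDiff ℝ ∞ fun x => f x • bil i j := by
  have h : ContDiff ℝ ∞ fun x => (ContinuousLinearMap.toSpanSingleton ℝ (bil i j)) (f x) :=
    (ContinuousLinearMap.contDiff _).comp hf
  exact h

/-- the metric of the first layer -/
noncomputable def toM : Metric n where
  g := fun x => ∑ i, ∑ j, G.ip x (bas i) (bas j) • bil i j
  smooth := ContDiff.sum fun i _ => ContDiff.sum fun j _ => contDiff_smul_bil _ _ (G.smooth _ _)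
  symm := fun x v w => by
    have h : ∀ a b : E n, (∑ i, ∑ j, G.ip x (bas i) (bas j) • bil i j) a b = G.ip x a b := by
      intro a b
      rw [ip_expand G x a b]
      simp [bil_apply]
    rw [h, h, G.symm]
  pos := fun x v hv => by
    have h : ∀ a b : E n, (∑ i, ∑ j, G.ip x (bas i) (bas j) • bil i j) a b = G.ip x a b := by
      intro a b
      rw [ip_expand G x a b]
      simp [bil_apply]
    rw [h]
    exact G.pos x v hv

theorem toM_g (x v w : E n) : (toM G).g x v w = G.ip x v w := by
  rw [ip_expand G x v w]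
  simp [toM, bil_apply]

theorem dirR_ip (x v a b : E n) :
    dirR (fun y => G.ip y a b) x v = fderiv ℝ (toM G).g x v a b := by
  have hfun : (fun y => G.ip y a b) = fun y => (toM G).g y a b := by
    funext y; rw [toM_g]
  rw [dirR, hfun]
  have hd : HasFDerivAt (toM G).g (fderiv ℝ (toM G).g x) x :=
    (((toM G).smooth.differentiable (by simp)) x).hasFDerivAt
  have h1 := (hd.clm_apply (hasFDerivAt_const a x)).clm_apply (hasFDerivAt_const b x)
  rw [h1.fderiv]
  simp

theorem chr_eq (x v w : E n) : chr G x v w = (toM G).christoffel x v w := by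
  unfold chr Metric.christoffel
  congr 1
  funext u
  simp only [toM_g, dirR_ip]

theorem hess_eq {F : E n → ℝ} (hF : ContDiff ℝ 2 F) (x v w : E n) :
    hess G F x v w = (toM G).hess F x v w := by
  unfold hess Metric.hess
  rw [chr_eq]
  congr 1
  have hd : DifferentiableAt ℝ (fderiv ℝ F) x :=
    ((hF.fderiv_right (m := 1) (by norm_num)).differentiable (by norm_num)) x
  have h1 := hd.hasFDerivAt.clm_apply (hasFDerivAt_const w x)
  have h2 : (fun y => dirR F y w) = fun y => fderiv ℝ F y w := rfl
  rw [dirR, h2, h1.fderiv]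
  simp

theorem ortho_iff (x : E n) (w : Fin m → E n) : Ortho G x w ↔ (toM G).Ortho x w := by
  unfold Ortho Metric.Ortho
  simp only [toM_g]

theorem gram_eq (ψ : E m → E n) (u : E m) : gramM G ψ u = gram (toM G) ψ u := by
  unfold gramM gram dir
  simp only [toM_g]

theorem posHess_iff {F : E n → ℝ} (hF : ContDiff ℝ 2 F) (x : E n) : PosHess G m F x ↔
    ∀ w : Fin m → E n, (toM G).Ortho x w → 0 < ∑ i, (toM G).hess F x (w i) (w i) := by
  unfold PosHess
  simp only [ortho_iff, hess_eq G hF]

theorem convex_iff (D : Set (E n)) :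
    ConvexUpToBoundary G m D ↔ IsConvexDomain (toM G) m D := by
  unfold ConvexUpToBoundary IsConvexDomain
  refine exists_congr fun F => ?_
  constructor
  · rintro ⟨hF, h1, h2, h3⟩
    exact ⟨hF, h1, h2, fun x hx => (posHess_iff G hF x).1 (h3 x hx)⟩
  · rintro ⟨hF, h1, h2, h3⟩
    exact ⟨hF, h1, h2, fun x hx => (posHess_iff G hF x).2 (h3 x hx)⟩

theorem inside_iff (D : Set (E n)) : ConvexInside G m D ↔ IsConvexDomainLit (toM G) m D := by
  unfold ConvexInside IsConvexDomainLit
  refine exists_congr fun F => ?_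
  constructor
  · rintro ⟨hF, h1, h2, h3⟩
    exact ⟨hF, h1, h2, fun x hx => (posHess_iff G hF x).1 (h3 x hx)⟩
  · rintro ⟨hF, h1, h2, h3⟩
    exact ⟨hF, h1, h2, fun x hx => (posHess_iff G hF x).2 (h3 x hx)⟩

theorem mean_iff {ψ : E m → E n} {u : E m} (hψ : ContDiffAt ℝ 2 ψ u) :
    MeanCurvZero G ψ u ↔ MS.MeanCurvZero (toM G) ψ u := by
  have hd : DifferentiableAt ℝ (fderiv ℝ ψ) u :=
    (hψ.fderiv_right (m := 1) (by norm_num)).differentiableAt (by norm_num)
  have key : ∀ a : E m, dir (fun y => dir ψ y a) u a = fderiv ℝ (fderiv ℝ ψ) u a a := by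
    intro a
    have h1 := hd.hasFDerivAt.clm_apply (hasFDerivAt_const a u)
    have h2 : (fun y => dir ψ y a) = fun y => fderiv ℝ ψ y a := rfl
    rw [dir, h2, h1.fderiv]
    simp
  unfold MeanCurvZero MS.MeanCurvZero
  simp only [ortho_iff, key, chr_eq]
  rfl

section manifold

variable {M : Type*} [TopologicalSpace M] [ChartedSpace (E m) M]

theorem minimal_iff [IsManifold (𝓡 m) ∞ M] (φ : M → E n) :
    IsMinimal (m := m) G φ ↔ IsMinimalImmersion (m := m) (toM G) φ := by
  have hs (h : ContMDiff (𝓡 m) 𝓘(ℝ, E n) ∞ φ) (x₀ : M) (u : E m)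
      (hu : u ∈ (chartAt (E m) x₀).target) : ContDiffAt ℝ 2 (loc (m := m) φ x₀) u := by
    have h1 := (contDiffOn_loc (m := m) ⊤ φ h x₀).contDiffAt
      ((chartAt (E m) x₀).open_target.mem_nhds hu)
    exact contDiffAt_infty.1 h1 2
  constructor
  · rintro ⟨h1, h2, h3⟩
    exact ⟨h1, h2, fun x₀ u hu => (mean_iff G (hs h1 x₀ u hu)).1 (h3 x₀ u hu)⟩
  · rintro ⟨h1, h2, h3⟩
    exact ⟨h1, h2, fun x₀ u hu => (mean_iff G (hs h1 x₀ u hu)).2 (h3 x₀ u hu)⟩

theorem vol_iff [MeasurableSpace M] (φ : M → E n) (μ : Measure M) :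
    IsVol (m := m) G φ μ ↔ IsVolume (m := m) (toM G) φ μ := by
  unfold IsVol IsVolume dens
  simp only [gram_eq]

theorem gradSq_eq (φ : M → E n) (f : M → ℝ) (p : M) :
    gradSq (m := m) G φ f p = MS.gradSq (m := m) (toM G) φ f p := by
  unfold gradSq MS.gradSq gradInner ginn ginner
  simp only [gram_eq]

theorem discrete_iff [MeasurableSpace M] (φ : M → E n) (μ : Measure M) :
    DiscreteSpec (m := m) G φ μ ↔ DiscreteSpectrum (m := m) (toM G) φ μ := by
  unfold DiscreteSpec DiscreteSpectrum
  simp only [gradSq_eq]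
  rfl

end manifold

theorem toM_flat : toM (flatR n) = flat n := by
  have h : (toM (flatR n)).g = (flat n).g := by
    funext x
    ext v w
    rw [toM_g]
    rfl
  cases h1 : toM (flatR n) with
  | mk g s sy p =>
    cases h2 : flat n with
    | mk g' s' sy' p' =>
      rw [h1, h2] at h
      simp only at h
      subst h
      rfl

end bridge

end Pool.Agent.H793.MS.St
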