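import Pool.Agent.H793.MS.Kos
import Pool.Agent.H793.MS.Jac
import Pool.Agent.H793.MS.Reg

set_option autoImplicit false

open scoped ContDiff Topology ENNReal Manifold
open MeasureTheory Set Filter

namespace Pool.Agent.H793.MS

variable {n m : ℕ}

theorem star_alg (Pi P : Matrix (Fin m) (Fin m) ℝ) (h : Pi * P = 1)
    (hs : ∀ i j, Pi i j = Pi j i) (S : Fin m → Fin m → Fin m → ℝ)
    (hS : ∀ i j k, S i j k = S j i k) (k : Fin m) :
    ∑ i, ∑ j, Pi i j * S i j k +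
      ∑ i, (∑ j, ((1 / 2 * ∑ a, ∑ b, Pi a b * (S j b a + S j a b)) * Pi j i +
        -∑ a, ∑ b, Pi j a * (S j a b + S j b a) * Pi b i)) * P i k = 0 := by
  have hPP : ∀ b, ∑ i, Pi b i * P i k = if b = k then 1 else 0 := by
    intro b
    have h1 : (Pi * P) b k = (1 : Matrix (Fin m) (Fin m) ℝ) b k := by rw [h]
    rw [Matrix.mul_apply, Matrix.one_apply] at h1
    exact h1
  -- the first part of the second sum
  have e1 : ∑ i, (∑ j, (1 / 2 * ∑ a, ∑ b, Pi a b * (S j b a + S j a b)) * Pi j i) * P i k =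
      ∑ a, ∑ b, Pi a b * S k a b := by
    have f1 : ∀ X : Fin m → ℝ, ∑ i, (∑ j, X j * Pi j i) * P i k =
        ∑ j, X j * ∑ i, Pi j i * P i k := by
      intro X
      simp only [Finset.sum_mul, Finset.mul_sum]
      rw [Finset.sum_comm]
      refine Finset.sum_congr rfl fun j _ => Finset.sum_congr rfl fun i _ => ?_
      ring
    rw [f1 fun j => 1 / 2 * ∑ a, ∑ b, Pi a b * (S j b a + S j a b)]
    simp only [hPP, mul_ite, mul_one, mul_zero, Finset.sum_ite_eq', Finset.mem_univ, if_true]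
    have f2 : ∑ a, ∑ b, Pi a b * (S k b a + S k a b) =
        ∑ a, ∑ b, Pi a b * S k b a + ∑ a, ∑ b, Pi a b * S k a b := by
      rw [← Finset.sum_add_distrib]
      refine Finset.sum_congr rfl fun a _ => ?_
      rw [← Finset.sum_add_distrib]
      refine Finset.sum_congr rfl fun b _ => ?_
      ring
    have f3 : ∑ a, ∑ b, Pi a b * S k b a = ∑ a, ∑ b, Pi a b * S k a b := by
      rw [Finset.sum_comm]
      refine Finset.sum_congr rfl fun a _ => Finset.sum_congr rfl fun b _ => ?_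
      rw [hs b a]
    rw [f2, f3]
    ring
  have e2 : ∑ i, (∑ j, -∑ a, ∑ b, Pi j a * (S j a b + S j b a) * Pi b i) * P i k =
      -∑ j, ∑ a, Pi j a * (S j a k + S j k a) := by
    have f1 : ∑ i, (∑ j, -∑ a, ∑ b, Pi j a * (S j a b + S j b a) * Pi b i) * P i k =
        ∑ j, -∑ a, ∑ b, Pi j a * (S j a b + S j b a) * ∑ i, Pi b i * P i k := by
      simp only [Finset.sum_mul, neg_mul, Finset.mul_sum]
      rw [Finset.sum_comm]
      refine Finset.sum_congr rfl fun j _ => ?_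
      rw [Finset.sum_neg_distrib]
      congr 1
      rw [Finset.sum_comm]
      refine Finset.sum_congr rfl fun a _ => ?_
      rw [Finset.sum_comm]
      refine Finset.sum_congr rfl fun b _ => Finset.sum_congr rfl fun i _ => ?_
      ring
    rw [f1, Finset.sum_neg_distrib]
    congr 1
    refine Finset.sum_congr rfl fun j _ => Finset.sum_congr rfl fun a _ => ?_
    simp only [hPP, mul_ite, mul_one, mul_zero, Finset.sum_ite_eq', Finset.mem_univ, if_true]
  have e3 : ∑ i, (∑ j, ((1 / 2 * ∑ a, ∑ b, Pi a b * (S j b a + S j a b)) * Pi j i +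
        -∑ a, ∑ b, Pi j a * (S j a b + S j b a) * Pi b i)) * P i k =
      ∑ a, ∑ b, Pi a b * S k a b + -∑ j, ∑ a, Pi j a * (S j a k + S j k a) := by
    rw [← e1, ← e2, ← Finset.sum_add_distrib]
    refine Finset.sum_congr rfl fun i _ => ?_
    rw [Finset.sum_add_distrib, add_mul]
  rw [e3, ← Finset.sum_neg_distrib, ← Finset.sum_add_distrib, ← Finset.sum_add_distrib]
  refine Finset.sum_eq_zero fun i _ => ?_
  rw [← Finset.sum_neg_distrib, ← Finset.sum_add_distrib, ← Finset.sum_add_distrib]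
  refine Finset.sum_eq_zero fun j _ => ?_
  rw [hS k i j]
  ring

theorem star_lin {X : Type*} [AddCommGroup X] [Module ℝ X] (ρ : ℝ) (Pi DPi : Fin m → Fin m → ℝ)
    (r : Fin m → ℝ) (H Γ : Fin m → Fin m → X) (d : Fin m → X) :
    ∑ j, (ρ • ∑ i, (Pi j i • H j i + DPi j i • d i) + (ρ * r j) • ∑ i, Pi j i • d i) +
      ρ • ∑ i, ∑ j, Pi i j • Γ i j =
    ρ • (∑ i, ∑ j, Pi i j • (H i j + Γ i j) + ∑ i, (∑ j, (r j * Pi j i + DPi j i)) • d i) := by
  have h1 : ∑ i, (∑ j, (r j * Pi j i + DPi j i)) • d i =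
      ∑ j, ∑ i, (r j * Pi j i + DPi j i) • d i := by
    simp only [Finset.sum_smul]
    exact Finset.sum_comm
  rw [h1, smul_add, Finset.smul_sum, Finset.smul_sum, Finset.smul_sum, ← Finset.sum_add_distrib,
    ← Finset.sum_add_distrib]
  refine Finset.sum_congr rfl fun j _ => ?_
  rw [Finset.smul_sum, Finset.smul_sum, Finset.smul_sum, Finset.smul_sum, Finset.smul_sum,
    ← Finset.sum_add_distrib, ← Finset.sum_add_distrib, ← Finset.sum_add_distrib]
  refine Finset.sum_congr rfl fun i _ => ?_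
  module

theorem star_bas (s : E m) : s = ∑ k, s k • bas k := by
  ext i
  unfold bas
  simp [Pi.single_apply]

/-- A minimal immersion is harmonic, in coordinates:
`∑_j ∂_j (√det P ∑_i P⁻¹_{ji} ∂_i ψ) = - √det P ∑_{ij} P⁻¹_{ij} Γ(∂_i ψ, ∂_j ψ)`. -/
theorem star (G : Metric n) (ψ : E m → E n) (O : Set (E m)) (hO : IsOpen O)
    (hψ : ContDiffOn ℝ ∞ ψ O) (himm : ∀ u ∈ O, Function.Injective (fderiv ℝ ψ u))
    (hmin : ∀ u ∈ O, MeanCurvZero G ψ u) (u : E m) (hu : u ∈ O) :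
    ∑ j, fderiv ℝ (fun v => dens G ψ v • ∑ i, (gram G ψ v)⁻¹ j i • fderiv ℝ ψ v (bas i)) u
        (bas j) =
      -(dens G ψ u • ∑ i, ∑ j, (gram G ψ u)⁻¹ i j •
        G.christoffel (ψ u) (fderiv ℝ ψ u (bas i)) (fderiv ℝ ψ u (bas j))) := by
  have hOu : O ∈ 𝓝 u := hO.mem_nhds hu
  obtain ⟨Γ, hΓc, hΓ, hΓs, hK⟩ := exists_christoffel G
  have hpd := gram_posDef G ψ u (himm u hu)
  have hdet : 0 < (gram G ψ u).det := hpd.det_pos
  -- differentiability
  have d1 : DifferentiableAt ℝ (dens G ψ) u :=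
    ((contDiffOn_dens G ψ O hO hψ himm).contDiffAt hOu).differentiableAt (by simp)
  have d2 : ∀ i j, DifferentiableAt ℝ (fun v => (gram G ψ v)⁻¹ i j) u := fun i j =>
    ((contDiffOn_gram_inv G ψ O hO hψ himm i j).contDiffAt hOu).differentiableAt (by simp)
  have d0 : ∀ i j, DifferentiableAt ℝ (fun v => gram G ψ v i j) u := fun i j =>
    ((contDiffOn_gram G ψ O hO hψ i j).contDiffAt hOu).differentiableAt (by simp)
  have d3 : DifferentiableAt ℝ (fderiv ℝ ψ) u := by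
    have h1 : ContDiffAt ℝ 1 (fderiv ℝ ψ) u :=
      (hψ.contDiffAt hOu).fderiv_right (m := 1)
        (WithTop.coe_le_coe.2 (le_top : (1 + 1 : ℕ∞) ≤ ⊤))
    exact h1.differentiableAt (by simp)
  have d4 : ∀ i, HasFDerivAt (fun v => fderiv ℝ ψ v (bas i))
      ((fderiv ℝ (fderiv ℝ ψ) u).flip (bas i)) u := by
    intro i
    have h1 := d3.hasFDerivAt.clm_apply (hasFDerivAt_const (bas i) u)
    refine h1.congr_fderiv ?_
    ext w
    simp
  -- the derivative of the vector field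
  have hD : ∀ j, fderiv ℝ (fun v => dens G ψ v • ∑ i, (gram G ψ v)⁻¹ j i •
      fderiv ℝ ψ v (bas i)) u (bas j) =
      dens G ψ u • ∑ i, ((gram G ψ u)⁻¹ j i • fderiv ℝ (fderiv ℝ ψ) u (bas j) (bas i) +
        fderiv ℝ (fun v => (gram G ψ v)⁻¹ j i) u (bas j) • fderiv ℝ ψ u (bas i)) +
      fderiv ℝ (dens G ψ) u (bas j) • ∑ i, (gram G ψ u)⁻¹ j i • fderiv ℝ ψ u (bas i) := by
    intro j
    have h1 : HasFDerivAt (fun v => ∑ i, (gram G ψ v)⁻¹ j i • fderiv ℝ ψ v (bas i))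
        (∑ i, ((gram G ψ u)⁻¹ j i • ((fderiv ℝ (fderiv ℝ ψ) u).flip (bas i)) +
          (fderiv ℝ (fun v => (gram G ψ v)⁻¹ j i) u).smulRight (fderiv ℝ ψ u (bas i)))) u := by
      refine HasFDerivAt.fun_sum fun i _ => ?_
      exact (d2 j i).hasFDerivAt.smul (d4 i)
    have h2 := (d1.hasFDerivAt.smul h1).fderiv
    have h3 : fderiv ℝ (fun v => dens G ψ v • ∑ i, (gram G ψ v)⁻¹ j i •
      fderiv ℝ ψ v (bas i)) u = _ := h2
    rw [h3]
    simp only [add_apply, smul_apply,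
      sum_apply, ContinuousLinearMap.smulRight_apply,
      ContinuousLinearMap.flip_apply]
  -- the derivatives of the coefficients
  obtain ⟨S, hSdef⟩ : ∃ S : Fin m → Fin m → Fin m → ℝ,
      S = fun i j k => G.g (ψ u) (cov2 G ψ u i j) (fderiv ℝ ψ u (bas k)) := ⟨_, rfl⟩
  have hSs : ∀ i j k, S i j k = S j i k := by
    intro i j k
    rw [hSdef]
    show G.g (ψ u) (cov2 G ψ u i j) _ = G.g (ψ u) (cov2 G ψ u j i) _
    rw [cov2_symm G ψ O hO hψ u hu i j]
  have hA : ∀ i j k, fderiv ℝ (fun v => gram G ψ v i j) u (bas k) = S k i j + S k j i := by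
    intro i j k
    rw [fderiv_gram G ψ O hO hψ u hu i j k, hSdef]
    show _ = G.g (ψ u) (cov2 G ψ u k i) (fderiv ℝ ψ u (bas j)) +
      G.g (ψ u) (cov2 G ψ u k j) (fderiv ℝ ψ u (bas i))
    rw [G.symm (ψ u) (fderiv ℝ ψ u (bas i)) (cov2 G ψ u k j)]
  have hdens : ∀ j, fderiv ℝ (dens G ψ) u (bas j) = dens G ψ u *
      (1 / 2 * ∑ a, ∑ b, (gram G ψ u)⁻¹ a b * (S j b a + S j a b)) := by
    intro j
    have h1 := fderiv_sqrt_det (gram G ψ) u d0 hdet (bas j)
    have h2 : fderiv ℝ (dens G ψ) u (bas j) = _ := h1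
    rw [h2]
    simp only [hA]
    unfold dens
    ring
  have hinv : ∀ j i, fderiv ℝ (fun v => (gram G ψ v)⁻¹ j i) u (bas j) =
      -∑ a, ∑ b, (gram G ψ u)⁻¹ j a * (S j a b + S j b a) * (gram G ψ u)⁻¹ b i := by
    intro j i
    rw [fderiv_matrix_inv (gram G ψ) u d0 hdet.ne' (bas j) j i]
    simp only [hA]
  -- symmetry
  have hgs : ∀ i j, (gram G ψ u)⁻¹ i j = (gram G ψ u)⁻¹ j i := by
    intro i j
    have h1 : (gram G ψ u)⁻¹.IsHermitian := hpd.isHermitian.inv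
    have h2 := h1.apply i j
    simpa using h2.symm
  have hPP : (gram G ψ u)⁻¹ * gram G ψ u = 1 :=
    Matrix.nonsing_inv_mul _ (isUnit_iff_ne_zero.2 hdet.ne')
  obtain ⟨r, hr⟩ : ∃ r : Fin m → ℝ,
      r = fun j => 1 / 2 * ∑ a, ∑ b, (gram G ψ u)⁻¹ a b * (S j b a + S j a b) := ⟨_, rfl⟩
  obtain ⟨DP, hDP⟩ : ∃ DP : Fin m → Fin m → ℝ,
      DP = fun j i => -∑ a, ∑ b, (gram G ψ u)⁻¹ j a * (S j a b + S j b a) *
        (gram G ψ u)⁻¹ b i := ⟨_, rfl⟩
  obtain ⟨W, hW⟩ : ∃ W : E n, W = ∑ i, ∑ j, (gram G ψ u)⁻¹ i j • cov2 G ψ u i j +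
      ∑ i, (∑ j, (r j * (gram G ψ u)⁻¹ j i + DP j i)) • fderiv ℝ ψ u (bas i) := ⟨_, rfl⟩
  -- orthogonality
  have hWk : ∀ k, G.g (ψ u) W (fderiv ℝ ψ u (bas k)) = 0 := by
    intro k
    have h1 := star_alg ((gram G ψ u)⁻¹) (gram G ψ u) hPP hgs S hSs k
    rw [hW]
    simp only [map_add, map_sum, map_smul, add_apply,
      sum_apply, smul_apply, smul_eq_mul]
    rw [hr, hDP]
    rw [hSdef] at h1 ⊢
    exact h1
  have hWall : ∀ s, G.g (ψ u) W (fderiv ℝ ψ u s) = 0 := by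
    intro s
    rw [star_bas s, map_sum, map_sum]
    refine Finset.sum_eq_zero fun k _ => ?_
    rw [map_smul, map_smul, hWk k, smul_zero]
  -- `W` is tangential
  have hWt : ∃ s, W = fderiv ℝ ψ u s := by
    obtain ⟨v, hv, hfr⟩ := exists_frame G ψ u (himm u hu)
    obtain ⟨t, ht⟩ := hmin u hu v hv
    let B : E m →ₗ[ℝ] E m →ₗ[ℝ] E n := LinearMap.mk₂ ℝ
      (fun x y => fderiv ℝ (fderiv ℝ ψ) u x y + Γ (ψ u) (fderiv ℝ ψ u x) (fderiv ℝ ψ u y))
      (fun x x' y => by simp only [map_add, add_apply]; abel)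
      (fun a x y => by
        simp only [map_smul, smul_apply, smul_add])
      (fun x y y' => by simp only [map_add]; abel)
      (fun a x y => by simp only [map_smul, smul_add])
    have hB : ∀ x y, B x y = fderiv ℝ (fderiv ℝ ψ) u x y +
      Γ (ψ u) (fderiv ℝ ψ u x) (fderiv ℝ ψ u y) := fun x y => rfl
    have h1 := hfr (E n) B
    have h2 : ∑ i, ∑ j, (gram G ψ u)⁻¹ i j • cov2 G ψ u i j = fderiv ℝ ψ u t := by
      rw [← ht]
      have h3 : ∑ i, ∑ j, (gram G ψ u)⁻¹ i j • cov2 G ψ u i j =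
          ∑ i, ∑ j, (gram G ψ u)⁻¹ i j • B (bas i) (bas j) := by
        refine Finset.sum_congr rfl fun i _ => Finset.sum_congr rfl fun j _ => ?_
        rw [hB, cov2, hΓ]
      rw [h3, h1]
      refine Finset.sum_congr rfl fun i _ => ?_
      rw [hB, hΓ]
    refine ⟨t + ∑ i, (∑ j, (r j * (gram G ψ u)⁻¹ j i + DP j i)) • bas i, ?_⟩
    rw [map_add, map_sum, hW, h2]
    congr 1
    refine Finset.sum_congr rfl fun i _ => ?_
    rw [map_smul]
  have hW0 : W = 0 := by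
    obtain ⟨s, hs⟩ := hWt
    by_contra hne
    have h1 := G.pos (ψ u) W hne
    have h2 := hWall s
    rw [← hs] at h2
    linarith
  -- conclusion
  have hlin := star_lin (dens G ψ u) (fun i j => (gram G ψ u)⁻¹ i j) DP r
    (fun i j => fderiv ℝ (fderiv ℝ ψ) u (bas i) (bas j))
    (fun i j => G.christoffel (ψ u) (fderiv ℝ ψ u (bas i)) (fderiv ℝ ψ u (bas j)))
    (fun i => fderiv ℝ ψ u (bas i))
  have hWz : ∑ i, ∑ j, (gram G ψ u)⁻¹ i j • (fderiv ℝ (fderiv ℝ ψ) u (bas i) (bas j) +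
      G.christoffel (ψ u) (fderiv ℝ ψ u (bas i)) (fderiv ℝ ψ u (bas j))) +
      ∑ i, (∑ j, (r j * (gram G ψ u)⁻¹ j i + DP j i)) • fderiv ℝ ψ u (bas i) = 0 := by
    rw [← hW0, hW]
    rfl
  rw [hWz, smul_zero] at hlin
  rw [eq_neg_iff_add_eq_zero, ← hlin]
  congr 1
  refine Finset.sum_congr rfl fun j _ => ?_
  rw [hD j, hdens j, hr, hDP]
  congr 2
  refine Finset.sum_congr rfl fun i _ => ?_
  rw [hinv j i]

end Pool.Agent.H793.MS
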